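import Mathlib
import Pool.Agent.W745.RW.Stm

/-!
# Averages over small discs in the upper half plane (helper11)
-/

set_option autoImplicit false

open MeasureTheory Filter Topology Complex Set
open scoped ContDiff ENNReal

namespace Pool.Agent.K9h11.MV

noncomputable section

/-- the shift by `s v` in the scale of `z` -/
def T (s : ℝ) (v z : ℂ) : ℂ := z + ((s * z.im : ℝ) : ℂ) * v

lemma T_im (s : ℝ) (v z : ℂ) : (T s v z).im = z.im * (1 + s * v.im) := by
  simp [T]; ring

lemma T_re (s : ℝ) (v z : ℂ) : (T s v z).re = z.re + s * z.im * v.re := by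
  simp [T]

lemma T_zero (v z : ℂ) : T 0 v z = z := by simp [T]

/-- the shift as a linear map -/
def TL (s : ℝ) (v : ℂ) : ℂ →ₗ[ℝ] ℂ where
  toFun := T s v
  map_add' a b := by
    apply Complex.ext
    · simp [T]; ring
    · simp [T]; ring
  map_smul' c a := by
    apply Complex.ext
    · simp [T]; ring
    · simp [T]; ring

lemma TL_det (s : ℝ) (v : ℂ) : LinearMap.det (TL s v) = 1 + s * v.im := by
  rw [← LinearMap.det_toMatrix Complex.basisOneI, Matrix.det_fin_two]
  simp only [LinearMap.toMatrix_apply, Complex.coe_basisOneI_repr, Complex.coe_basisOneI,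
    Matrix.cons_val_zero, Matrix.cons_val_one]
  simp [TL, T]

lemma T_cont : Continuous fun p : (ℝ × ℂ) × ℂ => T p.1.1 p.1.2 p.2 := by
  unfold T
  fun_prop

/-- the shift changes integrals at most by a factor two -/
lemma shift {s ρ : ℝ} (hs : |s| * ρ ≤ 1 / 2) {v : ℂ} (hv : ‖v‖ ≤ ρ) {g : ℂ → ℝ≥0∞}
    (hg : Measurable g) {K K' : Set ℂ} (hK : MeasurableSet K) (hK' : MeasurableSet K')
    (hKK : ∀ z ∈ K, T s v z ∈ K') :
    ∫⁻ z in K, g (T s v z) ≤ 2 * ∫⁻ z in K', g z := by
  have h1 : |s * v.im| ≤ 1 / 2 := by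
    rw [abs_mul]
    calc |s| * |v.im| ≤ |s| * ‖v‖ := by gcongr; exact Complex.abs_im_le_norm v
      _ ≤ |s| * ρ := by gcongr
      _ ≤ _ := hs
  obtain ⟨h2, h3⟩ := abs_le.1 h1
  have hd : LinearMap.det (TL s v) ≠ 0 := by rw [TL_det]; linarith
  have hm := Measure.map_linearMap_addHaar_eq_smul_addHaar (volume : Measure ℂ) hd
  have hTm : Measurable (TL s v) := by
    have : Continuous (TL s v) := (TL s v).continuous_of_finiteDimensional
    exact this.measurable
  have hgi : Measurable (K'.indicator g) := hg.indicator hK'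
  calc ∫⁻ z in K, g (T s v z) ≤ ∫⁻ z, K'.indicator g (T s v z) := by
        rw [← lintegral_indicator hK]
        refine lintegral_mono fun z => ?_
        by_cases hz : z ∈ K
        · rw [indicator_of_mem hz, indicator_of_mem (hKK z hz)]
        · rw [indicator_of_notMem hz]; exact bot_le
    _ = ∫⁻ z, K'.indicator g z ∂(Measure.map (TL s v) volume) := by
        rw [lintegral_map hgi hTm]; rfl
    _ = ENNReal.ofReal |(LinearMap.det (TL s v))⁻¹| * ∫⁻ z in K', g z := by
        rw [hm, lintegral_smul_measure, lintegral_indicator hK', smul_eq_mul]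
    _ ≤ 2 * ∫⁻ z in K', g z := by
        gcongr
        rw [show (2 : ℝ≥0∞) = ENNReal.ofReal 2 by simp]
        apply ENNReal.ofReal_le_ofReal
        rw [TL_det, abs_inv, abs_of_pos (by linarith)]
        rw [inv_le_comm₀ (by linarith) (by norm_num)]
        norm_num
        linarith

/-- the square of a mean -/
lemma mean_sq {X : Type*} [MeasurableSpace X] (m : Measure X) {G : X → ℝ≥0∞} (hG : Measurable G) :
    (∫⁻ x, G x ∂m) ^ 2 ≤ m univ * ∫⁻ x, G x ^ 2 ∂m := by
  have h := ENNReal.lintegral_mul_le_Lp_mul_Lq m Real.HolderConjugate.two_two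
    (f := fun _ => 1) (g := G) aemeasurable_const hG.aemeasurable
  have e1 : ((fun _ => (1:ℝ≥0∞)) * G) = G := by funext x; simp
  simp only [e1, ENNReal.one_rpow, lintegral_one] at h
  calc (∫⁻ x, G x ∂m) ^ 2 ≤ (m univ ^ (1 / 2 : ℝ) * (∫⁻ x, G x ^ (2:ℝ) ∂m) ^ (1 / 2 : ℝ)) ^ 2 := by
        gcongr
    _ = m univ * ∫⁻ x, G x ^ 2 ∂m := by
        rw [mul_pow, ← ENNReal.rpow_natCast, ← ENNReal.rpow_natCast, ← ENNReal.rpow_mul,
          ← ENNReal.rpow_mul]
        norm_num

/-- means of shifts in `L²` -/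
lemma means {X : Type*} [MeasurableSpace X] (m : Measure X) [SFinite m] {S : X → ℝ} {V : X → ℂ}
    (hS : Measurable S) (hV : Measurable V) {ρ : ℝ} {K K' : Set ℂ} (hK : MeasurableSet K)
    (hK' : MeasurableSet K')
    (h : ∀ᵐ x ∂m, |S x| * ρ ≤ 1 / 2 ∧ ‖V x‖ ≤ ρ ∧ ∀ z ∈ K, T (S x) (V x) z ∈ K')
    {G : ℂ → ℝ≥0∞} (hG : Measurable G) :
    ∫⁻ z in K, (∫⁻ x, G (T (S x) (V x) z) ∂m) ^ 2 ≤ 2 * m univ ^ 2 * ∫⁻ z in K', G z ^ 2 := by
  have hT : Measurable fun p : ℂ × X => G (T (S p.2) (V p.2) p.1) := by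
    have h1 : Measurable fun p : ℂ × X => (((S p.2, V p.2), p.1) : (ℝ × ℂ) × ℂ) :=
      ((hS.comp measurable_snd).prodMk (hV.comp measurable_snd)).prodMk measurable_fst
    exact hG.comp (T_cont.measurable.comp h1)
  calc ∫⁻ z in K, (∫⁻ x, G (T (S x) (V x) z) ∂m) ^ 2
      ≤ ∫⁻ z in K, m univ * ∫⁻ x, G (T (S x) (V x) z) ^ 2 ∂m := by
        refine lintegral_mono fun z => mean_sq m ?_
        exact hT.comp (measurable_const.prodMk measurable_id)
    _ = m univ * ∫⁻ z in K, ∫⁻ x, G (T (S x) (V x) z) ^ 2 ∂m :=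
        lintegral_const_mul _ (hT.pow_const 2).lintegral_prod_right'
    _ = m univ * ∫⁻ x, (∫⁻ z in K, G (T (S x) (V x) z) ^ 2) ∂m := by
        congr 1
        exact lintegral_lintegral_swap (f := fun z x => G (T (S x) (V x) z) ^ 2)
          (hT.pow_const 2).aemeasurable
    _ ≤ m univ * ∫⁻ _, (2 * ∫⁻ z in K', G z ^ 2) ∂m := by
        gcongr m univ * ?_
        refine lintegral_mono_ae ?_
        filter_upwards [h] with x hx
        exact shift hx.1 hx.2.1 (hG.pow_const 2) hK hK' hx.2.2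
    _ = _ := by
        rw [lintegral_const]; ring

end

end Pool.Agent.K9h11.MV
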