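import Pool.Agent.K9h11.MV.A
import Pool.Agent.W366.RW.En

/-!
# Integration by parts and the averages of the Laplacian (helper11)
-/

set_option autoImplicit false

open MeasureTheory Filter Topology Complex Set
open scoped ContDiff ENNReal

namespace Pool.Agent.K9h11.MV

open Pool.Agent.W745.RW Pool.Agent.W366.RW

noncomputable section

/-- the upper half plane -/
def HH : Set ℂ := {z | 0 < z.im}

lemma HHo : IsOpen HH := isOpen_lt continuous_const continuous_im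

/-- a compact neighbourhood for the shifts -/
lemma nbhd {K : Set ℂ} (hK : IsCompact K) (hKH : K ⊆ HH) {ρ : ℝ} (hρ : 1 ≤ ρ) :
    ∃ K' : Set ℂ, IsCompact K' ∧ K' ⊆ HH ∧ ∀ s : ℝ, 0 ≤ s → s * ρ ≤ 1 / 2 → ∀ v : ℂ, ‖v‖ ≤ ρ →
      ∀ z ∈ K, T s v z ∈ K' := by
  refine ⟨(fun p : (ℝ × ℂ) × ℂ => T p.1.1 p.1.2 p.2) ''
    ((Icc 0 (1 / (2 * ρ)) ×ˢ Metric.closedBall 0 ρ) ×ˢ K),
    ((isCompact_Icc.prod (isCompact_closedBall 0 ρ)).prod hK).image T_cont, ?_, ?_⟩
  · rintro _ ⟨⟨⟨s, v⟩, z⟩, ⟨⟨⟨h1, h2⟩, h3⟩, h4⟩, rfl⟩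
    show 0 < (T s v z).im
    simp only at h1 h2 h3 h4
    have h5 : ‖v‖ ≤ ρ := by simpa using h3
    rw [T_im]
    have h6 : 0 < z.im := hKH h4
    have h7 : |v.im| ≤ ρ := (Complex.abs_im_le_norm v).trans h5
    have h8 : -ρ ≤ v.im := (abs_le.1 h7).1
    have h9 : s * ρ ≤ 1 / 2 := by
      calc s * ρ ≤ 1 / (2 * ρ) * ρ := by gcongr
        _ = 1 / 2 := by field_simp
    have h10 : -(1/2) ≤ s * v.im := by nlinarith
    apply mul_pos h6
    linarith
  · intro s h1 h2 v h3 z h4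
    refine ⟨((s, v), z), ⟨⟨⟨h1, ?_⟩, by simpa using h3⟩, h4⟩, rfl⟩
    show s ≤ 1 / (2 * ρ)
    rw [le_div_iff₀ (by positivity)]
    linarith

lemma ibp1 {φ w : ℂ → ℝ} (hφ : ContDiff ℝ ∞ φ) (hc : HasCompactSupport φ) (hw : ContDiff ℝ ∞ w)
    (a : ℂ) : ∫ z, φ z * fderiv ℝ w z a = -∫ z, fderiv ℝ φ z a * w z := by
  have c1 : Continuous fun z => fderiv ℝ w z a :=
    (hw.continuous_fderiv (by simp)).clm_apply continuous_const
  have c2 : Continuous fun z => fderiv ℝ φ z a :=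
    (hφ.continuous_fderiv (by simp)).clm_apply continuous_const
  refine integral_mul_fderiv_eq_neg_fderiv_mul_of_integrable ?_ ?_ ?_
    (fun x _ => hφ.differentiable (by simp) x) (fun x _ => hw.differentiable (by simp) x)
  · exact (c2.mul hw.continuous).integrable_of_hasCompactSupport
      ((hc.fderiv_apply (𝕜 := ℝ) a).mul_right)
  · exact (hφ.continuous.mul c1).integrable_of_hasCompactSupport hc.mul_right
  · exact (hφ.continuous.mul hw.continuous).integrable_of_hasCompactSupport hc.mul_right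

lemma sm1 {φ : ℂ → ℝ} (hφ : ContDiff ℝ ∞ φ) (a : ℂ) : ContDiff ℝ ∞ fun z => fderiv ℝ φ z a :=
  (hφ.fderiv_right (m := ∞) (by simp)).clm_apply contDiff_const

lemma ibp2 {φ w : ℂ → ℝ} (hφ : ContDiff ℝ ∞ φ) (hc : HasCompactSupport φ) (hw : ContDiff ℝ ∞ w)
    (a : ℂ) : ∫ z, φ z * fderiv ℝ (fun y => fderiv ℝ w y a) z a =
      ∫ z, fderiv ℝ (fun y => fderiv ℝ φ y a) z a * w z := by
  rw [ibp1 hφ hc (sm1 hw a) a, ibp1 (sm1 hφ a) (hc.fderiv_apply (𝕜 := ℝ) a) hw a, neg_neg]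

lemma green0 {φ w : ℂ → ℝ} (hφ : ContDiff ℝ ∞ φ) (hc : HasCompactSupport φ)
    (hw : ContDiff ℝ ∞ w) : ∫ z, φ z * lap w z = ∫ z, lap φ z * w z := by
  have i1 : ∀ a, Integrable fun z => φ z * fderiv ℝ (fun y => fderiv ℝ w y a) z a := fun a =>
    (hφ.continuous.mul (sm1 (sm1 hw a) a).continuous).integrable_of_hasCompactSupport hc.mul_right
  have i2 : ∀ a, Integrable fun z => fderiv ℝ (fun y => fderiv ℝ φ y a) z a * w z := fun a =>
    ((sm1 (sm1 hφ a) a).continuous.mul hw.continuous).integrable_of_hasCompactSupport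
      ((hc.fderiv_apply (𝕜 := ℝ) a).fderiv_apply (𝕜 := ℝ) a).mul_right
  have e1 : ∀ z, φ z * lap w z = φ z * fderiv ℝ (fun y => fderiv ℝ w y 1) z 1 +
      φ z * fderiv ℝ (fun y => fderiv ℝ w y I) z I := fun z => by
    show φ z * (_ + _) = _
    rw [mul_add]; rfl
  have e2 : ∀ z, lap φ z * w z = fderiv ℝ (fun y => fderiv ℝ φ y 1) z 1 * w z +
      fderiv ℝ (fun y => fderiv ℝ φ y I) z I * w z := fun z => by
    show (_ + _) * w z = _
    rw [add_mul]; rfl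
  simp only [e1, e2]
  rw [integral_add (i1 1) (i1 I), integral_add (i2 1) (i2 I), ibp2 hφ hc hw, ibp2 hφ hc hw]

lemma lap_out {φ : ℂ → ℝ} {z : ℂ} (hz : z ∉ tsupport φ) : lap φ z = 0 := by
  have h1 : φ =ᶠ[𝓝 z] fun _ => 0 := notMem_tsupport_iff_eventuallyEq.mp hz
  have h2 := lap_congr φ (fun _ => 0) z h1
  rw [h2]
  have e1 : dx (fun _ : ℂ => (0:ℝ)) = fun _ => 0 := by funext w; simp [dx]
  have e2 : dy (fun _ : ℂ => (0:ℝ)) = fun _ => 0 := by funext w; simp [dy]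
  show dx (dx fun _ : ℂ => (0:ℝ)) z + dy (dy fun _ : ℂ => (0:ℝ)) z = 0
  rw [e1, e2, e1, e2, add_zero]

/-- Green's formula on an open set -/
theorem green {B : Set ℂ} (hB : IsOpen B) {φ H : ℂ → ℝ} (hφ : TF B φ)
    (hH : ContDiffOn ℝ ∞ H B) : ∫ z, φ z * lap H z = ∫ z, lap φ z * H z := by
  obtain ⟨w, hw, hwu⟩ := cut B hB H φ hH hφ
  have e1 : (fun z => φ z * lap H z) = fun z => φ z * lap w z := by
    funext z
    by_cases hz : z ∈ tsupport φ
    · rw [lap_congr w H z (hwu z hz)]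
    · rw [image_eq_zero_of_notMem_tsupport hz]; simp
  have e2 : (fun z => lap φ z * H z) = fun z => lap φ z * w z := by
    funext z
    by_cases hz : z ∈ tsupport φ
    · rw [(hwu z hz).self_of_nhds]
    · rw [lap_out hz]; simp
  rw [e1, e2]
  exact green0 hφ.1 hφ.2.1 hw

end

end Pool.Agent.K9h11.MV
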