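import Pool.Agent.K9h11.MV.B

/-!
# The averages in `L²` (helper11)
-/

set_option autoImplicit false

open MeasureTheory Filter Topology Complex Set
open scoped ContDiff ENNReal

namespace Pool.Agent.K9h11.MV

open Pool.Agent.W745.RW Pool.Agent.W366.RW

noncomputable section

/-- the average with the kernel `χ` at the scale `s` -/
def avg (χ : ℂ → ℝ) (s : ℝ) (g : ℂ → ℝ) (z : ℂ) : ℝ := ∫ v, χ v * g (T s v z)

/-- the square of the `L²` norm on `K` -/
def EE (K : Set ℂ) (g : ℂ → ℝ) : ℝ≥0∞ := ∫⁻ z in K, ‖g z‖ₑ ^ 2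

lemma meas_ind {E : Type*} [NormedAddCommGroup E] {g : ℂ → E} (hg : ContinuousOn g HH) :
    Measurable (HH.indicator fun w => ‖g w‖ₑ) := by
  classical
  have h1 : ContinuousOn (fun w => ‖g w‖ₑ) HH := continuous_enorm.comp_continuousOn hg
  have h2 := h1.measurable_piecewise (g := fun _ => (0:ℝ≥0∞)) continuousOn_const
    HHo.measurableSet
  convert h2 using 1
  funext w
  by_cases hw : w ∈ HH
  · rw [indicator_of_mem hw, piecewise_eq_of_mem _ _ _ hw]
  · rw [indicator_of_notMem hw, piecewise_eq_of_notMem _ _ _ hw]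

/-- the mass of a kernel -/
def mass (κ : ℂ → ℝ) : ℝ≥0∞ := ∫⁻ v, ‖κ v‖ₑ

lemma ae_dens {κ : ℂ → ℝ} (hκ : Measurable κ) {ρ : ℝ} (h0 : ∀ v, ρ < ‖v‖ → κ v = 0) :
    ∀ᵐ v ∂(volume.withDensity fun v => ‖κ v‖ₑ), ‖v‖ ≤ ρ := by
  rw [ae_withDensity_iff hκ.enorm]
  refine ae_of_all _ fun v hv => ?_
  by_contra h
  push Not at h
  exact hv (by rw [h0 v h]; simp)

/-- the averages are bounded in `L²` -/
theorem avg_L2 {κ : ℂ → ℝ} (hκ : Measurable κ) {ρ : ℝ} (h0 : ∀ v, ρ < ‖v‖ → κ v = 0)
    {K K' : Set ℂ} (hK : MeasurableSet K) (hK' : MeasurableSet K') (hKH : K' ⊆ HH) {s : ℝ}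
    (hs0 : 0 ≤ s) (hs : s * ρ ≤ 1 / 2) (hKK : ∀ v : ℂ, ‖v‖ ≤ ρ → ∀ z ∈ K, T s v z ∈ K')
    {g : ℂ → ℝ} (hg : ContinuousOn g HH) :
    EE K (avg κ s g) ≤ 2 * mass κ ^ 2 * EE K' g := by
  set G : ℂ → ℝ≥0∞ := HH.indicator fun w => ‖g w‖ₑ with hG
  have hGm : Measurable G := meas_ind hg
  set m : Measure ℂ := volume.withDensity fun v => ‖κ v‖ₑ with hm
  have hmu : m univ = mass κ := by
    rw [hm, withDensity_apply _ MeasurableSet.univ, Measure.restrict_univ]; rfl
  have h1 : ∀ z ∈ K, ‖avg κ s g z‖ₑ ≤ ∫⁻ v, G (T s v z) ∂m := by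
    intro z hz
    have hTm : Measurable fun v => G (T s v z) :=
      hGm.comp (T_cont.measurable.comp ((measurable_const.prodMk measurable_id).prodMk
        measurable_const))
    rw [hm, lintegral_withDensity_eq_lintegral_mul _ hκ.enorm hTm]
    refine (enorm_integral_le_lintegral_enorm _).trans (lintegral_mono fun v => ?_)
    simp only [Pi.mul_apply]
    rw [enorm_mul]
    by_cases hv : ‖v‖ ≤ ρ
    · have : T s v z ∈ HH := hKH (hKK v hv z hz)
      rw [hG, indicator_of_mem this]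
    · push Not at hv
      rw [h0 v hv]; simp
  calc EE K (avg κ s g) ≤ ∫⁻ z in K, (∫⁻ v, G (T s v z) ∂m) ^ 2 := by
        unfold EE
        refine setLIntegral_mono' hK fun z hz => ?_
        gcongr
        exact h1 z hz
    _ ≤ 2 * m univ ^ 2 * ∫⁻ z in K', G z ^ 2 := by
        refine means m (S := fun _ => s) (V := fun v => v) measurable_const measurable_id
          (ρ := ρ) hK hK' ?_ hGm
        filter_upwards [ae_dens hκ h0] with v hv
        exact ⟨by rwa [abs_of_nonneg hs0], hv, hKK v hv⟩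
    _ = 2 * mass κ ^ 2 * EE K' g := by
        rw [hmu]
        congr 1
        unfold EE
        refine setLIntegral_congr_fun hK' fun z hz => ?_
        simp only [hG]
        rw [indicator_of_mem (hKH hz)]

/-- the size of the gradient in the scale of the point -/
def gr (g : ℂ → ℝ) (z : ℂ) : ℝ := z.im * ‖fderiv ℝ g z‖

/-- the difference of a function and its average -/
theorem avg_diff {κ : ℂ → ℝ} (hκ : Measurable κ) {ρ : ℝ} (hρ : 0 ≤ ρ)
    (h0 : ∀ v, ρ < ‖v‖ → κ v = 0)
    (hκi : Integrable κ) (hκ1 : ∫ v, κ v = 1) {K K' : Set ℂ} (hK : MeasurableSet K)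
    (hK' : MeasurableSet K') (hKH : K' ⊆ HH) {s : ℝ} (hs0 : 0 ≤ s) (hs : s * ρ ≤ 1 / 2)
    (hKK : ∀ t, 0 ≤ t → t ≤ s → ∀ v : ℂ, ‖v‖ ≤ ρ → ∀ z ∈ K, T t v z ∈ K') {g : ℂ → ℝ}
    (hg : ContDiffOn ℝ ∞ g HH)
    (hi : ∀ z ∈ K, Integrable fun v => κ v * g (T s v z)) :
    EE K (fun z => g z - avg κ s g z) ≤
      2 * mass κ ^ 2 * (ENNReal.ofReal (2 * s * ρ)) ^ 2 * EE K' (gr g) := by
  have hfd : ContinuousOn (fun w => fderiv ℝ g w) HH := by
    have := hg.continuousOn_fderiv_of_isOpen HHo (by simp)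
    exact this
  have hgr : ContinuousOn (gr g) HH := (continuous_im.continuousOn).mul hfd.norm
  set G : ℂ → ℝ≥0∞ := HH.indicator fun w => ‖gr g w‖ₑ with hG
  have hGm : Measurable G := meas_ind hgr
  set m : Measure ℂ := volume.withDensity fun v => ‖κ v‖ₑ with hm
  have hmu : m univ = mass κ := by
    rw [hm, withDensity_apply _ MeasurableSet.univ, Measure.restrict_univ]; rfl
  set m' : Measure (ℂ × ℝ) := m.prod (volume.restrict (Ioc (0:ℝ) 1)) with hm'
  have hmu' : m' univ = mass κ := by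
    rw [hm', ← univ_prod_univ, Measure.prod_prod, hmu]
    simp
  have hGT : Measurable fun p : (ℂ × ℝ) × ℂ => G (T (s * p.1.2) p.1.1 p.2) := by
    have h1 : Measurable fun p : (ℂ × ℝ) × ℂ => (((s * p.1.2, p.1.1), p.2) : (ℝ × ℂ) × ℂ) := by
      fun_prop
    exact hGm.comp (T_cont.measurable.comp h1)
  -- pointwise
  have h2 : ∀ z ∈ K, ∀ v : ℂ, ‖v‖ ≤ ρ → ‖g z - g (T s v z)‖ₑ ≤
      ENNReal.ofReal (2 * s * ρ) * ∫⁻ t in Ioc (0:ℝ) 1, G (T (s * t) v z) := by
    intro z hz v hv
    have hmem : ∀ t ∈ Icc (0:ℝ) 1, T (s * t) v z ∈ K' := fun t ht =>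
      hKK _ (mul_nonneg hs0 ht.1) (mul_le_of_le_one_right hs0 ht.2) v hv z hz
    have hd : ∀ t ∈ uIcc (0:ℝ) 1, HasDerivAt (fun t : ℝ => g (T (s * t) v z))
        (fderiv ℝ g (T (s * t) v z) (((s * z.im : ℝ) : ℂ) * v)) t := by
      intro t ht
      rw [uIcc_of_le zero_le_one] at ht
      have e1 := (hg.differentiableOn (by simp)).differentiableAt
        (HHo.mem_nhds (hKH (hmem t ht)))
      have e2 : HasDerivAt (fun t : ℝ => T (s * t) v z) (((s * z.im : ℝ) : ℂ) * v) t := by
        have e3 : (fun t : ℝ => T (s * t) v z) = fun t : ℝ =>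
            z + (t : ℂ) * (((s * z.im : ℝ) : ℂ) * v) := by
          funext t
          simp only [T]
          push_cast
          ring
        rw [e3]
        have e4 : HasDerivAt (fun t : ℝ => (t : ℂ)) 1 t := Complex.ofRealCLM.hasDerivAt
        simpa using (e4.mul_const (((s * z.im : ℝ) : ℂ) * v)).const_add z
      exact e1.hasFDerivAt.comp_hasDerivAt t e2
    have hc : ContinuousOn (fun t : ℝ => fderiv ℝ g (T (s * t) v z) (((s * z.im : ℝ) : ℂ) * v))
        (uIcc 0 1) := by
      rw [uIcc_of_le zero_le_one]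
      have c1 : ContinuousOn (fun t : ℝ => T (s * t) v z) (Icc 0 1) := by
        unfold T
        fun_prop
      exact (hfd.comp c1 fun t ht => hKH (hmem t ht)).clm_apply continuousOn_const
    have hint := intervalIntegral.integral_eq_sub_of_hasDerivAt hd hc.intervalIntegrable
    rw [mul_one, mul_zero, T_zero] at hint
    rw [← enorm_neg, neg_sub, ← hint, intervalIntegral.integral_of_le zero_le_one]
    refine (enorm_integral_le_lintegral_enorm _).trans ?_
    rw [← lintegral_const_mul]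
    · refine setLIntegral_mono' measurableSet_Ioc fun t ht => ?_
      have ht' : t ∈ Icc (0:ℝ) 1 := ⟨ht.1.le, ht.2⟩
      have hw := hKH (hmem t ht')
      rw [hG, indicator_of_mem hw]
      rw [← ofReal_norm, ← ofReal_norm, ← ENNReal.ofReal_mul (by positivity)]
      apply ENNReal.ofReal_le_ofReal
      have hy : z.im ≤ 2 * (T (s * t) v z).im := by
        rw [T_im]
        have b1 : |v.im| ≤ ρ := (Complex.abs_im_le_norm v).trans hv
        have b2 := (abs_le.1 b1).1
        have b3 : s * t * v.im ≥ -(1/2) := by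
          have b4 : s * t ≤ s := mul_le_of_le_one_right hs0 ht.2
          have b5 : 0 ≤ s * t := mul_nonneg hs0 ht.1.le
          nlinarith
        have b6 : 0 < z.im := by
          have := hKH (hmem 0 ⟨le_rfl, zero_le_one⟩)
          rw [mul_zero, T_zero] at this
          exact this
        nlinarith
      have hz0 : 0 < z.im := by
        have := hKH (hmem 0 ⟨le_rfl, zero_le_one⟩)
        rw [mul_zero, T_zero] at this
        exact this
      have hw0 : 0 < (T (s * t) v z).im := hw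
      calc ‖fderiv ℝ g (T (s * t) v z) (((s * z.im : ℝ) : ℂ) * v)‖
          ≤ ‖fderiv ℝ g (T (s * t) v z)‖ * ‖((s * z.im : ℝ) : ℂ) * v‖ :=
            ContinuousLinearMap.le_opNorm _ _
        _ = ‖fderiv ℝ g (T (s * t) v z)‖ * (s * z.im * ‖v‖) := by
            rw [norm_mul, Complex.norm_real, Real.norm_of_nonneg (by positivity)]
        _ ≤ ‖fderiv ℝ g (T (s * t) v z)‖ * (s * (2 * (T (s * t) v z).im) * ρ) := by
            gcongr
        _ = 2 * s * ρ * ‖gr g (T (s * t) v z)‖ := by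
            have : 0 < (T (s * t) v z).im := hw
            rw [Real.norm_of_nonneg (by unfold gr; positivity)]
            unfold gr
            ring
    · exact hGT.comp ((measurable_const.prodMk measurable_id).prodMk measurable_const)
  have h3 : ∀ z ∈ K, ‖g z - avg κ s g z‖ₑ ≤
      ENNReal.ofReal (2 * s * ρ) * ∫⁻ p, G (T (s * p.2) p.1 z) ∂m' := by
    intro z hz
    have e1 : g z - avg κ s g z = ∫ v, κ v * (g z - g (T s v z)) := by
      have : ∀ v, κ v * (g z - g (T s v z)) = κ v * g z - κ v * g (T s v z) := fun v => by ring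
      simp only [this]
      rw [integral_sub (hκi.mul_const _) (hi z hz), integral_mul_const, hκ1, one_mul]
      rfl
    have hGz : Measurable fun p : ℂ × ℝ => G (T (s * p.2) p.1 z) :=
      hGT.comp (measurable_id.prodMk measurable_const)
    rw [e1, hm', lintegral_prod _ hGz.aemeasurable, hm,
      lintegral_withDensity_eq_lintegral_mul _ hκ.enorm hGz.lintegral_prod_right',
      ← lintegral_const_mul _ (hκ.enorm.mul hGz.lintegral_prod_right')]
    refine (enorm_integral_le_lintegral_enorm _).trans (lintegral_mono fun v => ?_)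
    simp only [Pi.mul_apply]
    rw [enorm_mul]
    by_cases hv : ‖v‖ ≤ ρ
    · calc ‖κ v‖ₑ * ‖g z - g (T s v z)‖ₑ ≤ ‖κ v‖ₑ *
          (ENNReal.ofReal (2 * s * ρ) * ∫⁻ t in Ioc (0:ℝ) 1, G (T (s * t) v z)) := by
            gcongr; exact h2 z hz v hv
        _ = _ := by ring
    · push Not at hv
      rw [h0 v hv]; simp
  calc EE K (fun z => g z - avg κ s g z)
      ≤ ∫⁻ z in K, (ENNReal.ofReal (2 * s * ρ) * ∫⁻ p, G (T (s * p.2) p.1 z) ∂m') ^ 2 := by
        unfold EE
        refine setLIntegral_mono' hK fun z hz => ?_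
        gcongr
        exact h3 z hz
    _ = (ENNReal.ofReal (2 * s * ρ)) ^ 2 * ∫⁻ z in K, (∫⁻ p, G (T (s * p.2) p.1 z) ∂m') ^ 2 := by
        simp only [mul_pow]
        rw [lintegral_const_mul' _ _ (by finiteness)]
    _ ≤ (ENNReal.ofReal (2 * s * ρ)) ^ 2 * (2 * m' univ ^ 2 * ∫⁻ z in K', G z ^ 2) := by
        gcongr
        refine means m' (S := fun p => s * p.2) (V := fun p => p.1) (by fun_prop) measurable_fst
          (ρ := ρ) hK hK' ?_ hGm
        have a1 : ∀ᵐ p ∂m', ‖p.1‖ ≤ ρ := by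
          have := ae_dens hκ h0
          exact (Measure.quasiMeasurePreserving_fst (μ := m)
            (ν := volume.restrict (Ioc (0:ℝ) 1))).ae this
        have a2 : ∀ᵐ p ∂m', p.2 ∈ Ioc (0:ℝ) 1 := by
          have : ∀ᵐ t ∂(volume.restrict (Ioc (0:ℝ) 1)), t ∈ Ioc (0:ℝ) 1 :=
            ae_restrict_mem measurableSet_Ioc
          exact (Measure.quasiMeasurePreserving_snd (μ := m)
            (ν := volume.restrict (Ioc (0:ℝ) 1))).ae this
        filter_upwards [a1, a2] with p hp1 hp2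
        have b1 : 0 ≤ s * p.2 := mul_nonneg hs0 hp2.1.le
        have b2 : s * p.2 ≤ s := mul_le_of_le_one_right hs0 hp2.2
        refine ⟨?_, hp1, hKK _ b1 b2 _ hp1⟩
        rw [abs_of_nonneg b1]
        calc s * p.2 * ρ ≤ s * ρ := by gcongr
          _ ≤ _ := hs
    _ = _ := by
        rw [hmu']
        have : ∫⁻ z in K', G z ^ 2 = EE K' (gr g) := by
          unfold EE
          refine setLIntegral_congr_fun hK' fun z hz => ?_
          simp only [hG]
          rw [indicator_of_mem (hKH hz)]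
        rw [this]
        ring

end

end Pool.Agent.K9h11.MV
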