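import Pool.Agent.K9h11.MV.C
import Pool.Agent.W249.RW.GOne

/-!
# The averages of the Laplacian (helper11)
-/

set_option autoImplicit false

open MeasureTheory Filter Topology Complex Set
open scoped ContDiff ENNReal

namespace Pool.Agent.K9h11.MV

open Pool.Agent.W745.RW Pool.Agent.W366.RW
open Pool.Agent.W249.RW (cdd diffAt)

noncomputable section

variable {χ : ℂ → ℝ} {ρ s : ℝ}

lemma T_cv (s : ℝ) (z : ℂ) : Continuous fun v => T s v z := by
  unfold T
  fun_prop

lemma cont_prod {κ : ℂ → ℝ} (hκ : Continuous κ) (hsu : tsupport κ ⊆ Metric.closedBall 0 ρ)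
    {g : ℂ → ℝ} (hg : ContinuousOn g HH) {z : ℂ} (hz : ∀ v : ℂ, ‖v‖ ≤ ρ → T s v z ∈ HH) :
    Continuous fun v => κ v * g (T s v z) := by
  rw [continuous_iff_continuousAt]
  intro v
  by_cases hv : v ∈ tsupport κ
  · have h1 : T s v z ∈ HH := hz v (by simpa using hsu hv)
    exact hκ.continuousAt.mul
      (ContinuousAt.comp (f := fun v => T s v z) (hg.continuousAt (HHo.mem_nhds h1))
        (T_cv s z).continuousAt)
  · have h1 := notMem_tsupport_iff_eventuallyEq.mp hv
    have h2 : (fun v => κ v * g (T s v z)) =ᶠ[𝓝 v] fun _ => 0 := by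
      filter_upwards [h1] with w hw
      simp [hw]
    exact continuousAt_const.congr h2.symm

lemma int_prod {κ : ℂ → ℝ} (hκ : Continuous κ) (hsu : tsupport κ ⊆ Metric.closedBall 0 ρ)
    {g : ℂ → ℝ} (hg : ContinuousOn g HH) {z : ℂ} (hz : ∀ v : ℂ, ‖v‖ ≤ ρ → T s v z ∈ HH) :
    Integrable fun v => κ v * g (T s v z) := by
  refine (cont_prod hκ hsu hg hz).integrable_of_hasCompactSupport ?_
  exact (HasCompactSupport.of_support_subset_isCompact (isCompact_closedBall (0:ℂ) ρ)
    ((subset_tsupport κ).trans hsu)).mul_right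

lemma T_fd (s : ℝ) (z v : ℂ) : HasFDerivAt (fun v => T s v z)
    ((s * z.im) • ContinuousLinearMap.id ℝ ℂ) v := by
  have e : (fun v => T s v z) = fun v => z + (s * z.im) • v := by
    funext v
    simp [T]
  rw [e]
  exact ((hasFDerivAt_id v).const_smul (s * z.im)).const_add z

lemma chain {h : ℂ → ℝ} {z v : ℂ} (hh : DifferentiableAt ℝ h (T s v z)) (a : ℂ) :
    fderiv ℝ (fun v => h (T s v z)) v a = (s * z.im) * fderiv ℝ h (T s v z) a := by
  have h1 := hh.hasFDerivAt.comp v (T_fd s z v)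
  have h2 : fderiv ℝ (fun v => h (T s v z)) v = _ := h1.fderiv
  rw [h2]
  simp

lemma lap_comp {h : ℂ → ℝ} (hh : ContDiffOn ℝ ∞ h HH) {z v : ℂ} (hv : T s v z ∈ HH) :
    lap (fun v => h (T s v z)) v = (s * z.im) ^ 2 * lap h (T s v z) := by
  have hB : IsOpen {v | T s v z ∈ HH} := HHo.preimage (T_cv s z)
  have k : ∀ a : ℂ, fderiv ℝ (fun w => fderiv ℝ (fun v => h (T s v z)) w a) v a =
      (s * z.im) ^ 2 * fderiv ℝ (fun w => fderiv ℝ h w a) (T s v z) a := by
    intro a
    have e1 : (fun w => fderiv ℝ (fun v => h (T s v z)) w a) =ᶠ[𝓝 v]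
        fun w => (s * z.im) * fderiv ℝ h (T s w z) a := by
      filter_upwards [hB.mem_nhds hv] with w hw
      exact chain (diffAt HHo hh hw) a
    rw [e1.fderiv_eq]
    have d1 : DifferentiableAt ℝ (fun w => fderiv ℝ h w a) (T s v z) :=
      diffAt HHo (cdd HHo hh a) hv
    have d2 : DifferentiableAt ℝ (fun w => fderiv ℝ h (T s w z) a) v :=
      DifferentiableAt.comp (f := fun w => T s w z) (g := fun w => fderiv ℝ h w a) v d1
        (T_fd s z v).differentiableAt
    rw [fderiv_const_mul d2]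
    simp only [smul_apply, smul_eq_mul]
    rw [chain (h := fun w => fderiv ℝ h w a) d1 a]
    ring
  show fderiv ℝ (fun w => fderiv ℝ (fun v => h (T s v z)) w 1) v 1 +
    fderiv ℝ (fun w => fderiv ℝ (fun v => h (T s v z)) w I) v I = _
  rw [k 1, k I]
  show _ = (s * z.im) ^ 2 * (fderiv ℝ (fun w => fderiv ℝ h w 1) (T s v z) 1 +
    fderiv ℝ (fun w => fderiv ℝ h w I) (T s v z) I)
  ring

/-- the kernel with the weight of the average -/
def wk (χ : ℂ → ℝ) (s : ℝ) (v : ℂ) : ℝ := χ v * (1 + s * v.im) ^ 2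

lemma wk_sm (hχ : ContDiff ℝ ∞ χ) (s : ℝ) : ContDiff ℝ ∞ (wk χ s) := by
  have : ContDiff ℝ ∞ (fun z : ℂ => z.im) := imCLM.contDiff
  exact hχ.mul ((contDiff_const.add (contDiff_const.mul this)).pow 2)

/-- Green's formula for the averages -/
theorem avg_lap (hχ : ContDiff ℝ ∞ χ) (hsu : tsupport χ ⊆ Metric.closedBall 0 ρ)
    (hs : 0 < s) {h : ℂ → ℝ} (hh : ContDiffOn ℝ ∞ h HH) {z : ℂ}
    (hz : ∀ v : ℂ, ‖v‖ ≤ ρ → T s v z ∈ HH) (hz0 : z ∈ HH) :
    avg χ s (fun w => w.im ^ 2 * lap h w) z = (s ^ 2)⁻¹ * avg (lap (wk χ s)) s h z := by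
  have hB : IsOpen {v | T s v z ∈ HH} := HHo.preimage (T_cv s z)
  have hc : HasCompactSupport χ :=
    HasCompactSupport.of_support_subset_isCompact (isCompact_closedBall (0:ℂ) ρ)
    ((subset_tsupport χ).trans hsu)
  have hTF : TF {v | T s v z ∈ HH} (wk χ s) := by
    refine ⟨wk_sm hχ s, hc.mul_right, fun v hv => hz v ?_⟩
    have h1 : tsupport (wk χ s) ⊆ tsupport χ := by
      unfold wk
      exact tsupport_mul_subset_left
    simpa using hsu (h1 hv)
  have hH : ContDiffOn ℝ ∞ (fun v => h (T s v z)) {v | T s v z ∈ HH} := by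
    have c1 : ContDiff ℝ ∞ (fun v => T s v z) := by
      unfold T
      exact contDiff_const.add (contDiff_const.mul contDiff_id)
    exact hh.comp c1.contDiffOn fun v hv => hv
  have hg := green hB hTF hH
  unfold avg
  rw [← hg, ← integral_const_mul]
  congr 1
  funext v
  by_cases hv : v ∈ tsupport χ
  · have hv' := hz v (by simpa using hsu hv)
    show χ v * ((T s v z).im ^ 2 * lap h (T s v z)) = _
    rw [lap_comp hh hv', T_im]
    unfold wk
    have hz1 : 0 < z.im := hz0
    field_simp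
  · have h1 : χ v = 0 := image_eq_zero_of_notMem_tsupport hv
    simp [wk, h1]

/-- a bound for the kernels -/
lemma wk_mass (hχ : ContDiff ℝ ∞ χ) (hsu : tsupport χ ⊆ Metric.closedBall 0 ρ) :
    ∃ C : ℝ≥0∞, C ≠ ⊤ ∧ ∀ s : ℝ, 0 ≤ s → s ≤ 1 → mass (lap (wk χ s)) ≤ C := by
  have him : ContDiff ℝ ∞ (fun z : ℂ => z.im) := imCLM.contDiff
  set χ1 : ℂ → ℝ := fun v => χ v * v.im with h1
  set χ2 : ℂ → ℝ := fun v => χ v * v.im ^ 2 with h2
  have s1 : ContDiff ℝ ∞ χ1 := hχ.mul him
  have s2 : ContDiff ℝ ∞ χ2 := hχ.mul (him.pow 2)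
  have e : ∀ s : ℝ, wk χ s = fun v => χ v + (2 * s * χ1 v + s ^ 2 * χ2 v) := by
    intro s
    funext v
    simp only [wk, h1, h2]
    ring
  have la : ∀ {a b : ℂ → ℝ}, ContDiff ℝ ∞ a → ContDiff ℝ ∞ b → ∀ z,
      lap (fun v => a v + b v) z = lap a z + lap b z := by
    intro a b ha hb z
    have k : ∀ e : ℂ, (fun w => fderiv ℝ (fun v => a v + b v) w e) =
        fun w => fderiv ℝ a w e + fderiv ℝ b w e := by
      intro e
      funext w
      rw [fderiv_fun_add (ha.differentiable (by simp) w) (hb.differentiable (by simp) w)]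
      rfl
    have k2 : ∀ e : ℂ, fderiv ℝ (fun w => fderiv ℝ (fun v => a v + b v) w e) z e =
        fderiv ℝ (fun w => fderiv ℝ a w e) z e + fderiv ℝ (fun w => fderiv ℝ b w e) z e := by
      intro e
      rw [k e, fderiv_fun_add ((sm1 ha e).differentiable (by simp) z)
        ((sm1 hb e).differentiable (by simp) z)]
      rfl
    show fderiv ℝ (fun w => fderiv ℝ (fun v => a v + b v) w 1) z 1 +
      fderiv ℝ (fun w => fderiv ℝ (fun v => a v + b v) w I) z I = _
    rw [k2 1, k2 I]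
    show _ = (fderiv ℝ (fun w => fderiv ℝ a w 1) z 1 + fderiv ℝ (fun w => fderiv ℝ a w I) z I) +
      (fderiv ℝ (fun w => fderiv ℝ b w 1) z 1 + fderiv ℝ (fun w => fderiv ℝ b w I) z I)
    ring
  have lc : ∀ {a : ℂ → ℝ}, ContDiff ℝ ∞ a → ∀ (c : ℝ) (z : ℂ),
      lap (fun v => c * a v) z = c * lap a z := by
    intro a ha c z
    have k : ∀ e : ℂ, (fun w => fderiv ℝ (fun v => c * a v) w e) =
        fun w => c * fderiv ℝ a w e := by
      intro e
      funext w
      rw [fderiv_const_mul (ha.differentiable (by simp) w)]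
      rfl
    have k2 : ∀ e : ℂ, fderiv ℝ (fun w => fderiv ℝ (fun v => c * a v) w e) z e =
        c * fderiv ℝ (fun w => fderiv ℝ a w e) z e := by
      intro e
      rw [k e, fderiv_const_mul ((sm1 ha e).differentiable (by simp) z)]
      rfl
    show fderiv ℝ (fun w => fderiv ℝ (fun v => c * a v) w 1) z 1 +
      fderiv ℝ (fun w => fderiv ℝ (fun v => c * a v) w I) z I = _
    rw [k2 1, k2 I]
    show _ = c * (fderiv ℝ (fun w => fderiv ℝ a w 1) z 1 + fderiv ℝ (fun w => fderiv ℝ a w I) z I)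
    ring
  have hc : ∀ {a : ℂ → ℝ}, ContDiff ℝ ∞ a → Continuous (lap a) := fun ha =>
    (sm1 (sm1 ha 1) 1).continuous.add (sm1 (sm1 ha I) I).continuous
  have hcs : ∀ {a : ℂ → ℝ}, HasCompactSupport a → HasCompactSupport (lap a) := by
    intro a ha
    refine HasCompactSupport.of_support_subset_isCompact ha fun v hv => ?_
    by_contra hv'
    exact hv (lap_out hv')
  have hcχ : HasCompactSupport χ :=
    HasCompactSupport.of_support_subset_isCompact (isCompact_closedBall (0:ℂ) ρ)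
    ((subset_tsupport χ).trans hsu)
  have i0 : Integrable (lap χ) := (hc hχ).integrable_of_hasCompactSupport (hcs hcχ)
  have i1 : Integrable (lap χ1) := (hc s1).integrable_of_hasCompactSupport (hcs hcχ.mul_right)
  have i2 : Integrable (lap χ2) := (hc s2).integrable_of_hasCompactSupport (hcs hcχ.mul_right)
  refine ⟨mass (lap χ) + (2 * mass (lap χ1) + mass (lap χ2)), ?_, fun s h0 h1 => ?_⟩
  · have a0 : mass (lap χ) ≠ ⊤ := i0.2.ne
    have a1 : mass (lap χ1) ≠ ⊤ := i1.2.ne
    have a2 : mass (lap χ2) ≠ ⊤ := i2.2.ne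
    finiteness
  · have e2 : ∀ v, lap (wk χ s) v = lap χ v + (2 * s * lap χ1 v + s ^ 2 * lap χ2 v) := by
      intro v
      rw [e s, la hχ ((contDiff_const.mul s1).add (contDiff_const.mul s2)),
        la (contDiff_const.mul s1) (contDiff_const.mul s2), lc s1, lc s2]
    calc mass (lap (wk χ s)) ≤ ∫⁻ v, (‖lap χ v‖ₑ + (2 * ‖lap χ1 v‖ₑ + ‖lap χ2 v‖ₑ)) := by
          refine lintegral_mono fun v => ?_
          rw [e2]
          refine (enorm_add_le _ _).trans (add_le_add_right ((enorm_add_le _ _).trans ?_) _)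
          rw [enorm_mul (2 * s) _, enorm_mul (s ^ 2) _]
          have b1 : ‖2 * s‖ₑ ≤ 2 := by
            rw [← ofReal_norm, Real.norm_of_nonneg (by positivity),
              show (2:ℝ≥0∞) = ENNReal.ofReal 2 by simp]
            exact ENNReal.ofReal_le_ofReal (by linarith)
          have b2 : ‖s ^ 2‖ₑ ≤ 1 := by
            rw [← ofReal_norm, Real.norm_of_nonneg (by positivity),
              show (1:ℝ≥0∞) = ENNReal.ofReal 1 by simp]
            exact ENNReal.ofReal_le_ofReal (by nlinarith)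
          calc ‖2 * s‖ₑ * ‖lap χ1 v‖ₑ + ‖s ^ 2‖ₑ * ‖lap χ2 v‖ₑ ≤
              2 * ‖lap χ1 v‖ₑ + 1 * ‖lap χ2 v‖ₑ := by gcongr
            _ = _ := by rw [one_mul]
      _ = _ := by
          rw [lintegral_add_left (hc hχ).measurable.enorm,
            lintegral_add_left ((hc s1).measurable.enorm.const_mul 2),
            lintegral_const_mul _ (hc s1).measurable.enorm]
          rfl

end

end Pool.Agent.K9h11.MV
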