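import Pool.Agent.K9h11.MV.B
import Pool.Agent.Results.MP_a54f13_nt.SharpPowerSpectrum

/-!
# The algebra of the operators `F(L)` (helper11)
-/

set_option autoImplicit false

open MeasureTheory Filter Topology Complex Set
open scoped ContDiff ENNReal

namespace Pool.Agent.K9h11.MV

open Pool.Agent.W745.RW Pool.Agent.W366.RW
open Pool.Agent.W249.RW (cdd diffAt)
open Pool.Agent.TH294.RS (sm_lap exists_cut)
open Pool.Agent.Results.MP_a54f13_nt.SharpPowerSpectrum (L opF gauss)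

noncomputable section

variable {lam : ℝ} {g : ℂ → ℝ}

lemma L_eq (lam : ℝ) (g : ℂ → ℝ) (z : ℂ) : L lam g z = -(z.im ^ 2 * lap g z) / lam := rfl

lemma lap_ad {a b : ℂ → ℝ} (ha : ContDiffOn ℝ ∞ a HH) (hb : ContDiffOn ℝ ∞ b HH) {z : ℂ}
    (hz : z ∈ HH) : lap (fun v => a v + b v) z = lap a z + lap b z := by
  have k2 : ∀ e : ℂ, fderiv ℝ (fun w => fderiv ℝ (fun v => a v + b v) w e) z e =
      fderiv ℝ (fun w => fderiv ℝ a w e) z e + fderiv ℝ (fun w => fderiv ℝ b w e) z e := by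
    intro e
    have k : (fun w => fderiv ℝ (fun v => a v + b v) w e) =ᶠ[𝓝 z]
        fun w => fderiv ℝ a w e + fderiv ℝ b w e := by
      filter_upwards [HHo.mem_nhds hz] with w hw
      rw [fderiv_fun_add (diffAt HHo ha hw) (diffAt HHo hb hw)]
      rfl
    rw [k.fderiv_eq]
    have d1 : DifferentiableAt ℝ (fun w => fderiv ℝ a w e) z := diffAt HHo (cdd HHo ha e) hz
    have d2 : DifferentiableAt ℝ (fun w => fderiv ℝ b w e) z := diffAt HHo (cdd HHo hb e) hz
    rw [fderiv_fun_add d1 d2]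
    rfl
  show fderiv ℝ (fun w => fderiv ℝ (fun v => a v + b v) w 1) z 1 +
    fderiv ℝ (fun w => fderiv ℝ (fun v => a v + b v) w I) z I = _
  rw [k2 1, k2 I]
  show _ = (fderiv ℝ (fun w => fderiv ℝ a w 1) z 1 + fderiv ℝ (fun w => fderiv ℝ a w I) z I) +
    (fderiv ℝ (fun w => fderiv ℝ b w 1) z 1 + fderiv ℝ (fun w => fderiv ℝ b w I) z I)
  ring

lemma lap_cm {a : ℂ → ℝ} (ha : ContDiffOn ℝ ∞ a HH) (c : ℝ) {z : ℂ} (hz : z ∈ HH) :
    lap (fun v => c * a v) z = c * lap a z := by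
  have k2 : ∀ e : ℂ, fderiv ℝ (fun w => fderiv ℝ (fun v => c * a v) w e) z e =
      c * fderiv ℝ (fun w => fderiv ℝ a w e) z e := by
    intro e
    have k : (fun w => fderiv ℝ (fun v => c * a v) w e) =ᶠ[𝓝 z] fun w => c * fderiv ℝ a w e := by
      filter_upwards [HHo.mem_nhds hz] with w hw
      rw [fderiv_const_mul (diffAt HHo ha hw)]
      rfl
    rw [k.fderiv_eq]
    have d1 : DifferentiableAt ℝ (fun w => fderiv ℝ a w e) z := diffAt HHo (cdd HHo ha e) hz
    rw [fderiv_const_mul d1]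
    rfl
  show fderiv ℝ (fun w => fderiv ℝ (fun v => c * a v) w 1) z 1 +
    fderiv ℝ (fun w => fderiv ℝ (fun v => c * a v) w I) z I = _
  rw [k2 1, k2 I]
  show _ = c * (fderiv ℝ (fun w => fderiv ℝ a w 1) z 1 + fderiv ℝ (fun w => fderiv ℝ a w I) z I)
  ring

lemma L_sm (lam : ℝ) (hg : ContDiffOn ℝ ∞ g HH) : ContDiffOn ℝ ∞ (L lam g) HH := by
  have h1 : ContDiffOn ℝ ∞ (fun z : ℂ => z.im ^ 2) HH := (imCLM.contDiff.pow 2).contDiffOn
  exact ((h1.mul (sm_lap HHo hg)).neg).div_const lam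

lemma Li_sm (lam : ℝ) (hg : ContDiffOn ℝ ∞ g HH) (i : ℕ) :
    ContDiffOn ℝ ∞ ((L lam)^[i] g) HH := by
  induction i with
  | zero => exact hg
  | succ i ih =>
    rw [Function.iterate_succ_apply']
    exact L_sm lam ih

lemma op_add (F G : Polynomial ℝ) (lam : ℝ) (g : ℂ → ℝ) (z : ℂ) :
    opF (F + G) lam g z = opF F lam g z + opF G lam g z := by
  unfold opF
  exact Polynomial.sum_add_index F G _ (fun i => by simp) fun i a b => by ring

lemma op_mon (i : ℕ) (c : ℝ) (lam : ℝ) (g : ℂ → ℝ) (z : ℂ) :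
    opF (Polynomial.monomial i c) lam g z = c * (L lam)^[i] g z := by
  unfold opF
  exact Polynomial.sum_monomial_index _ _ (by simp)

lemma op_neg (F : Polynomial ℝ) (lam : ℝ) (g : ℂ → ℝ) (z : ℂ) :
    opF (-F) lam g z = -opF F lam g z := by
  have h := op_add F (-F) lam g z
  rw [add_neg_cancel] at h
  have h0 : opF 0 lam g z = 0 := by simp [opF]
  linarith

lemma op_sub (F G : Polynomial ℝ) (lam : ℝ) (g : ℂ → ℝ) (z : ℂ) :
    opF (F - G) lam g z = opF F lam g z - opF G lam g z := by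
  rw [sub_eq_add_neg, op_add, op_neg]; ring

lemma op_one (lam : ℝ) (g : ℂ → ℝ) (z : ℂ) : opF 1 lam g z = g z := by
  have h := op_mon 0 1 lam g z
  simpa using h

lemma op_sm (F : Polynomial ℝ) (lam : ℝ) (hg : ContDiffOn ℝ ∞ g HH) :
    ContDiffOn ℝ ∞ (opF F lam g) HH := by
  unfold opF
  simp only [Polynomial.sum_def]
  exact ContDiffOn.sum fun i _ => contDiffOn_const.mul (Li_sm lam hg i)

lemma op_X (F : Polynomial ℝ) (lam : ℝ) (hg : ContDiffOn ℝ ∞ g HH) {z : ℂ} (hz : z ∈ HH) :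
    opF (Polynomial.X * F) lam g z = L lam (opF F lam g) z := by
  induction F using Polynomial.induction_on' generalizing z with
  | add p q hp hq =>
    have e : opF (p + q) lam g = fun v => opF p lam g v + opF q lam g v := by
      funext v; exact op_add p q lam g v
    rw [mul_add, op_add, hp hz, hq hz, e, L_eq, L_eq, L_eq,
      lap_ad (op_sm p lam hg) (op_sm q lam hg) hz]
    ring
  | monomial i c =>
    have e : opF (Polynomial.monomial i c) lam g = fun v => c * (L lam)^[i] g v := by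
      funext v; exact op_mon i c lam g v
    rw [Polynomial.X_mul_monomial, op_mon, e, L_eq, lap_cm (Li_sm lam hg i) c hz,
      Function.iterate_succ_apply', L_eq]
    ring

end

end Pool.Agent.K9h11.MV
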