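import Pool.Agent.K9h11.MV.T2

/-!
# Local versions: bounded fourth moments on an open set (helper11)
-/

set_option autoImplicit false

open MeasureTheory Filter Topology Complex Set
open scoped ContDiff ENNReal

namespace Pool.Agent.K9h11.MV

open Pool.Agent.W745.RW Pool.Agent.W366.RW
open Pool.Agent.W249.RW (cdd diffAt grad_int prod_cd)
open Pool.Agent.TH294.RS (sm_lap exists_cut energy1)
open Pool.Agent.Results.MP_a54f13_nt.SharpPowerSpectrum (L opF gauss)

noncomputable section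

variable {lam : ℕ → ℝ} {f : ℕ → ℂ → ℝ} {U : Set ℂ}

/-- bounded fourth moments on the compact subsets of `U` -/
def BdU (U : Set ℂ) (f : ℕ → ℂ → ℝ) : Prop := ∀ K : Set ℂ, IsCompact K → K ⊆ U → ∃ C : ℝ,
  ∀ᶠ n in atTop, ∫ z in K, f n z ^ 4 ≤ C

lemma TFm (hUH : U ⊆ HH) {w : ℂ → ℝ} (hw : TF U w) : TF HH w := ⟨hw.1, hw.2.1, hw.2.2.trans hUH⟩

/-- a compact neighbourhood for the shifts -/
lemma nbhdU (hU : IsOpen U) (hUH : U ⊆ HH) {K : Set ℂ} (hK : IsCompact K) (hKU : K ⊆ U) {ρ : ℝ}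
    (hρ : 1 ≤ ρ) : ∃ ε : ℝ, 0 < ε ∧ ε ≤ 1 / 2 ∧ ∃ K' : Set ℂ, IsCompact K' ∧ K' ⊆ U ∧
      ∀ s : ℝ, 0 ≤ s → s * ρ ≤ ε → ∀ v : ℂ, ‖v‖ ≤ ρ → ∀ z ∈ K, T s v z ∈ K' := by
  obtain ⟨δ, hδ, hδU⟩ := hK.exists_cthickening_subset_open hU hKU
  obtain ⟨Y, hY⟩ := hK.exists_bound_of_continuousOn (f := fun z : ℂ => z.im)
    continuous_im.continuousOn
  refine ⟨min (1 / 2) (δ / (|Y| + 1)), by positivity, min_le_left _ _, Metric.cthickening δ K,
    hK.cthickening, hδU, fun s hs0 hs v hv z hz => ?_⟩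
  refine Metric.mem_cthickening_of_dist_le _ z δ K hz ?_
  have h1 := hs.trans (min_le_right _ _)
  rw [dist_eq_norm]
  have e : T s v z - z = ((s * z.im : ℝ) : ℂ) * v := by unfold T; ring
  have hz0 : 0 < z.im := hUH (hKU hz)
  have h2 : z.im ≤ |Y| + 1 := by
    have := hY z hz
    rw [Real.norm_of_nonneg hz0.le] at this
    have := le_abs_self Y
    linarith
  rw [e, norm_mul, Complex.norm_real, Real.norm_of_nonneg (by positivity)]
  calc s * z.im * ‖v‖ ≤ s * (|Y| + 1) * ρ := by gcongr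
    _ = (s * ρ) * (|Y| + 1) := by ring
    _ ≤ (δ / (|Y| + 1)) * (|Y| + 1) := by gcongr
    _ = δ := by field_simp

/-- cut-off equal to one near a compact set -/
lemma cut_nearU (hU : IsOpen U) {K : Set ℂ} (hK : IsCompact K) (hKU : K ⊆ U) :
    ∃ (ζ : ℂ → ℝ) (S : Set ℂ), TF U ζ ∧ IsOpen S ∧ K ⊆ S ∧ (∀ z ∈ S, ζ z = 1) ∧
      (∀ z, 0 ≤ ζ z) ∧ (∀ z, ζ z ≤ 1) := by
  obtain ⟨δ, hδ, hδB⟩ := hK.exists_cthickening_subset_open hU hKU
  obtain ⟨ζ, h1, h2, h3, h4⟩ := exists_cut hU (hK.cthickening (r := δ)) hδB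
  refine ⟨ζ, Metric.thickening δ K, h1, Metric.isOpen_thickening,
    Metric.self_subset_thickening hδ K, fun z hz => ?_, h3, h4⟩
  exact h2 z (Metric.thickening_subset_cthickening _ _ hz)

lemma TF_sqU (hU : IsOpen U) {ζ : ℂ → ℝ} (hζ : TF U ζ) : TF U fun z => ζ z * ζ z :=
  Pool.Agent.TH294.RS.TF.mulc hU hζ hζ.1.contDiffOn

/-- boundedness in mean square -/
lemma Sy.bddU (S : Sy lam f) (hUH : U ⊆ HH) (hb : BdU U f) {w : ℂ → ℝ} (hwU : TF U w) (hw0 : ∀ z, 0 ≤ w z)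
    (F : Polynomial ℝ) : ∃ B : ℝ, 0 ≤ B ∧
    ∀ᶠ n in atTop, ∫ z, w z * opF F (lam n) (fun u => f n u ^ 2) z ^ 2 ≤ B := by
  have hw : TF HH w := TFm hUH hwU
  obtain ⟨C, hC⟩ := hb (tsupport w) hwU.2.1 hwU.2.2
  obtain ⟨M, hM⟩ := hw.1.continuous.bounded_above_of_compact_support hw.2.1
  have hM0 : 0 ≤ M := (norm_nonneg _).trans (hM 0)
  set c : ℝ := (2 * F.eval 0 ^ 2 + F.eval 4 ^ 2) / 3 with hc
  have hc0 : 0 ≤ c := by positivity
  have h1 := (S.sp w hw F).eventually (gt_mem_nhds (lt_add_one _))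
  have hW : 0 ≤ ∫ z, w z := integral_nonneg hw0
  have hB : ∀ᶠ n in atTop, ∫ z, w z * opF F (lam n) (fun u => f n u ^ 2) z ^ 2 ≤
      gauss F * (∫ z, w z) + 1 + c * (M * C) := by
    filter_upwards [h1, hC] with n h2 h3
    have i4 : Integrable fun z => w z * f n z ^ 4 := int_w hw ((S.sm n).pow 4)
    have i5 : IntegrableOn (fun z => f n z ^ 4) (tsupport w) :=
      (((S.sm n).continuousOn.mono hw.2.2).pow 4).integrableOn_compact hw.2.1
    have h4 : ∫ z, w z * f n z ^ 4 ≤ M * C := by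
      calc ∫ z, w z * f n z ^ 4 = ∫ z in tsupport w, w z * f n z ^ 4 := by
            rw [setIntegral_eq_integral_of_forall_compl_eq_zero]
            intro z hz
            rw [image_eq_zero_of_notMem_tsupport hz, zero_mul]
        _ ≤ ∫ z in tsupport w, M * f n z ^ 4 := by
            refine integral_mono i4.integrableOn (i5.const_mul M) fun z => ?_
            exact mul_le_mul_of_nonneg_right ((le_abs_self _).trans (hM z)) (by positivity)
        _ = M * ∫ z in tsupport w, f n z ^ 4 := integral_const_mul _ _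
        _ ≤ M * C := by gcongr
    have h5 : c * ((∫ z, w z * f n z ^ 4) - 3 * ∫ z, w z) ≤ c * (M * C) := by
      apply mul_le_mul_of_nonneg_left _ hc0
      linarith
    rw [← hc] at h2
    linarith
  refine ⟨max (gauss F * (∫ z, w z) + 1 + c * (M * C)) 0, le_max_right _ _, ?_⟩
  filter_upwards [hB] with n hn
  exact hn.trans (le_max_left _ _)

/-- bounds for all frequencies -/
lemma Sy.allU (S : Sy lam f) (hU : IsOpen U) (hUH : U ⊆ HH) (hb : BdU U f) {K : Set ℂ} (hK : IsCompact K) (hKU : K ⊆ U)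
    (F : Polynomial ℝ) : ∃ C : ℝ, 0 ≤ C ∧
      Ub K (fun n => opF F (lam n) (fun u => f n u ^ 2)) C := by
  obtain ⟨ζ, V, hζ, -, hKV, h1, -, -⟩ := cut_nearU hU hK hKU
  obtain ⟨B, hB0, hB⟩ := S.bddU hUH hb (TF_sqU hU hζ) (fun z => mul_self_nonneg _) F
  refine ⟨B, hB0, fun η hη => ?_⟩
  filter_upwards [hB] with n hn
  refine (EE_le hK (TFm hUH hζ) (fun z hz => h1 z (hKV hz)) (op_sm F (lam n) ((S.sm n).pow 2))).trans ?_
  apply ENNReal.ofReal_le_ofReal
  linarith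

/-- the gradient -/
lemma Sy.grdU (S : Sy lam f) (hU : IsOpen U) (hUH : U ⊆ HH) (hb : BdU U f) {K : Set ℂ}
    (hK : IsCompact K) (hKU : K ⊆ U) :
    ∃ C : ℝ, 0 ≤ C ∧ ∀ F : Polynomial ℝ, F.eval 4 = 0 → ∀ η > 0, ∀ᶠ n in atTop,
      ENNReal.ofReal (1 / lam n) * EE K (gr (opF F (lam n) (fun u => f n u ^ 2))) ≤
        ENNReal.ofReal (C * dd F + η) := by
  obtain ⟨ζ, V, hζU, hV, hKV, h1, -, -⟩ := cut_nearU hU hK hKU
  have hζ : TF HH ζ := TFm hUH hζU
  have sy : ContDiffOn ℝ ∞ (fun z : ℂ => (z.im ^ 2)⁻¹) HH := by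
    refine ContDiffOn.inv ((imCLM.contDiff.pow 2).contDiffOn) fun z hz => ?_
    exact pow_ne_zero 2 (ne_of_gt hz)
  set w : ℂ → ℝ := fun z => (ζ z * ζ z) * (z.im ^ 2)⁻¹ with hw
  have tw : TF HH w := Pool.Agent.TH294.RS.TF.mulc HHo (TF_sq hζ) sy
  have td : ∀ a : ℂ, TF HH fun z => fderiv ℝ ζ z a := by
    intro a
    refine ⟨sm1 hζ.1 a, hζ.2.1.fderiv_apply (𝕜 := ℝ) a, ?_⟩
    exact (closure_mono fun z hz => by
      by_contra h
      exact hz (by
        show fderiv ℝ ζ z a = 0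
        rw [fderiv_of_notMem_tsupport ℝ h]
        rfl)).trans (by rw [(isClosed_tsupport ζ).closure_eq]; exact hζ.2.2)
  set w2 : ℂ → ℝ := fun z => dx ζ z ^ 2 + dy ζ z ^ 2 with hw2
  have c1 : ContDiff ℝ ∞ w2 := ((sm1 hζ.1 1).pow 2).add ((sm1 hζ.1 I).pow 2)
  have tw2U : TF U w2 := by
    have h3 : tsupport w2 ⊆ tsupport ζ := by
      refine closure_minimal (fun z hz => ?_) (isClosed_tsupport ζ)
      by_contra h
      apply hz
      have a2 : dx ζ z = 0 := by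
        unfold dx
        rw [fderiv_of_notMem_tsupport ℝ h]
        rfl
      have a3 : dy ζ z = 0 := by
        unfold dy
        rw [fderiv_of_notMem_tsupport ℝ h]
        rfl
      simp [hw2, a2, a3]
    exact ⟨c1, HasCompactSupport.of_support_subset_isCompact hζ.2.1
      ((subset_tsupport _).trans h3), h3.trans hζU.2.2⟩
  have tw2 : TF HH w2 := TFm hUH tw2U
  obtain ⟨M, hM⟩ := hK.exists_bound_of_continuousOn (f := fun z : ℂ => z.im)
    continuous_im.continuousOn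
  have hW0 : 0 ≤ ∫ z, w z := integral_nonneg fun z => by
    simp only [hw]
    exact mul_nonneg (mul_self_nonneg _) (by positivity)
  refine ⟨2 * M ^ 2 * ∫ z, w z, by positivity, fun F h4 η hη => ?_⟩
  obtain ⟨B, hB0, hB⟩ := S.bddU hUH hb tw2U (fun z => by positivity) F
  have h5 := S.pol tw F h4
  have h6 : Tendsto (fun n => 2 * M ^ 2 * ((1 / lam n) * B + ∫ z, w z * (opF F (lam n)
      (fun u => f n u ^ 2) z * opF (Polynomial.X * F) (lam n) (fun u => f n u ^ 2) z))) atTop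
      (𝓝 (2 * M ^ 2 * (0 * B + dd F * ∫ z, w z))) := by
    refine Tendsto.const_mul _ (Tendsto.add (Tendsto.mul_const _ ?_) h5)
    simp only [one_div]
    exact tendsto_inv_atTop_zero.comp S.lim
  have h7 := h6.eventually (gt_mem_nhds (lt_add_of_pos_right _ hη))
  filter_upwards [h7, hB] with n hn hBn
  have s2 : ContDiffOn ℝ ∞ (fun u => f n u ^ 2) HH := (S.sm n).pow 2
  set U : ℂ → ℝ := opF F (lam n) (fun u => f n u ^ 2) with hU
  have sU : ContDiffOn ℝ ∞ U HH := op_sm F (lam n) s2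
  set U1 : ℂ → ℝ := opF (Polynomial.X * F) (lam n) (fun u => f n u ^ 2) with hU1
  have sU1 : ContDiffOn ℝ ∞ U1 HH := op_sm _ (lam n) s2
  have hl := S.pos n
  have hen := energy1 HHo (1 / √(lam n)) sU hζ
  have hh : (1 / √(lam n)) ^ 2 = 1 / lam n := by
    rw [div_pow, Real.sq_sqrt hl.le, one_pow]
  rw [hh] at hen
  have e1 : ∀ z, (1 / lam n) * (dx ζ z ^ 2 + dy ζ z ^ 2) * U z ^ 2 -
      ζ z ^ 2 * (U z * ((1 / lam n) * lap U z)) =
      (1 / lam n) * (w2 z * U z ^ 2) + w z * (U z * U1 z) := by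
    intro z
    by_cases hz : z ∈ HH
    · have h8 : U1 z = L (lam n) U z := op_X F (lam n) s2 hz
      rw [h8, L_eq]
      have hz0 : z.im ≠ 0 := ne_of_gt hz
      have hl0 : lam n ≠ 0 := hl.ne'
      simp only [hw, hw2]
      field_simp
      ring
    · have h8 : z ∉ tsupport ζ := fun h => hz (hζ.2.2 h)
      have a1 : ζ z = 0 := image_eq_zero_of_notMem_tsupport h8
      simp only [hw, hw2, a1]
      ring
  simp only [e1] at hen
  have i1 : Integrable fun z => w2 z * U z ^ 2 := int_w tw2 (sU.pow 2)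
  have i2 : Integrable fun z => w z * (U z * U1 z) := int_w tw (sU.mul sU1)
  rw [integral_add (i1.const_mul _) i2, integral_const_mul] at hen
  have iD : Integrable fun z => dx (fun w => ζ w * U w) z ^ 2 + dy (fun w => ζ w * U w) z ^ 2 :=
    grad_int (prod_cd HHo hζ sU) hζ.2.1.mul_right
  have h9 : EE K (gr U) ≤ ENNReal.ofReal (2 * M ^ 2 *
      ∫ z, (dx (fun w => ζ w * U w) z ^ 2 + dy (fun w => ζ w * U w) z ^ 2)) := by
    rw [← integral_const_mul, ofReal_integral_eq_lintegral_ofReal (iD.const_mul _)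
      (ae_of_all _ fun z => by positivity)]
    unfold EE
    refine le_trans ?_ (setLIntegral_le_lintegral K _)
    refine setLIntegral_mono' hK.measurableSet fun z hz => ?_
    rw [← ofReal_norm, ← ENNReal.ofReal_pow (norm_nonneg _), Real.norm_eq_abs, sq_abs]
    apply ENNReal.ofReal_le_ofReal
    have e2 : (fun w => ζ w * U w) =ᶠ[𝓝 z] U := by
      filter_upwards [hV.mem_nhds (hKV hz)] with v hv
      rw [h1 v hv, one_mul]
    have e3 : dx (fun w => ζ w * U w) z = dx U z := by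
      unfold dx; rw [e2.fderiv_eq]
    have e4 : dy (fun w => ζ w * U w) z = dy U z := by
      unfold dy; rw [e2.fderiv_eq]
    rw [e3, e4]
    have b1 := Pool.Agent.W404.RW.L.norm_fderiv_sq U z
    have b2 : z.im ^ 2 ≤ M ^ 2 := by
      have := hM z hz
      rw [Real.norm_eq_abs] at this
      rw [← sq_abs]
      exact pow_le_pow_left₀ (abs_nonneg _) this 2
    calc gr U z ^ 2 = z.im ^ 2 * ‖fderiv ℝ U z‖ ^ 2 := by unfold gr; ring
      _ ≤ M ^ 2 * (2 * (dx U z ^ 2 + dy U z ^ 2)) := by gcongr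
      _ = _ := by ring
  calc ENNReal.ofReal (1 / lam n) * EE K (gr U) ≤ ENNReal.ofReal (1 / lam n) *
      ENNReal.ofReal (2 * M ^ 2 *
      ∫ z, (dx (fun w => ζ w * U w) z ^ 2 + dy (fun w => ζ w * U w) z ^ 2)) := by gcongr
    _ = ENNReal.ofReal (2 * M ^ 2 * ((1 / lam n) * (∫ z, w2 z * U z ^ 2) +
          ∫ z, w z * (U z * U1 z))) := by
        rw [← ENNReal.ofReal_mul (by positivity), ← hen]
        congr 1; ring
    _ ≤ _ := by
        apply ENNReal.ofReal_le_ofReal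
        have b3 : (1 / lam n) * (∫ z, w2 z * U z ^ 2) ≤ (1 / lam n) * B := by gcongr
        have b4 : 2 * M ^ 2 * ((1 / lam n) * (∫ z, w2 z * U z ^ 2) +
          ∫ z, w z * (U z * U1 z)) ≤ 2 * M ^ 2 * ((1 / lam n) * B +
          ∫ z, w z * (U z * U1 z)) := by gcongr
        refine b4.trans (hn.le.trans (le_of_eq ?_))
        ring

end

end Pool.Agent.K9h11.MV
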