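import Pool.Agent.K9h11.MV.F

/-!
# Averages are close to low frequencies (helper11)
-/

set_option autoImplicit false

open MeasureTheory Filter Topology Complex Set
open scoped ContDiff ENNReal

namespace Pool.Agent.K9h11.MV

open Pool.Agent.W745.RW Pool.Agent.W366.RW
open Pool.Agent.W249.RW (cdd diffAt grad_int prod_cd)
open Pool.Agent.Results.MP_a54f13_nt.SharpPowerSpectrum (L opF gauss)

noncomputable section

lemma meas_ind' {g : ℂ → ℝ} (hg : ContinuousOn g HH) : Measurable (HH.indicator g) := by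
  classical
  have h2 := hg.measurable_piecewise (g := fun _ => (0:ℝ)) continuousOn_const
    HHo.measurableSet
  convert h2 using 1
  funext w
  by_cases hw : w ∈ HH
  · rw [indicator_of_mem hw, piecewise_eq_of_mem _ _ _ hw]
  · rw [indicator_of_notMem hw, piecewise_eq_of_notMem _ _ _ hw]

lemma avg_aem {κ : ℂ → ℝ} (hκ : Measurable κ) {ρ s : ℝ} (h0 : ∀ v, ρ < ‖v‖ → κ v = 0)
    {g : ℂ → ℝ} (hg : ContinuousOn g HH) {K : Set ℂ} (hK : MeasurableSet K)
    (hz : ∀ v : ℂ, ‖v‖ ≤ ρ → ∀ z ∈ K, T s v z ∈ HH) :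
    AEMeasurable (avg κ s g) (volume.restrict K) := by
  have h1 := meas_ind' hg
  have h2 : Measurable fun p : ℂ × ℂ => κ p.2 * HH.indicator g (T s p.2 p.1) := by
    have h3 : Measurable fun p : ℂ × ℂ => (((s, p.2), p.1) : (ℝ × ℂ) × ℂ) := by fun_prop
    exact (hκ.comp measurable_snd).mul (h1.comp (T_cont.measurable.comp h3))
  have h4 := h2.stronglyMeasurable.integral_prod_right' (ν := (volume : Measure ℂ))
  refine h4.measurable.aemeasurable.congr (ae_restrict_of_forall_mem hK fun z hzK => ?_)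
  show (∫ v, κ v * HH.indicator g (T s v z)) = ∫ v, κ v * g (T s v z)
  congr 1
  funext v
  by_cases hv : ‖v‖ ≤ ρ
  · simp only [indicator_of_mem (hz v hv z hzK)]
  · push Not at hv
    simp only [h0 v hv, zero_mul]

lemma en_sq (x : ℝ) : ‖x‖ₑ ^ 2 = ENNReal.ofReal (x ^ 2) := by
  rw [← ofReal_norm, ← ENNReal.ofReal_pow (norm_nonneg _), Real.norm_eq_abs, sq_abs]

lemma EE_add {K : Set ℂ} {a b : ℂ → ℝ} (ha : AEMeasurable a (volume.restrict K)) :
    EE K (fun z => a z + b z) ≤ 2 * EE K a + 2 * EE K b := by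
  have h2 : (2 : ℝ≥0∞) ≠ ⊤ := by simp
  calc EE K (fun z => a z + b z) ≤ ∫⁻ z in K, (2 * ‖a z‖ₑ ^ 2 + 2 * ‖b z‖ₑ ^ 2) := by
        refine lintegral_mono fun z => ?_
        simp only [en_sq]
        rw [show (2:ℝ≥0∞) = ENNReal.ofReal 2 by simp, ← ENNReal.ofReal_mul (by norm_num),
          ← ENNReal.ofReal_mul (by norm_num), ← ENNReal.ofReal_add (by positivity) (by positivity)]
        apply ENNReal.ofReal_le_ofReal
        nlinarith [sq_nonneg (a z - b z)]
    _ = 2 * EE K a + 2 * EE K b := by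
        rw [lintegral_add_left' ((ha.enorm.pow_const 2).const_mul 2),
          lintegral_const_mul' _ _ h2, lintegral_const_mul' _ _ h2]
        rfl

/-- an upper bound in the limit -/
def Lb (E : ℕ → ℝ≥0∞) (c : ℝ) : Prop := ∀ η > 0, ∀ᶠ n in atTop, E n ≤ ENNReal.ofReal (c + η)

lemma Lb.mono {E : ℕ → ℝ≥0∞} {c d : ℝ} (h : Lb E c) (hcd : c ≤ d) : Lb E d := fun η hη => by
  filter_upwards [h η hη] with n hn
  exact hn.trans (ENNReal.ofReal_le_ofReal (by linarith))

lemma Lb.scale {E E' : ℕ → ℝ≥0∞} {c α : ℝ} (h : Lb E c) (hα : 0 ≤ α)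
    (hE : ∀ᶠ n in atTop, E' n ≤ ENNReal.ofReal α * E n) : Lb E' (α * c) := fun η hη => by
  filter_upwards [h (η / (α + 1)) (by positivity), hE] with n hn h1
  refine h1.trans ((mul_le_mul_right hn _).trans ?_)
  rw [← ENNReal.ofReal_mul hα]
  apply ENNReal.ofReal_le_ofReal
  have : α * (η / (α + 1)) ≤ η := by
    rw [mul_div_assoc', div_le_iff₀ (by positivity)]
    nlinarith
  linarith

lemma Lb.add {E E1 E2 : ℕ → ℝ≥0∞} {c d : ℝ} (h1 : Lb E1 c) (h2 : Lb E2 d) (hc : 0 ≤ c)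
    (hd : 0 ≤ d) (hE : ∀ᶠ n in atTop, E n ≤ 2 * E1 n + 2 * E2 n) : Lb E (2 * c + 2 * d) :=
    fun η hη => by
  filter_upwards [h1 (η / 4) (by positivity), h2 (η / 4) (by positivity), hE] with n a1 a2 a3
  refine a3.trans ?_
  calc 2 * E1 n + 2 * E2 n ≤ 2 * ENNReal.ofReal (c + η / 4) + 2 * ENNReal.ofReal (d + η / 4) := by
        gcongr
    _ = ENNReal.ofReal (2 * c + 2 * d + η) := by
        rw [show (2:ℝ≥0∞) = ENNReal.ofReal 2 by simp, ← ENNReal.ofReal_mul (by norm_num),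
          ← ENNReal.ofReal_mul (by norm_num), ← ENNReal.ofReal_add (by positivity) (by positivity)]
        congr 1; ring

lemma Lb.lim {E : ℕ → ℝ≥0∞} {c : ℝ} (h : ∀ δ > 0, Lb E (c + δ)) : Lb E c := fun η hη => by
  filter_upwards [h (η / 2) (by positivity) (η / 2) (by positivity)] with n hn
  refine hn.trans (ENNReal.ofReal_le_ofReal (by linarith))

/-- the low pass filters -/
def PF (m : ℕ) : Polynomial ℝ := (1 - Polynomial.C (1 / 4) * Polynomial.X) ^ m

/-- the mean square of the low pass filters -/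
def JJ (m : ℕ) : ℝ := ∫ θ in (0 : ℝ)..(2 * Real.pi), ((1 + Real.cos θ) / 2) ^ (2 * m)

lemma PF_ev (m : ℕ) (x : ℝ) : (PF m).eval x = (1 - x / 4) ^ m := by
  simp [PF]; ring

lemma PF_cos (m : ℕ) (θ : ℝ) : (PF m).eval (2 - 2 * Real.cos θ) = ((1 + Real.cos θ) / 2) ^ m := by
  rw [PF_ev]; congr 1; ring

lemma c01 (θ : ℝ) : 0 ≤ (1 + Real.cos θ) / 2 ∧ (1 + Real.cos θ) / 2 ≤ 1 := by
  constructor <;> linarith [Real.neg_one_le_cos θ, Real.cos_le_one θ]

lemma JJ_nn (m : ℕ) : 0 ≤ JJ m :=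
  intervalIntegral.integral_nonneg (by positivity) fun θ _ => by
    have := (c01 θ).1
    positivity

lemma JJ_lim : Tendsto JJ atTop (𝓝 0) := by
  have hpi : (0:ℝ) ≤ 2 * Real.pi := by positivity
  have h : Tendsto (fun m => ∫ θ in (0 : ℝ)..(2 * Real.pi), ((1 + Real.cos θ) / 2) ^ (2 * m))
      atTop (𝓝 (∫ _ in (0 : ℝ)..(2 * Real.pi), (0:ℝ))) := by
    refine intervalIntegral.tendsto_integral_filter_of_dominated_convergence (fun _ => 1)
      (Eventually.of_forall fun m => ?_) (Eventually.of_forall fun m => ?_)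
      intervalIntegrable_const ?_
    · exact (Continuous.aestronglyMeasurable (by fun_prop))
    · refine ae_of_all _ fun θ _ => ?_
      rw [Real.norm_eq_abs, abs_pow, abs_of_nonneg (c01 θ).1]
      exact pow_le_one₀ (c01 θ).1 (c01 θ).2
    · have h1 : ∀ᵐ θ : ℝ, θ ≠ 2 * Real.pi := by
        rw [ae_iff]
        simp
      filter_upwards [h1] with θ h2 h3
      rw [uIoc_of_le hpi] at h3
      have h4 : θ < 2 * Real.pi := lt_of_le_of_ne h3.2 h2
      have h5 : Real.cos θ < 1 := by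
        refine lt_of_le_of_ne (Real.cos_le_one θ) fun h6 => ?_
        have := (Real.cos_eq_one_iff_of_lt_of_lt (by linarith [h3.1]) h4).1 h6
        exact (ne_of_gt h3.1) this
      have h6 : Tendsto (fun m : ℕ => (((1 + Real.cos θ) / 2) ^ 2) ^ m) atTop (𝓝 0) := by
        apply tendsto_pow_atTop_nhds_zero_of_lt_one (by positivity)
        nlinarith [(c01 θ).1, (c01 θ).2]
      refine h6.congr fun m => ?_
      rw [pow_mul]
  rw [intervalIntegral.integral_zero] at h
  exact h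

lemma dd_le (k : ℕ) : dd (PF k) ≤ 4 / Real.pi * JJ k := by
  unfold dd JJ
  rw [show 4 / Real.pi = 1 / Real.pi * 4 by ring, mul_assoc]
  gcongr 1 / Real.pi * ?_
  rw [← intervalIntegral.integral_const_mul]
  refine intervalIntegral.integral_mono_on (by positivity) ?_ ?_ fun θ _ => ?_
  · exact Continuous.intervalIntegrable (by simp only [PF_cos]; fun_prop) _ _
  · exact Continuous.intervalIntegrable (by fun_prop) _ _
  · rw [PF_cos, ← pow_mul, mul_comm k 2]
    have h1 : 2 - 2 * Real.cos θ ≤ 4 := by linarith [Real.neg_one_le_cos θ]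
    have h2 : 0 ≤ ((1 + Real.cos θ) / 2) ^ (2 * k) := by
      have := (c01 θ).1
      positivity
    exact mul_le_mul_of_nonneg_right h1 h2

lemma dd_nn (F : Polynomial ℝ) : 0 ≤ dd F := by
  unfold dd
  refine mul_nonneg (by positivity) (intervalIntegral.integral_nonneg (by positivity)
    fun θ _ => ?_)
  have : 0 ≤ 2 - 2 * Real.cos θ := by linarith [Real.cos_le_one θ]
  positivity

lemma ga_nn (F : Polynomial ℝ) : 0 ≤ gauss F := by
  unfold gauss
  have : 0 ≤ ∫ θ in (0 : ℝ)..(2 * Real.pi), F.eval (2 - 2 * Real.cos θ) ^ 2 :=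
    intervalIntegral.integral_nonneg (by positivity) fun θ _ => sq_nonneg _
  positivity

lemma cc (θ : ℝ) : 1 - (2 - 2 * Real.cos θ) / 4 = (1 + Real.cos θ) / 2 := by ring

lemma ga_PF (m : ℕ) : gauss (PF m) = 1 + 1 / Real.pi * JJ m := by
  unfold gauss JJ
  simp only [PF_ev, cc]
  congr 1
  · simp
  · congr 2
    funext θ
    rw [← pow_mul, mul_comm m 2]

lemma ga_sub {m k : ℕ} (hk : m ≤ k) : gauss (PF m - PF k) ≤ 1 / Real.pi * JJ m := by
  unfold gauss JJ
  simp only [Polynomial.eval_sub, PF_ev, cc]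
  have h0 : ((1 - (0:ℝ) / 4) ^ m - (1 - 0 / 4) ^ k) ^ 2 = 0 := by simp
  rw [h0, zero_add]
  gcongr 1 / Real.pi * ?_
  refine intervalIntegral.integral_mono_on (by positivity) ?_ ?_ fun θ _ => ?_
  · exact Continuous.intervalIntegrable (by fun_prop) _ _
  · exact Continuous.intervalIntegrable (by fun_prop) _ _
  · have h1 := (c01 θ).1
    have h2 := (c01 θ).2
    have h3 : ((1 + Real.cos θ) / 2) ^ k ≤ ((1 + Real.cos θ) / 2) ^ m :=
      pow_le_pow_of_le_one h1 h2 hk
    have h4 : 0 ≤ ((1 + Real.cos θ) / 2) ^ k := by positivity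
    rw [mul_comm 2 m, pow_mul]
    exact pow_le_pow_left₀ (by linarith) (by linarith) 2

lemma PF_X (m : ℕ) : ∃ H : Polynomial ℝ, 1 - PF m = Polynomial.X * H := by
  have : Polynomial.X ∣ (1 - PF m) := by
    rw [Polynomial.X_dvd_iff, Polynomial.coeff_zero_eq_eval_zero, Polynomial.eval_sub, PF_ev]
    simp
  exact this

end

end Pool.Agent.K9h11.MV
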