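import Pool.Agent.K9h11.MV.G

/-!
# The key estimate (helper11)
-/

set_option autoImplicit false

open MeasureTheory Filter Topology Complex Set
open scoped ContDiff ENNReal

namespace Pool.Agent.K9h11.MV

open Pool.Agent.W745.RW Pool.Agent.W366.RW
open Pool.Agent.W249.RW (cdd diffAt grad_int prod_cd)
open Pool.Agent.TH294.RS (sm_lap)
open Pool.Agent.Results.MP_a54f13_nt.SharpPowerSpectrum (L opF gauss)

noncomputable section

lemma EE_neg {K : Set ℂ} (a : ℂ → ℝ) : EE K (fun z => - a z) = EE K a := by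
  unfold EE; simp only [enorm_neg]

lemma EE_cm {K : Set ℂ} (c : ℝ) (a : ℂ → ℝ) :
    EE K (fun z => c * a z) = ENNReal.ofReal (c ^ 2) * EE K a := by
  unfold EE
  rw [← lintegral_const_mul' _ _ (by simp)]
  congr 1
  funext z
  rw [enorm_mul, mul_pow, en_sq c]

lemma EE_congr {K : Set ℂ} (hK : MeasurableSet K) {a b : ℂ → ℝ} (h : ∀ z ∈ K, a z = b z) :
    EE K a = EE K b := by
  unfold EE
  refine setLIntegral_congr_fun hK fun z hz => ?_
  simp only [h z hz]

lemma avg_ad {κ : ℂ → ℝ} {s : ℝ} {a b : ℂ → ℝ} {z : ℂ} (ha : Integrable fun v => κ v * a (T s v z))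
    (hb : Integrable fun v => κ v * b (T s v z)) :
    avg κ s (fun w => a w + b w) z = avg κ s a z + avg κ s b z := by
  unfold avg
  rw [← integral_add ha hb]
  congr 1
  funext v
  ring

lemma avg_sb {κ : ℂ → ℝ} {s : ℝ} {a b : ℂ → ℝ} {z : ℂ} (ha : Integrable fun v => κ v * a (T s v z))
    (hb : Integrable fun v => κ v * b (T s v z)) :
    avg κ s (fun w => a w - b w) z = avg κ s a z - avg κ s b z := by
  unfold avg
  rw [← integral_sub ha hb]
  congr 1
  funext v
  ring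

lemma lap_cont {a : ℂ → ℝ} (ha : ContDiff ℝ ∞ a) : Continuous (lap a) :=
  (sm1 (sm1 ha 1) 1).continuous.add (sm1 (sm1 ha I) I).continuous

variable {lam : ℕ → ℝ} {f : ℕ → ℂ → ℝ}

theorem Sy.key (S : Sy lam f) (hb : Bd f) {χ : ℂ → ℝ} {ρ : ℝ} (hχ : ContDiff ℝ ∞ χ)
    (hsu : tsupport χ ⊆ Metric.closedBall 0 ρ) (hρ : 1 ≤ ρ) (hχ1 : ∫ v, χ v = 1)
    {K : Set ℂ} (hK : IsCompact K) (hKH : K ⊆ HH) :
    ∃ C : ℝ, 0 ≤ C ∧ ∀ m : ℕ, 1 ≤ m → ∃ B : ℝ, 0 ≤ B ∧ ∀ R : ℝ, 0 < R →
      Lb (fun n => EE K (fun z => opF (PF m) (lam n) (fun u => f n u ^ 2) z -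
        avg χ (R / √(lam n)) (fun u => f n u ^ 2) z)) (C * JJ m + B / R ^ 4) := by
  obtain ⟨K', hK', hK'H, hKK⟩ := nbhd hK hKH hρ
  obtain ⟨C1, hC1, m1⟩ := S.mid hK hKH
  obtain ⟨C2, hC2, m2⟩ := S.mid hK' hK'H
  obtain ⟨C3, hC3, m3⟩ := S.grd hb hK' hK'H
  obtain ⟨Cw, hCw, hw⟩ := wk_mass hχ hsu
  have hcs : HasCompactSupport χ :=
    HasCompactSupport.of_support_subset_isCompact (isCompact_closedBall (0:ℂ) ρ)
    ((subset_tsupport χ).trans hsu)
  have hχi : Integrable χ := hχ.continuous.integrable_of_hasCompactSupport hcs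
  have hmt : mass χ ≠ ⊤ := hχi.2.ne
  set Mχ : ℝ := (mass χ).toReal with hMχ
  have hM0 : 0 ≤ Mχ := ENNReal.toReal_nonneg
  have hMe : mass χ = ENNReal.ofReal Mχ := (ENNReal.ofReal_toReal hmt).symm
  set W : ℝ := Cw.toReal with hW
  have hW0 : 0 ≤ W := ENNReal.toReal_nonneg
  have hWe : Cw = ENNReal.ofReal W := (ENNReal.ofReal_toReal hCw).symm
  have h0 : ∀ v : ℂ, ρ < ‖v‖ → χ v = 0 := by
    intro v hv
    apply image_eq_zero_of_notMem_tsupport
    intro h
    have := hsu h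
    rw [mem_closedBall_zero_iff] at this
    linarith
  have hpi : 0 < Real.pi := Real.pi_pos
  refine ⟨2 * (C1 * (1 / Real.pi)) + 8 * (2 * Mχ ^ 2 * (C2 * (1 / Real.pi))), by positivity,
    fun m hm => ?_⟩
  obtain ⟨H, hH⟩ := PF_X m
  obtain ⟨B1, hB1, hB⟩ := S.all hb hK' hK'H H
  refine ⟨8 * (2 * W ^ 2 * B1), by positivity, fun R hR => Lb.lim fun δ hδ => ?_⟩
  -- the scale
  set s : ℕ → ℝ := fun n => R / √(lam n) with hs
  have hs0 : ∀ n, 0 < s n := fun n => by
    have := S.pos n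
    simp only [hs]; positivity
  have hs2 : ∀ n, s n ^ 2 = R ^ 2 * (1 / lam n) := fun n => by
    simp only [hs]
    rw [div_pow, Real.sq_sqrt (S.pos n).le]; ring
  have hsl : Tendsto s atTop (𝓝 0) := by
    have h1 : Tendsto (fun n => √(lam n)) atTop atTop := Real.tendsto_sqrt_atTop.comp S.lim
    simpa using (tendsto_const_nhds (x := R)).div_atTop h1
  have hev : ∀ᶠ n in atTop, s n * ρ ≤ 1 / 2 := by
    have h1 : Tendsto (fun n => s n * ρ) atTop (𝓝 0) := by simpa using hsl.mul_const ρ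
    exact (h1.eventually (gt_mem_nhds (by norm_num : (0:ℝ) < 1 / 2))).mono fun n hn => hn.le
  have hs1 : ∀ n, s n * ρ ≤ 1 / 2 → s n ≤ 1 := fun n hn => by
    have := (hs0 n).le
    nlinarith
  have hTK : ∀ n, s n * ρ ≤ 1 / 2 → ∀ v : ℂ, ‖v‖ ≤ ρ → ∀ z ∈ K, T (s n) v z ∈ K' :=
    fun n hn v hv z hz => hKK _ (hs0 n).le hn v hv z hz
  have s2 : ∀ n, ContDiffOn ℝ ∞ (fun u => f n u ^ 2) HH := fun n => (S.sm n).pow 2
  have ops : ∀ (P : Polynomial ℝ) (n : ℕ),
      ContDiffOn ℝ ∞ (opF P (lam n) (fun u => f n u ^ 2)) HH := fun P n => op_sm P (lam n) (s2 n)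
  have hint : ∀ (P : Polynomial ℝ) (n : ℕ), s n * ρ ≤ 1 / 2 → ∀ z ∈ K,
      Integrable fun v => χ v * opF P (lam n) (fun u => f n u ^ 2) (T (s n) v z) :=
    fun P n hn z hz => int_prod hχ.continuous hsu (ops P n).continuousOn
      fun v hv => hK'H (hTK n hn v hv z hz)
  -- choice of k
  set α : ℝ := 2 * Mχ ^ 2 * (2 * R * ρ) ^ 2 with hα
  have hα0 : 0 ≤ α := by positivity
  obtain ⟨k, hmk, hk⟩ : ∃ k, m ≤ k ∧ 4 * (α * (C3 * dd (PF k))) ≤ δ := by
    have h1 : Tendsto (fun k => 4 * (α * (C3 * (4 / Real.pi * JJ k)))) atTop (𝓝 0) := by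
      have := (((JJ_lim.const_mul (4 / Real.pi)).const_mul C3).const_mul α).const_mul 4
      simpa using this
    obtain ⟨k, h2, h3⟩ := ((h1.eventually (gt_mem_nhds hδ)).and (eventually_ge_atTop m)).exists
    refine ⟨k, h3, le_trans ?_ h2.le⟩
    have := dd_le k
    gcongr
  have hk1 : 1 ≤ k := hm.trans hmk
  set Q : Polynomial ℝ := PF m - PF k with hQ
  have hQ0 : Q.eval 0 = 0 := by
    rw [hQ, Polynomial.eval_sub, PF_ev, PF_ev]; simp
  have ev4 : ∀ j : ℕ, 1 ≤ j → (PF j).eval 4 = 0 := fun j hj => by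
    rw [PF_ev]
    norm_num
    omega
  have hQ4 : Q.eval 4 = 0 := by
    rw [hQ, Polynomial.eval_sub, ev4 m hm, ev4 k hk1, sub_zero]
  have hgQ : gauss Q ≤ 1 / Real.pi * JJ m := ga_sub hmk
  -- the four terms
  have t1 : Lb (fun n => EE K (opF Q (lam n) (fun u => f n u ^ 2))) (C1 * gauss Q) :=
    m1 Q hQ0 hQ4
  have t2 : Lb (fun n => EE K (fun z => opF (PF k) (lam n) (fun u => f n u ^ 2) z -
      avg χ (s n) (opF (PF k) (lam n) (fun u => f n u ^ 2)) z)) (α * (C3 * dd (PF k))) := by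
    refine Lb.scale (m3 (PF k) (ev4 k hk1)) hα0 ?_
    filter_upwards [hev] with n hn
    have h2 := avg_diff hχ.continuous.measurable (by linarith : 0 ≤ ρ) h0 hχi hχ1
      hK.measurableSet hK'.measurableSet hK'H (hs0 n).le hn (fun t ht hts v hv z hz =>
        hKK t ht ((mul_le_mul_of_nonneg_right hts (by linarith)).trans hn) v hv z hz)
      (ops (PF k) n) (hint (PF k) n hn)
    refine h2.trans (le_of_eq ?_)
    rw [hMe, ← mul_assoc (ENNReal.ofReal α), ← ENNReal.ofReal_pow hM0,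
      ← ENNReal.ofReal_pow (by have := (hs0 n).le; positivity),
      show (2:ℝ≥0∞) = ENNReal.ofReal 2 by simp,
      ← ENNReal.ofReal_mul (by norm_num), ← ENNReal.ofReal_mul (by positivity),
      ← ENNReal.ofReal_mul hα0]
    congr 2
    have := hs2 n
    calc 2 * Mχ ^ 2 * (2 * s n * ρ) ^ 2 = 2 * Mχ ^ 2 * (4 * ρ ^ 2) * (s n ^ 2) := by ring
      _ = _ := by rw [this, hα]; ring
  have t3 : Lb (fun n => EE K (fun z => -avg χ (s n) (opF Q (lam n) (fun u => f n u ^ 2)) z))
      (2 * Mχ ^ 2 * (C2 * gauss Q)) := by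
    refine Lb.scale (m2 Q hQ0 hQ4) (by positivity) ?_
    filter_upwards [hev] with n hn
    rw [EE_neg]
    have h2 := avg_L2 hχ.continuous.measurable h0 hK.measurableSet hK'.measurableSet hK'H
      (hs0 n).le hn (hTK n hn) (ops Q n).continuousOn
    refine h2.trans (le_of_eq ?_)
    rw [hMe, ← ENNReal.ofReal_pow hM0, show (2:ℝ≥0∞) = ENNReal.ofReal 2 by simp,
      ← ENNReal.ofReal_mul (by norm_num)]
  have t4 : Lb (fun n => EE K (fun z => -avg χ (s n)
      (opF (Polynomial.X * H) (lam n) (fun u => f n u ^ 2)) z)) (2 * W ^ 2 / R ^ 4 * B1) := by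
    refine Lb.scale hB (by positivity) ?_
    filter_upwards [hev] with n hn
    rw [EE_neg]
    have hl := S.pos n
    set h : ℂ → ℝ := opF H (lam n) (fun u => f n u ^ 2) with hh
    have e1 : ∀ z ∈ K, avg χ (s n) (opF (Polynomial.X * H) (lam n) (fun u => f n u ^ 2)) z =
        -(R ^ 2)⁻¹ * avg (lap (wk χ (s n))) (s n) h z := by
      intro z hz
      have h3 := avg_lap hχ hsu (hs0 n) (ops H n) (z := z)
        (fun v hv => hK'H (hTK n hn v hv z hz)) (hKH hz)
      have h4 : avg χ (s n) (opF (Polynomial.X * H) (lam n) (fun u => f n u ^ 2)) z =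
          -(1 / lam n) * avg χ (s n) (fun w => w.im ^ 2 * lap h w) z := by
        unfold avg
        rw [← integral_const_mul]
        congr 1
        funext v
        by_cases hv : ‖v‖ ≤ ρ
        · rw [op_X H (lam n) (s2 n) (hK'H (hTK n hn v hv z hz)), L_eq]
          ring
        · push Not at hv
          rw [h0 v hv]; ring
      rw [h4, h3, hs2 n, ← mul_assoc]
      congr 1
      have hl0 : lam n ≠ 0 := hl.ne'
      field_simp
    rw [EE_congr hK.measurableSet e1, EE_cm]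
    have c1 : Continuous (lap (wk χ (s n))) := lap_cont (wk_sm hχ (s n))
    have c0 : ∀ v : ℂ, ρ < ‖v‖ → lap (wk χ (s n)) v = 0 := by
      intro v hv
      apply lap_out
      intro h5
      have h6 : tsupport (wk χ (s n)) ⊆ tsupport χ := by
        unfold wk
        exact tsupport_mul_subset_left
      have := hsu (h6 h5)
      rw [mem_closedBall_zero_iff] at this
      linarith
    have h2 := avg_L2 c1.measurable c0 hK.measurableSet hK'.measurableSet hK'H
      (hs0 n).le hn (hTK n hn) (ops H n).continuousOn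
    have h7 := hw (s n) (hs0 n).le (hs1 n hn)
    calc ENNReal.ofReal ((-(R ^ 2)⁻¹) ^ 2) * EE K (avg (lap (wk χ (s n))) (s n) h) ≤
        ENNReal.ofReal ((-(R ^ 2)⁻¹) ^ 2) * (2 * Cw ^ 2 * EE K' h) := by
          gcongr
          exact h2.trans (by gcongr)
      _ = _ := by
          rw [hWe, ← ENNReal.ofReal_pow hW0, show (2:ℝ≥0∞) = ENNReal.ofReal 2 by simp,
            ← mul_assoc, ← ENNReal.ofReal_mul (by norm_num), ← ENNReal.ofReal_mul (by positivity)]
          congr 2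
          field_simp
  -- the sum
  have g34 := Lb.add (E := fun n => EE K (fun z =>
      -avg χ (s n) (opF Q (lam n) (fun u => f n u ^ 2)) z +
      -avg χ (s n) (opF (Polynomial.X * H) (lam n) (fun u => f n u ^ 2)) z)) t3 t4
      (by have := ga_nn Q; positivity) (by positivity) (by
    filter_upwards [hev] with n hn
    refine EE_add ?_
    exact (avg_aem hχ.continuous.measurable h0 (ops Q n).continuousOn hK.measurableSet
      fun v hv z hz => hK'H (hTK n hn v hv z hz)).neg)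
  have g234 := Lb.add (E := fun n => EE K (fun z =>
      (opF (PF k) (lam n) (fun u => f n u ^ 2) z -
      avg χ (s n) (opF (PF k) (lam n) (fun u => f n u ^ 2)) z) +
      (-avg χ (s n) (opF Q (lam n) (fun u => f n u ^ 2)) z +
      -avg χ (s n) (opF (Polynomial.X * H) (lam n) (fun u => f n u ^ 2)) z))) t2 g34
      (by have := dd_nn (PF k); positivity) (by have := ga_nn Q; positivity) (by
    filter_upwards [hev] with n hn
    refine EE_add ?_
    exact (((ops (PF k) n).continuousOn.mono hKH).aemeasurable hK.measurableSet).sub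
      (avg_aem hχ.continuous.measurable h0 (ops (PF k) n).continuousOn hK.measurableSet
      fun v hv z hz => hK'H (hTK n hn v hv z hz)))
  have g1234 := Lb.add (E := fun n => EE K (fun z => opF (PF m) (lam n) (fun u => f n u ^ 2) z -
        avg χ (s n) (fun u => f n u ^ 2) z)) t1 g234
      (by have := ga_nn Q; positivity)
      (by have := ga_nn Q; have := dd_nn (PF k); positivity) (by
    filter_upwards [hev] with n hn
    have e5 : ∀ z ∈ K, opF (PF m) (lam n) (fun u => f n u ^ 2) z -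
        avg χ (s n) (fun u => f n u ^ 2) z = opF Q (lam n) (fun u => f n u ^ 2) z +
        ((opF (PF k) (lam n) (fun u => f n u ^ 2) z -
        avg χ (s n) (opF (PF k) (lam n) (fun u => f n u ^ 2)) z) +
        (-avg χ (s n) (opF Q (lam n) (fun u => f n u ^ 2)) z +
        -avg χ (s n) (opF (Polynomial.X * H) (lam n) (fun u => f n u ^ 2)) z)) := by
      intro z hz
      have f1 : (fun u => f n u ^ 2) = fun u => opF (PF m) (lam n) (fun u => f n u ^ 2) u +
          opF (Polynomial.X * H) (lam n) (fun u => f n u ^ 2) u := by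
        funext u
        rw [← op_add, ← hH, add_sub_cancel, op_one]
      have f2 : opF Q (lam n) (fun u => f n u ^ 2) = fun u =>
          opF (PF m) (lam n) (fun u => f n u ^ 2) u - opF (PF k) (lam n) (fun u => f n u ^ 2) u := by
        funext u
        rw [hQ, op_sub]
      have f3 : avg χ (s n) (fun u => f n u ^ 2) z =
          avg χ (s n) (opF (PF m) (lam n) (fun u => f n u ^ 2)) z +
          avg χ (s n) (opF (Polynomial.X * H) (lam n) (fun u => f n u ^ 2)) z := by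
        conv_lhs => rw [f1]
        exact avg_ad (hint (PF m) n hn z hz) (hint _ n hn z hz)
      have f4 : avg χ (s n) (opF Q (lam n) (fun u => f n u ^ 2)) z =
          avg χ (s n) (opF (PF m) (lam n) (fun u => f n u ^ 2)) z -
          avg χ (s n) (opF (PF k) (lam n) (fun u => f n u ^ 2)) z := by
        rw [f2]
        exact avg_sb (hint (PF m) n hn z hz) (hint _ n hn z hz)
      rw [f3, f4, f2]
      ring
    rw [EE_congr hK.measurableSet e5]
    refine EE_add ?_
    exact (((ops Q n).continuousOn.mono hKH).aemeasurable hK.measurableSet))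
  refine g1234.mono ?_
  have w1 : C1 * gauss Q ≤ C1 * (1 / Real.pi * JJ m) := by gcongr
  have w3 : 2 * Mχ ^ 2 * (C2 * gauss Q) ≤ 2 * Mχ ^ 2 * (C2 * (1 / Real.pi * JJ m)) := by gcongr
  have w4 : 2 * W ^ 2 / R ^ 4 * B1 = (2 * W ^ 2 * B1) / R ^ 4 := by ring
  have w5 : 8 * (2 * W ^ 2 * B1) / R ^ 4 = 8 * ((2 * W ^ 2 * B1) / R ^ 4) := by ring
  rw [w4, w5]
  calc 2 * (C1 * gauss Q) + 2 * (2 * (α * (C3 * dd (PF k))) + 2 * (2 * (2 * Mχ ^ 2 * (C2 * gauss Q))
        + 2 * ((2 * W ^ 2 * B1) / R ^ 4)))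
      ≤ 2 * (C1 * (1 / Real.pi * JJ m)) + 2 * (2 * (α * (C3 * dd (PF k))) +
        2 * (2 * (2 * Mχ ^ 2 * (C2 * (1 / Real.pi * JJ m))) + 2 * ((2 * W ^ 2 * B1) / R ^ 4))) := by
        gcongr
    _ = 2 * (C1 * (1 / Real.pi * JJ m)) + 4 * (α * (C3 * dd (PF k))) +
        8 * (2 * Mχ ^ 2 * (C2 * (1 / Real.pi * JJ m))) + 8 * ((2 * W ^ 2 * B1) / R ^ 4) := by ring
    _ ≤ 2 * (C1 * (1 / Real.pi * JJ m)) + δ +
        8 * (2 * Mχ ^ 2 * (C2 * (1 / Real.pi * JJ m))) + 8 * ((2 * W ^ 2 * B1) / R ^ 4) := by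
        gcongr
    _ = _ := by ring

end

end Pool.Agent.K9h11.MV
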