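import Pool.Agent.K9h11.MV.FU

/-!
# The key estimate, local version (helper11)
-/

set_option autoImplicit false

open MeasureTheory Filter Topology Complex Set
open scoped ContDiff ENNReal

namespace Pool.Agent.K9h11.MV

open Pool.Agent.W745.RW Pool.Agent.W366.RW
open Pool.Agent.W249.RW (cdd diffAt grad_int prod_cd)
open Pool.Agent.TH294.RS (sm_lap)
open Pool.Agent.Results.MP_a54f13_nt.SharpPowerSpectrum (L opF gauss)

noncomputable section

variable {lam : ℕ → ℝ} {f : ℕ → ℂ → ℝ} {U : Set ℂ}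

theorem Sy.keyU (S : Sy lam f) (hU : IsOpen U) (hUH : U ⊆ HH) (hb : BdU U f) {χ : ℂ → ℝ} {ρ : ℝ} (hχ : ContDiff ℝ ∞ χ)
    (hsu : tsupport χ ⊆ Metric.closedBall 0 ρ) (hρ : 1 ≤ ρ) (hχ1 : ∫ v, χ v = 1)
    {K : Set ℂ} (hK : IsCompact K) (hKU : K ⊆ U) :
    ∃ C : ℝ, 0 ≤ C ∧ ∀ m : ℕ, 1 ≤ m → ∃ B : ℝ, 0 ≤ B ∧ ∀ R : ℝ, 0 < R →
      Lb (fun n => EE K (fun z => opF (PF m) (lam n) (fun u => f n u ^ 2) z -
        avg χ (R / √(lam n)) (fun u => f n u ^ 2) z)) (C * JJ m + B / R ^ 4) := by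
  obtain ⟨ε, hε, hε2, K', hK', hK'U, hKK⟩ := nbhdU hU hUH hK hKU hρ
  have hKH : K ⊆ HH := hKU.trans hUH
  have hK'H : K' ⊆ HH := hK'U.trans hUH
  obtain ⟨C1, hC1, m1⟩ := S.mid hK hKH
  obtain ⟨C2, hC2, m2⟩ := S.mid hK' hK'H
  obtain ⟨C3, hC3, m3⟩ := S.grdU hU hUH hb hK' hK'U
  obtain ⟨Cw, hCw, hw⟩ := wk_mass hχ hsu
  have hcs : HasCompactSupport χ :=
    HasCompactSupport.of_support_subset_isCompact (isCompact_closedBall (0:ℂ) ρ)
    ((subset_tsupport χ).trans hsu)
  have hχi : Integrable χ := hχ.continuous.integrable_of_hasCompactSupport hcs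
  have hmt : mass χ ≠ ⊤ := hχi.2.ne
  set Mχ : ℝ := (mass χ).toReal with hMχ
  have hM0 : 0 ≤ Mχ := ENNReal.toReal_nonneg
  have hMe : mass χ = ENNReal.ofReal Mχ := (ENNReal.ofReal_toReal hmt).symm
  set W : ℝ := Cw.toReal with hW
  have hW0 : 0 ≤ W := ENNReal.toReal_nonneg
  have hWe : Cw = ENNReal.ofReal W := (ENNReal.ofReal_toReal hCw).symm
  have h0 : ∀ v : ℂ, ρ < ‖v‖ → χ v = 0 := by
    intro v hv
    apply image_eq_zero_of_notMem_tsupport
    intro h
    have := hsu h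
    rw [mem_closedBall_zero_iff] at this
    linarith
  have hpi : 0 < Real.pi := Real.pi_pos
  refine ⟨2 * (C1 * (1 / Real.pi)) + 8 * (2 * Mχ ^ 2 * (C2 * (1 / Real.pi))), by positivity,
    fun m hm => ?_⟩
  obtain ⟨H, hH⟩ := PF_X m
  obtain ⟨B1, hB1, hB⟩ := S.allU hU hUH hb hK' hK'U H
  refine ⟨8 * (2 * W ^ 2 * B1), by positivity, fun R hR => Lb.lim fun δ hδ => ?_⟩
  -- the scale
  set s : ℕ → ℝ := fun n => R / √(lam n) with hs
  have hs0 : ∀ n, 0 < s n := fun n => by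
    have := S.pos n
    simp only [hs]; positivity
  have hs2 : ∀ n, s n ^ 2 = R ^ 2 * (1 / lam n) := fun n => by
    simp only [hs]
    rw [div_pow, Real.sq_sqrt (S.pos n).le]; ring
  have hsl : Tendsto s atTop (𝓝 0) := by
    have h1 : Tendsto (fun n => √(lam n)) atTop atTop := Real.tendsto_sqrt_atTop.comp S.lim
    simpa using (tendsto_const_nhds (x := R)).div_atTop h1
  have hev : ∀ᶠ n in atTop, s n * ρ ≤ ε := by
    have h1 : Tendsto (fun n => s n * ρ) atTop (𝓝 0) := by simpa using hsl.mul_const ρ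
    exact (h1.eventually (gt_mem_nhds hε)).mono fun n hn => hn.le
  have hs1 : ∀ n, s n * ρ ≤ ε → s n ≤ 1 := fun n hn => by
    have := (hs0 n).le
    nlinarith
  have hTK : ∀ n, s n * ρ ≤ ε → ∀ v : ℂ, ‖v‖ ≤ ρ → ∀ z ∈ K, T (s n) v z ∈ K' :=
    fun n hn v hv z hz => hKK _ (hs0 n).le hn v hv z hz
  have s2 : ∀ n, ContDiffOn ℝ ∞ (fun u => f n u ^ 2) HH := fun n => (S.sm n).pow 2
  have ops : ∀ (P : Polynomial ℝ) (n : ℕ),
      ContDiffOn ℝ ∞ (opF P (lam n) (fun u => f n u ^ 2)) HH := fun P n => op_sm P (lam n) (s2 n)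
  have hint : ∀ (P : Polynomial ℝ) (n : ℕ), s n * ρ ≤ ε → ∀ z ∈ K,
      Integrable fun v => χ v * opF P (lam n) (fun u => f n u ^ 2) (T (s n) v z) :=
    fun P n hn z hz => int_prod hχ.continuous hsu (ops P n).continuousOn
      fun v hv => hK'H (hTK n hn v hv z hz)
  -- choice of k
  set α : ℝ := 2 * Mχ ^ 2 * (2 * R * ρ) ^ 2 with hα
  have hα0 : 0 ≤ α := by positivity
  obtain ⟨k, hmk, hk⟩ : ∃ k, m ≤ k ∧ 4 * (α * (C3 * dd (PF k))) ≤ δ := by
    have h1 : Tendsto (fun k => 4 * (α * (C3 * (4 / Real.pi * JJ k)))) atTop (𝓝 0) := by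
      have := (((JJ_lim.const_mul (4 / Real.pi)).const_mul C3).const_mul α).const_mul 4
      simpa using this
    obtain ⟨k, h2, h3⟩ := ((h1.eventually (gt_mem_nhds hδ)).and (eventually_ge_atTop m)).exists
    refine ⟨k, h3, le_trans ?_ h2.le⟩
    have := dd_le k
    gcongr
  have hk1 : 1 ≤ k := hm.trans hmk
  set Q : Polynomial ℝ := PF m - PF k with hQ
  have hQ0 : Q.eval 0 = 0 := by
    rw [hQ, Polynomial.eval_sub, PF_ev, PF_ev]; simp
  have ev4 : ∀ j : ℕ, 1 ≤ j → (PF j).eval 4 = 0 := fun j hj => by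
    rw [PF_ev]
    norm_num
    omega
  have hQ4 : Q.eval 4 = 0 := by
    rw [hQ, Polynomial.eval_sub, ev4 m hm, ev4 k hk1, sub_zero]
  have hgQ : gauss Q ≤ 1 / Real.pi * JJ m := ga_sub hmk
  -- the four terms
  have t1 : Lb (fun n => EE K (opF Q (lam n) (fun u => f n u ^ 2))) (C1 * gauss Q) :=
    m1 Q hQ0 hQ4
  have t2 : Lb (fun n => EE K (fun z => opF (PF k) (lam n) (fun u => f n u ^ 2) z -
      avg χ (s n) (opF (PF k) (lam n) (fun u => f n u ^ 2)) z)) (α * (C3 * dd (PF k))) := by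
    refine Lb.scale (m3 (PF k) (ev4 k hk1)) hα0 ?_
    filter_upwards [hev] with n hn
    have h2 := avg_diff hχ.continuous.measurable (by linarith : 0 ≤ ρ) h0 hχi hχ1
      hK.measurableSet hK'.measurableSet hK'H (hs0 n).le (hn.trans hε2) (fun t ht hts v hv z hz =>
        hKK t ht ((mul_le_mul_of_nonneg_right hts (by linarith)).trans hn) v hv z hz)
      (ops (PF k) n) (hint (PF k) n hn)
    refine h2.trans (le_of_eq ?_)
    rw [hMe, ← mul_assoc (ENNReal.ofReal α), ← ENNReal.ofReal_pow hM0,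
      ← ENNReal.ofReal_pow (by have := (hs0 n).le; positivity),
      show (2:ℝ≥0∞) = ENNReal.ofReal 2 by simp,
      ← ENNReal.ofReal_mul (by norm_num), ← ENNReal.ofReal_mul (by positivity),
      ← ENNReal.ofReal_mul hα0]
    congr 2
    have := hs2 n
    calc 2 * Mχ ^ 2 * (2 * s n * ρ) ^ 2 = 2 * Mχ ^ 2 * (4 * ρ ^ 2) * (s n ^ 2) := by ring
      _ = _ := by rw [this, hα]; ring
  have t3 : Lb (fun n => EE K (fun z => -avg χ (s n) (opF Q (lam n) (fun u => f n u ^ 2)) z))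
      (2 * Mχ ^ 2 * (C2 * gauss Q)) := by
    refine Lb.scale (m2 Q hQ0 hQ4) (by positivity) ?_
    filter_upwards [hev] with n hn
    rw [EE_neg]
    have h2 := avg_L2 hχ.continuous.measurable h0 hK.measurableSet hK'.measurableSet hK'H
      (hs0 n).le (hn.trans hε2) (hTK n hn) (ops Q n).continuousOn
    refine h2.trans (le_of_eq ?_)
    rw [hMe, ← ENNReal.ofReal_pow hM0, show (2:ℝ≥0∞) = ENNReal.ofReal 2 by simp,
      ← ENNReal.ofReal_mul (by norm_num)]
  have t4 : Lb (fun n => EE K (fun z => -avg χ (s n)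
      (opF (Polynomial.X * H) (lam n) (fun u => f n u ^ 2)) z)) (2 * W ^ 2 / R ^ 4 * B1) := by
    refine Lb.scale hB (by positivity) ?_
    filter_upwards [hev] with n hn
    rw [EE_neg]
    have hl := S.pos n
    set h : ℂ → ℝ := opF H (lam n) (fun u => f n u ^ 2) with hh
    have e1 : ∀ z ∈ K, avg χ (s n) (opF (Polynomial.X * H) (lam n) (fun u => f n u ^ 2)) z =
        -(R ^ 2)⁻¹ * avg (lap (wk χ (s n))) (s n) h z := by
      intro z hz
      have h3 := avg_lap hχ hsu (hs0 n) (ops H n) (z := z)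
        (fun v hv => hK'H (hTK n hn v hv z hz)) (hKH hz)
      have h4 : avg χ (s n) (opF (Polynomial.X * H) (lam n) (fun u => f n u ^ 2)) z =
          -(1 / lam n) * avg χ (s n) (fun w => w.im ^ 2 * lap h w) z := by
        unfold avg
        rw [← integral_const_mul]
        congr 1
        funext v
        by_cases hv : ‖v‖ ≤ ρ
        · rw [op_X H (lam n) (s2 n) (hK'H (hTK n hn v hv z hz)), L_eq]
          ring
        · push Not at hv
          rw [h0 v hv]; ring
      rw [h4, h3, hs2 n, ← mul_assoc]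
      congr 1
      have hl0 : lam n ≠ 0 := hl.ne'
      field_simp
    rw [EE_congr hK.measurableSet e1, EE_cm]
    have c1 : Continuous (lap (wk χ (s n))) := lap_cont (wk_sm hχ (s n))
    have c0 : ∀ v : ℂ, ρ < ‖v‖ → lap (wk χ (s n)) v = 0 := by
      intro v hv
      apply lap_out
      intro h5
      have h6 : tsupport (wk χ (s n)) ⊆ tsupport χ := by
        unfold wk
        exact tsupport_mul_subset_left
      have := hsu (h6 h5)
      rw [mem_closedBall_zero_iff] at this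
      linarith
    have h2 := avg_L2 c1.measurable c0 hK.measurableSet hK'.measurableSet hK'H
      (hs0 n).le (hn.trans hε2) (hTK n hn) (ops H n).continuousOn
    have h7 := hw (s n) (hs0 n).le (hs1 n hn)
    calc ENNReal.ofReal ((-(R ^ 2)⁻¹) ^ 2) * EE K (avg (lap (wk χ (s n))) (s n) h) ≤
        ENNReal.ofReal ((-(R ^ 2)⁻¹) ^ 2) * (2 * Cw ^ 2 * EE K' h) := by
          gcongr
          exact h2.trans (by gcongr)
      _ = _ := by
          rw [hWe, ← ENNReal.ofReal_pow hW0, show (2:ℝ≥0∞) = ENNReal.ofReal 2 by simp,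
            ← mul_assoc, ← ENNReal.ofReal_mul (by norm_num), ← ENNReal.ofReal_mul (by positivity)]
          congr 2
          field_simp
  -- the sum
  have g34 := Lb.add (E := fun n => EE K (fun z =>
      -avg χ (s n) (opF Q (lam n) (fun u => f n u ^ 2)) z +
      -avg χ (s n) (opF (Polynomial.X * H) (lam n) (fun u => f n u ^ 2)) z)) t3 t4
      (by have := ga_nn Q; positivity) (by positivity) (by
    filter_upwards [hev] with n hn
    refine EE_add ?_
    exact (avg_aem hχ.continuous.measurable h0 (ops Q n).continuousOn hK.measurableSet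
      fun v hv z hz => hK'H (hTK n hn v hv z hz)).neg)
  have g234 := Lb.add (E := fun n => EE K (fun z =>
      (opF (PF k) (lam n) (fun u => f n u ^ 2) z -
      avg χ (s n) (opF (PF k) (lam n) (fun u => f n u ^ 2)) z) +
      (-avg χ (s n) (opF Q (lam n) (fun u => f n u ^ 2)) z +
      -avg χ (s n) (opF (Polynomial.X * H) (lam n) (fun u => f n u ^ 2)) z))) t2 g34
      (by have := dd_nn (PF k); positivity) (by have := ga_nn Q; positivity) (by
    filter_upwards [hev] with n hn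
    refine EE_add ?_
    exact (((ops (PF k) n).continuousOn.mono hKH).aemeasurable hK.measurableSet).sub
      (avg_aem hχ.continuous.measurable h0 (ops (PF k) n).continuousOn hK.measurableSet
      fun v hv z hz => hK'H (hTK n hn v hv z hz)))
  have g1234 := Lb.add (E := fun n => EE K (fun z => opF (PF m) (lam n) (fun u => f n u ^ 2) z -
        avg χ (s n) (fun u => f n u ^ 2) z)) t1 g234
      (by have := ga_nn Q; positivity)
      (by have := ga_nn Q; have := dd_nn (PF k); positivity) (by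
    filter_upwards [hev] with n hn
    have e5 : ∀ z ∈ K, opF (PF m) (lam n) (fun u => f n u ^ 2) z -
        avg χ (s n) (fun u => f n u ^ 2) z = opF Q (lam n) (fun u => f n u ^ 2) z +
        ((opF (PF k) (lam n) (fun u => f n u ^ 2) z -
        avg χ (s n) (opF (PF k) (lam n) (fun u => f n u ^ 2)) z) +
        (-avg χ (s n) (opF Q (lam n) (fun u => f n u ^ 2)) z +
        -avg χ (s n) (opF (Polynomial.X * H) (lam n) (fun u => f n u ^ 2)) z)) := by
      intro z hz
      have f1 : (fun u => f n u ^ 2) = fun u => opF (PF m) (lam n) (fun u => f n u ^ 2) u +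
          opF (Polynomial.X * H) (lam n) (fun u => f n u ^ 2) u := by
        funext u
        rw [← op_add, ← hH, add_sub_cancel, op_one]
      have f2 : opF Q (lam n) (fun u => f n u ^ 2) = fun u =>
          opF (PF m) (lam n) (fun u => f n u ^ 2) u - opF (PF k) (lam n) (fun u => f n u ^ 2) u := by
        funext u
        rw [hQ, op_sub]
      have f3 : avg χ (s n) (fun u => f n u ^ 2) z =
          avg χ (s n) (opF (PF m) (lam n) (fun u => f n u ^ 2)) z +
          avg χ (s n) (opF (Polynomial.X * H) (lam n) (fun u => f n u ^ 2)) z := by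
        conv_lhs => rw [f1]
        exact avg_ad (hint (PF m) n hn z hz) (hint _ n hn z hz)
      have f4 : avg χ (s n) (opF Q (lam n) (fun u => f n u ^ 2)) z =
          avg χ (s n) (opF (PF m) (lam n) (fun u => f n u ^ 2)) z -
          avg χ (s n) (opF (PF k) (lam n) (fun u => f n u ^ 2)) z := by
        rw [f2]
        exact avg_sb (hint (PF m) n hn z hz) (hint _ n hn z hz)
      rw [f3, f4, f2]
      ring
    rw [EE_congr hK.measurableSet e5]
    refine EE_add ?_
    exact (((ops Q n).continuousOn.mono hKH).aemeasurable hK.measurableSet))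
  refine g1234.mono ?_
  have w1 : C1 * gauss Q ≤ C1 * (1 / Real.pi * JJ m) := by gcongr
  have w3 : 2 * Mχ ^ 2 * (C2 * gauss Q) ≤ 2 * Mχ ^ 2 * (C2 * (1 / Real.pi * JJ m)) := by gcongr
  have w4 : 2 * W ^ 2 / R ^ 4 * B1 = (2 * W ^ 2 * B1) / R ^ 4 := by ring
  have w5 : 8 * (2 * W ^ 2 * B1) / R ^ 4 = 8 * ((2 * W ^ 2 * B1) / R ^ 4) := by ring
  rw [w4, w5]
  calc 2 * (C1 * gauss Q) + 2 * (2 * (α * (C3 * dd (PF k))) + 2 * (2 * (2 * Mχ ^ 2 * (C2 * gauss Q))
        + 2 * ((2 * W ^ 2 * B1) / R ^ 4)))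
      ≤ 2 * (C1 * (1 / Real.pi * JJ m)) + 2 * (2 * (α * (C3 * dd (PF k))) +
        2 * (2 * (2 * Mχ ^ 2 * (C2 * (1 / Real.pi * JJ m))) + 2 * ((2 * W ^ 2 * B1) / R ^ 4))) := by
        gcongr
    _ = 2 * (C1 * (1 / Real.pi * JJ m)) + 4 * (α * (C3 * dd (PF k))) +
        8 * (2 * Mχ ^ 2 * (C2 * (1 / Real.pi * JJ m))) + 8 * ((2 * W ^ 2 * B1) / R ^ 4) := by ring
    _ ≤ 2 * (C1 * (1 / Real.pi * JJ m)) + δ +
        8 * (2 * Mχ ^ 2 * (C2 * (1 / Real.pi * JJ m))) + 8 * ((2 * W ^ 2 * B1) / R ^ 4) := by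
        gcongr
    _ = _ := by ring

/-- the terms with a factor `L` have mean zero in the limit -/
lemma Sy.linU (S : Sy lam f) (hU : IsOpen U) (hUH : U ⊆ HH) (hb : BdU U f) {w : ℂ → ℝ}
    (hwU : TF U w) (H : Polynomial ℝ) :
    Tendsto (fun n => ∫ z, w z * opF (Polynomial.X * H) (lam n) (fun u => f n u ^ 2) z) atTop
      (𝓝 0) := by
  have sy : ContDiffOn ℝ ∞ (fun z : ℂ => z.im ^ 2) HH := (imCLM.contDiff.pow 2).contDiffOn
  have hw : TF HH w := TFm hUH hwU
  set φ : ℂ → ℝ := fun z => w z * z.im ^ 2 with hφ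
  have tφU : TF U φ := Pool.Agent.TH294.RS.TF.mulc hU hwU (sy.mono hUH)
  have tφ : TF HH φ := TFm hUH tφU
  obtain ⟨ζ, V, hζU, -, hKV, h1, -, -⟩ := cut_nearU hU tφU.2.1 tφU.2.2
  have hζ : TF HH ζ := TFm hUH hζU
  obtain ⟨B, hB0, hB⟩ := S.bddU hUH hb (TF_sqU hU hζU) (fun z => mul_self_nonneg _) H
  have hlc : Continuous (lap φ) := lap_cont tφ.1
  have i1 : Integrable fun z => lap φ z ^ 2 := by
    refine (hlc.pow 2).integrable_of_hasCompactSupport
      (HasCompactSupport.of_support_subset_isCompact tφ.2.1 fun z hz => ?_)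
    by_contra h
    exact hz (by simp [lap_out h])
  have hbd : ∀ᶠ n in atTop, ‖∫ z, w z * opF (Polynomial.X * H) (lam n) (fun u => f n u ^ 2) z‖ ≤
      (1 / lam n) * ((∫ z, lap φ z ^ 2) + B) := by
    filter_upwards [hB] with n hn
    have hl := S.pos n
    have s2 : ContDiffOn ℝ ∞ (fun u => f n u ^ 2) HH := (S.sm n).pow 2
    set h : ℂ → ℝ := opF H (lam n) (fun u => f n u ^ 2) with hh
    have sh : ContDiffOn ℝ ∞ h HH := op_sm H (lam n) s2
    have e1 : ∫ z, w z * opF (Polynomial.X * H) (lam n) (fun u => f n u ^ 2) z =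
        -(1 / lam n) * ∫ z, lap φ z * h z := by
      rw [← green HHo tφ sh, ← integral_const_mul]
      congr 1
      funext z
      by_cases hz : z ∈ HH
      · rw [op_X H (lam n) s2 hz, L_eq]
        simp only [hφ]
        ring
      · have : w z = 0 := Pool.Agent.TH294.RS.TF.zero hw hz
        simp [hφ, this]
    have i2 : Integrable fun z => (ζ z * ζ z) * h z ^ 2 := int_w (TF_sq hζ) (sh.pow 2)
    rw [e1, norm_mul, norm_neg, Real.norm_of_nonneg (by positivity)]
    gcongr 1 / lam n * ?_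
    calc ‖∫ z, lap φ z * h z‖ ≤ ∫ z, ‖lap φ z * h z‖ := norm_integral_le_integral_norm _
      _ ≤ ∫ z, (lap φ z ^ 2 + (ζ z * ζ z) * h z ^ 2) := by
          refine integral_mono_of_nonneg (ae_of_all _ fun z => norm_nonneg _) (i1.add i2)
            (ae_of_all _ fun z => ?_)
          simp only
          by_cases hz : z ∈ tsupport φ
          · rw [h1 z (hKV hz), Real.norm_eq_abs, abs_le]
            constructor
            · nlinarith [sq_nonneg (lap φ z + h z), sq_nonneg (lap φ z), sq_nonneg (h z)]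
            · nlinarith [sq_nonneg (lap φ z - h z), sq_nonneg (lap φ z), sq_nonneg (h z)]
          · rw [lap_out hz]
            have := mul_nonneg (mul_self_nonneg (ζ z)) (sq_nonneg (h z))
            simpa using this
      _ = (∫ z, lap φ z ^ 2) + ∫ z, (ζ z * ζ z) * h z ^ 2 := integral_add i1 i2
      _ ≤ _ := by linarith
  refine squeeze_zero_norm' hbd ?_
  have h3 : Tendsto (fun n => 1 / lam n) atTop (𝓝 0) := by
    simp only [one_div]
    exact tendsto_inv_atTop_zero.comp S.lim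
  simpa using h3.mul_const ((∫ z, lap φ z ^ 2) + B)

/-- the variance of the low frequencies -/
lemma Sy.varU (S : Sy lam f) (hU : IsOpen U) (hUH : U ⊆ HH) (hb : BdU U f) {w : ℂ → ℝ}
    (hwU : TF U w) {m : ℕ} (hm : 1 ≤ m) :
    Tendsto (fun n => (∫ z, w z * (opF (PF m) (lam n) (fun u => f n u ^ 2) z - 1) ^ 2) -
      2 / 3 * ((∫ z, w z * f n z ^ 4) - 3 * ∫ z, w z)) atTop
      (𝓝 (1 / Real.pi * JJ m * ∫ z, w z)) := by
  have hw : TF HH w := TFm hUH hwU
  have h1 := S.sp w hw (PF m)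
  rw [ga_PF] at h1
  have e0 : (PF m).eval 0 = 1 := by rw [PF_ev]; simp
  have e4 : (PF m).eval 4 = 0 := by
    rw [PF_ev]
    norm_num
    omega
  rw [e0, e4] at h1
  obtain ⟨H, hH⟩ := PF_X m
  have h2 := (S.q0 w hw).sub (S.linU hU hUH hb hwU H)
  have h3 := (h1.sub (h2.const_mul 2)).add_const (∫ z, w z)
  have e : (1 + 1 / Real.pi * JJ m) * (∫ z, w z) - 2 * ((∫ z, w z) - 0) + ∫ z, w z =
      1 / Real.pi * JJ m * ∫ z, w z := by ring
  rw [e] at h3
  refine h3.congr fun n => ?_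
  have s2 : ContDiffOn ℝ ∞ (fun u => f n u ^ 2) HH := (S.sm n).pow 2
  have sP := op_sm (PF m) (lam n) s2
  have sX := op_sm (Polynomial.X * H) (lam n) s2
  have i0 : Integrable w := hw.1.continuous.integrable_of_hasCompactSupport hw.2.1
  have i1 : Integrable fun z => w z * opF (PF m) (lam n) (fun u => f n u ^ 2) z ^ 2 :=
    int_w hw (sP.pow 2)
  have i2 : Integrable fun z => w z * f n z ^ 2 := int_w hw s2
  have i3 : Integrable fun z => w z * opF (Polynomial.X * H) (lam n) (fun u => f n u ^ 2) z :=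
    int_w hw sX
  have k : ∫ z, w z * (opF (PF m) (lam n) (fun u => f n u ^ 2) z - 1) ^ 2 =
      (∫ z, w z * opF (PF m) (lam n) (fun u => f n u ^ 2) z ^ 2) -
      2 * ((∫ z, w z * f n z ^ 2) -
      ∫ z, w z * opF (Polynomial.X * H) (lam n) (fun u => f n u ^ 2) z) + ∫ z, w z := by
    have i23 : Integrable fun z => 2 * (w z * f n z ^ 2 -
        w z * opF (Polynomial.X * H) (lam n) (fun u => f n u ^ 2) z) := (i2.sub i3).const_mul 2
    have i123 : Integrable fun z => w z * opF (PF m) (lam n) (fun u => f n u ^ 2) z ^ 2 -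
        2 * (w z * f n z ^ 2 - w z * opF (Polynomial.X * H) (lam n) (fun u => f n u ^ 2) z) :=
      i1.sub i23
    rw [← integral_sub i2 i3, ← integral_const_mul, ← integral_sub i1 i23, ← integral_add i123 i0]
    congr 1
    funext z
    have h5 : opF (PF m) (lam n) (fun u => f n u ^ 2) z = f n z ^ 2 -
        opF (Polynomial.X * H) (lam n) (fun u => f n u ^ 2) z := by
      have : opF (1 : Polynomial ℝ) (lam n) (fun u => f n u ^ 2) z = f n z ^ 2 := op_one _ _ _
      rw [← this, ← op_sub, ← hH, sub_sub_cancel]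
    rw [h5]
    ring
  rw [k]
  ring

/-- **Part (A)** -/
theorem Sy.partAU (S : Sy lam f) (hU : IsOpen U) (hUH : U ⊆ HH) (hb : BdU U f) {χ : ℂ → ℝ} {ρ : ℝ} (hχ : ContDiff ℝ ∞ χ)
    (hsu : tsupport χ ⊆ Metric.closedBall 0 ρ) (hρ : 1 ≤ ρ) (hχ1 : ∫ v, χ v = 1)
    {w : ℂ → ℝ} (hwU : TF U w) (hw0 : ∀ z, 0 ≤ w z) {δ : ℝ} (hδ : 0 < δ) :
    ∃ R₀ : ℝ, 0 < R₀ ∧ ∀ R, R₀ ≤ R → ∀ᶠ n in atTop,
      |(∫ z, w z * (avg χ (R / √(lam n)) (fun u => f n u ^ 2) z - 1) ^ 2) -
        2 / 3 * ((∫ z, w z * f n z ^ 4) - 3 * ∫ z, w z)| ≤ δ := by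
  have hw : TF HH w := TFm hUH hwU
  obtain ⟨M, hM⟩ := hw.1.continuous.bounded_above_of_compact_support hw.2.1
  have hM0 : 0 ≤ M := (norm_nonneg _).trans (hM 0)
  have hW : 0 ≤ ∫ z, w z := integral_nonneg hw0
  obtain ⟨C, hC0, hC⟩ := S.keyU hU hUH hb hχ hsu hρ hχ1 hwU.2.1 hwU.2.2
  have i4 : ∀ n, Integrable fun z => w z * f n z ^ 4 := fun n => int_w hw ((S.sm n).pow 4)
  -- fourth moments are bounded
  obtain ⟨C4, hC4⟩ : ∃ C4 : ℝ, ∀ᶠ n in atTop, ∫ z, w z * f n z ^ 4 ≤ C4 := by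
    obtain ⟨B, hB0, hB⟩ := S.bddU hUH hb hwU hw0 1
    refine ⟨B, ?_⟩
    filter_upwards [hB] with n hn
    have : ∀ z, w z * opF 1 (lam n) (fun u => f n u ^ 2) z ^ 2 = w z * f n z ^ 4 := by
      intro z
      rw [op_one]; ring
    simp only [this] at hn
    exact hn
  set Q0 : ℝ := 2 / 3 * |C4| + (2 + ∫ z, w z) with hQ0
  have hQ00 : 0 < Q0 := by positivity
  set τ : ℝ := δ / (8 * Q0) with hτ
  have hτ0 : 0 < τ := by positivity
  have hτQ : τ * Q0 = δ / 8 := by rw [hτ]; field_simp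
  -- choice of m
  have hl1 : Tendsto (fun m => (1 / τ + 1) * (M * (C * JJ m))) atTop (𝓝 0) := by
    simpa using ((JJ_lim.const_mul C).const_mul M).const_mul (1 / τ + 1)
  have hl2 : Tendsto (fun m => 1 / Real.pi * JJ m * ∫ z, w z) atTop (𝓝 0) := by
    simpa using (JJ_lim.const_mul (1 / Real.pi)).mul_const (∫ z, w z)
  have hδ8 : 0 < min (δ / 8) 1 := by positivity
  obtain ⟨m, ⟨hm1, hm2⟩, hm⟩ := (((hl1.eventually (gt_mem_nhds hδ8)).and
    (hl2.eventually (gt_mem_nhds hδ8))).and (eventually_ge_atTop 1)).exists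
  obtain ⟨B, hB0, hB⟩ := hC m hm
  -- choice of R
  have hl3 : Tendsto (fun R : ℝ => (1 / τ + 1) * (M * (B / R ^ 4))) atTop (𝓝 0) := by
    have h1 : Tendsto (fun R : ℝ => B / R ^ 4) atTop (𝓝 0) :=
      tendsto_const_nhds.div_atTop (tendsto_pow_atTop (by norm_num))
    simpa using (h1.const_mul M).const_mul (1 / τ + 1)
  obtain ⟨R₀, hR₀⟩ := (((hl3.eventually (gt_mem_nhds hδ8)).and
    (eventually_gt_atTop (0:ℝ))).exists_forall_of_atTop)
  refine ⟨max R₀ 1, by positivity, fun R hR => ?_⟩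
  obtain ⟨hR1, hR2⟩ := hR₀ R ((le_max_left _ _).trans hR)
  -- choice of η
  set η : ℝ := δ / (8 * ((1 / τ + 1) * (M + 1))) with hη
  have hη0 : 0 < η := by positivity
  have hηb : (1 / τ + 1) * (M * η) ≤ δ / 8 := by
    have h1 : (1 / τ + 1) * ((M + 1) * η) = δ / 8 := by
      rw [hη]; field_simp
    have h2 : (1 / τ + 1) * (M * η) ≤ (1 / τ + 1) * ((M + 1) * η) := by
      gcongr; linarith
    linarith
  have h5 := hB R hR2 η hη0
  have h6 := S.varU hU hUH hb hwU hm
  have h7 := h6.eventually (Metric.ball_mem_nhds _ hδ8)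
  obtain ⟨K', hK', hK'H, hKK⟩ := nbhd hw.2.1 hw.2.2 hρ
  have hsl : Tendsto (fun n => R / √(lam n)) atTop (𝓝 0) := by
    have h1 : Tendsto (fun n => √(lam n)) atTop atTop := Real.tendsto_sqrt_atTop.comp S.lim
    simpa using (tendsto_const_nhds (x := R)).div_atTop h1
  have hev : ∀ᶠ n in atTop, R / √(lam n) * ρ ≤ 1 / 2 := by
    have h1 : Tendsto (fun n => R / √(lam n) * ρ) atTop (𝓝 0) := by simpa using hsl.mul_const ρ
    exact (h1.eventually (gt_mem_nhds (by norm_num : (0:ℝ) < 1 / 2))).mono fun n hn => hn.le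
  have h0 : ∀ v : ℂ, ρ < ‖v‖ → χ v = 0 := by
    intro v hv
    apply image_eq_zero_of_notMem_tsupport
    intro h
    have := hsu h
    rw [mem_closedBall_zero_iff] at this
    linarith
  filter_upwards [h5, h7, hC4, hev] with n a5 a7 a4 hn
  have s2 : ContDiffOn ℝ ∞ (fun u => f n u ^ 2) HH := (S.sm n).pow 2
  have sP := op_sm (PF m) (lam n) s2
  have hsn : 0 ≤ R / √(lam n) := by positivity
  have hd : AEMeasurable (fun z => opF (PF m) (lam n) (fun u => f n u ^ 2) z -
      avg χ (R / √(lam n)) (fun u => f n u ^ 2) z) (volume.restrict (tsupport w)) :=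
    ((sP.continuousOn.mono hw.2.2).aemeasurable (isClosed_tsupport w).measurableSet).sub
      (avg_aem hχ.continuous.measurable h0 s2.continuousOn (isClosed_tsupport w).measurableSet
      fun v hv z hz => hK'H (hKK _ hsn hn v hv z hz))
  have hJ := JJ_nn m
  have hc : 0 ≤ C * JJ m + B / R ^ 4 + η := by positivity
  have h8 := cmp hw hw0 (a := fun z => opF (PF m) (lam n) (fun u => f n u ^ 2) z - 1)
    (sP.sub contDiffOn_const) hd hM hc a5 hτ0
  have e8 : ∀ z, opF (PF m) (lam n) (fun u => f n u ^ 2) z - 1 -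
      (opF (PF m) (lam n) (fun u => f n u ^ 2) z - avg χ (R / √(lam n)) (fun u => f n u ^ 2) z) =
      avg χ (R / √(lam n)) (fun u => f n u ^ 2) z - 1 := fun z => by ring
  simp only [e8] at h8
  set q : ℝ := ∫ z, w z * (opF (PF m) (lam n) (fun u => f n u ^ 2) z - 1) ^ 2 with hq
  set D : ℝ := ∫ z, w z * (avg χ (R / √(lam n)) (fun u => f n u ^ 2) z - 1) ^ 2 with hD
  set E : ℝ := 2 / 3 * ((∫ z, w z * f n z ^ 4) - 3 * ∫ z, w z) with hE
  have b1 : |q - E - 1 / Real.pi * JJ m * ∫ z, w z| < min (δ / 8) 1 := a7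
  have b2 := hm2.trans_le (min_le_left _ _)
  have b3 : 0 ≤ 1 / Real.pi * JJ m * ∫ z, w z := by positivity
  have b4 : q ≤ Q0 := by
    have c1 := (abs_lt.1 b1).2
    have c2 := min_le_right (δ / 8) 1
    have c3 := hm2.trans_le (min_le_right _ _)
    have c4 : C4 ≤ |C4| := le_abs_self _
    have c5 : E ≤ 2 / 3 * |C4| - 2 * ∫ z, w z := by
      rw [hE]; linarith
    have c6 : |C4| ≥ 0 := abs_nonneg _
    have c7 : q < E + 2 := by linarith
    linarith
  have b5 : (1 / τ + 1) * (M * (C * JJ m + B / R ^ 4 + η)) ≤ δ / 8 + δ / 8 + δ / 8 := by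
    have c1 := hm1.trans_le (min_le_left _ _)
    have c2 := hR1.trans_le (min_le_left _ _)
    have c3 : (1 / τ + 1) * (M * (C * JJ m + B / R ^ 4 + η)) =
        (1 / τ + 1) * (M * (C * JJ m)) + (1 / τ + 1) * (M * (B / R ^ 4)) +
        (1 / τ + 1) * (M * η) := by ring
    rw [c3]
    linarith
  have b6 : τ * q ≤ δ / 8 := by
    rw [← hτQ]; gcongr
  have b7 : |q - E| ≤ δ / 8 + δ / 8 := by
    have c1 := abs_lt.1 (b1.trans_le (min_le_left _ _))
    rw [abs_le]
    constructor <;> linarith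
  calc |D - E| = |(D - q) + (q - E)| := by ring_nf
    _ ≤ |D - q| + |q - E| := abs_add_le _ _
    _ ≤ δ := by linarith

end

end Pool.Agent.K9h11.MV
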