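import Pool.Agent.K9h11.MV.H

/-!
# The formula for the variance of the averages (helper11)
-/

set_option autoImplicit false

open MeasureTheory Filter Topology Complex Set
open scoped ContDiff ENNReal

namespace Pool.Agent.K9h11.MV

open Pool.Agent.W745.RW Pool.Agent.W366.RW
open Pool.Agent.W249.RW (cdd diffAt grad_int prod_cd)
open Pool.Agent.TH294.RS (sm_lap)
open Pool.Agent.Results.MP_a54f13_nt.SharpPowerSpectrum (L opF gauss)

noncomputable section

/-- integrability of the weighted square -/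
lemma int_sq {w d : ℂ → ℝ} (hw : TF HH w) (hd : AEMeasurable d (volume.restrict (tsupport w)))
    (hE : EE (tsupport w) d ≠ ⊤) : Integrable fun z => w z * d z ^ 2 := by
  have hK : MeasurableSet (tsupport w) := (isClosed_tsupport w).measurableSet
  obtain ⟨M, hM⟩ := hw.1.continuous.bounded_above_of_compact_support hw.2.1
  have hsup : Function.support (fun z => w z * d z ^ 2) ⊆ tsupport w := by
    intro z hz
    by_contra h
    exact hz (by simp [image_eq_zero_of_notMem_tsupport h])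
  rw [← integrableOn_iff_integrable_of_support_subset hsup]
  refine ⟨(hw.1.continuous.measurable.aemeasurable.mul (hd.pow_const 2)).aestronglyMeasurable, ?_⟩
  refine lt_of_le_of_lt (b := ENNReal.ofReal M * EE (tsupport w) d) ?_
    (ENNReal.mul_lt_top (by simp) (lt_top_iff_ne_top.2 hE))
  unfold EE
  rw [← lintegral_const_mul' _ _ (by simp)]
  refine lintegral_mono fun z => ?_
  simp only
  rw [enorm_mul, enorm_pow]
  gcongr
  rw [← ofReal_norm]
  exact ENNReal.ofReal_le_ofReal (hM z)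

lemma sq_le {w d : ℂ → ℝ} (hw : TF HH w) (hw0 : ∀ z, 0 ≤ w z)
    (hd : AEMeasurable d (volume.restrict (tsupport w))) {M c : ℝ} (hM : ∀ z, ‖w z‖ ≤ M)
    (hc : 0 ≤ c) (hE : EE (tsupport w) d ≤ ENNReal.ofReal c) :
    ∫ z, w z * d z ^ 2 ≤ M * c := by
  have hM0 : 0 ≤ M := (norm_nonneg _).trans (hM 0)
  have hK : MeasurableSet (tsupport w) := (isClosed_tsupport w).measurableSet
  have hi := int_sq hw hd (ne_top_of_le_ne_top (by simp) hE)
  rw [← ENNReal.ofReal_le_ofReal_iff (by positivity)]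
  rw [ofReal_integral_eq_lintegral_ofReal hi (ae_of_all _ fun z =>
    mul_nonneg (hw0 z) (sq_nonneg _))]
  have e : ∫⁻ z, ENNReal.ofReal (w z * d z ^ 2) =
      ∫⁻ z in tsupport w, ENNReal.ofReal (w z * d z ^ 2) := by
    rw [← lintegral_indicator hK]
    congr 1
    funext z
    by_cases hz : z ∈ tsupport w
    · rw [indicator_of_mem hz]
    · rw [indicator_of_notMem hz, image_eq_zero_of_notMem_tsupport hz]; simp
  rw [e, ENNReal.ofReal_mul hM0]
  calc ∫⁻ z in tsupport w, ENNReal.ofReal (w z * d z ^ 2) ≤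
      ∫⁻ z in tsupport w, ENNReal.ofReal M * ‖d z‖ₑ ^ 2 := by
        refine lintegral_mono fun z => ?_
        simp only
        rw [en_sq, ← ENNReal.ofReal_mul hM0]
        apply ENNReal.ofReal_le_ofReal
        have := hM z
        rw [Real.norm_of_nonneg (hw0 z)] at this
        gcongr
    _ = ENNReal.ofReal M * EE (tsupport w) d := by
        rw [lintegral_const_mul' _ _ (by simp)]; rfl
    _ ≤ _ := by gcongr

/-- comparison of mean squares -/
lemma cmp {w a d : ℂ → ℝ} (hw : TF HH w) (hw0 : ∀ z, 0 ≤ w z) (ha : ContDiffOn ℝ ∞ a HH)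
    (hd : AEMeasurable d (volume.restrict (tsupport w))) {M c τ : ℝ} (hM : ∀ z, ‖w z‖ ≤ M)
    (hc : 0 ≤ c) (hE : EE (tsupport w) d ≤ ENNReal.ofReal c) (hτ : 0 < τ) :
    |(∫ z, w z * (a z - d z) ^ 2) - ∫ z, w z * a z ^ 2| ≤
      τ * (∫ z, w z * a z ^ 2) + (1 / τ + 1) * (M * c) := by
  have i1 : Integrable fun z => w z * a z ^ 2 := int_w hw (ha.pow 2)
  have i2 := int_sq hw hd (ne_top_of_le_ne_top (by simp) hE)
  have h2 := sq_le hw hw0 hd hM hc hE
  have hK : MeasurableSet (tsupport w) := (isClosed_tsupport w).measurableSet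
  have i3 : Integrable fun z => w z * (a z * d z) := by
    have hsup : Function.support (fun z => w z * (a z * d z)) ⊆ tsupport w := by
      intro z hz
      by_contra h
      exact hz (by simp [image_eq_zero_of_notMem_tsupport h])
    rw [← integrableOn_iff_integrable_of_support_subset hsup]
    refine Integrable.mono' ((i1.add i2).integrableOn) ?_ (ae_of_all _ fun z => ?_)
    · exact (hw.1.continuous.measurable.aemeasurable.mul
        (((ha.continuousOn.mono hw.2.2).aemeasurable hK).mul hd)).aestronglyMeasurable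
    · simp only [Pi.add_apply]
      rw [norm_mul, Real.norm_of_nonneg (hw0 z), ← mul_add]
      apply mul_le_mul_of_nonneg_left _ (hw0 z)
      rw [Real.norm_eq_abs, abs_le]
      constructor
      · nlinarith [sq_nonneg (a z + d z), sq_nonneg (a z), sq_nonneg (d z)]
      · nlinarith [sq_nonneg (a z - d z), sq_nonneg (a z), sq_nonneg (d z)]
  have e1 : ∫ z, w z * (a z - d z) ^ 2 = (∫ z, w z * a z ^ 2) - 2 * (∫ z, w z * (a z * d z)) +
      ∫ z, w z * d z ^ 2 := by
    have i13 : Integrable fun z => w z * a z ^ 2 - 2 * (w z * (a z * d z)) :=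
      i1.sub (i3.const_mul 2)
    rw [← integral_const_mul, ← integral_sub i1 (i3.const_mul 2), ← integral_add i13 i2]
    congr 1
    funext z
    ring
  have h3 : |2 * ∫ z, w z * (a z * d z)| ≤ τ * (∫ z, w z * a z ^ 2) +
      1 / τ * ∫ z, w z * d z ^ 2 := by
    rw [← integral_const_mul, ← integral_const_mul, ← integral_const_mul,
      ← integral_add (i1.const_mul τ) (i2.const_mul _)]
    refine (abs_integral_le_integral_abs).trans (integral_mono (i3.const_mul 2).abs
      ((i1.const_mul τ).add (i2.const_mul _)) fun z => ?_)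
    have k : |2 * (a z * d z)| ≤ τ * a z ^ 2 + 1 / τ * d z ^ 2 := by
      rw [abs_le]
      have hτ0 : τ ≠ 0 := hτ.ne'
      have k1 : τ * a z ^ 2 + 1 / τ * d z ^ 2 + 2 * (a z * d z) =
          1 / τ * (τ * a z + d z) ^ 2 := by field_simp; ring
      have k2 : τ * a z ^ 2 + 1 / τ * d z ^ 2 - 2 * (a z * d z) =
          1 / τ * (τ * a z - d z) ^ 2 := by field_simp; ring
      have k3 : 0 ≤ 1 / τ * (τ * a z + d z) ^ 2 := by positivity
      have k4 : 0 ≤ 1 / τ * (τ * a z - d z) ^ 2 := by positivity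
      constructor <;> linarith
    calc |2 * (w z * (a z * d z))| = w z * |2 * (a z * d z)| := by
          rw [show 2 * (w z * (a z * d z)) = w z * (2 * (a z * d z)) by ring, abs_mul,
            abs_of_nonneg (hw0 z)]
      _ ≤ w z * (τ * a z ^ 2 + 1 / τ * d z ^ 2) := mul_le_mul_of_nonneg_left k (hw0 z)
      _ = _ := by ring
  have h4 : 0 ≤ ∫ z, w z * d z ^ 2 := integral_nonneg fun z => mul_nonneg (hw0 z) (sq_nonneg _)
  rw [e1]
  have h5 : (∫ z, w z * a z ^ 2) - 2 * (∫ z, w z * (a z * d z)) + (∫ z, w z * d z ^ 2) -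
      ∫ z, w z * a z ^ 2 = -(2 * ∫ z, w z * (a z * d z)) + ∫ z, w z * d z ^ 2 := by ring
  rw [h5]
  have h6 : 1 / τ * (∫ z, w z * d z ^ 2) ≤ 1 / τ * (M * c) := by gcongr
  calc |-(2 * ∫ z, w z * (a z * d z)) + ∫ z, w z * d z ^ 2| ≤
      |-(2 * ∫ z, w z * (a z * d z))| + |∫ z, w z * d z ^ 2| := abs_add_le _ _
    _ ≤ (τ * (∫ z, w z * a z ^ 2) + 1 / τ * ∫ z, w z * d z ^ 2) + ∫ z, w z * d z ^ 2 := by
        rw [abs_neg, abs_of_nonneg h4]; linarith
    _ ≤ _ := by linarith

variable {lam : ℕ → ℝ} {f : ℕ → ℂ → ℝ}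

/-- the terms with a factor `L` have mean zero in the limit -/
lemma Sy.lin (S : Sy lam f) (hb : Bd f) {w : ℂ → ℝ} (hw : TF HH w) (H : Polynomial ℝ) :
    Tendsto (fun n => ∫ z, w z * opF (Polynomial.X * H) (lam n) (fun u => f n u ^ 2) z) atTop
      (𝓝 0) := by
  have sy : ContDiffOn ℝ ∞ (fun z : ℂ => z.im ^ 2) HH := (imCLM.contDiff.pow 2).contDiffOn
  set φ : ℂ → ℝ := fun z => w z * z.im ^ 2 with hφ
  have tφ : TF HH φ := Pool.Agent.TH294.RS.TF.mulc HHo hw sy
  obtain ⟨ζ, V, hζ, -, hKV, h1, -, -⟩ := cut_near tφ.2.1 tφ.2.2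
  obtain ⟨B, hB0, hB⟩ := S.bdd hb (TF_sq hζ) (fun z => mul_self_nonneg _) H
  have hlc : Continuous (lap φ) := lap_cont tφ.1
  have i1 : Integrable fun z => lap φ z ^ 2 := by
    refine (hlc.pow 2).integrable_of_hasCompactSupport
      (HasCompactSupport.of_support_subset_isCompact tφ.2.1 fun z hz => ?_)
    by_contra h
    exact hz (by simp [lap_out h])
  have hbd : ∀ᶠ n in atTop, ‖∫ z, w z * opF (Polynomial.X * H) (lam n) (fun u => f n u ^ 2) z‖ ≤
      (1 / lam n) * ((∫ z, lap φ z ^ 2) + B) := by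
    filter_upwards [hB] with n hn
    have hl := S.pos n
    have s2 : ContDiffOn ℝ ∞ (fun u => f n u ^ 2) HH := (S.sm n).pow 2
    set h : ℂ → ℝ := opF H (lam n) (fun u => f n u ^ 2) with hh
    have sh : ContDiffOn ℝ ∞ h HH := op_sm H (lam n) s2
    have e1 : ∫ z, w z * opF (Polynomial.X * H) (lam n) (fun u => f n u ^ 2) z =
        -(1 / lam n) * ∫ z, lap φ z * h z := by
      rw [← green HHo tφ sh, ← integral_const_mul]
      congr 1
      funext z
      by_cases hz : z ∈ HH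
      · rw [op_X H (lam n) s2 hz, L_eq]
        simp only [hφ]
        ring
      · have : w z = 0 := Pool.Agent.TH294.RS.TF.zero hw hz
        simp [hφ, this]
    have i2 : Integrable fun z => (ζ z * ζ z) * h z ^ 2 := int_w (TF_sq hζ) (sh.pow 2)
    rw [e1, norm_mul, norm_neg, Real.norm_of_nonneg (by positivity)]
    gcongr 1 / lam n * ?_
    calc ‖∫ z, lap φ z * h z‖ ≤ ∫ z, ‖lap φ z * h z‖ := norm_integral_le_integral_norm _
      _ ≤ ∫ z, (lap φ z ^ 2 + (ζ z * ζ z) * h z ^ 2) := by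
          refine integral_mono_of_nonneg (ae_of_all _ fun z => norm_nonneg _) (i1.add i2)
            (ae_of_all _ fun z => ?_)
          simp only
          by_cases hz : z ∈ tsupport φ
          · rw [h1 z (hKV hz), Real.norm_eq_abs, abs_le]
            constructor
            · nlinarith [sq_nonneg (lap φ z + h z), sq_nonneg (lap φ z), sq_nonneg (h z)]
            · nlinarith [sq_nonneg (lap φ z - h z), sq_nonneg (lap φ z), sq_nonneg (h z)]
          · rw [lap_out hz]
            have := mul_nonneg (mul_self_nonneg (ζ z)) (sq_nonneg (h z))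
            simpa using this
      _ = (∫ z, lap φ z ^ 2) + ∫ z, (ζ z * ζ z) * h z ^ 2 := integral_add i1 i2
      _ ≤ _ := by linarith
  refine squeeze_zero_norm' hbd ?_
  have h3 : Tendsto (fun n => 1 / lam n) atTop (𝓝 0) := by
    simp only [one_div]
    exact tendsto_inv_atTop_zero.comp S.lim
  simpa using h3.mul_const ((∫ z, lap φ z ^ 2) + B)

/-- the variance of the low frequencies -/
lemma Sy.var (S : Sy lam f) (hb : Bd f) {w : ℂ → ℝ} (hw : TF HH w) {m : ℕ} (hm : 1 ≤ m) :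
    Tendsto (fun n => (∫ z, w z * (opF (PF m) (lam n) (fun u => f n u ^ 2) z - 1) ^ 2) -
      2 / 3 * ((∫ z, w z * f n z ^ 4) - 3 * ∫ z, w z)) atTop
      (𝓝 (1 / Real.pi * JJ m * ∫ z, w z)) := by
  have h1 := S.sp w hw (PF m)
  rw [ga_PF] at h1
  have e0 : (PF m).eval 0 = 1 := by rw [PF_ev]; simp
  have e4 : (PF m).eval 4 = 0 := by
    rw [PF_ev]
    norm_num
    omega
  rw [e0, e4] at h1
  obtain ⟨H, hH⟩ := PF_X m
  have h2 := (S.q0 w hw).sub (S.lin hb hw H)
  have h3 := (h1.sub (h2.const_mul 2)).add_const (∫ z, w z)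
  have e : (1 + 1 / Real.pi * JJ m) * (∫ z, w z) - 2 * ((∫ z, w z) - 0) + ∫ z, w z =
      1 / Real.pi * JJ m * ∫ z, w z := by ring
  rw [e] at h3
  refine h3.congr fun n => ?_
  have s2 : ContDiffOn ℝ ∞ (fun u => f n u ^ 2) HH := (S.sm n).pow 2
  have sP := op_sm (PF m) (lam n) s2
  have sX := op_sm (Polynomial.X * H) (lam n) s2
  have i0 : Integrable w := hw.1.continuous.integrable_of_hasCompactSupport hw.2.1
  have i1 : Integrable fun z => w z * opF (PF m) (lam n) (fun u => f n u ^ 2) z ^ 2 :=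
    int_w hw (sP.pow 2)
  have i2 : Integrable fun z => w z * f n z ^ 2 := int_w hw s2
  have i3 : Integrable fun z => w z * opF (Polynomial.X * H) (lam n) (fun u => f n u ^ 2) z :=
    int_w hw sX
  have k : ∫ z, w z * (opF (PF m) (lam n) (fun u => f n u ^ 2) z - 1) ^ 2 =
      (∫ z, w z * opF (PF m) (lam n) (fun u => f n u ^ 2) z ^ 2) -
      2 * ((∫ z, w z * f n z ^ 2) -
      ∫ z, w z * opF (Polynomial.X * H) (lam n) (fun u => f n u ^ 2) z) + ∫ z, w z := by
    have i23 : Integrable fun z => 2 * (w z * f n z ^ 2 -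
        w z * opF (Polynomial.X * H) (lam n) (fun u => f n u ^ 2) z) := (i2.sub i3).const_mul 2
    have i123 : Integrable fun z => w z * opF (PF m) (lam n) (fun u => f n u ^ 2) z ^ 2 -
        2 * (w z * f n z ^ 2 - w z * opF (Polynomial.X * H) (lam n) (fun u => f n u ^ 2) z) :=
      i1.sub i23
    rw [← integral_sub i2 i3, ← integral_const_mul, ← integral_sub i1 i23, ← integral_add i123 i0]
    congr 1
    funext z
    have h5 : opF (PF m) (lam n) (fun u => f n u ^ 2) z = f n z ^ 2 -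
        opF (Polynomial.X * H) (lam n) (fun u => f n u ^ 2) z := by
      have : opF (1 : Polynomial ℝ) (lam n) (fun u => f n u ^ 2) z = f n z ^ 2 := op_one _ _ _
      rw [← this, ← op_sub, ← hH, sub_sub_cancel]
    rw [h5]
    ring
  rw [k]
  ring

/-- **Part (A)** -/
theorem Sy.partA (S : Sy lam f) (hb : Bd f) {χ : ℂ → ℝ} {ρ : ℝ} (hχ : ContDiff ℝ ∞ χ)
    (hsu : tsupport χ ⊆ Metric.closedBall 0 ρ) (hρ : 1 ≤ ρ) (hχ1 : ∫ v, χ v = 1)
    {w : ℂ → ℝ} (hw : TF HH w) (hw0 : ∀ z, 0 ≤ w z) {δ : ℝ} (hδ : 0 < δ) :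
    ∃ R₀ : ℝ, 0 < R₀ ∧ ∀ R, R₀ ≤ R → ∀ᶠ n in atTop,
      |(∫ z, w z * (avg χ (R / √(lam n)) (fun u => f n u ^ 2) z - 1) ^ 2) -
        2 / 3 * ((∫ z, w z * f n z ^ 4) - 3 * ∫ z, w z)| ≤ δ := by
  obtain ⟨M, hM⟩ := hw.1.continuous.bounded_above_of_compact_support hw.2.1
  have hM0 : 0 ≤ M := (norm_nonneg _).trans (hM 0)
  have hW : 0 ≤ ∫ z, w z := integral_nonneg hw0
  obtain ⟨C, hC0, hC⟩ := S.key hb hχ hsu hρ hχ1 hw.2.1 hw.2.2
  have i4 : ∀ n, Integrable fun z => w z * f n z ^ 4 := fun n => int_w hw ((S.sm n).pow 4)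
  -- fourth moments are bounded
  obtain ⟨C4, hC4⟩ : ∃ C4 : ℝ, ∀ᶠ n in atTop, ∫ z, w z * f n z ^ 4 ≤ C4 := by
    obtain ⟨B, hB0, hB⟩ := S.bdd hb hw hw0 1
    refine ⟨B, ?_⟩
    filter_upwards [hB] with n hn
    have : ∀ z, w z * opF 1 (lam n) (fun u => f n u ^ 2) z ^ 2 = w z * f n z ^ 4 := by
      intro z
      rw [op_one]; ring
    simp only [this] at hn
    exact hn
  set Q0 : ℝ := 2 / 3 * |C4| + (2 + ∫ z, w z) with hQ0
  have hQ00 : 0 < Q0 := by positivity
  set τ : ℝ := δ / (8 * Q0) with hτ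
  have hτ0 : 0 < τ := by positivity
  have hτQ : τ * Q0 = δ / 8 := by rw [hτ]; field_simp
  -- choice of m
  have hl1 : Tendsto (fun m => (1 / τ + 1) * (M * (C * JJ m))) atTop (𝓝 0) := by
    simpa using ((JJ_lim.const_mul C).const_mul M).const_mul (1 / τ + 1)
  have hl2 : Tendsto (fun m => 1 / Real.pi * JJ m * ∫ z, w z) atTop (𝓝 0) := by
    simpa using (JJ_lim.const_mul (1 / Real.pi)).mul_const (∫ z, w z)
  have hδ8 : 0 < min (δ / 8) 1 := by positivity
  obtain ⟨m, ⟨hm1, hm2⟩, hm⟩ := (((hl1.eventually (gt_mem_nhds hδ8)).and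
    (hl2.eventually (gt_mem_nhds hδ8))).and (eventually_ge_atTop 1)).exists
  obtain ⟨B, hB0, hB⟩ := hC m hm
  -- choice of R
  have hl3 : Tendsto (fun R : ℝ => (1 / τ + 1) * (M * (B / R ^ 4))) atTop (𝓝 0) := by
    have h1 : Tendsto (fun R : ℝ => B / R ^ 4) atTop (𝓝 0) :=
      tendsto_const_nhds.div_atTop (tendsto_pow_atTop (by norm_num))
    simpa using (h1.const_mul M).const_mul (1 / τ + 1)
  obtain ⟨R₀, hR₀⟩ := (((hl3.eventually (gt_mem_nhds hδ8)).and
    (eventually_gt_atTop (0:ℝ))).exists_forall_of_atTop)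
  refine ⟨max R₀ 1, by positivity, fun R hR => ?_⟩
  obtain ⟨hR1, hR2⟩ := hR₀ R ((le_max_left _ _).trans hR)
  -- choice of η
  set η : ℝ := δ / (8 * ((1 / τ + 1) * (M + 1))) with hη
  have hη0 : 0 < η := by positivity
  have hηb : (1 / τ + 1) * (M * η) ≤ δ / 8 := by
    have h1 : (1 / τ + 1) * ((M + 1) * η) = δ / 8 := by
      rw [hη]; field_simp
    have h2 : (1 / τ + 1) * (M * η) ≤ (1 / τ + 1) * ((M + 1) * η) := by
      gcongr; linarith
    linarith
  have h5 := hB R hR2 η hη0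
  have h6 := S.var hb hw hm
  have h7 := h6.eventually (Metric.ball_mem_nhds _ hδ8)
  obtain ⟨K', hK', hK'H, hKK⟩ := nbhd hw.2.1 hw.2.2 hρ
  have hsl : Tendsto (fun n => R / √(lam n)) atTop (𝓝 0) := by
    have h1 : Tendsto (fun n => √(lam n)) atTop atTop := Real.tendsto_sqrt_atTop.comp S.lim
    simpa using (tendsto_const_nhds (x := R)).div_atTop h1
  have hev : ∀ᶠ n in atTop, R / √(lam n) * ρ ≤ 1 / 2 := by
    have h1 : Tendsto (fun n => R / √(lam n) * ρ) atTop (𝓝 0) := by simpa using hsl.mul_const ρ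
    exact (h1.eventually (gt_mem_nhds (by norm_num : (0:ℝ) < 1 / 2))).mono fun n hn => hn.le
  have h0 : ∀ v : ℂ, ρ < ‖v‖ → χ v = 0 := by
    intro v hv
    apply image_eq_zero_of_notMem_tsupport
    intro h
    have := hsu h
    rw [mem_closedBall_zero_iff] at this
    linarith
  filter_upwards [h5, h7, hC4, hev] with n a5 a7 a4 hn
  have s2 : ContDiffOn ℝ ∞ (fun u => f n u ^ 2) HH := (S.sm n).pow 2
  have sP := op_sm (PF m) (lam n) s2
  have hsn : 0 ≤ R / √(lam n) := by positivity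
  have hd : AEMeasurable (fun z => opF (PF m) (lam n) (fun u => f n u ^ 2) z -
      avg χ (R / √(lam n)) (fun u => f n u ^ 2) z) (volume.restrict (tsupport w)) :=
    ((sP.continuousOn.mono hw.2.2).aemeasurable (isClosed_tsupport w).measurableSet).sub
      (avg_aem hχ.continuous.measurable h0 s2.continuousOn (isClosed_tsupport w).measurableSet
      fun v hv z hz => hK'H (hKK _ hsn hn v hv z hz))
  have hJ := JJ_nn m
  have hc : 0 ≤ C * JJ m + B / R ^ 4 + η := by positivity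
  have h8 := cmp hw hw0 (a := fun z => opF (PF m) (lam n) (fun u => f n u ^ 2) z - 1)
    (sP.sub contDiffOn_const) hd hM hc a5 hτ0
  have e8 : ∀ z, opF (PF m) (lam n) (fun u => f n u ^ 2) z - 1 -
      (opF (PF m) (lam n) (fun u => f n u ^ 2) z - avg χ (R / √(lam n)) (fun u => f n u ^ 2) z) =
      avg χ (R / √(lam n)) (fun u => f n u ^ 2) z - 1 := fun z => by ring
  simp only [e8] at h8
  set q : ℝ := ∫ z, w z * (opF (PF m) (lam n) (fun u => f n u ^ 2) z - 1) ^ 2 with hq
  set D : ℝ := ∫ z, w z * (avg χ (R / √(lam n)) (fun u => f n u ^ 2) z - 1) ^ 2 with hD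
  set E : ℝ := 2 / 3 * ((∫ z, w z * f n z ^ 4) - 3 * ∫ z, w z) with hE
  have b1 : |q - E - 1 / Real.pi * JJ m * ∫ z, w z| < min (δ / 8) 1 := a7
  have b2 := hm2.trans_le (min_le_left _ _)
  have b3 : 0 ≤ 1 / Real.pi * JJ m * ∫ z, w z := by positivity
  have b4 : q ≤ Q0 := by
    have c1 := (abs_lt.1 b1).2
    have c2 := min_le_right (δ / 8) 1
    have c3 := hm2.trans_le (min_le_right _ _)
    have c4 : C4 ≤ |C4| := le_abs_self _
    have c5 : E ≤ 2 / 3 * |C4| - 2 * ∫ z, w z := by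
      rw [hE]; linarith
    have c6 : |C4| ≥ 0 := abs_nonneg _
    have c7 : q < E + 2 := by linarith
    linarith
  have b5 : (1 / τ + 1) * (M * (C * JJ m + B / R ^ 4 + η)) ≤ δ / 8 + δ / 8 + δ / 8 := by
    have c1 := hm1.trans_le (min_le_left _ _)
    have c2 := hR1.trans_le (min_le_left _ _)
    have c3 : (1 / τ + 1) * (M * (C * JJ m + B / R ^ 4 + η)) =
        (1 / τ + 1) * (M * (C * JJ m)) + (1 / τ + 1) * (M * (B / R ^ 4)) +
        (1 / τ + 1) * (M * η) := by ring
    rw [c3]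
    linarith
  have b6 : τ * q ≤ δ / 8 := by
    rw [← hτQ]; gcongr
  have b7 : |q - E| ≤ δ / 8 + δ / 8 := by
    have c1 := abs_lt.1 (b1.trans_le (min_le_left _ _))
    rw [abs_le]
    constructor <;> linarith
  calc |D - E| = |(D - q) + (q - E)| := by ring_nf
    _ ≤ |D - q| + |q - E| := abs_add_le _ _
    _ ≤ δ := by linarith

end

end Pool.Agent.K9h11.MV
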