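import Pool.Agent.K9h11.MV.I

/-!
# Local bounds for the fourth moments by the averages (helper11)
-/

set_option autoImplicit false

open MeasureTheory Filter Topology Complex Set
open scoped ContDiff ENNReal

namespace Pool.Agent.K9h11.MV

open Pool.Agent.W745.RW Pool.Agent.W366.RW
open Pool.Agent.W249.RW (cdd diffAt grad_int prod_cd cut_tf cut_M cut_one cut_supp cut_sq l4_low
  l2_up b1)
open Pool.Agent.TH294.RS (sm_lap energy1)

noncomputable section

/-- a local bound for the fourth moment -/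
theorem loc4 : ∃ C : ℝ, 0 ≤ C ∧ ∀ (l : ℝ) (f : ℂ → ℝ), 0 ≤ l → ContDiffOn ℝ ∞ f HH →
    (∀ z ∈ HH, z.im ^ 2 * lap f z + l * f z = 0) → ∀ (c : ℂ) (h y0 : ℝ), 0 < h → 0 < y0 →
    (∀ z ∈ Metric.closedBall c (3 / 2 * h), y0 ≤ z.im) →
    ∫ z in Metric.ball c h, f z ^ 4 ≤ C * (1 / h ^ 2 + l / y0 ^ 2) *
      (∫ z in Metric.closedBall c (3 / 2 * h), f z ^ 2) ^ 2 := by
  obtain ⟨CL, hL⟩ := Pool.Agent.W404.RW.L.main
  obtain ⟨M, hM0, hM⟩ := cut_M b1
  refine ⟨|CL| * (M + 1), by positivity, fun l f hl hf heq c h y0 hh hy hB => ?_⟩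
  set B : Set ℂ := Metric.closedBall c (3 / 2 * h) with hBd
  have hBH : B ⊆ HH := fun z hz => lt_of_lt_of_le hy (hB z hz)
  have hBm : MeasurableSet B := Metric.isClosed_closedBall.measurableSet
  set ζ : ℂ → ℝ := Pool.Agent.W249.RW.cut b1 c h with hζd
  have hζ : TF HH ζ := cut_tf b1 c hh (B := HH) hBH
  have hsu : tsupport ζ ⊆ B := cut_supp b1 c hh
  have h1 : ∀ z ∈ Metric.ball c h, ζ z = 1 := fun z hz => by
    refine cut_one b1 c hh ?_
    show z ∈ Metric.ball c (1 * h)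
    rwa [one_mul]
  have hcd := prod_cd HHo hζ hf
  have hcs : HasCompactSupport (fun w => ζ w * f w) := hζ.2.1.mul_right
  have iB : IntegrableOn (fun z => f z ^ 2) B :=
    ((hf.continuousOn.mono hBH).pow 2).integrableOn_compact (isCompact_closedBall _ _)
  have a1 : ∫ z in Metric.ball c h, f z ^ 4 ≤ ∫ z, (ζ z * f z) ^ 4 :=
    l4_low hcd.continuous hζ.2.1 measurableSet_ball h1
  have a2 := hL (fun w => ζ w * f w) (hcd.of_le (by simp)) hcs
  have a3 : ∫ z, (ζ z * f z) ^ 2 ≤ ∫ z in B, f z ^ 2 := l2_up (cut_sq b1 c h) hsu iB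
  have a4 := energy1 HHo 1 hf hζ
  set D : ℝ := ∫ z, (dx (fun w => ζ w * f w) z ^ 2 + dy (fun w => ζ w * f w) z ^ 2) with hD
  have hD0 : 0 ≤ D := integral_nonneg fun z => by positivity
  set A : ℝ := ∫ z in B, f z ^ 2 with hA
  have hA0 : 0 ≤ A := integral_nonneg fun z => by positivity
  set m : ℝ := M / h ^ 2 + l / y0 ^ 2 with hm
  have hm0 : 0 ≤ m := by positivity
  have a5 : D ≤ m * A := by
    have e1 : D = ∫ z, (1 ^ 2 * (dx ζ z ^ 2 + dy ζ z ^ 2) * f z ^ 2 -
        ζ z ^ 2 * (f z * (1 ^ 2 * lap f z))) := by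
      rw [← a4]; ring
    have z0 : ∀ z, z ∉ B → 1 ^ 2 * (dx ζ z ^ 2 + dy ζ z ^ 2) * f z ^ 2 -
        ζ z ^ 2 * (f z * (1 ^ 2 * lap f z)) = 0 := by
      intro z hz
      have h8 : z ∉ tsupport ζ := fun h => hz (hsu h)
      have a1 : ζ z = 0 := image_eq_zero_of_notMem_tsupport h8
      have a2 : dx ζ z = 0 := by
        unfold dx
        rw [fderiv_of_notMem_tsupport ℝ h8]
        rfl
      have a3 : dy ζ z = 0 := by
        unfold dy
        rw [fderiv_of_notMem_tsupport ℝ h8]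
        rfl
      rw [a1, a2, a3]; ring
    rw [e1, ← setIntegral_eq_integral_of_forall_compl_eq_zero z0, hA, ← integral_const_mul]
    have pt : ∀ z ∈ B, 1 ^ 2 * (dx ζ z ^ 2 + dy ζ z ^ 2) * f z ^ 2 -
        ζ z ^ 2 * (f z * (1 ^ 2 * lap f z)) = (dx ζ z ^ 2 + dy ζ z ^ 2) * f z ^ 2 +
        ζ z ^ 2 * (l / z.im ^ 2) * f z ^ 2 := by
      intro z hz
      have h3 := heq z (hBH hz)
      have h4 : z.im ≠ 0 := ne_of_gt (hBH hz)
      have h5 : lap f z = -(l * f z) / z.im ^ 2 := by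
        field_simp
        linarith
      rw [h5]
      field_simp
      ring
    have pt2 : ∀ z ∈ B, (dx ζ z ^ 2 + dy ζ z ^ 2) * f z ^ 2 +
        ζ z ^ 2 * (l / z.im ^ 2) * f z ^ 2 ≤ m * f z ^ 2 := by
      intro z hz
      have h3 := hM h hh c z
      have h4 : dx ζ z ^ 2 + dy ζ z ^ 2 ≤ M / h ^ 2 := by
        rw [le_div_iff₀ (by positivity)]
        have := sq_nonneg (ζ z)
        simp only [hζd] at this ⊢
        linarith
      have h5 : ζ z ^ 2 * (l / z.im ^ 2) ≤ 1 * (l / y0 ^ 2) := by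
        have := hB z hz
        have h6 := cut_sq b1 c h z
        gcongr
      rw [← add_mul, hm]
      gcongr
      linarith
    refine setIntegral_mono_on ?_ (iB.const_mul m) hBm fun z hz => ?_
    · have c1 : ContDiffOn ℝ ∞ (lap f) HH := sm_lap HHo hf
      have c2 : Continuous fun z => dx ζ z ^ 2 + dy ζ z ^ 2 :=
        ((sm1 hζ.1 1).continuous.pow 2).add ((sm1 hζ.1 I).continuous.pow 2)
      refine ContinuousOn.integrableOn_compact (isCompact_closedBall _ _) ?_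
      exact ((continuousOn_const.mul c2.continuousOn).mul
        ((hf.continuousOn.mono hBH).pow 2)).sub
        ((hζ.1.continuous.continuousOn.pow 2).mul ((hf.continuousOn.mono hBH).mul
          (continuousOn_const.mul (c1.continuousOn.mono hBH))))
    · rw [pt z hz]; exact pt2 z hz
  have a6 : m ≤ (M + 1) * (1 / h ^ 2 + l / y0 ^ 2) := by
    have h1 : 0 ≤ 1 / h ^ 2 := by positivity
    have h2 : 0 ≤ l / y0 ^ 2 := by positivity
    have h3 : M / h ^ 2 = M * (1 / h ^ 2) := by ring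
    rw [hm, h3]
    nlinarith
  have a7 : 0 ≤ ∫ z, (ζ z * f z) ^ 2 := integral_nonneg fun z => sq_nonneg _
  calc ∫ z in Metric.ball c h, f z ^ 4 ≤ ∫ z, (ζ z * f z) ^ 4 := a1
    _ ≤ CL * (∫ z, (ζ z * f z) ^ 2) * D := a2
    _ ≤ |CL| * (∫ z, (ζ z * f z) ^ 2) * D := by
        gcongr; exact le_abs_self _
    _ ≤ |CL| * A * (m * A) := by gcongr
    _ ≤ |CL| * A * (((M + 1) * (1 / h ^ 2 + l / y0 ^ 2)) * A) := by gcongr
    _ = _ := by ring

/-- local masses are bounded by the averages -/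
theorem avg_low {χ : ℂ → ℝ} {ρ : ℝ} (hχ : Continuous χ) (hχ0 : ∀ v, 0 ≤ χ v)
    (hsu : tsupport χ ⊆ Metric.closedBall 0 ρ) {v0 : ℂ} {r0 c0 : ℝ} (hc0 : 0 < c0)
    (hχc : ∀ v ∈ Metric.closedBall v0 r0, c0 ≤ χ v) {s : ℝ} (hs : 0 < s) {g : ℂ → ℝ}
    (hg : ContinuousOn g HH) (hg0 : ∀ z, 0 ≤ g z) {z : ℂ} (hz : ∀ v : ℂ, ‖v‖ ≤ ρ → T s v z ∈ HH)
    (hz0 : 0 < z.im) :
    c0 * ∫ u in Metric.closedBall (T s v0 z) (s * z.im * r0), g u ≤
      (s * z.im) ^ 2 * avg χ s g z := by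
  set r : ℝ := s * z.im with hr
  have hr' : 0 < r := by positivity
  set A : Set ℂ := Metric.closedBall (T s v0 z) (r * r0) with hA
  have hAm : MeasurableSet A := Metric.isClosed_closedBall.measurableSet
  have hi : Integrable fun v => χ v * g (T s v z) := int_prod hχ hsu hg hz
  have h1 : ∫ v : ℂ, A.indicator g (z + r • v) = (r ^ 2)⁻¹ * ∫ u in A, g u := by
    have := Measure.integral_comp_smul_of_nonneg (volume : Measure ℂ)
      (fun x => A.indicator g (z + x)) r (hR := hr'.le)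
    rw [this, Complex.finrank_real_complex, integral_add_left_eq_self (fun x => A.indicator g x) z,
      integral_indicator hAm, smul_eq_mul]
  have h2 : ∀ v : ℂ, z + r • v = T s v z := fun v => by simp [T, hr]
  have h3 : ∀ v : ℂ, T s v z ∈ A → v ∈ Metric.closedBall v0 r0 := by
    intro v hv
    rw [hA, mem_closedBall_iff_norm] at hv
    have e : T s v z - T s v0 z = (r : ℂ) * (v - v0) := by
      simp only [T, hr]; push_cast; ring
    rw [e, norm_mul, Complex.norm_real, Real.norm_of_nonneg hr'.le] at hv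
    rw [mem_closedBall_iff_norm]
    exact le_of_mul_le_mul_left hv hr'
  have h4 : ∫ v : ℂ, c0 * A.indicator g (z + r • v) ≤ ∫ v, χ v * g (T s v z) := by
    refine integral_mono_of_nonneg (ae_of_all _ fun v => ?_) hi (ae_of_all _ fun v => ?_)
    · exact mul_nonneg hc0.le (indicator_nonneg (fun u _ => hg0 u) _)
    · simp only [h2]
      by_cases hv : T s v z ∈ A
      · rw [indicator_of_mem hv]
        exact mul_le_mul_of_nonneg_right (hχc v (h3 v hv)) (hg0 _)
      · rw [indicator_of_notMem hv, mul_zero]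
        exact mul_nonneg (hχ0 v) (hg0 _)
  rw [integral_const_mul, h1] at h4
  have h5 : avg χ s g z = ∫ v, χ v * g (T s v z) := rfl
  rw [h5]
  calc c0 * ∫ u in A, g u = r ^ 2 * (c0 * ((r ^ 2)⁻¹ * ∫ u in A, g u)) := by
        field_simp
    _ ≤ _ := by gcongr

end

end Pool.Agent.K9h11.MV
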