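import Pool.Agent.K9h11.MV.J

/-!
# Fourth moments are bounded by the averages (helper11)
-/

set_option autoImplicit false

open MeasureTheory Filter Topology Complex Set
open scoped ContDiff ENNReal

namespace Pool.Agent.K9h11.MV

open Pool.Agent.W745.RW Pool.Agent.W366.RW

noncomputable section

lemma pos_ball {χ : ℂ → ℝ} (hχ : Continuous χ) (hχ1 : ∫ v, χ v = 1) :
    ∃ (v0 : ℂ) (r0 c0 : ℝ), 0 < r0 ∧ 0 < c0 ∧ ∀ v ∈ Metric.closedBall v0 r0, c0 ≤ χ v := by
  obtain ⟨v0, hv0⟩ : ∃ v0, 0 < χ v0 := by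
    by_contra h
    push Not at h
    have : ∫ v, χ v ≤ 0 := integral_nonpos h
    linarith
  have h1 : {v | χ v0 / 2 < χ v} ∈ 𝓝 v0 :=
    (isOpen_lt continuous_const hχ).mem_nhds (show χ v0 / 2 < χ v0 by linarith)
  obtain ⟨r, hr, hr2⟩ := Metric.mem_nhds_iff.1 h1
  refine ⟨v0, r / 2, χ v0 / 2, by positivity, by positivity, fun v hv => ?_⟩
  have : v ∈ Metric.ball v0 r := Metric.closedBall_subset_ball (by linarith) hv
  exact le_of_lt (hr2 this)

/-- the centre which is shifted to `u` -/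
def zz (s : ℝ) (v0 u : ℂ) : ℂ := u - ((s * u.im / (1 + s * v0.im) : ℝ) : ℂ) * v0

lemma zz_T {s : ℝ} {v0 : ℂ} (h : 0 < 1 + s * v0.im) (u : ℂ) : T s v0 (zz s v0 u) = u := by
  have e : (zz s v0 u).im = u.im / (1 + s * v0.im) := by
    simp only [zz, sub_im, im_ofReal_mul]
    field_simp
    ring
  unfold T
  rw [e]
  unfold zz
  push_cast
  ring

/-- the swap -/
lemma swap_low {K K' : Set ℂ} (hK : MeasurableSet K) (hK' : MeasurableSet K')
    {F : ℂ → ℝ≥0∞} (hF : Measurable F) {s h : ℝ} {v0 : ℂ} {Φ : ℂ → ℝ≥0∞}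
    (h1 : ∀ z ∈ K', ∫⁻ u in Metric.ball (T s v0 z) h, F u ≤ Φ z) {V : ℝ≥0∞} (hV : V ≠ ⊤)
    (h2 : ∀ u ∈ K, V ≤ volume {z | z ∈ K' ∧ dist u (T s v0 z) < h}) :
    V * ∫⁻ u in K, F u ≤ ∫⁻ z in K', Φ z := by
  set A : Set (ℂ × ℂ) := {p | p.1 ∈ K' ∧ dist p.2 (T s v0 p.1) < h} with hA
  have hT : Continuous fun p : ℂ × ℂ => dist p.2 (T s v0 p.1) := by
    unfold T
    fun_prop
  have hAm : MeasurableSet A :=
    (measurable_fst hK').inter (isOpen_lt hT continuous_const).measurableSet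
  set G : ℂ × ℂ → ℝ≥0∞ := A.indicator fun p => F p.2 with hG
  have hGm : Measurable G := (hF.comp measurable_snd).indicator hAm
  calc V * ∫⁻ u in K, F u = ∫⁻ u in K, V * F u := (lintegral_const_mul' _ _ hV).symm
    _ ≤ ∫⁻ u in K, ∫⁻ z, G (z, u) := by
        refine setLIntegral_mono' hK fun u hu => ?_
        have hm : MeasurableSet {z | z ∈ K' ∧ dist u (T s v0 z) < h} :=
          measurable_prodMk_right (y := u) hAm
        calc V * F u ≤ F u * volume {z | z ∈ K' ∧ dist u (T s v0 z) < h} := by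
              rw [mul_comm]
              gcongr
              exact h2 u hu
          _ = ∫⁻ _ in {z | z ∈ K' ∧ dist u (T s v0 z) < h}, F u := by
              rw [setLIntegral_const]
          _ = ∫⁻ z, G (z, u) := by
              rw [← lintegral_indicator hm]
              congr 1
    _ ≤ ∫⁻ u, ∫⁻ z, G (z, u) := setLIntegral_le_lintegral _ _
    _ = ∫⁻ z, ∫⁻ u, G (z, u) :=
        (lintegral_lintegral_swap (f := fun z u => G (z, u)) hGm.aemeasurable).symm
    _ ≤ ∫⁻ z, K'.indicator Φ z := by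
        refine lintegral_mono fun z => ?_
        by_cases hz : z ∈ K'
        · rw [indicator_of_mem hz]
          refine le_trans (le_of_eq ?_) (h1 z hz)
          rw [← lintegral_indicator measurableSet_ball]
          congr 1
          funext u
          by_cases hu : dist u (T s v0 z) < h
          · rw [indicator_of_mem (show u ∈ Metric.ball (T s v0 z) h from hu), hG,
              indicator_of_mem (show (z, u) ∈ A from ⟨hz, hu⟩)]
          · rw [indicator_of_notMem (show u ∉ Metric.ball (T s v0 z) h from hu), hG,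
              indicator_of_notMem (show (z, u) ∉ A from fun hh => hu hh.2)]
        · rw [indicator_of_notMem hz]
          have : ∀ u, G (z, u) = 0 := fun u => by
            rw [hG, indicator_of_notMem (show (z, u) ∉ A from fun hh => hz hh.1)]
          simp [this]
    _ = ∫⁻ z in K', Φ z := lintegral_indicator hK' _

variable {lam : ℕ → ℝ} {f : ℕ → ℂ → ℝ}

theorem bd4 (pos : ∀ n, 0 < lam n) (lim : Tendsto lam atTop atTop)
    (sm : ∀ n, ContDiffOn ℝ ∞ (f n) HH)
    (heq : ∀ n, ∀ z ∈ HH, z.im ^ 2 * lap (f n) z + lam n * f n z = 0)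
    {χ : ℂ → ℝ} {ρ : ℝ} (hχ : Continuous χ) (hχ0 : ∀ v, 0 ≤ χ v)
    (hsu : tsupport χ ⊆ Metric.closedBall 0 ρ) (hρ : 1 ≤ ρ) (hχ1 : ∫ v, χ v = 1)
    {K : Set ℂ} (hK : IsCompact K) (hKH : K ⊆ HH) :
    ∃ K' : Set ℂ, IsCompact K' ∧ K' ⊆ HH ∧ ∀ R : ℝ, 0 < R → ∃ C : ℝ, 0 ≤ C ∧
      ∀ᶠ n in atTop, ∀ b : ℝ, 0 ≤ b →
        EE K' (avg χ (R / √(lam n)) (fun u => f n u ^ 2)) ≤ ENNReal.ofReal b →
        ∫ z in K, f n z ^ 4 ≤ C * b := by
  obtain ⟨CL, hCL, hloc⟩ := loc4
  obtain ⟨v0, r0, c0, hr0, hc0, hχc⟩ := pos_ball hχ hχ1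
  have hvb : ∀ v ∈ Metric.closedBall v0 r0, ‖v‖ ≤ ρ := by
    intro v hv
    have h1 : v ∈ tsupport χ := subset_tsupport χ (by
      have := hχc v hv
      exact ne_of_gt (by linarith))
    have := hsu h1
    rwa [mem_closedBall_zero_iff] at this
  obtain ⟨δ, hδ, hδB⟩ := hK.exists_cthickening_subset_open HHo hKH
  set K' : Set ℂ := Metric.cthickening δ K with hK'
  have cK' : IsCompact K' := hK.cthickening
  obtain ⟨K'', hK'', hK''H, hKK⟩ := nbhd cK' hδB hρ
  have hK'K'' : K' ⊆ K'' := by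
    intro z hz
    have := hKK 0 le_rfl (by norm_num) 0 (by simp; linarith) z hz
    rwa [T_zero] at this
  obtain ⟨N, hN⟩ := hK''.exists_bound_of_continuousOn (f := fun z : ℂ => (z.im)⁻¹)
    (continuous_im.continuousOn.inv₀ fun z hz => ne_of_gt (hK''H hz))
  obtain ⟨Y, hY⟩ := hK''.exists_bound_of_continuousOn (f := fun z : ℂ => z.im)
    continuous_im.continuousOn
  set y0 : ℝ := 1 / (|N| + 1) with hy0
  have hy0p : 0 < y0 := by positivity
  have hy : ∀ z ∈ K'', y0 ≤ z.im := by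
    intro z hz
    have h1 := hN z hz
    have h2 : 0 < z.im := hK''H hz
    rw [Real.norm_of_nonneg (by positivity)] at h1
    rw [hy0, div_le_iff₀ (by positivity)]
    have h3 : (z.im)⁻¹ ≤ |N| + 1 := by
      have := le_abs_self N
      linarith
    calc (1:ℝ) = z.im * (z.im)⁻¹ := by field_simp
      _ ≤ z.im * (|N| + 1) := by gcongr
  have hYy : ∀ z ∈ K'', z.im ≤ |Y| := by
    intro z hz
    have h1 := hY z hz
    have h2 : 0 < z.im := hK''H hz
    rw [Real.norm_of_nonneg h2.le] at h1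
    exact h1.trans (le_abs_self Y)
  refine ⟨K', cK', hδB, fun R hR => ?_⟩
  set C6 : ℝ := CL * (9 / (4 * y0 ^ 2 * r0 ^ 2) + R ^ 2 / y0 ^ 2) * |Y| ^ 4 / c0 ^ 2 with hC6
  have hC60 : 0 ≤ C6 := by positivity
  refine ⟨C6 / (Real.pi * (y0 ^ 2 * r0 ^ 2 / 9)), by positivity, ?_⟩
  have hsl : Tendsto (fun n => R / √(lam n)) atTop (𝓝 0) := by
    have h1 : Tendsto (fun n => √(lam n)) atTop atTop := Real.tendsto_sqrt_atTop.comp lim
    simpa using (tendsto_const_nhds (x := R)).div_atTop h1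
  have hev : ∀ᶠ n in atTop, R / √(lam n) * ρ ≤ 1 / 2 := by
    have h1 : Tendsto (fun n => R / √(lam n) * ρ) atTop (𝓝 0) := by simpa using hsl.mul_const ρ
    exact (h1.eventually (gt_mem_nhds (by norm_num : (0:ℝ) < 1 / 2))).mono fun n hn => hn.le
  have hev2 : ∀ᶠ n in atTop, R / √(lam n) * (y0 * r0 / 3 + 2 * |Y| * ‖v0‖) ≤ δ := by
    have h1 : Tendsto (fun n => R / √(lam n) * (y0 * r0 / 3 + 2 * |Y| * ‖v0‖)) atTop (𝓝 0) := by
      simpa using hsl.mul_const (y0 * r0 / 3 + 2 * |Y| * ‖v0‖)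
    exact (h1.eventually (gt_mem_nhds hδ)).mono fun n hn => hn.le
  filter_upwards [hev, hev2] with n hn hn2 b hb hE
  have hl := pos n
  set s : ℝ := R / √(lam n) with hs
  have hs0 : 0 < s := by positivity
  have hs2 : lam n = R ^ 2 / s ^ 2 := by
    rw [hs, div_pow, Real.sq_sqrt hl.le]
    field_simp
  set h : ℝ := s * y0 * r0 * (2 / 3) with hh
  have hh0 : 0 < h := by positivity
  have s2 : ContDiffOn ℝ ∞ (fun u => f n u ^ 2) HH := (sm n).pow 2
  have s4 : ContinuousOn (fun u => f n u ^ 4) HH := (sm n).continuousOn.pow 4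
  have hv0ρ : ‖v0‖ ≤ ρ := hvb v0 (Metric.mem_closedBall_self hr0.le)
  have hsv : s * ‖v0‖ ≤ 1 / 2 := by
    calc s * ‖v0‖ ≤ s * ρ := by gcongr
      _ ≤ _ := hn
  have hsi : |s * v0.im| ≤ 1 / 2 := by
    rw [abs_mul, abs_of_pos hs0]
    calc s * |v0.im| ≤ s * ‖v0‖ := by gcongr; exact Complex.abs_im_le_norm v0
      _ ≤ _ := hsv
  have hd : (1:ℝ) / 2 ≤ 1 + s * v0.im := by
    have := (abs_le.1 hsi).1
    linarith
  -- the balls
  have hball : ∀ z ∈ K', Metric.closedBall (T s v0 z) (3 / 2 * h) ⊆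
      Metric.closedBall (T s v0 z) (s * z.im * r0) := by
    intro z hz
    apply Metric.closedBall_subset_closedBall
    have := hy z (hK'K'' hz)
    calc 3 / 2 * h = s * y0 * r0 := by rw [hh]; ring
      _ ≤ _ := by gcongr
  have hball2 : ∀ z ∈ K', Metric.closedBall (T s v0 z) (s * z.im * r0) ⊆ K'' := by
    intro z hz u hu
    have hz0 : 0 < z.im := hδB hz
    have hr : (0:ℝ) < s * z.im := by positivity
    set v : ℂ := ((s * z.im : ℝ) : ℂ)⁻¹ * (u - z) with hv
    have hrC : ((s * z.im : ℝ) : ℂ) ≠ 0 := by exact_mod_cast hr.ne'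
    have e1 : T s v z = u := by
      unfold T
      rw [hv, ← mul_assoc, mul_inv_cancel₀ hrC]; ring
    have e2 : v ∈ Metric.closedBall v0 r0 := by
      rw [mem_closedBall_iff_norm] at hu ⊢
      have e3 : u - T s v0 z = ((s * z.im : ℝ) : ℂ) * (v - v0) := by
        rw [← e1]; unfold T; ring
      rw [e3, norm_mul, Complex.norm_real, Real.norm_of_nonneg hr.le] at hu
      exact le_of_mul_le_mul_left hu hr
    rw [← e1]
    exact hKK s hs0.le hn v (hvb v e2) z hz
  -- the local bound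
  have hP : ∀ z ∈ K', ∫ u in Metric.ball (T s v0 z) h, f n u ^ 4 ≤
      C6 * s ^ 2 * avg χ s (fun u => f n u ^ 2) z ^ 2 := by
    intro z hz
    have hz0 : 0 < z.im := hδB hz
    have h1 := hloc (lam n) (f n) hl.le (sm n) (heq n) (T s v0 z) h y0 hh0 hy0p
      fun u hu => hy u (hball2 z hz (hball z hz hu))
    have h2 := avg_low hχ hχ0 hsu hc0 hχc hs0 s2.continuousOn (fun u => sq_nonneg _)
      (z := z) (fun v hv => hK''H (hKK s hs0.le hn v hv z hz)) hz0
    have i2 : IntegrableOn (fun u => f n u ^ 2) (Metric.closedBall (T s v0 z) (s * z.im * r0)) :=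
      (s2.continuousOn.mono ((hball2 z hz).trans hK''H)).integrableOn_compact
        (isCompact_closedBall _ _)
    have h3 : ∫ u in Metric.closedBall (T s v0 z) (3 / 2 * h), f n u ^ 2 ≤
        ∫ u in Metric.closedBall (T s v0 z) (s * z.im * r0), f n u ^ 2 :=
      setIntegral_mono_set i2 (ae_of_all _ fun u => sq_nonneg _)
        (LE.le.eventuallyLE (hball z hz))
    set av : ℝ := avg χ s (fun u => f n u ^ 2) z with hav
    have hav0 : 0 ≤ av := integral_nonneg fun v => mul_nonneg (hχ0 v) (sq_nonneg _)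
    have h4 : ∫ u in Metric.closedBall (T s v0 z) (3 / 2 * h), f n u ^ 2 ≤
        (s * |Y|) ^ 2 / c0 * av := by
      have h5 : (s * z.im) ^ 2 * av ≤ (s * |Y|) ^ 2 * av := by
        have := hYy z (hK'K'' hz)
        gcongr
      have e9 : (s * |Y|) ^ 2 / c0 * av = ((s * |Y|) ^ 2 * av) / c0 := by ring
      rw [e9, le_div_iff₀ hc0]
      calc (∫ u in Metric.closedBall (T s v0 z) (3 / 2 * h), f n u ^ 2) * c0
          ≤ (∫ u in Metric.closedBall (T s v0 z) (s * z.im * r0), f n u ^ 2) * c0 := by gcongr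
        _ ≤ _ := by linarith
    have h5 : 0 ≤ ∫ u in Metric.closedBall (T s v0 z) (3 / 2 * h), f n u ^ 2 :=
      integral_nonneg fun u => sq_nonneg _
    calc ∫ u in Metric.ball (T s v0 z) h, f n u ^ 4 ≤ CL * (1 / h ^ 2 + lam n / y0 ^ 2) *
          (∫ u in Metric.closedBall (T s v0 z) (3 / 2 * h), f n u ^ 2) ^ 2 := h1
      _ ≤ CL * (1 / h ^ 2 + lam n / y0 ^ 2) * ((s * |Y|) ^ 2 / c0 * av) ^ 2 := by gcongr
      _ = C6 * s ^ 2 * av ^ 2 := by
          rw [hs2, hC6, hh]
          field_simp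
          ring
  -- the volume
  have hVol : ∀ u ∈ K, ENNReal.ofReal (Real.pi * (h / 2) ^ 2) ≤
      volume {z | z ∈ K' ∧ dist u (T s v0 z) < h} := by
    intro u hu
    have e1 : volume (Metric.ball (zz s v0 u) (h / 2)) = ENNReal.ofReal (Real.pi * (h / 2) ^ 2) := by
      rw [Complex.volume_ball, ← ENNReal.ofReal_pow (by positivity), mul_comm Real.pi,
        ENNReal.ofReal_mul (by positivity)]
      congr 1
      rw [← NNReal.coe_real_pi, ENNReal.ofReal_coe_nnreal]
    rw [← e1]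
    refine measure_mono fun z hz => ?_
    rw [mem_ball_iff_norm] at hz
    have hT := zz_T (by linarith : 0 < 1 + s * v0.im) u
    have hu0 : 0 < u.im := hKH hu
    have huK : u ∈ K' := Metric.self_subset_cthickening K hu
    have huY := hYy u (hK'K'' huK)
    constructor
    · refine Metric.mem_cthickening_of_dist_le z u δ K hu ?_
      rw [dist_eq_norm]
      have e2 : ‖zz s v0 u - u‖ ≤ s * (2 * |Y|) * ‖v0‖ := by
        have : zz s v0 u - u = -(((s * u.im / (1 + s * v0.im) : ℝ) : ℂ) * v0) := by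
          unfold zz; ring
        rw [this, norm_neg, norm_mul, Complex.norm_real, Real.norm_of_nonneg (by
          have : 0 < 1 + s * v0.im := by linarith
          positivity)]
        gcongr
        rw [div_le_iff₀ (by linarith)]
        have : s * u.im ≤ s * |Y| := by gcongr
        have h7 : 0 ≤ s * |Y| := by positivity
        nlinarith
      calc ‖z - u‖ = ‖(z - zz s v0 u) + (zz s v0 u - u)‖ := by ring_nf
        _ ≤ ‖z - zz s v0 u‖ + ‖zz s v0 u - u‖ := norm_add_le _ _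
        _ ≤ h / 2 + s * (2 * |Y|) * ‖v0‖ := by gcongr
        _ = s * (y0 * r0 / 3 + 2 * |Y| * ‖v0‖) := by rw [hh]; ring
        _ ≤ δ := hn2
    · rw [dist_eq_norm]
      nth_rw 1 [← hT]
      have e3 : T s v0 (zz s v0 u) - T s v0 z = (zz s v0 u - z) +
          ((s * (zz s v0 u - z).im : ℝ) : ℂ) * v0 := by
        unfold T
        rw [sub_im]
        push_cast
        ring
      rw [e3]
      have e4 : ‖(zz s v0 u - z) + ((s * (zz s v0 u - z).im : ℝ) : ℂ) * v0‖ ≤
          ‖zz s v0 u - z‖ + ‖zz s v0 u - z‖ * (1 / 2) := by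
        refine (norm_add_le _ _).trans ?_
        gcongr
        rw [norm_mul, Complex.norm_real, norm_mul, Real.norm_of_nonneg hs0.le]
        have h7 : ‖(zz s v0 u - z).im‖ ≤ ‖zz s v0 u - z‖ := Complex.abs_im_le_norm _
        calc s * ‖(zz s v0 u - z).im‖ * ‖v0‖ = ‖(zz s v0 u - z).im‖ * (s * ‖v0‖) := by ring
          _ ≤ ‖zz s v0 u - z‖ * (1 / 2) := by gcongr
      rw [norm_sub_rev] at hz
      refine e4.trans_lt ?_
      linarith
  -- Tonelli
  have hFm := meas_ind (E := ℝ) s4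
  have key := swap_low (K := K) (K' := K') (F := HH.indicator fun w => ‖f n w ^ 4‖ₑ)
    hK.measurableSet cK'.measurableSet hFm (s := s) (h := h) (v0 := v0)
    (Φ := fun z => ENNReal.ofReal (C6 * s ^ 2) * ‖avg χ s (fun u => f n u ^ 2) z‖ₑ ^ 2)
    (fun z hz => ?_) (V := ENNReal.ofReal (Real.pi * (h / 2) ^ 2)) (by simp) hVol
  · rw [lintegral_const_mul' _ _ (by simp)] at key
    have e5 : ∫⁻ u in K, HH.indicator (fun w => ‖f n w ^ 4‖ₑ) u =
        ENNReal.ofReal (∫ u in K, f n u ^ 4) := by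
      rw [ofReal_integral_eq_lintegral_ofReal ((s4.mono hKH).integrableOn_compact hK)
        (ae_of_all _ fun u => by positivity)]
      refine setLIntegral_congr_fun hK.measurableSet fun u hu => ?_
      simp only [indicator_of_mem (hKH hu)]
      rw [← ofReal_norm, Real.norm_of_nonneg (by positivity)]
    rw [e5] at key
    have key2 : ENNReal.ofReal (Real.pi * (h / 2) ^ 2 * ∫ u in K, f n u ^ 4) ≤
        ENNReal.ofReal (C6 * s ^ 2 * b) := by
      rw [ENNReal.ofReal_mul (by positivity), ENNReal.ofReal_mul (q := b) (by positivity)]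
      refine key.trans ?_
      gcongr
      exact hE
    rw [ENNReal.ofReal_le_ofReal_iff (by positivity)] at key2
    have e6 : Real.pi * (h / 2) ^ 2 = (Real.pi * (y0 ^ 2 * r0 ^ 2 / 9)) * s ^ 2 := by
      rw [hh]; ring
    rw [e6] at key2
    have hs2' : 0 < s ^ 2 := by positivity
    have key3 : (Real.pi * (y0 ^ 2 * r0 ^ 2 / 9)) * (∫ u in K, f n u ^ 4) ≤ C6 * b := by
      have : s ^ 2 * ((Real.pi * (y0 ^ 2 * r0 ^ 2 / 9)) * (∫ u in K, f n u ^ 4)) ≤
          s ^ 2 * (C6 * b) := by linarith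
      exact le_of_mul_le_mul_left this hs2'
    rw [div_mul_eq_mul_div, le_div_iff₀ (by positivity)]
    linarith
  · have hsub : Metric.ball (T s v0 z) h ⊆ Metric.closedBall (T s v0 z) (3 / 2 * h) :=
      (Metric.ball_subset_closedBall).trans (Metric.closedBall_subset_closedBall (by linarith))
    have hsub2 : Metric.ball (T s v0 z) h ⊆ HH :=
      hsub.trans (((hball z hz).trans (hball2 z hz)).trans hK''H)
    have i4 : IntegrableOn (fun u => f n u ^ 4) (Metric.ball (T s v0 z) h) :=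
      ((s4.mono (((hball z hz).trans (hball2 z hz)).trans hK''H)).integrableOn_compact
        (isCompact_closedBall _ _)).mono_set hsub
    have e7 : ∫⁻ u in Metric.ball (T s v0 z) h, HH.indicator (fun w => ‖f n w ^ 4‖ₑ) u =
        ENNReal.ofReal (∫ u in Metric.ball (T s v0 z) h, f n u ^ 4) := by
      rw [ofReal_integral_eq_lintegral_ofReal i4 (ae_of_all _ fun u => by positivity)]
      refine setLIntegral_congr_fun measurableSet_ball fun u hu => ?_
      simp only [indicator_of_mem (hsub2 hu)]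
      rw [← ofReal_norm, Real.norm_of_nonneg (by positivity)]
    rw [e7, en_sq, ← ENNReal.ofReal_mul (by positivity)]
    exact ENNReal.ofReal_le_ofReal (hP z hz)

end

end Pool.Agent.K9h11.MV
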