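import Pool.Agent.K9h11.MV.K

/-!
# The equivalence (helper11)
-/

set_option autoImplicit false

open MeasureTheory Filter Topology Complex Set
open scoped ContDiff ENNReal

namespace Pool.Agent.K9h11.MV

open Pool.Agent.W745.RW Pool.Agent.W366.RW

noncomputable section

lemma EE_fin {K : Set ℂ} (hK : IsCompact K) {g : ℂ → ℝ} (hg : ContinuousOn g K) : EE K g ≠ ⊤ := by
  have i : IntegrableOn (fun z => g z ^ 2) K := (hg.pow 2).integrableOn_compact hK
  have h := i.lintegral_lt_top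
  unfold EE
  simp only [en_sq]
  exact h.ne

variable {lam : ℕ → ℝ} {f : ℕ → ℂ → ℝ}

lemma scale_ev (lim : Tendsto lam atTop atTop) (R c : ℝ) {δ : ℝ} (hδ : 0 < δ) :
    ∀ᶠ n in atTop, R / √(lam n) * c ≤ δ := by
  have hsl : Tendsto (fun n => R / √(lam n)) atTop (𝓝 0) := by
    have h1 : Tendsto (fun n => √(lam n)) atTop atTop := Real.tendsto_sqrt_atTop.comp lim
    simpa using (tendsto_const_nhds (x := R)).div_atTop h1
  have h1 : Tendsto (fun n => R / √(lam n) * c) atTop (𝓝 0) := by simpa using hsl.mul_const c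
  exact (h1.eventually (gt_mem_nhds hδ)).mono fun n hn => hn.le

/-- the averages are locally square integrable -/
lemma avg_fin (lim : Tendsto lam atTop atTop)
    (sm : ∀ n, ContDiffOn ℝ ∞ (f n) HH) {χ : ℂ → ℝ} {ρ : ℝ} (hχ : Continuous χ)
    (hsu : tsupport χ ⊆ Metric.closedBall 0 ρ) (hρ : 1 ≤ ρ) {R : ℝ} (hR : 0 ≤ R)
    {K : Set ℂ} (hK : IsCompact K) (hKH : K ⊆ HH) :
    ∀ᶠ n in atTop, AEMeasurable (avg χ (R / √(lam n)) (fun u => f n u ^ 2)) (volume.restrict K) ∧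
      EE K (avg χ (R / √(lam n)) (fun u => f n u ^ 2)) ≠ ⊤ ∧
      EE K (fun z => avg χ (R / √(lam n)) (fun u => f n u ^ 2) z - 1) ≠ ⊤ := by
  obtain ⟨K', hK', hK'H, hKK⟩ := nbhd hK hKH hρ
  have hcs : HasCompactSupport χ :=
    HasCompactSupport.of_support_subset_isCompact (isCompact_closedBall (0:ℂ) ρ)
    ((subset_tsupport χ).trans hsu)
  have hχi : Integrable χ := hχ.integrable_of_hasCompactSupport hcs
  have hmt : mass χ ≠ ⊤ := hχi.2.ne
  have h0 : ∀ v : ℂ, ρ < ‖v‖ → χ v = 0 := by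
    intro v hv
    apply image_eq_zero_of_notMem_tsupport
    intro h
    have := hsu h
    rw [mem_closedBall_zero_iff] at this
    linarith
  filter_upwards [scale_ev lim R ρ (by norm_num : (0:ℝ) < 1 / 2)] with n hn
  have hs0 : 0 ≤ R / √(lam n) := by positivity
  have s2 : ContinuousOn (fun u => f n u ^ 2) HH := (sm n).continuousOn.pow 2
  have hTK : ∀ v : ℂ, ‖v‖ ≤ ρ → ∀ z ∈ K, T (R / √(lam n)) v z ∈ K' :=
    fun v hv z hz => hKK _ hs0 hn v hv z hz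
  have hm := avg_aem hχ.measurable h0 s2 hK.measurableSet fun v hv z hz => hK'H (hTK v hv z hz)
  have h1 := avg_L2 hχ.measurable h0 hK.measurableSet hK'.measurableSet hK'H hs0 hn hTK s2
  have h2 : EE K' (fun u => f n u ^ 2) ≠ ⊤ := EE_fin hK' (s2.mono hK'H)
  have h3 : EE K (avg χ (R / √(lam n)) (fun u => f n u ^ 2)) ≠ ⊤ :=
    ne_top_of_le_ne_top (by finiteness) h1
  refine ⟨hm, h3, ?_⟩
  have h4 := EE_add (b := fun _ => -1) hm
  have h5 : EE K (fun _ => (-1:ℝ)) ≠ ⊤ := EE_fin hK continuousOn_const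
  have h6 : (fun z => avg χ (R / √(lam n)) (fun u => f n u ^ 2) z + -1) =
      fun z => avg χ (R / √(lam n)) (fun u => f n u ^ 2) z - 1 := by
    funext z; ring
  rw [h6] at h4
  exact ne_top_of_le_ne_top (by finiteness) h4

lemma int_avg (lim : Tendsto lam atTop atTop)
    (sm : ∀ n, ContDiffOn ℝ ∞ (f n) HH) {χ : ℂ → ℝ} {ρ : ℝ} (hχ : Continuous χ)
    (hsu : tsupport χ ⊆ Metric.closedBall 0 ρ) (hρ : 1 ≤ ρ) {R : ℝ} (hR : 0 ≤ R)
    {w : ℂ → ℝ} (hw : TF HH w) :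
    ∀ᶠ n in atTop, Integrable fun z =>
      w z * (avg χ (R / √(lam n)) (fun u => f n u ^ 2) z - 1) ^ 2 := by
  filter_upwards [avg_fin lim sm hχ hsu hρ hR hw.2.1 hw.2.2] with n hn
  exact int_sq hw (hn.1.sub aemeasurable_const) hn.2.2

/-- (ii) gives bounded fourth moments -/
lemma bd_of (pos : ∀ n, 0 < lam n) (lim : Tendsto lam atTop atTop)
    (sm : ∀ n, ContDiffOn ℝ ∞ (f n) HH)
    (heq : ∀ n, ∀ z ∈ HH, z.im ^ 2 * lap (f n) z + lam n * f n z = 0)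
    {χ : ℂ → ℝ} {ρ : ℝ} (hχ : Continuous χ) (hχ0 : ∀ v, 0 ≤ χ v)
    (hsu : tsupport χ ⊆ Metric.closedBall 0 ρ) (hρ : 1 ≤ ρ) (hχ1 : ∫ v, χ v = 1)
    (h : ∀ w, TF HH w → (∀ z, 0 ≤ w z) → ∃ R : ℝ, 0 < R ∧ ∃ b : ℝ, ∀ᶠ n in atTop,
      ∫ z, w z * (avg χ (R / √(lam n)) (fun u => f n u ^ 2) z - 1) ^ 2 ≤ b) : Bd f := by
  intro K hK hKH
  obtain ⟨K', hK', hK'H, hC⟩ := bd4 pos lim sm heq hχ hχ0 hsu hρ hχ1 hK hKH
  obtain ⟨ζ, V, hζ, -, hKV, h1, -, -⟩ := cut_near hK' hK'H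
  obtain ⟨R, hR, b, hb⟩ := h _ (TF_sq hζ) (fun z => mul_self_nonneg _)
  obtain ⟨C, hC0, hC⟩ := hC R hR
  have hfin : EE K' (fun _ => (1:ℝ)) ≠ ⊤ := EE_fin hK' continuousOn_const
  set V1 : ℝ := (EE K' (fun _ => (1:ℝ))).toReal with hV1
  have hV0 : 0 ≤ V1 := ENNReal.toReal_nonneg
  have hVe : EE K' (fun _ => (1:ℝ)) = ENNReal.ofReal V1 := (ENNReal.ofReal_toReal hfin).symm
  refine ⟨C * (2 * |b| + 2 * V1), ?_⟩
  filter_upwards [hC, hb, int_avg lim sm hχ hsu hρ hR.le (TF_sq hζ),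
    avg_fin lim sm hχ hsu hρ hR.le hK' hK'H] with n h2 h3 h4 h5
  refine h2 _ (by positivity) ?_
  set a : ℂ → ℝ := avg χ (R / √(lam n)) (fun u => f n u ^ 2) with ha
  have h6 : EE K' (fun z => a z - 1) ≤ ENNReal.ofReal |b| := by
    have e1 : EE K' (fun z => a z - 1) ≤ ∫⁻ z, ENNReal.ofReal ((ζ z * ζ z) * (a z - 1) ^ 2) := by
      unfold EE
      refine le_trans (le_of_eq ?_) (setLIntegral_le_lintegral K' _)
      refine setLIntegral_congr_fun hK'.measurableSet fun z hz => ?_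
      simp only
      rw [en_sq, h1 z (hKV hz), one_mul, one_mul]
    rw [← ofReal_integral_eq_lintegral_ofReal h4 (ae_of_all _ fun z =>
      mul_nonneg (mul_self_nonneg _) (sq_nonneg _))] at e1
    exact e1.trans (ENNReal.ofReal_le_ofReal (h3.trans (le_abs_self b)))
  have h7 := EE_add (a := fun z => a z - 1) (b := fun _ => 1) (h5.1.sub aemeasurable_const)
  have h8 : (fun z => a z - 1 + 1) = a := by funext z; ring
  rw [h8] at h7
  refine h7.trans ?_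
  rw [hVe]
  calc 2 * EE K' (fun z => a z - 1) + 2 * ENNReal.ofReal V1 ≤
      2 * ENNReal.ofReal |b| + 2 * ENNReal.ofReal V1 := by gcongr
    _ = _ := by
        rw [show (2:ℝ≥0∞) = ENNReal.ofReal 2 by simp, ← ENNReal.ofReal_mul (by norm_num),
          ← ENNReal.ofReal_mul (by norm_num), ← ENNReal.ofReal_add (by positivity) (by positivity)]

/-- convergence of the fourth moments gives bounded fourth moments -/
lemma bd_of' (sm : ∀ n, ContDiffOn ℝ ∞ (f n) HH)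
    (h : ∀ w, TF HH w → (∀ z, 0 ≤ w z) → ∃ b : ℝ, Tendsto (fun n => ∫ z, w z * f n z ^ 4) atTop
      (𝓝 b)) : Bd f := by
  intro K hK hKH
  obtain ⟨ζ, V, hζ, -, hKV, h1, -, -⟩ := cut_near hK hKH
  obtain ⟨b, hb⟩ := h _ (TF_sq hζ) (fun z => mul_self_nonneg _)
  refine ⟨b + 1, ?_⟩
  filter_upwards [hb.eventually (gt_mem_nhds (lt_add_one b))] with n hn
  have i : Integrable fun z => (ζ z * ζ z) * f n z ^ 4 := int_w (TF_sq hζ) ((sm n).pow 4)
  refine le_trans ?_ hn.le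
  calc ∫ z in K, f n z ^ 4 = ∫ z in K, (ζ z * ζ z) * f n z ^ 4 := by
        refine setIntegral_congr_fun hK.measurableSet fun z hz => ?_
        rw [h1 z (hKV hz)]; ring
    _ ≤ _ := setIntegral_le_integral i (ae_of_all _ fun z =>
        mul_nonneg (mul_self_nonneg _) (by positivity))

/-- the equivalence for nonnegative weights -/
theorem Sy.equi0 (S : Sy lam f)
    (heq : ∀ n, ∀ z ∈ HH, z.im ^ 2 * lap (f n) z + lam n * f n z = 0)
    {χ : ℂ → ℝ} {ρ : ℝ} (hχ : ContDiff ℝ ∞ χ) (hχ0 : ∀ v, 0 ≤ χ v)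
    (hsu : tsupport χ ⊆ Metric.closedBall 0 ρ) (hρ : 1 ≤ ρ) (hχ1 : ∫ v, χ v = 1)
    (Λ : (ℂ → ℝ) → ℝ) :
    (∀ w, TF HH w → (∀ z, 0 ≤ w z) → Tendsto (fun n => ∫ z, w z * f n z ^ 4) atTop
      (𝓝 (3 * (∫ z, w z) + 3 / 2 * Λ w))) ↔
    (∀ w, TF HH w → (∀ z, 0 ≤ w z) → ∀ δ : ℝ, 0 < δ → ∃ R₀ : ℝ, 0 < R₀ ∧ ∀ R, R₀ ≤ R →
      ∀ᶠ n in atTop, |(∫ z, w z * (avg χ (R / √(lam n)) (fun u => f n u ^ 2) z - 1) ^ 2) - Λ w|
        ≤ δ) := by
  constructor
  · intro h w hw hw0 δ hδ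
    have hb : Bd f := bd_of' S.sm fun w hw hw0 => ⟨_, h w hw hw0⟩
    obtain ⟨R₀, hR₀, hA⟩ := S.partA hb hχ hsu hρ hχ1 hw hw0 (δ := δ / 2) (by positivity)
    refine ⟨R₀, hR₀, fun R hR => ?_⟩
    have h1 := (h w hw hw0).eventually (Metric.ball_mem_nhds _ (by positivity : 0 < δ / 2))
    filter_upwards [hA R hR, h1] with n h2 h3
    have h4 : |(∫ z, w z * f n z ^ 4) - (3 * (∫ z, w z) + 3 / 2 * Λ w)| < δ / 2 := h3
    rw [abs_le] at h2 ⊢
    rw [abs_lt] at h4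
    constructor <;> linarith [h2.1, h2.2, h4.1, h4.2]
  · intro h w hw hw0
    have hb : Bd f := bd_of S.pos S.lim S.sm heq hχ.continuous hχ0 hsu hρ hχ1
      fun w hw hw0 => by
        obtain ⟨R, hR, hR2⟩ := h w hw hw0 1 one_pos
        refine ⟨R, hR, Λ w + 1, ?_⟩
        filter_upwards [hR2 R le_rfl] with n hn
        have := (abs_le.1 hn).2
        linarith
    rw [Metric.tendsto_nhds]
    intro δ hδ
    obtain ⟨R₀, hR₀, hA⟩ := S.partA hb hχ hsu hρ hχ1 hw hw0 (δ := δ / 4) (by positivity)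
    obtain ⟨R₁, hR₁, hB⟩ := h w hw hw0 (δ / 4) (by positivity)
    filter_upwards [hA (max R₀ R₁) (le_max_left _ _), hB (max R₀ R₁) (le_max_right _ _)]
      with n h2 h3
    rw [Real.dist_eq]
    rw [abs_le] at h2 h3
    rw [abs_lt]
    constructor <;> linarith [h2.1, h2.2, h3.1, h3.2]

/-- **the equivalence** -/
theorem Sy.equi (S : Sy lam f)
    (heq : ∀ n, ∀ z ∈ HH, z.im ^ 2 * lap (f n) z + lam n * f n z = 0)
    {χ : ℂ → ℝ} (hχ : ContDiff ℝ ∞ χ) (hχ0 : ∀ v, 0 ≤ χ v)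
    (hχc : HasCompactSupport χ) (hχ1 : ∫ v, χ v = 1)
    {Λ : (ℂ → ℝ) → ℝ} (hΛ : ∀ a b : ℂ → ℝ, TF HH a → TF HH b → ∀ c : ℝ,
      Λ (fun z => a z + c * b z) = Λ a + c * Λ b) :
    (∀ w, TF HH w → Tendsto (fun n => ∫ z, w z * f n z ^ 4) atTop
      (𝓝 (3 * (∫ z, w z) + 3 / 2 * Λ w))) ↔
    (∀ w, TF HH w → ∀ δ : ℝ, 0 < δ → ∃ R₀ : ℝ, 0 < R₀ ∧ ∀ R, R₀ ≤ R →
      ∀ᶠ n in atTop, |(∫ z, w z * (avg χ (R / √(lam n)) (fun u => f n u ^ 2) z - 1) ^ 2) - Λ w|
        ≤ δ) := by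
  obtain ⟨ρ, hρ, hsu⟩ : ∃ ρ : ℝ, 1 ≤ ρ ∧ tsupport χ ⊆ Metric.closedBall 0 ρ := by
    obtain ⟨r, hr⟩ := hχc.isBounded.subset_closedBall (0:ℂ)
    exact ⟨max r 1, le_max_right _ _, hr.trans (Metric.closedBall_subset_closedBall
      (le_max_left _ _))⟩
  -- the decomposition
  have dec : ∀ w, TF HH w → ∃ (a b : ℂ → ℝ) (c : ℝ), TF HH a ∧ TF HH b ∧ (∀ z, 0 ≤ a z) ∧
      (∀ z, 0 ≤ b z) ∧ w = fun z => a z + c * b z := by
    intro w hw
    obtain ⟨ζ, V, hζ, -, hKV, h1, h2, -⟩ := cut_near hw.2.1 hw.2.2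
    obtain ⟨M, hM⟩ := hw.1.continuous.bounded_above_of_compact_support hw.2.1
    refine ⟨fun z => w z + M * ζ z, ζ, -M, ?_, hζ, fun z => ?_, h2, ?_⟩
    · have c1 : ContDiff ℝ ∞ fun z => w z + M * ζ z := hw.1.add (contDiff_const.mul hζ.1)
      have hsub : tsupport (fun z => w z + M * ζ z) ⊆ tsupport w ∪ tsupport ζ := by
        refine closure_minimal (fun z hz => ?_)
          ((isClosed_tsupport w).union (isClosed_tsupport ζ))
        by_contra h
        rw [mem_union, not_or] at h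
        exact hz (by simp [image_eq_zero_of_notMem_tsupport h.1,
          image_eq_zero_of_notMem_tsupport h.2])
      refine ⟨c1, ?_, hsub.trans (union_subset hw.2.2 hζ.2.2)⟩
      exact HasCompactSupport.of_support_subset_isCompact
        (K := tsupport w ∪ tsupport ζ) (hw.2.1.union hζ.2.1) ((subset_tsupport _).trans hsub)
    · show 0 ≤ w z + M * ζ z
      by_cases hz : z ∈ tsupport w
      · rw [h1 z (hKV hz)]
        have := (abs_le.1 (hM z)).1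
        linarith
      · rw [image_eq_zero_of_notMem_tsupport hz, zero_add]
        exact mul_nonneg ((norm_nonneg _).trans (hM 0)) (h2 z)
    · funext z; ring
  have h0 := S.equi0 heq hχ hχ0 hsu hρ hχ1 Λ
  constructor
  · intro h w hw δ hδ
    have h1 := h0.1 fun w hw _ => h w hw
    obtain ⟨a, b, c, ha, hb, ha0, hb0, rfl⟩ := dec w hw
    obtain ⟨R₀, hR₀, hA⟩ := h1 a ha ha0 (δ / 2) (by positivity)
    obtain ⟨R₁, hR₁, hB⟩ := h1 b hb hb0 (δ / (2 * (|c| + 1))) (by positivity)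
    refine ⟨max R₀ R₁, by positivity, fun R hR => ?_⟩
    have hR0 : 0 ≤ R := by
      have := (le_max_left R₀ R₁).trans hR
      linarith
    filter_upwards [hA R ((le_max_left _ _).trans hR), hB R ((le_max_right _ _).trans hR),
      int_avg S.lim S.sm hχ.continuous hsu hρ hR0 ha,
      int_avg S.lim S.sm hχ.continuous hsu hρ hR0 hb] with n a1 a2 i1 i2
    rw [hΛ a b ha hb c]
    have e : ∫ z, (a z + c * b z) * (avg χ (R / √(lam n)) (fun u => f n u ^ 2) z - 1) ^ 2 =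
        (∫ z, a z * (avg χ (R / √(lam n)) (fun u => f n u ^ 2) z - 1) ^ 2) +
        c * ∫ z, b z * (avg χ (R / √(lam n)) (fun u => f n u ^ 2) z - 1) ^ 2 := by
      rw [← integral_const_mul, ← integral_add i1 (i2.const_mul c)]
      congr 1
      funext z
      ring
    rw [e]
    set X : ℝ := ∫ z, a z * (avg χ (R / √(lam n)) (fun u => f n u ^ 2) z - 1) ^ 2
    set Y : ℝ := ∫ z, b z * (avg χ (R / √(lam n)) (fun u => f n u ^ 2) z - 1) ^ 2
    calc |X + c * Y - (Λ a + c * Λ b)| = |(X - Λ a) + c * (Y - Λ b)| := by ring_nf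
      _ ≤ |X - Λ a| + |c * (Y - Λ b)| := abs_add_le _ _
      _ = |X - Λ a| + |c| * |Y - Λ b| := by rw [abs_mul]
      _ ≤ δ / 2 + (|c| + 1) * (δ / (2 * (|c| + 1))) := by
          gcongr
          linarith
      _ = δ := by
          have : |c| + 1 ≠ 0 := by positivity
          field_simp
          ring
  · intro h w hw
    have h1 := h0.2 fun w hw _ => h w hw
    obtain ⟨a, b, c, ha, hb, ha0, hb0, rfl⟩ := dec w hw
    have h2 := (h1 a ha ha0).add ((h1 b hb hb0).const_mul c)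
    have i0 : ∀ {v : ℂ → ℝ}, TF HH v → Integrable v := fun hv =>
      hv.1.continuous.integrable_of_hasCompactSupport hv.2.1
    have e : 3 * (∫ z, a z) + 3 / 2 * Λ a + c * (3 * (∫ z, b z) + 3 / 2 * Λ b) =
        3 * (∫ z, (a z + c * b z)) + 3 / 2 * Λ (fun z => a z + c * b z) := by
      rw [hΛ a b ha hb c, integral_add (i0 ha) ((i0 hb).const_mul c), integral_const_mul]
      ring
    rw [e] at h2
    refine h2.congr fun n => ?_
    have i1 : Integrable fun z => a z * f n z ^ 4 := int_w ha ((S.sm n).pow 4)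
    have i2 : Integrable fun z => b z * f n z ^ 4 := int_w hb ((S.sm n).pow 4)
    rw [← integral_const_mul, ← integral_add i1 (i2.const_mul c)]
    congr 1
    funext z
    ring

end

end Pool.Agent.K9h11.MV
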