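import Pool.Agent.K9h11.MV.HU

/-!
# Fourth moments are bounded by the averages, local version (helper11)
-/

set_option autoImplicit false

open MeasureTheory Filter Topology Complex Set
open scoped ContDiff ENNReal

namespace Pool.Agent.K9h11.MV

open Pool.Agent.W745.RW Pool.Agent.W366.RW

noncomputable section

variable {lam : ℕ → ℝ} {f : ℕ → ℂ → ℝ} {U : Set ℂ}

theorem bd4U (hU : IsOpen U) (hUH : U ⊆ HH) (pos : ∀ n, 0 < lam n) (lim : Tendsto lam atTop atTop)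
    (sm : ∀ n, ContDiffOn ℝ ∞ (f n) HH)
    (heq : ∀ n, ∀ z ∈ HH, z.im ^ 2 * lap (f n) z + lam n * f n z = 0)
    {χ : ℂ → ℝ} {ρ : ℝ} (hχ : Continuous χ) (hχ0 : ∀ v, 0 ≤ χ v)
    (hsu : tsupport χ ⊆ Metric.closedBall 0 ρ) (hρ : 1 ≤ ρ) (hχ1 : ∫ v, χ v = 1)
    {K : Set ℂ} (hK : IsCompact K) (hKU : K ⊆ U) :
    ∃ K' : Set ℂ, IsCompact K' ∧ K' ⊆ U ∧ ∀ R : ℝ, 0 < R → ∃ C : ℝ, 0 ≤ C ∧
      ∀ᶠ n in atTop, ∀ b : ℝ, 0 ≤ b →
        EE K' (avg χ (R / √(lam n)) (fun u => f n u ^ 2)) ≤ ENNReal.ofReal b →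
        ∫ z in K, f n z ^ 4 ≤ C * b := by
  obtain ⟨CL, hCL, hloc⟩ := loc4
  obtain ⟨v0, r0, c0, hr0, hc0, hχc⟩ := pos_ball hχ hχ1
  have hvb : ∀ v ∈ Metric.closedBall v0 r0, ‖v‖ ≤ ρ := by
    intro v hv
    have h1 : v ∈ tsupport χ := subset_tsupport χ (by
      have := hχc v hv
      exact ne_of_gt (by linarith))
    have := hsu h1
    rwa [mem_closedBall_zero_iff] at this
  obtain ⟨δ, hδ, hδU⟩ := hK.exists_cthickening_subset_open hU hKU
  have hKH : K ⊆ HH := hKU.trans hUH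
  have hδB := hδU.trans hUH
  set K' : Set ℂ := Metric.cthickening δ K with hK'
  have cK' : IsCompact K' := hK.cthickening
  obtain ⟨K'', hK'', hK''H, hKK⟩ := nbhd cK' hδB hρ
  have hK'K'' : K' ⊆ K'' := by
    intro z hz
    have := hKK 0 le_rfl (by norm_num) 0 (by simp; linarith) z hz
    rwa [T_zero] at this
  obtain ⟨N, hN⟩ := hK''.exists_bound_of_continuousOn (f := fun z : ℂ => (z.im)⁻¹)
    (continuous_im.continuousOn.inv₀ fun z hz => ne_of_gt (hK''H hz))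
  obtain ⟨Y, hY⟩ := hK''.exists_bound_of_continuousOn (f := fun z : ℂ => z.im)
    continuous_im.continuousOn
  set y0 : ℝ := 1 / (|N| + 1) with hy0
  have hy0p : 0 < y0 := by positivity
  have hy : ∀ z ∈ K'', y0 ≤ z.im := by
    intro z hz
    have h1 := hN z hz
    have h2 : 0 < z.im := hK''H hz
    rw [Real.norm_of_nonneg (by positivity)] at h1
    rw [hy0, div_le_iff₀ (by positivity)]
    have h3 : (z.im)⁻¹ ≤ |N| + 1 := by
      have := le_abs_self N
      linarith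
    calc (1:ℝ) = z.im * (z.im)⁻¹ := by field_simp
      _ ≤ z.im * (|N| + 1) := by gcongr
  have hYy : ∀ z ∈ K'', z.im ≤ |Y| := by
    intro z hz
    have h1 := hY z hz
    have h2 : 0 < z.im := hK''H hz
    rw [Real.norm_of_nonneg h2.le] at h1
    exact h1.trans (le_abs_self Y)
  refine ⟨K', cK', hδU, fun R hR => ?_⟩
  set C6 : ℝ := CL * (9 / (4 * y0 ^ 2 * r0 ^ 2) + R ^ 2 / y0 ^ 2) * |Y| ^ 4 / c0 ^ 2 with hC6
  have hC60 : 0 ≤ C6 := by positivity
  refine ⟨C6 / (Real.pi * (y0 ^ 2 * r0 ^ 2 / 9)), by positivity, ?_⟩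
  have hsl : Tendsto (fun n => R / √(lam n)) atTop (𝓝 0) := by
    have h1 : Tendsto (fun n => √(lam n)) atTop atTop := Real.tendsto_sqrt_atTop.comp lim
    simpa using (tendsto_const_nhds (x := R)).div_atTop h1
  have hev : ∀ᶠ n in atTop, R / √(lam n) * ρ ≤ 1 / 2 := by
    have h1 : Tendsto (fun n => R / √(lam n) * ρ) atTop (𝓝 0) := by simpa using hsl.mul_const ρ
    exact (h1.eventually (gt_mem_nhds (by norm_num : (0:ℝ) < 1 / 2))).mono fun n hn => hn.le
  have hev2 : ∀ᶠ n in atTop, R / √(lam n) * (y0 * r0 / 3 + 2 * |Y| * ‖v0‖) ≤ δ := by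
    have h1 : Tendsto (fun n => R / √(lam n) * (y0 * r0 / 3 + 2 * |Y| * ‖v0‖)) atTop (𝓝 0) := by
      simpa using hsl.mul_const (y0 * r0 / 3 + 2 * |Y| * ‖v0‖)
    exact (h1.eventually (gt_mem_nhds hδ)).mono fun n hn => hn.le
  filter_upwards [hev, hev2] with n hn hn2 b hb hE
  have hl := pos n
  set s : ℝ := R / √(lam n) with hs
  have hs0 : 0 < s := by positivity
  have hs2 : lam n = R ^ 2 / s ^ 2 := by
    rw [hs, div_pow, Real.sq_sqrt hl.le]
    field_simp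
  set h : ℝ := s * y0 * r0 * (2 / 3) with hh
  have hh0 : 0 < h := by positivity
  have s2 : ContDiffOn ℝ ∞ (fun u => f n u ^ 2) HH := (sm n).pow 2
  have s4 : ContinuousOn (fun u => f n u ^ 4) HH := (sm n).continuousOn.pow 4
  have hv0ρ : ‖v0‖ ≤ ρ := hvb v0 (Metric.mem_closedBall_self hr0.le)
  have hsv : s * ‖v0‖ ≤ 1 / 2 := by
    calc s * ‖v0‖ ≤ s * ρ := by gcongr
      _ ≤ _ := hn
  have hsi : |s * v0.im| ≤ 1 / 2 := by
    rw [abs_mul, abs_of_pos hs0]
    calc s * |v0.im| ≤ s * ‖v0‖ := by gcongr; exact Complex.abs_im_le_norm v0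
      _ ≤ _ := hsv
  have hd : (1:ℝ) / 2 ≤ 1 + s * v0.im := by
    have := (abs_le.1 hsi).1
    linarith
  -- the balls
  have hball : ∀ z ∈ K', Metric.closedBall (T s v0 z) (3 / 2 * h) ⊆
      Metric.closedBall (T s v0 z) (s * z.im * r0) := by
    intro z hz
    apply Metric.closedBall_subset_closedBall
    have := hy z (hK'K'' hz)
    calc 3 / 2 * h = s * y0 * r0 := by rw [hh]; ring
      _ ≤ _ := by gcongr
  have hball2 : ∀ z ∈ K', Metric.closedBall (T s v0 z) (s * z.im * r0) ⊆ K'' := by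
    intro z hz u hu
    have hz0 : 0 < z.im := hδB hz
    have hr : (0:ℝ) < s * z.im := by positivity
    set v : ℂ := ((s * z.im : ℝ) : ℂ)⁻¹ * (u - z) with hv
    have hrC : ((s * z.im : ℝ) : ℂ) ≠ 0 := by exact_mod_cast hr.ne'
    have e1 : T s v z = u := by
      unfold T
      rw [hv, ← mul_assoc, mul_inv_cancel₀ hrC]; ring
    have e2 : v ∈ Metric.closedBall v0 r0 := by
      rw [mem_closedBall_iff_norm] at hu ⊢
      have e3 : u - T s v0 z = ((s * z.im : ℝ) : ℂ) * (v - v0) := by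
        rw [← e1]; unfold T; ring
      rw [e3, norm_mul, Complex.norm_real, Real.norm_of_nonneg hr.le] at hu
      exact le_of_mul_le_mul_left hu hr
    rw [← e1]
    exact hKK s hs0.le hn v (hvb v e2) z hz
  -- the local bound
  have hP : ∀ z ∈ K', ∫ u in Metric.ball (T s v0 z) h, f n u ^ 4 ≤
      C6 * s ^ 2 * avg χ s (fun u => f n u ^ 2) z ^ 2 := by
    intro z hz
    have hz0 : 0 < z.im := hδB hz
    have h1 := hloc (lam n) (f n) hl.le (sm n) (heq n) (T s v0 z) h y0 hh0 hy0p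
      fun u hu => hy u (hball2 z hz (hball z hz hu))
    have h2 := avg_low hχ hχ0 hsu hc0 hχc hs0 s2.continuousOn (fun u => sq_nonneg _)
      (z := z) (fun v hv => hK''H (hKK s hs0.le hn v hv z hz)) hz0
    have i2 : IntegrableOn (fun u => f n u ^ 2) (Metric.closedBall (T s v0 z) (s * z.im * r0)) :=
      (s2.continuousOn.mono ((hball2 z hz).trans hK''H)).integrableOn_compact
        (isCompact_closedBall _ _)
    have h3 : ∫ u in Metric.closedBall (T s v0 z) (3 / 2 * h), f n u ^ 2 ≤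
        ∫ u in Metric.closedBall (T s v0 z) (s * z.im * r0), f n u ^ 2 :=
      setIntegral_mono_set i2 (ae_of_all _ fun u => sq_nonneg _)
        (LE.le.eventuallyLE (hball z hz))
    set av : ℝ := avg χ s (fun u => f n u ^ 2) z with hav
    have hav0 : 0 ≤ av := integral_nonneg fun v => mul_nonneg (hχ0 v) (sq_nonneg _)
    have h4 : ∫ u in Metric.closedBall (T s v0 z) (3 / 2 * h), f n u ^ 2 ≤
        (s * |Y|) ^ 2 / c0 * av := by
      have h5 : (s * z.im) ^ 2 * av ≤ (s * |Y|) ^ 2 * av := by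
        have := hYy z (hK'K'' hz)
        gcongr
      have e9 : (s * |Y|) ^ 2 / c0 * av = ((s * |Y|) ^ 2 * av) / c0 := by ring
      rw [e9, le_div_iff₀ hc0]
      calc (∫ u in Metric.closedBall (T s v0 z) (3 / 2 * h), f n u ^ 2) * c0
          ≤ (∫ u in Metric.closedBall (T s v0 z) (s * z.im * r0), f n u ^ 2) * c0 := by gcongr
        _ ≤ _ := by linarith
    have h5 : 0 ≤ ∫ u in Metric.closedBall (T s v0 z) (3 / 2 * h), f n u ^ 2 :=
      integral_nonneg fun u => sq_nonneg _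
    calc ∫ u in Metric.ball (T s v0 z) h, f n u ^ 4 ≤ CL * (1 / h ^ 2 + lam n / y0 ^ 2) *
          (∫ u in Metric.closedBall (T s v0 z) (3 / 2 * h), f n u ^ 2) ^ 2 := h1
      _ ≤ CL * (1 / h ^ 2 + lam n / y0 ^ 2) * ((s * |Y|) ^ 2 / c0 * av) ^ 2 := by gcongr
      _ = C6 * s ^ 2 * av ^ 2 := by
          rw [hs2, hC6, hh]
          field_simp
          ring
  -- the volume
  have hVol : ∀ u ∈ K, ENNReal.ofReal (Real.pi * (h / 2) ^ 2) ≤
      volume {z | z ∈ K' ∧ dist u (T s v0 z) < h} := by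
    intro u hu
    have e1 : volume (Metric.ball (zz s v0 u) (h / 2)) = ENNReal.ofReal (Real.pi * (h / 2) ^ 2) := by
      rw [Complex.volume_ball, ← ENNReal.ofReal_pow (by positivity), mul_comm Real.pi,
        ENNReal.ofReal_mul (by positivity)]
      congr 1
      rw [← NNReal.coe_real_pi, ENNReal.ofReal_coe_nnreal]
    rw [← e1]
    refine measure_mono fun z hz => ?_
    rw [mem_ball_iff_norm] at hz
    have hT := zz_T (by linarith : 0 < 1 + s * v0.im) u
    have hu0 : 0 < u.im := hKH hu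
    have huK : u ∈ K' := Metric.self_subset_cthickening K hu
    have huY := hYy u (hK'K'' huK)
    constructor
    · refine Metric.mem_cthickening_of_dist_le z u δ K hu ?_
      rw [dist_eq_norm]
      have e2 : ‖zz s v0 u - u‖ ≤ s * (2 * |Y|) * ‖v0‖ := by
        have : zz s v0 u - u = -(((s * u.im / (1 + s * v0.im) : ℝ) : ℂ) * v0) := by
          unfold zz; ring
        rw [this, norm_neg, norm_mul, Complex.norm_real, Real.norm_of_nonneg (by
          have : 0 < 1 + s * v0.im := by linarith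
          positivity)]
        gcongr
        rw [div_le_iff₀ (by linarith)]
        have : s * u.im ≤ s * |Y| := by gcongr
        have h7 : 0 ≤ s * |Y| := by positivity
        nlinarith
      calc ‖z - u‖ = ‖(z - zz s v0 u) + (zz s v0 u - u)‖ := by ring_nf
        _ ≤ ‖z - zz s v0 u‖ + ‖zz s v0 u - u‖ := norm_add_le _ _
        _ ≤ h / 2 + s * (2 * |Y|) * ‖v0‖ := by gcongr
        _ = s * (y0 * r0 / 3 + 2 * |Y| * ‖v0‖) := by rw [hh]; ring
        _ ≤ δ := hn2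
    · rw [dist_eq_norm]
      nth_rw 1 [← hT]
      have e3 : T s v0 (zz s v0 u) - T s v0 z = (zz s v0 u - z) +
          ((s * (zz s v0 u - z).im : ℝ) : ℂ) * v0 := by
        unfold T
        rw [sub_im]
        push_cast
        ring
      rw [e3]
      have e4 : ‖(zz s v0 u - z) + ((s * (zz s v0 u - z).im : ℝ) : ℂ) * v0‖ ≤
          ‖zz s v0 u - z‖ + ‖zz s v0 u - z‖ * (1 / 2) := by
        refine (norm_add_le _ _).trans ?_
        gcongr
        rw [norm_mul, Complex.norm_real, norm_mul, Real.norm_of_nonneg hs0.le]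
        have h7 : ‖(zz s v0 u - z).im‖ ≤ ‖zz s v0 u - z‖ := Complex.abs_im_le_norm _
        calc s * ‖(zz s v0 u - z).im‖ * ‖v0‖ = ‖(zz s v0 u - z).im‖ * (s * ‖v0‖) := by ring
          _ ≤ ‖zz s v0 u - z‖ * (1 / 2) := by gcongr
      rw [norm_sub_rev] at hz
      refine e4.trans_lt ?_
      linarith
  -- Tonelli
  have hFm := meas_ind (E := ℝ) s4
  have key := swap_low (K := K) (K' := K') (F := HH.indicator fun w => ‖f n w ^ 4‖ₑ)
    hK.measurableSet cK'.measurableSet hFm (s := s) (h := h) (v0 := v0)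
    (Φ := fun z => ENNReal.ofReal (C6 * s ^ 2) * ‖avg χ s (fun u => f n u ^ 2) z‖ₑ ^ 2)
    (fun z hz => ?_) (V := ENNReal.ofReal (Real.pi * (h / 2) ^ 2)) (by simp) hVol
  · rw [lintegral_const_mul' _ _ (by simp)] at key
    have e5 : ∫⁻ u in K, HH.indicator (fun w => ‖f n w ^ 4‖ₑ) u =
        ENNReal.ofReal (∫ u in K, f n u ^ 4) := by
      rw [ofReal_integral_eq_lintegral_ofReal ((s4.mono hKH).integrableOn_compact hK)
        (ae_of_all _ fun u => by positivity)]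
      refine setLIntegral_congr_fun hK.measurableSet fun u hu => ?_
      simp only [indicator_of_mem (hKH hu)]
      rw [← ofReal_norm, Real.norm_of_nonneg (by positivity)]
    rw [e5] at key
    have key2 : ENNReal.ofReal (Real.pi * (h / 2) ^ 2 * ∫ u in K, f n u ^ 4) ≤
        ENNReal.ofReal (C6 * s ^ 2 * b) := by
      rw [ENNReal.ofReal_mul (by positivity), ENNReal.ofReal_mul (q := b) (by positivity)]
      refine key.trans ?_
      gcongr
      exact hE
    rw [ENNReal.ofReal_le_ofReal_iff (by positivity)] at key2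
    have e6 : Real.pi * (h / 2) ^ 2 = (Real.pi * (y0 ^ 2 * r0 ^ 2 / 9)) * s ^ 2 := by
      rw [hh]; ring
    rw [e6] at key2
    have hs2' : 0 < s ^ 2 := by positivity
    have key3 : (Real.pi * (y0 ^ 2 * r0 ^ 2 / 9)) * (∫ u in K, f n u ^ 4) ≤ C6 * b := by
      have : s ^ 2 * ((Real.pi * (y0 ^ 2 * r0 ^ 2 / 9)) * (∫ u in K, f n u ^ 4)) ≤
          s ^ 2 * (C6 * b) := by linarith
      exact le_of_mul_le_mul_left this hs2'
    rw [div_mul_eq_mul_div, le_div_iff₀ (by positivity)]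
    linarith
  · have hsub : Metric.ball (T s v0 z) h ⊆ Metric.closedBall (T s v0 z) (3 / 2 * h) :=
      (Metric.ball_subset_closedBall).trans (Metric.closedBall_subset_closedBall (by linarith))
    have hsub2 : Metric.ball (T s v0 z) h ⊆ HH :=
      hsub.trans (((hball z hz).trans (hball2 z hz)).trans hK''H)
    have i4 : IntegrableOn (fun u => f n u ^ 4) (Metric.ball (T s v0 z) h) :=
      ((s4.mono (((hball z hz).trans (hball2 z hz)).trans hK''H)).integrableOn_compact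
        (isCompact_closedBall _ _)).mono_set hsub
    have e7 : ∫⁻ u in Metric.ball (T s v0 z) h, HH.indicator (fun w => ‖f n w ^ 4‖ₑ) u =
        ENNReal.ofReal (∫ u in Metric.ball (T s v0 z) h, f n u ^ 4) := by
      rw [ofReal_integral_eq_lintegral_ofReal i4 (ae_of_all _ fun u => by positivity)]
      refine setLIntegral_congr_fun measurableSet_ball fun u hu => ?_
      simp only [indicator_of_mem (hsub2 hu)]
      rw [← ofReal_norm, Real.norm_of_nonneg (by positivity)]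
    rw [e7, en_sq, ← ENNReal.ofReal_mul (by positivity)]
    exact ENNReal.ofReal_le_ofReal (hP z hz)

/-- (ii) gives bounded fourth moments -/
lemma bd_ofU (hU : IsOpen U) (hUH : U ⊆ HH) (pos : ∀ n, 0 < lam n) (lim : Tendsto lam atTop atTop)
    (sm : ∀ n, ContDiffOn ℝ ∞ (f n) HH)
    (heq : ∀ n, ∀ z ∈ HH, z.im ^ 2 * lap (f n) z + lam n * f n z = 0)
    {χ : ℂ → ℝ} {ρ : ℝ} (hχ : Continuous χ) (hχ0 : ∀ v, 0 ≤ χ v)
    (hsu : tsupport χ ⊆ Metric.closedBall 0 ρ) (hρ : 1 ≤ ρ) (hχ1 : ∫ v, χ v = 1)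
    (h : ∀ w, TF U w → (∀ z, 0 ≤ w z) → ∃ R : ℝ, 0 < R ∧ ∃ b : ℝ, ∀ᶠ n in atTop,
      ∫ z, w z * (avg χ (R / √(lam n)) (fun u => f n u ^ 2) z - 1) ^ 2 ≤ b) : BdU U f := by
  intro K hK hKU
  obtain ⟨K', hK', hK'U, hC⟩ := bd4U hU hUH pos lim sm heq hχ hχ0 hsu hρ hχ1 hK hKU
  have hK'H : K' ⊆ HH := hK'U.trans hUH
  obtain ⟨ζ, V, hζU, -, hKV, h1, -, -⟩ := cut_nearU hU hK' hK'U
  have hζ : TF HH ζ := TFm hUH hζU
  obtain ⟨R, hR, b, hb⟩ := h _ (TF_sqU hU hζU) (fun z => mul_self_nonneg _)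
  obtain ⟨C, hC0, hC⟩ := hC R hR
  have hfin : EE K' (fun _ => (1:ℝ)) ≠ ⊤ := EE_fin hK' continuousOn_const
  set V1 : ℝ := (EE K' (fun _ => (1:ℝ))).toReal with hV1
  have hV0 : 0 ≤ V1 := ENNReal.toReal_nonneg
  have hVe : EE K' (fun _ => (1:ℝ)) = ENNReal.ofReal V1 := (ENNReal.ofReal_toReal hfin).symm
  refine ⟨C * (2 * |b| + 2 * V1), ?_⟩
  filter_upwards [hC, hb, int_avg lim sm hχ hsu hρ hR.le (TF_sq hζ),
    avg_fin lim sm hχ hsu hρ hR.le hK' hK'H] with n h2 h3 h4 h5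
  refine h2 _ (by positivity) ?_
  set a : ℂ → ℝ := avg χ (R / √(lam n)) (fun u => f n u ^ 2) with ha
  have h6 : EE K' (fun z => a z - 1) ≤ ENNReal.ofReal |b| := by
    have e1 : EE K' (fun z => a z - 1) ≤ ∫⁻ z, ENNReal.ofReal ((ζ z * ζ z) * (a z - 1) ^ 2) := by
      unfold EE
      refine le_trans (le_of_eq ?_) (setLIntegral_le_lintegral K' _)
      refine setLIntegral_congr_fun hK'.measurableSet fun z hz => ?_
      simp only
      rw [en_sq, h1 z (hKV hz), one_mul, one_mul]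
    rw [← ofReal_integral_eq_lintegral_ofReal h4 (ae_of_all _ fun z =>
      mul_nonneg (mul_self_nonneg _) (sq_nonneg _))] at e1
    exact e1.trans (ENNReal.ofReal_le_ofReal (h3.trans (le_abs_self b)))
  have h7 := EE_add (a := fun z => a z - 1) (b := fun _ => 1) (h5.1.sub aemeasurable_const)
  have h8 : (fun z => a z - 1 + 1) = a := by funext z; ring
  rw [h8] at h7
  refine h7.trans ?_
  rw [hVe]
  calc 2 * EE K' (fun z => a z - 1) + 2 * ENNReal.ofReal V1 ≤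
      2 * ENNReal.ofReal |b| + 2 * ENNReal.ofReal V1 := by gcongr
    _ = _ := by
        rw [show (2:ℝ≥0∞) = ENNReal.ofReal 2 by simp, ← ENNReal.ofReal_mul (by norm_num),
          ← ENNReal.ofReal_mul (by norm_num), ← ENNReal.ofReal_add (by positivity) (by positivity)]

/-- convergence of the fourth moments gives bounded fourth moments -/
lemma bd_ofU' (hU : IsOpen U) (hUH : U ⊆ HH) (sm : ∀ n, ContDiffOn ℝ ∞ (f n) HH)
    (h : ∀ w, TF U w → (∀ z, 0 ≤ w z) → ∃ b : ℝ, Tendsto (fun n => ∫ z, w z * f n z ^ 4) atTop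
      (𝓝 b)) : BdU U f := by
  intro K hK hKU
  obtain ⟨ζ, V, hζU, -, hKV, h1, -, -⟩ := cut_nearU hU hK hKU
  have hζ : TF HH ζ := TFm hUH hζU
  obtain ⟨b, hb⟩ := h _ (TF_sqU hU hζU) (fun z => mul_self_nonneg _)
  refine ⟨b + 1, ?_⟩
  filter_upwards [hb.eventually (gt_mem_nhds (lt_add_one b))] with n hn
  have i : Integrable fun z => (ζ z * ζ z) * f n z ^ 4 := int_w (TF_sq hζ) ((sm n).pow 4)
  refine le_trans ?_ hn.le
  calc ∫ z in K, f n z ^ 4 = ∫ z in K, (ζ z * ζ z) * f n z ^ 4 := by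
        refine setIntegral_congr_fun hK.measurableSet fun z hz => ?_
        rw [h1 z (hKV hz)]; ring
    _ ≤ _ := setIntegral_le_integral i (ae_of_all _ fun z =>
        mul_nonneg (mul_self_nonneg _) (by positivity))

/-- the equivalence for nonnegative weights -/
theorem Sy.equi0U (S : Sy lam f) (hU : IsOpen U) (hUH : U ⊆ HH)
    (heq : ∀ n, ∀ z ∈ HH, z.im ^ 2 * lap (f n) z + lam n * f n z = 0)
    {χ : ℂ → ℝ} {ρ : ℝ} (hχ : ContDiff ℝ ∞ χ) (hχ0 : ∀ v, 0 ≤ χ v)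
    (hsu : tsupport χ ⊆ Metric.closedBall 0 ρ) (hρ : 1 ≤ ρ) (hχ1 : ∫ v, χ v = 1)
    (Λ : (ℂ → ℝ) → ℝ) :
    (∀ w, TF U w → (∀ z, 0 ≤ w z) → Tendsto (fun n => ∫ z, w z * f n z ^ 4) atTop
      (𝓝 (3 * (∫ z, w z) + 3 / 2 * Λ w))) ↔
    (∀ w, TF U w → (∀ z, 0 ≤ w z) → ∀ δ : ℝ, 0 < δ → ∃ R₀ : ℝ, 0 < R₀ ∧ ∀ R, R₀ ≤ R →
      ∀ᶠ n in atTop, |(∫ z, w z * (avg χ (R / √(lam n)) (fun u => f n u ^ 2) z - 1) ^ 2) - Λ w|
        ≤ δ) := by
  constructor
  · intro h w hw hw0 δ hδ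
    have hb : BdU U f := bd_ofU' hU hUH S.sm fun w hw hw0 => ⟨_, h w hw hw0⟩
    obtain ⟨R₀, hR₀, hA⟩ := S.partAU hU hUH hb hχ hsu hρ hχ1 hw hw0 (δ := δ / 2) (by positivity)
    refine ⟨R₀, hR₀, fun R hR => ?_⟩
    have h1 := (h w hw hw0).eventually (Metric.ball_mem_nhds _ (by positivity : 0 < δ / 2))
    filter_upwards [hA R hR, h1] with n h2 h3
    have h4 : |(∫ z, w z * f n z ^ 4) - (3 * (∫ z, w z) + 3 / 2 * Λ w)| < δ / 2 := h3
    rw [abs_le] at h2 ⊢
    rw [abs_lt] at h4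
    constructor <;> linarith [h2.1, h2.2, h4.1, h4.2]
  · intro h w hw hw0
    have hb : BdU U f := bd_ofU hU hUH S.pos S.lim S.sm heq hχ.continuous hχ0 hsu hρ hχ1
      fun w hw hw0 => by
        obtain ⟨R, hR, hR2⟩ := h w hw hw0 1 one_pos
        refine ⟨R, hR, Λ w + 1, ?_⟩
        filter_upwards [hR2 R le_rfl] with n hn
        have := (abs_le.1 hn).2
        linarith
    rw [Metric.tendsto_nhds]
    intro δ hδ
    obtain ⟨R₀, hR₀, hA⟩ := S.partAU hU hUH hb hχ hsu hρ hχ1 hw hw0 (δ := δ / 4) (by positivity)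
    obtain ⟨R₁, hR₁, hB⟩ := h w hw hw0 (δ / 4) (by positivity)
    filter_upwards [hA (max R₀ R₁) (le_max_left _ _), hB (max R₀ R₁) (le_max_right _ _)]
      with n h2 h3
    rw [Real.dist_eq]
    rw [abs_le] at h2 h3
    rw [abs_lt]
    constructor <;> linarith [h2.1, h2.2, h3.1, h3.2]

/-- decomposition of test functions -/
lemma decwU (hU : IsOpen U) {w : ℂ → ℝ} (hw : TF U w) :
    ∃ (a b : ℂ → ℝ) (c : ℝ), TF U a ∧ TF U b ∧
    (∀ z, 0 ≤ a z) ∧ (∀ z, 0 ≤ b z) ∧ w = fun z => a z + c * b z := by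
  obtain ⟨ζ, V, hζ, -, hKV, h1, h2, -⟩ := cut_nearU hU hw.2.1 hw.2.2
  obtain ⟨M, hM⟩ := hw.1.continuous.bounded_above_of_compact_support hw.2.1
  refine ⟨fun z => w z + M * ζ z, ζ, -M, ?_, hζ, fun z => ?_, h2, ?_⟩
  · have c1 : ContDiff ℝ ∞ fun z => w z + M * ζ z := hw.1.add (contDiff_const.mul hζ.1)
    have hsub : tsupport (fun z => w z + M * ζ z) ⊆ tsupport w ∪ tsupport ζ := by
      refine closure_minimal (fun z hz => ?_)
        ((isClosed_tsupport w).union (isClosed_tsupport ζ))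
      by_contra h
      rw [mem_union, not_or] at h
      exact hz (by simp [image_eq_zero_of_notMem_tsupport h.1,
        image_eq_zero_of_notMem_tsupport h.2])
    refine ⟨c1, ?_, hsub.trans (union_subset hw.2.2 hζ.2.2)⟩
    exact HasCompactSupport.of_support_subset_isCompact
      (K := tsupport w ∪ tsupport ζ) (hw.2.1.union hζ.2.1) ((subset_tsupport _).trans hsub)
  · show 0 ≤ w z + M * ζ z
    by_cases hz : z ∈ tsupport w
    · rw [h1 z (hKV hz)]
      have := (abs_le.1 (hM z)).1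
      linarith
    · rw [image_eq_zero_of_notMem_tsupport hz, zero_add]
      exact mul_nonneg ((norm_nonneg _).trans (hM 0)) (h2 z)
  · funext z; ring

/-- limits for nonnegative test functions suffice -/
lemma lin_wU (hU : IsOpen U) {P : (ℂ → ℝ) → ℕ → ℝ} {Λ : (ℂ → ℝ) → ℝ}
    (hΛ : ∀ a b : ℂ → ℝ, TF U a → TF U b → ∀ c : ℝ,
      Λ (fun z => a z + c * b z) = Λ a + c * Λ b)
    (hP : ∀ a b : ℂ → ℝ, TF U a → TF U b → ∀ c : ℝ, ∀ᶠ n in atTop,
      P (fun z => a z + c * b z) n = P a n + c * P b n)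
    (h : ∀ w, TF U w → (∀ z, 0 ≤ w z) → Tendsto (P w) atTop (𝓝 (Λ w))) :
    ∀ w, TF U w → Tendsto (P w) atTop (𝓝 (Λ w)) := by
  intro w hw
  obtain ⟨a, b, c, ha, hb, ha0, hb0, rfl⟩ := decwU hU hw
  rw [hΛ a b ha hb c]
  refine ((h a ha ha0).add ((h b hb hb0).const_mul c)).congr' ?_
  filter_upwards [hP a b ha hb c] with n hn
  exact hn.symm

/-- **the equivalence** -/
theorem Sy.equiU (S : Sy lam f) (hU : IsOpen U) (hUH : U ⊆ HH)
    (heq : ∀ n, ∀ z ∈ HH, z.im ^ 2 * lap (f n) z + lam n * f n z = 0)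
    {χ : ℂ → ℝ} (hχ : ContDiff ℝ ∞ χ) (hχ0 : ∀ v, 0 ≤ χ v)
    (hχc : HasCompactSupport χ) (hχ1 : ∫ v, χ v = 1)
    {Λ : (ℂ → ℝ) → ℝ} (hΛ : ∀ a b : ℂ → ℝ, TF U a → TF U b → ∀ c : ℝ,
      Λ (fun z => a z + c * b z) = Λ a + c * Λ b) :
    (∀ w, TF U w → Tendsto (fun n => ∫ z, w z * f n z ^ 4) atTop
      (𝓝 (3 * (∫ z, w z) + 3 / 2 * Λ w))) ↔
    (∀ w, TF U w → ∀ δ : ℝ, 0 < δ → ∃ R₀ : ℝ, 0 < R₀ ∧ ∀ R, R₀ ≤ R →
      ∀ᶠ n in atTop, |(∫ z, w z * (avg χ (R / √(lam n)) (fun u => f n u ^ 2) z - 1) ^ 2) - Λ w|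
        ≤ δ) := by
  obtain ⟨ρ, hρ, hsu⟩ : ∃ ρ : ℝ, 1 ≤ ρ ∧ tsupport χ ⊆ Metric.closedBall 0 ρ := by
    obtain ⟨r, hr⟩ := hχc.isBounded.subset_closedBall (0:ℂ)
    exact ⟨max r 1, le_max_right _ _, hr.trans (Metric.closedBall_subset_closedBall
      (le_max_left _ _))⟩
  have dec := fun w (hw : TF U w) => decwU hU hw
  have h0 := S.equi0U hU hUH heq hχ hχ0 hsu hρ hχ1 Λ
  constructor
  · intro h w hw δ hδ
    have h1 := h0.1 fun w hw _ => h w hw
    obtain ⟨a, b, c, ha, hb, ha0, hb0, rfl⟩ := dec w hw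
    obtain ⟨R₀, hR₀, hA⟩ := h1 a ha ha0 (δ / 2) (by positivity)
    obtain ⟨R₁, hR₁, hB⟩ := h1 b hb hb0 (δ / (2 * (|c| + 1))) (by positivity)
    refine ⟨max R₀ R₁, by positivity, fun R hR => ?_⟩
    have hR0 : 0 ≤ R := by
      have := (le_max_left R₀ R₁).trans hR
      linarith
    filter_upwards [hA R ((le_max_left _ _).trans hR), hB R ((le_max_right _ _).trans hR),
      int_avg S.lim S.sm hχ.continuous hsu hρ hR0 (TFm hUH ha),
      int_avg S.lim S.sm hχ.continuous hsu hρ hR0 (TFm hUH hb)] with n a1 a2 i1 i2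
    rw [hΛ a b ha hb c]
    have e : ∫ z, (a z + c * b z) * (avg χ (R / √(lam n)) (fun u => f n u ^ 2) z - 1) ^ 2 =
        (∫ z, a z * (avg χ (R / √(lam n)) (fun u => f n u ^ 2) z - 1) ^ 2) +
        c * ∫ z, b z * (avg χ (R / √(lam n)) (fun u => f n u ^ 2) z - 1) ^ 2 := by
      rw [← integral_const_mul, ← integral_add i1 (i2.const_mul c)]
      congr 1
      funext z
      ring
    rw [e]
    set X : ℝ := ∫ z, a z * (avg χ (R / √(lam n)) (fun u => f n u ^ 2) z - 1) ^ 2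
    set Y : ℝ := ∫ z, b z * (avg χ (R / √(lam n)) (fun u => f n u ^ 2) z - 1) ^ 2
    calc |X + c * Y - (Λ a + c * Λ b)| = |(X - Λ a) + c * (Y - Λ b)| := by ring_nf
      _ ≤ |X - Λ a| + |c * (Y - Λ b)| := abs_add_le _ _
      _ = |X - Λ a| + |c| * |Y - Λ b| := by rw [abs_mul]
      _ ≤ δ / 2 + (|c| + 1) * (δ / (2 * (|c| + 1))) := by
          gcongr
          linarith
      _ = δ := by
          have : |c| + 1 ≠ 0 := by positivity
          field_simp
          ring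
  · intro h w hw
    have h1 := h0.2 fun w hw _ => h w hw
    obtain ⟨a, b, c, ha, hb, ha0, hb0, rfl⟩ := dec w hw
    have h2 := (h1 a ha ha0).add ((h1 b hb hb0).const_mul c)
    have i0 : ∀ {v : ℂ → ℝ}, TF U v → Integrable v := fun hv =>
      hv.1.continuous.integrable_of_hasCompactSupport hv.2.1
    have e : 3 * (∫ z, a z) + 3 / 2 * Λ a + c * (3 * (∫ z, b z) + 3 / 2 * Λ b) =
        3 * (∫ z, (a z + c * b z)) + 3 / 2 * Λ (fun z => a z + c * b z) := by
      rw [hΛ a b ha hb c, integral_add (i0 ha) ((i0 hb).const_mul c), integral_const_mul]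
      ring
    rw [e] at h2
    refine h2.congr fun n => ?_
    have i1 : Integrable fun z => a z * f n z ^ 4 := int_w (TFm hUH ha) ((S.sm n).pow 4)
    have i2 : Integrable fun z => b z * f n z ^ 4 := int_w (TFm hUH hb) ((S.sm n).pow 4)
    rw [← integral_const_mul, ← integral_add i1 (i2.const_mul c)]
    congr 1
    funext z
    ring

end

end Pool.Agent.K9h11.MV
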