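import Pool.Agent.K9h11.MV.B

/-!
# Radial averages: the expansion in powers of the Laplacian (helper11)
-/

set_option autoImplicit false

open MeasureTheory Filter Topology Complex Set
open scoped ContDiff ENNReal

namespace Pool.Agent.K9h11.MV

open Pool.Agent.W745.RW Pool.Agent.W366.RW

noncomputable section

/-- radial functions -/
def rad (φ : ℝ → ℝ) (v : ℂ) : ℝ := φ (v.re ^ 2 + v.im ^ 2)

/-- profiles of radial kernels -/
def RK (ρ : ℝ) (φ : ℝ → ℝ) : Prop := ContDiff ℝ ∞ φ ∧ ∀ u, ρ ^ 2 ≤ u → φ u = 0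

/-- the primitive -/
def JF (ρ : ℝ) (φ : ℝ → ℝ) (u : ℝ) : ℝ := -(1 / 2) * ∫ t in (ρ ^ 2)..u, φ t

variable {ρ : ℝ} {φ : ℝ → ℝ}

lemma JF_deriv (hφ : Continuous φ) (u : ℝ) : HasDerivAt (JF ρ φ) (-(1 / 2) * φ u) u :=
  (intervalIntegral.integral_hasDerivAt_right (hφ.intervalIntegrable _ _)
    (hφ.stronglyMeasurableAtFilter _ _) hφ.continuousAt).const_mul _

lemma JF_RK (h : RK ρ φ) : RK ρ (JF ρ φ) := by
  refine ⟨?_, fun u hu => ?_⟩
  · rw [contDiff_infty_iff_deriv]
    refine ⟨fun u => (JF_deriv h.1.continuous u).differentiableAt, ?_⟩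
    have : deriv (JF ρ φ) = fun u => -(1 / 2) * φ u := by
      funext u
      exact (JF_deriv h.1.continuous u).deriv
    rw [this]
    exact contDiff_const.mul h.1
  · unfold JF
    have : ∫ t in (ρ ^ 2)..u, φ t = ∫ t in (ρ ^ 2)..u, (0:ℝ) := by
      refine intervalIntegral.integral_congr fun t ht => ?_
      rw [uIcc_of_le hu] at ht
      exact h.2 t ht.1
    rw [this]
    simp

lemma JF_bd {M : ℝ} (hM : ∀ u, 0 ≤ u → |φ u| ≤ M)
    (h2 : ∀ u, ρ ^ 2 ≤ u → φ u = 0) : ∀ u, 0 ≤ u → |JF ρ φ u| ≤ M * (ρ ^ 2 / 2) := by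
  intro u hu
  have hM0 : 0 ≤ M := (abs_nonneg _).trans (hM 0 le_rfl)
  by_cases hu2 : ρ ^ 2 ≤ u
  · have : JF ρ φ u = 0 := by
      unfold JF
      have : ∫ t in (ρ ^ 2)..u, φ t = ∫ t in (ρ ^ 2)..u, (0:ℝ) := by
        refine intervalIntegral.integral_congr fun t ht => ?_
        rw [uIcc_of_le hu2] at ht
        exact h2 t ht.1
      rw [this]
      simp
    rw [this, abs_zero]
    positivity
  · push Not at hu2
    unfold JF
    rw [abs_mul]
    have h1 : ‖∫ t in (ρ ^ 2)..u, φ t‖ ≤ M * |u - ρ ^ 2| := by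
      apply intervalIntegral.norm_integral_le_of_norm_le_const
      intro t ht
      rw [uIoc_of_ge hu2.le] at ht
      exact hM t (hu.trans ht.1.le)
    rw [Real.norm_eq_abs] at h1
    have h3 : |u - ρ ^ 2| ≤ ρ ^ 2 := by
      rw [abs_of_nonpos (by linarith)]
      linarith
    calc |-(1 / 2 : ℝ)| * |∫ t in (ρ ^ 2)..u, φ t| ≤ (1 / 2) * (M * ρ ^ 2) := by
          have e : |-(1 / 2 : ℝ)| = 1 / 2 := by norm_num
          rw [e]
          gcongr
          exact h1.trans (by gcongr)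
      _ = _ := by ring

lemma rad_sm (h : RK ρ φ) : ContDiff ℝ ∞ (rad φ) := by
  have h1 : ContDiff ℝ ∞ fun v : ℂ => v.re ^ 2 + v.im ^ 2 :=
    (reCLM.contDiff.pow 2).add (imCLM.contDiff.pow 2)
  exact h.1.comp h1

lemma nsq (v : ℂ) : v.re ^ 2 + v.im ^ 2 = ‖v‖ ^ 2 := by
  rw [Complex.sq_norm, Complex.normSq_apply]; ring

lemma rad_z (h : RK ρ φ) (hρ : 0 ≤ ρ) (v : ℂ) (hv : ρ ≤ ‖v‖) : rad φ v = 0 := by
  refine h.2 _ ?_
  rw [nsq]
  exact pow_le_pow_left₀ hρ hv 2

lemma rad_ts (h : RK ρ φ) (hρ : 0 ≤ ρ) : tsupport (rad φ) ⊆ Metric.closedBall 0 ρ := by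
  refine closure_minimal (fun v hv => ?_) Metric.isClosed_closedBall
  rw [mem_closedBall_zero_iff]
  by_contra hc
  push Not at hc
  exact hv (rad_z h hρ v hc.le)

lemma rad_cs (h : RK ρ φ) (hρ : 0 ≤ ρ) : HasCompactSupport (rad φ) :=
  HasCompactSupport.of_support_subset_isCompact (isCompact_closedBall (0:ℂ) ρ)
    ((subset_tsupport _).trans (rad_ts h hρ))

lemma rad_J (h : RK ρ φ) (v a : ℂ) :
    fderiv ℝ (rad (JF ρ φ)) v a = -(rad φ v * (v.re * a.re + v.im * a.im)) := by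
  have h1 : HasFDerivAt (fun v : ℂ => v.re ^ 2 + v.im ^ 2)
      ((2 * v.re) • reCLM + (2 * v.im) • imCLM) v := by
    have a1 : HasFDerivAt (fun v : ℂ => v.re) reCLM v := reCLM.hasFDerivAt
    have a2 : HasFDerivAt (fun v : ℂ => v.im) imCLM v := imCLM.hasFDerivAt
    refine ((a1.pow 2).add (a2.pow 2)).congr_fderiv ?_
    apply ContinuousLinearMap.ext
    intro x
    simp
  have h2 := (JF_deriv (ρ := ρ) h.1.continuous (v.re ^ 2 + v.im ^ 2)).comp_hasFDerivAt v h1
  have h3 : fderiv ℝ (rad (JF ρ φ)) v = _ := h2.fderiv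
  rw [h3]
  simp only [rad, smul_apply, add_apply, reCLM_apply, imCLM_apply, smul_eq_mul]
  ring

/-- Green's formula for the radial kernels -/
lemma inner (h : RK ρ φ) (hρ : 0 ≤ ρ) {W : ℂ → ℝ} (hW : ContDiff ℝ ∞ W) :
    ∫ v, rad φ v * fderiv ℝ W v v = ∫ v, rad (JF ρ φ) v * lap W v := by
  have hJ := JF_RK h
  have hJs := rad_sm hJ
  have hJc := rad_cs hJ hρ
  have e : ∀ v, rad φ v * fderiv ℝ W v v = -(fderiv ℝ (rad (JF ρ φ)) v 1 * fderiv ℝ W v 1) -
      fderiv ℝ (rad (JF ρ φ)) v I * fderiv ℝ W v I := by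
    intro v
    rw [rad_J h, rad_J h]
    have hv : v = v.re • (1 : ℂ) + v.im • I := by simp
    have : fderiv ℝ W v v = v.re * fderiv ℝ W v 1 + v.im * fderiv ℝ W v I := by
      conv_lhs => rw [hv]
      rw [map_add, map_smul, map_smul]
      simp
    rw [this]
    simp only [one_re, one_im, I_re, I_im]
    ring
  have i1 : ∀ a, Integrable fun v => fderiv ℝ (rad (JF ρ φ)) v a * fderiv ℝ W v a := fun a =>
    ((sm1 hJs a).continuous.mul (sm1 hW a).continuous).integrable_of_hasCompactSupport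
      ((hJc.fderiv_apply (𝕜 := ℝ) a).mul_right)
  have i2 : ∀ a, Integrable fun v => rad (JF ρ φ) v * fderiv ℝ (fun y => fderiv ℝ W y a) v a :=
    fun a => (hJs.continuous.mul (sm1 (sm1 hW a) a).continuous).integrable_of_hasCompactSupport
      hJc.mul_right
  have e2 : ∀ v, rad (JF ρ φ) v * lap W v =
      rad (JF ρ φ) v * fderiv ℝ (fun y => fderiv ℝ W y 1) v 1 +
      rad (JF ρ φ) v * fderiv ℝ (fun y => fderiv ℝ W y I) v I := fun v => by
    show _ * (_ + _) = _
    rw [mul_add]; rfl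
  simp only [e, e2]
  have i3 : Integrable fun v => -(fderiv ℝ (rad (JF ρ φ)) v 1 * fderiv ℝ W v 1) := (i1 1).neg
  rw [integral_add (i2 1) (i2 I), integral_sub i3 (i1 I), integral_neg,
    ibp1 hJs hJc (sm1 hW 1) 1, ibp1 hJs hJc (sm1 hW I) I]
  ring

/-- radial means -/
def MM (φ : ℝ → ℝ) (s : ℝ) (H : ℂ → ℝ) : ℝ := ∫ v : ℂ, rad φ v * H (s • v)

/-- the mass -/
def ms (φ : ℝ → ℝ) : ℝ := ∫ v : ℂ, rad φ v

lemma lap_sc {W : ℂ → ℝ} (hW : ContDiff ℝ ∞ W) (s : ℝ) (v : ℂ) :
    lap (fun v => W (s • v)) v = s ^ 2 * lap W (s • v) := by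
  have c : ∀ {W : ℂ → ℝ}, ContDiff ℝ ∞ W → ∀ (v a : ℂ),
      fderiv ℝ (fun v => W (s • v)) v a = s * fderiv ℝ W (s • v) a := by
    intro W hW v a
    have h1 : HasFDerivAt (fun v : ℂ => s • v) (s • ContinuousLinearMap.id ℝ ℂ) v :=
      (hasFDerivAt_id v).const_smul s
    have h2 := (hW.differentiable (by simp) (s • v)).hasFDerivAt.comp v h1
    have h3 : fderiv ℝ (fun v => W (s • v)) v = _ := h2.fderiv
    rw [h3]
    simp
  have k : ∀ a : ℂ, fderiv ℝ (fun w => fderiv ℝ (fun v => W (s • v)) w a) v a =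
      s ^ 2 * fderiv ℝ (fun w => fderiv ℝ W w a) (s • v) a := by
    intro a
    have e1 : (fun w => fderiv ℝ (fun v => W (s • v)) w a) =
        fun w => s * fderiv ℝ W (s • w) a := by
      funext w; exact c hW w a
    rw [e1]
    have d : DifferentiableAt ℝ (fun w => fderiv ℝ W (s • w) a) v := by
      have : ContDiff ℝ ∞ fun w : ℂ => fderiv ℝ W (s • w) a :=
        (sm1 hW a).comp (contDiff_const_smul s)
      exact this.differentiable (by simp) v
    rw [fderiv_const_mul d]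
    simp only [smul_apply, smul_eq_mul]
    rw [c (sm1 hW a) v a]
    ring
  show fderiv ℝ (fun w => fderiv ℝ (fun v => W (s • v)) w 1) v 1 +
    fderiv ℝ (fun w => fderiv ℝ (fun v => W (s • v)) w I) v I = _
  rw [k 1, k I]
  show _ = s ^ 2 * (fderiv ℝ (fun w => fderiv ℝ W w 1) (s • v) 1 +
    fderiv ℝ (fun w => fderiv ℝ W w I) (s • v) I)
  ring

lemma fd_sc {W : ℂ → ℝ} (hW : ContDiff ℝ ∞ W) (s : ℝ) (v a : ℂ) :
    fderiv ℝ (fun v => W (s • v)) v a = s * fderiv ℝ W (s • v) a := by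
  have h1 : HasFDerivAt (fun v : ℂ => s • v) (s • ContinuousLinearMap.id ℝ ℂ) v :=
    (hasFDerivAt_id v).const_smul s
  have h2 := (hW.differentiable (by simp) (s • v)).hasFDerivAt.comp v h1
  have h3 : fderiv ℝ (fun v => W (s • v)) v = _ := h2.fderiv
  rw [h3]
  simp

/-- the derivative of the radial means -/
lemma MM_step0 (h : RK ρ φ) (hρ : 0 ≤ ρ) {W : ℂ → ℝ} (hW : ContDiff ℝ ∞ W) {s : ℝ}
    (hs : 0 ≤ s) : MM φ s W = ms φ * W 0 + ∫ σ in (0:ℝ)..s, σ * MM (JF ρ φ) σ (lap W) := by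
  have hc := rad_cs h hρ
  have hcont : Continuous (rad φ) := (rad_sm h).continuous
  have hfd : Continuous (fderiv ℝ W) := hW.continuous_fderiv (by simp)
  -- pointwise
  have p1 : ∀ v : ℂ, W (s • v) - W 0 = ∫ σ in (0:ℝ)..s, fderiv ℝ W (σ • v) v := by
    intro v
    have hd : ∀ σ ∈ uIcc (0:ℝ) s, HasDerivAt (fun σ : ℝ => W (σ • v)) (fderiv ℝ W (σ • v) v) σ := by
      intro σ _
      have e2 : HasDerivAt (fun σ : ℝ => σ • v) v σ := by
        simpa using (hasDerivAt_id σ).smul_const v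
      exact (hW.differentiable (by simp) (σ • v)).hasFDerivAt.comp_hasDerivAt σ e2
    have hci : Continuous fun σ : ℝ => fderiv ℝ W (σ • v) v :=
      (hfd.comp (by fun_prop)).clm_apply continuous_const
    have := intervalIntegral.integral_eq_sub_of_hasDerivAt hd (hci.intervalIntegrable _ _)
    rw [this, zero_smul]
  -- integrability
  have i1 : Integrable fun v => rad φ v * W (s • v) :=
    (hcont.mul (hW.continuous.comp (by fun_prop))).integrable_of_hasCompactSupport hc.mul_right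
  have i2 : Integrable (rad φ) := hcont.integrable_of_hasCompactSupport hc
  have e1 : MM φ s W - ms φ * W 0 = ∫ v, rad φ v * ∫ σ in (0:ℝ)..s, fderiv ℝ W (σ • v) v := by
    unfold MM ms
    rw [← integral_mul_const, ← integral_sub i1 (i2.mul_const _)]
    congr 1
    funext v
    rw [← p1 v]; ring
  -- swap
  have hF : Continuous fun p : ℂ × ℝ => rad φ p.1 * fderiv ℝ W (p.2 • p.1) p.1 := by
    refine (hcont.comp continuous_fst).mul ?_
    exact (hfd.comp (by fun_prop)).clm_apply continuous_fst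
  have hFi : Integrable (Function.uncurry fun (v : ℂ) (σ : ℝ) => rad φ v * fderiv ℝ W (σ • v) v)
      (volume.prod (volume.restrict (Ioc (0:ℝ) s))) := by
    have a1 : IntegrableOn (fun p : ℂ × ℝ => rad φ p.1 * fderiv ℝ W (p.2 • p.1) p.1)
        (Metric.closedBall (0:ℂ) ρ ×ˢ Icc (0:ℝ) s) (volume.prod volume) :=
      hF.continuousOn.integrableOn_compact ((isCompact_closedBall (0:ℂ) ρ).prod isCompact_Icc)
    have a2 : IntegrableOn (fun p : ℂ × ℝ => rad φ p.1 * fderiv ℝ W (p.2 • p.1) p.1)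
        (univ ×ˢ Ioc (0:ℝ) s) (volume.prod volume) := by
      have a3 := a1.mono_set (prod_mono (subset_refl _) (Ioc_subset_Icc_self (a := (0:ℝ)) (b := s)))
      refine a3.of_forall_sdiff_eq_zero (MeasurableSet.univ.prod measurableSet_Ioc) ?_
      rintro ⟨v, σ⟩ ⟨⟨-, h1⟩, h2⟩
      have : v ∉ Metric.closedBall (0:ℂ) ρ := fun h3 => h2 ⟨h3, h1⟩
      have h4 : rad φ v = 0 := by
        by_contra h5
        exact this (rad_ts h hρ (subset_tsupport _ h5))
      simp [h4]
    rw [IntegrableOn, ← Measure.prod_restrict, Measure.restrict_univ] at a2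
    exact a2
  have e2 : ∫ v, rad φ v * ∫ σ in (0:ℝ)..s, fderiv ℝ W (σ • v) v =
      ∫ σ in (0:ℝ)..s, ∫ v, rad φ v * fderiv ℝ W (σ • v) v := by
    have := integral_integral_swap hFi
    rw [intervalIntegral.integral_of_le hs, ← this]
    congr 1
    funext v
    rw [intervalIntegral.integral_of_le hs, ← integral_const_mul]
  have e3 : ∀ σ ∈ uIcc (0:ℝ) s, ∫ v, rad φ v * fderiv ℝ W (σ • v) v =
      σ * MM (JF ρ φ) σ (lap W) := by
    intro σ hσ
    have sW : ContDiff ℝ ∞ fun v : ℂ => W (σ • v) := hW.comp (contDiff_const_smul σ)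
    have h1 := inner h hρ sW
    simp only [fd_sc hW, lap_sc hW] at h1
    by_cases h0 : σ = 0
    · subst h0
      rw [zero_mul]
      have : ∀ v : ℂ, rad φ v * fderiv ℝ W ((0:ℝ) • v) v =
          rad φ v * (v.re * fderiv ℝ W 0 1 + v.im * fderiv ℝ W 0 I) := by
        intro v
        rw [zero_smul]
        have hv : v = v.re • (1 : ℂ) + v.im • I := by simp
        conv_lhs => rw [hv]
        rw [map_add, map_smul, map_smul]
        simp
      simp only [this]
      -- the integrand is odd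
      have hodd : ∫ v : ℂ, rad φ v * (v.re * fderiv ℝ W 0 1 + v.im * fderiv ℝ W 0 I) =
          -∫ v : ℂ, rad φ v * (v.re * fderiv ℝ W 0 1 + v.im * fderiv ℝ W 0 I) := by
        conv_lhs => rw [← integral_neg_eq_self]
        rw [← integral_neg]
        congr 1
        funext v
        simp only [rad, neg_re, neg_im]
        ring_nf
      linarith
    · have e4 : σ * ∫ v, rad φ v * fderiv ℝ W (σ • v) v =
          σ * (σ * MM (JF ρ φ) σ (lap W)) := by
        unfold MM
        rw [← integral_const_mul, ← mul_assoc, ← integral_const_mul]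
        calc ∫ v, σ * (rad φ v * fderiv ℝ W (σ • v) v) =
            ∫ v, rad φ v * (σ * fderiv ℝ W (σ • v) v) := by congr 1; funext v; ring
          _ = ∫ v, rad (JF ρ φ) v * (σ ^ 2 * lap W (σ • v)) := h1
          _ = _ := by congr 1; funext v; ring
      exact mul_left_cancel₀ h0 e4
  rw [← intervalIntegral.integral_congr e3, ← e2, ← e1]
  ring

end

end Pool.Agent.K9h11.MV
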