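import Pool.Agent.K9h11.MV.N
import Pool.Agent.TH294.RS.DC

/-!
# The expansion of radial averages (helper11)
-/

set_option autoImplicit false

open MeasureTheory Filter Topology Complex Set
open scoped ContDiff ENNReal

namespace Pool.Agent.K9h11.MV

open Pool.Agent.W745.RW Pool.Agent.W366.RW

noncomputable section

variable {ρ : ℝ} {φ : ℝ → ℝ}

lemma JF_it (h : RK ρ φ) (j : ℕ) : RK ρ ((JF ρ)^[j] φ) := by
  induction j with
  | zero => exact h
  | succ j ih =>
    rw [Function.iterate_succ_apply']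
    exact JF_RK ih

lemma lap_it {W : ℂ → ℝ} (hW : ContDiff ℝ ∞ W) (j : ℕ) : ContDiff ℝ ∞ (lap^[j] W) := by
  induction j with
  | zero => exact hW
  | succ j ih =>
    rw [Function.iterate_succ_apply']
    exact (sm1 (sm1 ih 1) 1).add (sm1 (sm1 ih I) I)

lemma MM_cont (h : RK ρ φ) (hρ : 0 ≤ ρ) {W : ℂ → ℝ} (hW : Continuous W) :
    Continuous fun s : ℝ => MM φ s W := by
  have h1 : Continuous (Function.uncurry fun (s : ℝ) (v : ℂ) => rad φ v * W (s • v)) := by
    have h2 := (rad_sm h).continuous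
    exact (h2.comp continuous_snd).mul (hW.comp (by fun_prop))
  have h3 := continuous_parametric_integral_of_continuous (μ := (volume : Measure ℂ)) h1
    (isCompact_closedBall (0:ℂ) ρ)
  refine h3.congr fun s => ?_
  unfold MM
  rw [setIntegral_eq_integral_of_forall_compl_eq_zero]
  intro v hv
  have : rad φ v = 0 := by
    by_contra hc
    exact hv (rad_ts h hρ (subset_tsupport _ hc))
  rw [this, zero_mul]

/-- the remainder -/
def VV (φ : ℝ → ℝ) (W : ℂ → ℝ) (s : ℝ) : ℝ := ∫ σ in (0:ℝ)..s, σ * |MM φ σ W|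

lemma VV_mono (h : RK ρ φ) (hρ : 0 ≤ ρ) {W : ℂ → ℝ} (hW : Continuous W) {s t : ℝ} (hs : 0 ≤ s)
    (hst : s ≤ t) : VV φ W s ≤ VV φ W t := by
  have hc : Continuous fun σ : ℝ => σ * |MM φ σ W| := continuous_id.mul (MM_cont h hρ hW).abs
  unfold VV
  have := intervalIntegral.integral_add_adjacent_intervals (hc.intervalIntegrable (μ := volume) 0 s)
    (hc.intervalIntegrable s t)
  rw [← this]
  have h2 : 0 ≤ ∫ σ in s..t, σ * |MM φ σ W| :=
    intervalIntegral.integral_nonneg hst fun σ hσ =>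
      mul_nonneg (hs.trans hσ.1) (abs_nonneg _)
  linarith

lemma pow_int (c : ℝ) (k : ℕ) (s : ℝ) : ∫ σ in (0:ℝ)..s, σ * ((σ ^ 2 / 2) ^ k / k.factorial * c) =
    (s ^ 2 / 2) ^ (k + 1) / (k + 1).factorial * c := by
  have hd : ∀ σ ∈ uIcc (0:ℝ) s, HasDerivAt (fun σ : ℝ => (σ ^ 2 / 2) ^ (k + 1) /
      (k + 1).factorial * c) (σ * ((σ ^ 2 / 2) ^ k / k.factorial * c)) σ := by
    intro σ _
    have h1 : HasDerivAt (fun σ : ℝ => σ ^ 2 / 2) σ σ := by
      have := (hasDerivAt_pow 2 σ).div_const 2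
      simpa using this
    have h2 : HasDerivAt (fun σ : ℝ => (σ ^ 2 / 2) ^ (k + 1) / (k + 1).factorial * c) _ σ :=
      ((h1.pow (k + 1)).div_const ((k + 1).factorial : ℝ)).mul_const c
    refine h2.congr_deriv ?_
    rw [Nat.factorial_succ]
    push_cast
    have h3 : (k.factorial : ℝ) ≠ 0 := by exact_mod_cast Nat.factorial_ne_zero k
    have h4 : ((k : ℝ) + 1) ≠ 0 := by positivity
    field_simp
  have hc : Continuous fun σ : ℝ => σ * ((σ ^ 2 / 2) ^ k / k.factorial * c) := by fun_prop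
  rw [intervalIntegral.integral_eq_sub_of_hasDerivAt hd (hc.intervalIntegrable _ _)]
  simp

/-- Pizzetti's expansion with remainder -/
theorem pizzG (hρ : 0 ≤ ρ) (k : ℕ) : ∀ {φ : ℝ → ℝ}, RK ρ φ → ∀ {W : ℂ → ℝ}, ContDiff ℝ ∞ W →
    ∀ {s : ℝ}, 0 ≤ s →
    |MM φ s W - ∑ j ∈ Finset.range (k + 1), (s ^ 2 / 2) ^ j / j.factorial *
      (ms ((JF ρ)^[j] φ) * (lap^[j] W) 0)| ≤
    (s ^ 2 / 2) ^ k / k.factorial * VV ((JF ρ)^[k + 1] φ) (lap^[k + 1] W) s := by
  induction k with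
  | zero =>
    intro φ h W hW s hs
    have h1 := MM_step0 h hρ hW hs
    have e : MM φ s W - ∑ j ∈ Finset.range (0 + 1), (s ^ 2 / 2) ^ j / j.factorial *
      (ms ((JF ρ)^[j] φ) * (lap^[j] W) 0) = ∫ σ in (0:ℝ)..s, σ * MM (JF ρ φ) σ (lap W) := by
      rw [h1]; simp
    rw [e]
    have h2 := intervalIntegral.norm_integral_le_integral_norm (μ := volume)
      (f := fun σ => σ * MM (JF ρ φ) σ (lap W)) hs
    rw [Real.norm_eq_abs] at h2
    refine h2.trans (le_of_eq ?_)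
    have e2 : (s ^ 2 / 2) ^ 0 / (Nat.factorial 0 : ℝ) * VV ((JF ρ)^[0 + 1] φ) (lap^[0 + 1] W) s =
      ∫ σ in (0:ℝ)..s, σ * |MM (JF ρ φ) σ (lap W)| := by simp [VV]
    rw [e2]
    refine intervalIntegral.integral_congr fun σ hσ => ?_
    rw [uIcc_of_le hs] at hσ
    simp only [norm_mul, Real.norm_eq_abs]
    rw [abs_of_nonneg hσ.1]
  | succ k ih =>
    intro φ h W hW s hs
    have h1 := MM_step0 h hρ hW hs
    have hJ := JF_RK h
    have hl : ContDiff ℝ ∞ (lap W) := lap_it hW 1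
    set S : ℝ → ℝ := fun σ => ∑ j ∈ Finset.range (k + 1), (σ ^ 2 / 2) ^ j / j.factorial *
      (ms ((JF ρ)^[j] (JF ρ φ)) * (lap^[j] (lap W)) 0) with hS
    have cS : Continuous S := by
      rw [hS]; fun_prop
    have cM : Continuous fun σ : ℝ => MM (JF ρ φ) σ (lap W) := MM_cont hJ hρ hl.continuous
    have e1 : ∫ σ in (0:ℝ)..s, σ * S σ = ∑ j ∈ Finset.range (k + 1),
        (s ^ 2 / 2) ^ (j + 1) / (j + 1).factorial *
        (ms ((JF ρ)^[j + 1] φ) * (lap^[j + 1] W) 0) := by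
      simp only [hS, Finset.mul_sum]
      rw [intervalIntegral.integral_finsetSum fun j _ =>
        (Continuous.intervalIntegrable (by fun_prop) _ _)]
      refine Finset.sum_congr rfl fun j _ => ?_
      rw [pow_int]
      rfl
    have e2 : MM φ s W - ∑ j ∈ Finset.range (k + 1 + 1), (s ^ 2 / 2) ^ j / j.factorial *
        (ms ((JF ρ)^[j] φ) * (lap^[j] W) 0) =
        ∫ σ in (0:ℝ)..s, σ * (MM (JF ρ φ) σ (lap W) - S σ) := by
      rw [Finset.sum_range_succ', ← e1]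
      have : ∫ σ in (0:ℝ)..s, σ * (MM (JF ρ φ) σ (lap W) - S σ) =
          (∫ σ in (0:ℝ)..s, σ * MM (JF ρ φ) σ (lap W)) - ∫ σ in (0:ℝ)..s, σ * S σ := by
        have j1 : IntervalIntegrable (fun σ => σ * MM (JF ρ φ) σ (lap W)) volume 0 s :=
          (continuous_id.mul cM).intervalIntegrable _ _
        have j2 : IntervalIntegrable (fun σ => σ * S σ) volume 0 s :=
          (continuous_id.mul cS).intervalIntegrable _ _
        rw [← intervalIntegral.integral_sub j1 j2]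
        congr 1
        funext σ
        ring
      rw [this, h1]
      simp
      ring
    rw [e2]
    have h2 := intervalIntegral.norm_integral_le_integral_norm (μ := volume)
      (f := fun σ => σ * (MM (JF ρ φ) σ (lap W) - S σ)) hs
    rw [Real.norm_eq_abs] at h2
    refine h2.trans ?_
    set V : ℝ := VV ((JF ρ)^[k + 1 + 1] φ) (lap^[k + 1 + 1] W) s with hV
    rw [← pow_int V k s]
    refine intervalIntegral.integral_mono_on hs ?_ ?_ fun σ hσ => ?_
    · exact ((continuous_id.mul (cM.sub cS)).norm).intervalIntegrable _ _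
    · exact Continuous.intervalIntegrable (by fun_prop) _ _
    · rw [norm_mul, Real.norm_eq_abs, Real.norm_eq_abs, abs_of_nonneg hσ.1]
      have h3 := ih hJ hl hσ.1
      have h4 : VV ((JF ρ)^[k + 1] (JF ρ φ)) (lap^[k + 1] (lap W)) σ ≤ V := by
        rw [hV]
        exact VV_mono (JF_it h (k + 1 + 1)) hρ (lap_it hW (k + 1 + 1)).continuous hσ.1 hσ.2
      refine mul_le_mul_of_nonneg_left (h3.trans ?_) hσ.1
      exact mul_le_mul_of_nonneg_left h4 (by positivity)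

/-- local version -/
theorem pizz {B : Set ℂ} (hB : IsOpen B) (h : RK ρ φ) (hρ : 0 ≤ ρ) {H : ℂ → ℝ}
    (hH : ContDiffOn ℝ ∞ H B) {s : ℝ} (hs : 0 ≤ s) (hsB : Metric.closedBall 0 (s * ρ) ⊆ B)
    (k : ℕ) :
    |MM φ s H - ∑ j ∈ Finset.range (k + 1), (s ^ 2 / 2) ^ j / j.factorial *
      (ms ((JF ρ)^[j] φ) * (lap^[j] H) 0)| ≤
    (s ^ 2 / 2) ^ k / k.factorial * VV ((JF ρ)^[k + 1] φ) (lap^[k + 1] H) s := by
  obtain ⟨ζ, hζ, h1, -, -⟩ := Pool.Agent.TH294.RS.exists_cut hB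
    (isCompact_closedBall (0:ℂ) (s * ρ)) hsB
  have hsup : Metric.closedBall (0:ℂ) (s * ρ) ⊆ tsupport ζ := fun z hz =>
    subset_tsupport ζ (by rw [Function.mem_support, h1 z hz]; exact one_ne_zero)
  obtain ⟨W, hW, hWu⟩ := cut B hB H ζ hH hζ
  have hWu' : ∀ z ∈ Metric.closedBall (0:ℂ) (s * ρ), W =ᶠ[𝓝 z] H := fun z hz => hWu z (hsup hz)
  have hl : ∀ j : ℕ, ∀ z ∈ Metric.closedBall (0:ℂ) (s * ρ), lap^[j] W =ᶠ[𝓝 z] lap^[j] H := by
    intro j
    induction j with
    | zero => exact hWu'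
    | succ j ih =>
      intro z hz
      rw [Function.iterate_succ_apply', Function.iterate_succ_apply']
      filter_upwards [(ih z hz).eventually_nhds] with w hw
      exact lap_congr _ _ w hw
  have hmem : ∀ σ ∈ Icc (0:ℝ) s, ∀ v ∈ Metric.closedBall (0:ℂ) ρ,
      σ • v ∈ Metric.closedBall (0:ℂ) (s * ρ) := by
    intro σ hσ v hv
    rw [mem_closedBall_zero_iff] at hv ⊢
    rw [norm_smul, Real.norm_of_nonneg hσ.1]
    exact mul_le_mul hσ.2 hv (norm_nonneg _) hs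
  have hMM : ∀ (j : ℕ) {ψ : ℝ → ℝ}, RK ρ ψ → ∀ σ ∈ Icc (0:ℝ) s,
      MM ψ σ (lap^[j] W) = MM ψ σ (lap^[j] H) := by
    intro j ψ hψ σ hσ
    unfold MM
    congr 1
    funext v
    by_cases hv : v ∈ Metric.closedBall (0:ℂ) ρ
    · rw [(hl j _ (hmem σ hσ v hv)).self_of_nhds]
    · have : rad ψ v = 0 := by
        by_contra hc
        exact hv (rad_ts hψ hρ (subset_tsupport _ hc))
      rw [this, zero_mul, zero_mul]
  have key := pizzG hρ k h hW hs
  have e1 : MM φ s W = MM φ s H := hMM 0 h s ⟨hs, le_rfl⟩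
  have h0 : (0:ℂ) ∈ Metric.closedBall (0:ℂ) (s * ρ) :=
    Metric.mem_closedBall_self (mul_nonneg hs hρ)
  have e2 : ∀ j : ℕ, (lap^[j] W) 0 = (lap^[j] H) 0 := fun j => (hl j 0 h0).self_of_nhds
  have e3 : VV ((JF ρ)^[k + 1] φ) (lap^[k + 1] W) s =
      VV ((JF ρ)^[k + 1] φ) (lap^[k + 1] H) s := by
    unfold VV
    refine intervalIntegral.integral_congr fun σ hσ => ?_
    rw [uIcc_of_le hs] at hσ
    rw [hMM (k + 1) (JF_it h (k + 1)) σ hσ]
  rw [e1, e3] at key
  simpa only [e2] using key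

end

end Pool.Agent.K9h11.MV
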