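import Pool.Agent.K9h11.MV.O
import Pool.Agent.K9h11.MV.D
import Pool.Agent.TH294.RG.SpecM

/-!
# The expansion of the averages in the upper half plane (helper11)
-/

set_option autoImplicit false

open MeasureTheory Filter Topology Complex Set
open scoped ContDiff ENNReal

namespace Pool.Agent.K9h11.MV

open Pool.Agent.W745.RW Pool.Agent.W366.RW
open Pool.Agent.TH294.RS (sm_lap)
open Pool.Agent.TH294.RG (lap_cgR)

noncomputable section

variable {ρ s : ℝ} {φ : ℝ → ℝ} {g : ℂ → ℝ}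

lemma lap_itH (hg : ContDiffOn ℝ ∞ g HH) (j : ℕ) : ContDiffOn ℝ ∞ (lap^[j] g) HH := by
  induction j with
  | zero => exact hg
  | succ j ih =>
    rw [Function.iterate_succ_apply']
    exact sm_lap HHo ih

lemma lap_cmB {B : Set ℂ} (hB : IsOpen B) {a : ℂ → ℝ} (ha : ContDiffOn ℝ ∞ a B) (c : ℝ) {z : ℂ}
    (hz : z ∈ B) : lap (fun v => c * a v) z = c * lap a z := by
  have k2 : ∀ e : ℂ, fderiv ℝ (fun w => fderiv ℝ (fun v => c * a v) w e) z e =
      c * fderiv ℝ (fun w => fderiv ℝ a w e) z e := by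
    intro e
    have k : (fun w => fderiv ℝ (fun v => c * a v) w e) =ᶠ[𝓝 z] fun w => c * fderiv ℝ a w e := by
      filter_upwards [hB.mem_nhds hz] with w hw
      rw [fderiv_const_mul (Pool.Agent.W249.RW.diffAt hB ha hw)]
      rfl
    rw [k.fderiv_eq]
    have d1 : DifferentiableAt ℝ (fun w => fderiv ℝ a w e) z :=
      Pool.Agent.W249.RW.diffAt hB (Pool.Agent.W249.RW.cdd hB ha e) hz
    rw [fderiv_const_mul d1]
    rfl
  show fderiv ℝ (fun w => fderiv ℝ (fun v => c * a v) w 1) z 1 +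
    fderiv ℝ (fun w => fderiv ℝ (fun v => c * a v) w I) z I = _
  rw [k2 1, k2 I]
  show _ = c * (fderiv ℝ (fun w => fderiv ℝ a w 1) z 1 + fderiv ℝ (fun w => fderiv ℝ a w I) z I)
  ring

lemma T_one_smul (σ : ℝ) (v z : ℂ) : T 1 (σ • v) z = T σ v z := by
  unfold T
  rw [Complex.real_smul]
  push_cast
  ring

/-- the iterated Laplacian of the function in the scale of the point -/
lemma lapH (hg : ContDiffOn ℝ ∞ g HH) (z : ℂ) (j : ℕ) : ∀ v : ℂ, T 1 v z ∈ HH →
    (lap^[j] fun v => g (T 1 v z)) v = z.im ^ (2 * j) * (lap^[j] g) (T 1 v z) := by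
  have hB : IsOpen {v | T 1 v z ∈ HH} := HHo.preimage (T_cv 1 z)
  have c1 : ContDiff ℝ ∞ (fun v => T 1 v z) := by
    unfold T
    exact contDiff_const.add (contDiff_const.mul contDiff_id)
  induction j with
  | zero => intro v _; simp
  | succ j ih =>
    intro v hv
    rw [Function.iterate_succ_apply', Function.iterate_succ_apply']
    have hcd : ContDiffOn ℝ ∞ (fun v => (lap^[j] g) (T 1 v z)) {v | T 1 v z ∈ HH} :=
      (lap_itH hg j).comp c1.contDiffOn fun v hv => hv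
    rw [lap_cgR (g := fun v => z.im ^ (2 * j) * (lap^[j] g) (T 1 v z)) hB ih hv,
      lap_cmB hB hcd _ hv, lap_comp (lap_itH hg j) hv]
    ring

/-- the pointwise expansion -/
theorem avg_exp (h : RK ρ φ) (hρ : 1 ≤ ρ) (hg : ContDiffOn ℝ ∞ g HH) {z : ℂ} (hz : z ∈ HH)
    (hs : 0 ≤ s) (hsρ : s * ρ ≤ 1 / 2) (k : ℕ) :
    |avg (rad φ) s g z - ∑ j ∈ Finset.range (k + 1), (s ^ 2 / 2) ^ j / j.factorial *
      (ms ((JF ρ)^[j] φ) * (z.im ^ (2 * j) * (lap^[j] g) z))| ≤
    (s ^ 2 / 2) ^ k / k.factorial * ∫ σ in (0:ℝ)..s, σ *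
      |z.im ^ (2 * (k + 1)) * avg (rad ((JF ρ)^[k + 1] φ)) σ (lap^[k + 1] g) z| := by
  have hρ0 : 0 ≤ ρ := by linarith
  have hB : IsOpen {v | T 1 v z ∈ HH} := HHo.preimage (T_cv 1 z)
  have c1 : ContDiff ℝ ∞ (fun v => T 1 v z) := by
    unfold T
    exact contDiff_const.add (contDiff_const.mul contDiff_id)
  have hH : ContDiffOn ℝ ∞ (fun v => g (T 1 v z)) {v | T 1 v z ∈ HH} :=
    hg.comp c1.contDiffOn fun v hv => hv
  have hz0 : 0 < z.im := hz
  have hin : ∀ v : ℂ, ‖v‖ ≤ 1 / 2 → T 1 v z ∈ HH := by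
    intro v hv
    show 0 < (T 1 v z).im
    rw [T_im]
    have h1 := (abs_le.1 ((Complex.abs_im_le_norm v).trans hv)).1
    apply mul_pos hz0
    linarith
  have hsB : Metric.closedBall 0 (s * ρ) ⊆ {v | T 1 v z ∈ HH} := by
    intro v hv
    rw [mem_closedBall_zero_iff] at hv
    exact hin v (hv.trans hsρ)
  have key := pizz hB h hρ0 hH hs hsB k
  have hav : ∀ (j : ℕ) {ψ : ℝ → ℝ}, RK ρ ψ → ∀ σ ∈ Icc (0:ℝ) s,
      MM ψ σ (lap^[j] fun v => g (T 1 v z)) = z.im ^ (2 * j) * avg (rad ψ) σ (lap^[j] g) z := by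
    intro j ψ hψ σ hσ
    unfold MM avg
    rw [← integral_const_mul]
    congr 1
    funext v
    by_cases hv : ‖v‖ ≤ ρ
    · have h1 : ‖σ • v‖ ≤ 1 / 2 := by
        rw [norm_smul, Real.norm_of_nonneg hσ.1]
        calc σ * ‖v‖ ≤ s * ρ := mul_le_mul hσ.2 hv (norm_nonneg _) hs
          _ ≤ _ := hsρ
      rw [lapH hg z j _ (hin _ h1), T_one_smul]
      ring
    · push Not at hv
      rw [rad_z hψ hρ0 v hv.le]; ring
  have e1 : MM φ s (fun v => g (T 1 v z)) = avg (rad φ) s g z := by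
    have := hav 0 h s ⟨hs, le_rfl⟩
    simpa using this
  have e2 : ∀ j : ℕ, (lap^[j] fun v => g (T 1 v z)) 0 = z.im ^ (2 * j) * (lap^[j] g) z := by
    intro j
    have h0 : T 1 0 z = z := by simp [T]
    rw [lapH hg z j 0 (by rw [h0]; exact hz), h0]
  have e3 : VV ((JF ρ)^[k + 1] φ) (lap^[k + 1] fun v => g (T 1 v z)) s =
      ∫ σ in (0:ℝ)..s, σ *
      |z.im ^ (2 * (k + 1)) * avg (rad ((JF ρ)^[k + 1] φ)) σ (lap^[k + 1] g) z| := by
    unfold VV
    refine intervalIntegral.integral_congr fun σ hσ => ?_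
    rw [uIcc_of_le hs] at hσ
    rw [hav (k + 1) (JF_it h (k + 1)) σ hσ]
  rw [e1, e3] at key
  simpa only [e2] using key

/-- the remainder in the mean square -/
theorem rem_L2 (h : RK ρ φ) (hρ : 1 ≤ ρ) (hg : ContDiffOn ℝ ∞ g HH) {K K' : Set ℂ}
    (hK : MeasurableSet K) (hKH0 : K ⊆ HH)
    (hK' : MeasurableSet K') (hKH : K' ⊆ HH) (hs : 0 ≤ s) (hsρ : s * ρ ≤ 1 / 2)
    (hKK : ∀ t, 0 ≤ t → t ≤ s → ∀ v : ℂ, ‖v‖ ≤ ρ → ∀ z ∈ K, T t v z ∈ K') (k : ℕ) :
    EE K (fun z => avg (rad φ) s g z - ∑ j ∈ Finset.range (k + 1), (s ^ 2 / 2) ^ j / j.factorial *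
      (ms ((JF ρ)^[j] φ) * (z.im ^ (2 * j) * (lap^[j] g) z))) ≤
    ENNReal.ofReal ((s ^ 2 / 2) ^ k / k.factorial * s * 4 ^ (k + 1)) ^ 2 *
      (2 * (mass (rad ((JF ρ)^[k + 1] φ)) * ENNReal.ofReal s) ^ 2 *
      EE K' (fun u => u.im ^ (2 * (k + 1)) * (lap^[k + 1] g) u)) := by
  have hρ0 : 0 ≤ ρ := by linarith
  set N : ℕ := k + 1 with hN
  set κ : ℂ → ℝ := rad ((JF ρ)^[N] φ) with hκ
  have hRK := JF_it h N
  have hκm : Measurable κ := (rad_sm hRK).continuous.measurable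
  have h0 : ∀ v, ρ < ‖v‖ → κ v = 0 := fun v hv => rad_z hRK hρ0 v hv.le
  set F : ℂ → ℝ := fun u => u.im ^ (2 * N) * (lap^[N] g) u with hF
  have hFc : ContinuousOn F HH :=
    (continuous_im.continuousOn.pow _).mul (lap_itH hg N).continuousOn
  set G : ℂ → ℝ≥0∞ := HH.indicator fun w => ‖F w‖ₑ with hG
  have hGm : Measurable G := meas_ind hFc
  set m : Measure ℂ := volume.withDensity fun v => ‖κ v‖ₑ with hm
  have hmu : m univ = mass κ := by
    rw [hm, withDensity_apply _ MeasurableSet.univ, Measure.restrict_univ]; rfl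
  set m' : Measure (ℂ × ℝ) := m.prod (volume.restrict (Ioc (0:ℝ) s)) with hm'
  have hmu' : m' univ = mass κ * ENNReal.ofReal s := by
    rw [hm', ← univ_prod_univ, Measure.prod_prod, hmu]
    simp
  have hGT : Measurable fun p : (ℂ × ℝ) × ℂ => G (T p.1.2 p.1.1 p.2) := by
    have h1 : Measurable fun p : (ℂ × ℝ) × ℂ => (((p.1.2, p.1.1), p.2) : (ℝ × ℂ) × ℂ) := by
      fun_prop
    exact hGm.comp (T_cont.measurable.comp h1)
  have c0 : 0 ≤ (s ^ 2 / 2) ^ k / (k.factorial : ℝ) := by positivity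
  -- pointwise
  have hp : ∀ z ∈ K, ‖avg (rad φ) s g z - ∑ j ∈ Finset.range (k + 1),
      (s ^ 2 / 2) ^ j / j.factorial *
      (ms ((JF ρ)^[j] φ) * (z.im ^ (2 * j) * (lap^[j] g) z))‖ₑ ≤
      ENNReal.ofReal ((s ^ 2 / 2) ^ k / k.factorial * s * 4 ^ N) *
        ∫⁻ p, G (T p.2 p.1 z) ∂m' := by
    intro z hz
    have hz0 : 0 < z.im := hKH0 hz
    have hGz : Measurable fun p : ℂ × ℝ => G (T p.2 p.1 z) :=
      hGT.comp (measurable_id.prodMk measurable_const)
    -- the inner average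
    have hin : ∀ σ ∈ Ioc (0:ℝ) s, ‖z.im ^ (2 * N) * avg κ σ (lap^[N] g) z‖ₑ ≤
        ENNReal.ofReal (4 ^ N) * ∫⁻ v, G (T σ v z) ∂m := by
      intro σ hσ
      have hTm : Measurable fun v => G (T σ v z) :=
        hGm.comp (T_cont.measurable.comp ((measurable_const.prodMk measurable_id).prodMk
          measurable_const))
      rw [hm, lintegral_withDensity_eq_lintegral_mul _ hκm.enorm hTm, ← lintegral_const_mul' _ _
        (by simp)]
      unfold avg
      rw [← integral_const_mul]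
      refine (enorm_integral_le_lintegral_enorm _).trans (lintegral_mono fun v => ?_)
      simp only [Pi.mul_apply]
      by_cases hv : ‖v‖ ≤ ρ
      · have hw : T σ v z ∈ HH := hKH (hKK σ hσ.1.le hσ.2 v hv z hz)
        rw [hG, indicator_of_mem hw]
        have e1 : z.im ^ (2 * N) * (κ v * (lap^[N] g) (T σ v z)) =
            κ v * (z.im ^ (2 * N) * (lap^[N] g) (T σ v z)) := by ring
        rw [e1, enorm_mul]
        have e2 : ENNReal.ofReal (4 ^ N) * (‖κ v‖ₑ * ‖F (T σ v z)‖ₑ) =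
            ‖κ v‖ₑ * (ENNReal.ofReal (4 ^ N) * ‖F (T σ v z)‖ₑ) := by ring
        rw [e2]
        gcongr
        rw [← ofReal_norm, ← ofReal_norm, ← ENNReal.ofReal_mul (by positivity)]
        apply ENNReal.ofReal_le_ofReal
        rw [hF]
        simp only
        rw [norm_mul, norm_mul, ← mul_assoc]
        gcongr
        have hw0 : 0 < (T σ v z).im := hw
        have hy : z.im ≤ 2 * (T σ v z).im := by
          rw [T_im]
          have b1 : |v.im| ≤ ρ := (Complex.abs_im_le_norm v).trans hv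
          have b2 := (abs_le.1 b1).1
          have b3 : σ * v.im ≥ -(1/2) := by
            have b4 : σ ≤ s := hσ.2
            have b5 : 0 ≤ σ := hσ.1.le
            nlinarith
          nlinarith
        rw [norm_pow, norm_pow, Real.norm_of_nonneg hz0.le, Real.norm_of_nonneg hw0.le]
        calc z.im ^ (2 * N) ≤ (2 * (T σ v z).im) ^ (2 * N) := by gcongr
          _ = 4 ^ N * (T σ v z).im ^ (2 * N) := by
              rw [mul_pow, pow_mul, pow_mul]; norm_num
      · push Not at hv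
        rw [h0 v hv]; simp
    have key := avg_exp h hρ hg (hKH0 hz) hs hsρ k
    set u : ℝ → ℝ := fun σ => z.im ^ (2 * N) * avg κ σ (lap^[N] g) z with hu
    have b0 : ‖∫ σ in (0:ℝ)..s, σ * |u σ|‖ₑ ≤
        ENNReal.ofReal s * ∫⁻ σ in Ioc (0:ℝ) s, ‖u σ‖ₑ := by
      rw [intervalIntegral.integral_of_le hs, ← lintegral_const_mul' _ _ (by simp)]
      refine (enorm_integral_le_lintegral_enorm _).trans
        (setLIntegral_mono' measurableSet_Ioc fun σ hσ => ?_)
      have e9 : ‖|u σ|‖ₑ = ‖u σ‖ₑ := by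
        rw [← ofReal_norm, ← ofReal_norm, norm_abs_eq_norm]
      rw [enorm_mul, e9]
      gcongr
      rw [← ofReal_norm, Real.norm_of_nonneg hσ.1.le]
      exact ENNReal.ofReal_le_ofReal hσ.2
    have b1 : ∫⁻ σ in Ioc (0:ℝ) s, ‖u σ‖ₑ ≤
        ∫⁻ σ in Ioc (0:ℝ) s, ENNReal.ofReal (4 ^ N) * ∫⁻ v, G (T σ v z) ∂m :=
      setLIntegral_mono' measurableSet_Ioc fun σ hσ => hin σ hσ
    have b2 : ∫⁻ σ in Ioc (0:ℝ) s, ENNReal.ofReal (4 ^ N) * ∫⁻ v, G (T σ v z) ∂m =
        ENNReal.ofReal (4 ^ N) * ∫⁻ p, G (T p.2 p.1 z) ∂m' := by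
      rw [lintegral_const_mul' _ _ (by simp), hm', lintegral_prod_symm _ hGz.aemeasurable]
    have b3 : 0 ≤ ∫ σ in (0:ℝ)..s, σ * |u σ| :=
      intervalIntegral.integral_nonneg hs fun σ hσ => mul_nonneg hσ.1 (abs_nonneg _)
    calc ‖avg (rad φ) s g z - ∑ j ∈ Finset.range (k + 1), (s ^ 2 / 2) ^ j / j.factorial *
        (ms ((JF ρ)^[j] φ) * (z.im ^ (2 * j) * (lap^[j] g) z))‖ₑ
        ≤ ENNReal.ofReal ((s ^ 2 / 2) ^ k / k.factorial * ∫ σ in (0:ℝ)..s, σ * |u σ|) := by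
          rw [← ofReal_norm, Real.norm_eq_abs]
          exact ENNReal.ofReal_le_ofReal key
      _ = ENNReal.ofReal ((s ^ 2 / 2) ^ k / k.factorial) * ‖∫ σ in (0:ℝ)..s, σ * |u σ|‖ₑ := by
          rw [ENNReal.ofReal_mul c0, ← ofReal_norm, Real.norm_of_nonneg b3]
      _ ≤ ENNReal.ofReal ((s ^ 2 / 2) ^ k / k.factorial) * (ENNReal.ofReal s *
          (ENNReal.ofReal (4 ^ N) * ∫⁻ p, G (T p.2 p.1 z) ∂m')) := by
          gcongr
          exact b0.trans (by gcongr; exact b1.trans b2.le)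
      _ = _ := by
          rw [ENNReal.ofReal_mul (by positivity), ENNReal.ofReal_mul (by positivity)]
          ring
  calc EE K (fun z => avg (rad φ) s g z - ∑ j ∈ Finset.range (k + 1),
        (s ^ 2 / 2) ^ j / j.factorial *
        (ms ((JF ρ)^[j] φ) * (z.im ^ (2 * j) * (lap^[j] g) z)))
      ≤ ∫⁻ z in K, (ENNReal.ofReal ((s ^ 2 / 2) ^ k / k.factorial * s * 4 ^ N) *
        ∫⁻ p, G (T p.2 p.1 z) ∂m') ^ 2 := by
        unfold EE
        refine setLIntegral_mono' hK fun z hz => ?_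
        gcongr
        exact hp z hz
    _ = ENNReal.ofReal ((s ^ 2 / 2) ^ k / k.factorial * s * 4 ^ N) ^ 2 *
        ∫⁻ z in K, (∫⁻ p, G (T p.2 p.1 z) ∂m') ^ 2 := by
        simp only [mul_pow]
        rw [lintegral_const_mul' _ _ (by finiteness)]
    _ ≤ ENNReal.ofReal ((s ^ 2 / 2) ^ k / k.factorial * s * 4 ^ N) ^ 2 *
        (2 * m' univ ^ 2 * ∫⁻ z in K', G z ^ 2) := by
        gcongr
        refine means m' (S := fun p => p.2) (V := fun p => p.1) (by fun_prop) measurable_fst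
          (ρ := ρ) hK hK' ?_ hGm
        have a1 : ∀ᵐ p ∂m', ‖p.1‖ ≤ ρ := by
          have := ae_dens hκm h0
          exact (Measure.quasiMeasurePreserving_fst (μ := m)
            (ν := volume.restrict (Ioc (0:ℝ) s))).ae this
        have a2 : ∀ᵐ p ∂m', p.2 ∈ Ioc (0:ℝ) s := by
          have : ∀ᵐ t ∂(volume.restrict (Ioc (0:ℝ) s)), t ∈ Ioc (0:ℝ) s :=
            ae_restrict_mem measurableSet_Ioc
          exact (Measure.quasiMeasurePreserving_snd (μ := m)
            (ν := volume.restrict (Ioc (0:ℝ) s))).ae this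
        filter_upwards [a1, a2] with p hp1 hp2
        refine ⟨?_, hp1, hKK _ hp2.1.le hp2.2 _ hp1⟩
        rw [abs_of_nonneg hp2.1.le]
        calc p.2 * ρ ≤ s * ρ := by gcongr; exact hp2.2
          _ ≤ _ := hsρ
    _ = _ := by
        rw [hmu']
        have : ∫⁻ z in K', G z ^ 2 = EE K' F := by
          unfold EE
          refine setLIntegral_congr_fun hK' fun z hz => ?_
          simp only [hG]
          rw [indicator_of_mem (hKH hz)]
        rw [this]

end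

end Pool.Agent.K9h11.MV
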