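import Pool.Agent.K9h11.MV.I
import Pool.Agent.K9h11.MV.P
import Pool.Agent.TH294.RG.Pl4

/-!
# The flat and the hyperbolic Laplacian on the square (helper11)
-/

set_option autoImplicit false

open MeasureTheory Filter Topology Complex Set
open scoped ContDiff ENNReal

namespace Pool.Agent.K9h11.MV

open Pool.Agent.W745.RW Pool.Agent.W366.RW
open Pool.Agent.TH294.RS (sm_lap LB)
open Pool.Agent.TH294.RG (lap_cgR QD sL sL1 sR)
open Pool.Agent.Results.MP_a54f13_nt.SharpPowerSpectrum (L opF gauss)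

noncomputable section

variable {lam : ℕ → ℝ} {f : ℕ → ℂ → ℝ}

lemma him : ContDiffOn ℝ ∞ (fun z : ℂ => z.im) HH := imCLM.contDiff.contDiffOn

lemma hlim (lim : Tendsto lam atTop atTop) : Tendsto (fun n => 1 / √(lam n)) atTop (𝓝 0) := by
  have : Tendsto (fun n => √(lam n)) atTop atTop := Real.tendsto_sqrt_atTop.comp lim
  exact (this.inv_tendsto_atTop).congr (fun n => by simp [one_div])

/-- the square and its derivatives are locally bounded in `L²` -/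
lemma qd (pos : ∀ n, 0 < lam n) (lim : Tendsto lam atTop atTop)
    (sm : ∀ n, ContDiffOn ℝ ∞ (f n) HH)
    (heq : ∀ n, ∀ z ∈ HH, z.im ^ 2 * lap (f n) z + lam n * f n z = 0) (hb : Bd f) :
    QD HH (fun n => 1 / √(lam n)) (fun n z => (f n z : ℂ) * (f n z : ℂ)) := by
  have hLB : LB HH 4 (fun n z => (f n z : ℂ)) := by
    refine ⟨fun n => ofRealCLM.contDiff.comp_contDiffOn (sm n), fun K hK hKH => ?_⟩
    obtain ⟨C, hC⟩ := hb K hK hKH
    refine ⟨C, hC.mono fun n hn => ?_⟩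
    have : ∀ z, ‖(f n z : ℂ)‖ ^ 4 = f n z ^ 4 := by
      intro z
      rw [Complex.norm_real, Real.norm_eq_abs, pow_abs, abs_of_nonneg (by positivity)]
    simpa only [this] using hn
  have h1 := (Pool.Agent.TH294.RG.lad HHo (h := fun n => 1 / √(lam n))
    (fun n => by have := pos n; positivity) (hlim lim) him (fun z hz => hz)
    (u := fun n z => (f n z : ℂ)) (fun n z => conj_ofReal _) hLB (fun n z hz => by
      have h2 := heq n z hz
      have h3 := pos n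
      have h4 : lap (fun z => (f n z : ℂ)) z = ((lap (f n) z : ℝ) : ℂ) :=
        Pool.Agent.TH294.RS.lap_re HHo (sm n) hz
      have h5 : (1 / √(lam n)) ^ 2 = 1 / lam n := by
        rw [div_pow, Real.sq_sqrt h3.le, one_pow]
      show ((1 / √(lam n) : ℝ) : ℂ) ^ 2 * (((z.im : ℝ) : ℂ) ^ 2 * lap (fun z => (f n z : ℂ)) z) = _
      rw [h4]
      have h6 : (1 / √(lam n)) ^ 2 * (z.im ^ 2 * lap (f n) z) = - f n z := by
        rw [h5]
        have : z.im ^ 2 * lap (f n) z = -(lam n * f n z) := by linarith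
        rw [this]
        field_simp
      exact_mod_cast h6)).1 0
  exact QD.mul h1 h1

/-- the Laplacians -/
lemma comL {h : ℕ → ℝ} (hh : Tendsto h atTop (𝓝 0)) {E : ℕ → ℂ → ℂ} (hE : QD HH h E) (j : ℕ) :
    ∃ Q, QD HH h Q ∧ ∀ n, ∀ z ∈ HH, (sL (fun z => z.im) h)^[j] E n z =
      ((z.im : ℂ)) ^ (2 * j) * (sL (fun _ => 1) h)^[j] E n z + (h n : ℂ) * Q n z := by
  have h1c : ContDiffOn ℝ ∞ (fun _ : ℂ => (1:ℝ)) HH := contDiffOn_const
  induction j with
  | zero => exact ⟨_, hE.cmul HHo hh 0, fun n z _ => by simp⟩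
  | succ j ih =>
    obtain ⟨Q, hQ, hQ'⟩ := ih
    have hχ : ContDiffOn ℝ ∞ (fun z : ℂ => ((z.im : ℝ) : ℂ) ^ (2 * j)) HH :=
      (ofRealCLM.contDiff.comp_contDiffOn him).pow _
    have hχ2 : ContDiffOn ℝ ∞ (fun z : ℂ => ((z.im : ℝ) : ℂ) ^ 2) HH :=
      (ofRealCLM.contDiff.comp_contDiffOn him).pow _
    obtain ⟨Q2, hQ2, hQ2'⟩ := Pool.Agent.TH294.RG.sL_com HHo hh h1c hχ (hE.it HHo hh h1c j)
    refine ⟨_, (hQ2.add (hQ.sL HHo hh h1c)).smulc HHo hh hχ2, fun n z hz => ?_⟩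
    rw [Function.iterate_succ_apply', Function.iterate_succ_apply']
    have e0 : ∀ (F : ℕ → ℂ → ℂ) (n : ℕ) (z : ℂ), sL (fun z => z.im) h F n z =
        ((z.im : ℝ) : ℂ) ^ 2 * sL (fun _ => 1) h F n z := by
      intro F n z
      simp only [sL]
      push_cast
      ring
    rw [e0]
    have e1 : ∀ n, ∀ z ∈ HH, (sL (fun z => z.im) h)^[j] E n z =
        (fun n z => 1 * (((z.im : ℝ) : ℂ) ^ (2 * j) * (sL (fun _ => 1) h)^[j] E n z) +
          (h n : ℂ) * Q n z) n z := by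
      intro n z hz
      rw [hQ' n z hz]; ring
    rw [Pool.Agent.TH294.RG.sL_cg HHo e1 n hz]
    have s1 : ContDiffOn ℝ ∞ (fun z => ((z.im : ℝ) : ℂ) ^ (2 * j) *
        (sL (fun _ => 1) h)^[j] E n z) HH := hχ.mul ((hE.it HHo hh h1c j).lb.sm n)
    have e2 : sL (fun _ => 1) h (fun n z => 1 * (((z.im : ℝ) : ℂ) ^ (2 * j) *
        (sL (fun _ => 1) h)^[j] E n z) + (h n : ℂ) * Q n z) n z =
        sL (fun _ => 1) h (fun n z => ((z.im : ℝ) : ℂ) ^ (2 * j) *
        (sL (fun _ => 1) h)^[j] E n z) n z + (h n : ℂ) * sL (fun _ => 1) h Q n z := by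
      simp only [sL]
      rw [Pool.Agent.TH294.RG.lap_lin HHo s1 (hQ.lb.sm n) _ _ hz]
      ring
    rw [e2, hQ2' n z hz]
    ring

lemma flat_it {g : ℂ → ℝ} (hg : ContDiffOn ℝ ∞ g HH) (t : ℝ) (j : ℕ) :
    ∀ z ∈ HH, (sR (fun _ => 1) t)^[j] g z = (-1) ^ j * (t ^ (2 * j) * (lap^[j] g) z) := by
  induction j with
  | zero => intro z _; simp
  | succ j ih =>
    intro z hz
    rw [Function.iterate_succ_apply', Function.iterate_succ_apply']
    simp only [sR]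
    have e : ∀ z ∈ HH, (sR (fun _ => 1) t)^[j] g z =
        (fun z => ((-1) ^ j * t ^ (2 * j)) * (lap^[j] g) z) z := by
      intro z hz
      rw [ih z hz]; ring
    rw [lap_cgR HHo e hz, lap_cmB HHo (lap_itH hg j) _ hz]
    ring

/-- comparison of the flat and the hyperbolic Laplacian, for the square -/
lemma conv (pos : ∀ n, 0 < lam n) (lim : Tendsto lam atTop atTop)
    (sm : ∀ n, ContDiffOn ℝ ∞ (f n) HH)
    (heq : ∀ n, ∀ z ∈ HH, z.im ^ 2 * lap (f n) z + lam n * f n z = 0) (hb : Bd f) (j : ℕ) :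
    ∃ Q, QD HH (fun n => 1 / √(lam n)) Q ∧ ∀ n, ∀ z ∈ HH,
      |(1 / √(lam n)) ^ (2 * j) * (z.im ^ (2 * j) * (lap^[j] fun u => f n u ^ 2) z) -
        (-1) ^ j * (L (lam n))^[j] (fun u => f n u ^ 2) z| ≤ 1 / √(lam n) * ‖Q n z‖ := by
  obtain ⟨Q, hQ, hQ'⟩ := comL (hlim lim) (qd pos lim sm heq hb) j
  refine ⟨Q, hQ, fun n z hz => ?_⟩
  have s2 : ContDiffOn ℝ ∞ (fun u => f n u ^ 2) HH := (sm n).pow 2
  have h1 := hQ' n z hz
  have hT : ∀ g, ∀ z ∈ HH, L (lam n) g z = sR (fun z => z.im) (1 / √(lam n)) g z := by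
    intro g z _
    have h2 : (1 / √(lam n)) ^ 2 = 1 / lam n := by
      rw [div_pow, Real.sq_sqrt (pos n).le, one_pow]
    rw [L_eq]
    simp only [sR, h2]
    ring
  have e1 : (sL (fun z => z.im) (fun n => 1 / √(lam n)))^[j]
      (fun n z => (f n z : ℂ) * (f n z : ℂ)) n z =
      (((L (lam n))^[j] (fun u => f n u ^ 2) z : ℝ) : ℂ) := by
    rw [Pool.Agent.TH294.RG.sL_it, Pool.Agent.TH294.RG.sL1_re HHo him _ s2
      (fun w _ => by push_cast; ring) j z hz, Pool.Agent.TH294.RG.sR_cg HHo hT _ j z hz]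
  have e2 : (sL (fun _ => 1) (fun n => 1 / √(lam n)))^[j]
      (fun n z => (f n z : ℂ) * (f n z : ℂ)) n z =
      (((-1) ^ j * ((1 / √(lam n)) ^ (2 * j) * (lap^[j] fun u => f n u ^ 2) z) : ℝ) : ℂ) := by
    rw [Pool.Agent.TH294.RG.sL_it, Pool.Agent.TH294.RG.sL1_re HHo contDiffOn_const _ s2
      (fun w _ => by push_cast; ring) j z hz, flat_it s2 _ j z hz]
  rw [e1, e2] at h1
  set A : ℝ := (1 / √(lam n)) ^ (2 * j) * (z.im ^ (2 * j) * (lap^[j] fun u => f n u ^ 2) z) with hA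
  set B : ℝ := (L (lam n))^[j] (fun u => f n u ^ 2) z with hB
  have h3 : ((B - (-1) ^ j * A : ℝ) : ℂ) = ((1 / √(lam n) : ℝ) : ℂ) * Q n z := by
    rw [ofReal_sub, h1, hA]
    push_cast
    ring
  have h4 : |A - (-1) ^ j * B| = |B - (-1) ^ j * A| := by
    rcases Nat.even_or_odd j with hj | hj
    · rw [hj.neg_one_pow, one_mul, one_mul, abs_sub_comm]
    · rw [hj.neg_one_pow]
      rw [show A - -1 * B = B - -1 * A by ring]
  rw [h4]
  have h5 : |B - (-1) ^ j * A| = ‖((B - (-1) ^ j * A : ℝ) : ℂ)‖ := by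
    rw [Complex.norm_real, Real.norm_eq_abs]
  rw [h5, h3, norm_mul, Complex.norm_real, Real.norm_of_nonneg (by positivity)]

/-- the same in the mean square -/
lemma convL (pos : ∀ n, 0 < lam n) (lim : Tendsto lam atTop atTop)
    (sm : ∀ n, ContDiffOn ℝ ∞ (f n) HH)
    (heq : ∀ n, ∀ z ∈ HH, z.im ^ 2 * lap (f n) z + lam n * f n z = 0) (hb : Bd f) (j : ℕ)
    {K : Set ℂ} (hK : IsCompact K) (hKH : K ⊆ HH) :
    Lb (fun n => EE K (fun z => (1 / √(lam n)) ^ (2 * j) *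
      (z.im ^ (2 * j) * (lap^[j] fun u => f n u ^ 2) z) -
        (-1) ^ j * (L (lam n))^[j] (fun u => f n u ^ 2) z)) 0 := by
  obtain ⟨Q, hQ, hQ'⟩ := conv pos lim sm heq hb j
  obtain ⟨C, hC⟩ := hQ.lb.bd K hK hKH
  intro η hη
  have h1 : Tendsto (fun n => (1 / √(lam n)) ^ 2 * |C|) atTop (𝓝 0) := by
    simpa using ((hlim lim).pow 2).mul_const |C|
  filter_upwards [hC, h1.eventually (gt_mem_nhds hη)] with n h2 h3
  have i : IntegrableOn (fun z => ‖Q n z‖ ^ 2) K :=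
    (((hQ.lb.sm n).continuousOn.mono hKH).norm.pow 2).integrableOn_compact hK
  calc EE K _ ≤ ∫⁻ z in K, ENNReal.ofReal ((1 / √(lam n)) ^ 2 * ‖Q n z‖ ^ 2) := by
        unfold EE
        refine setLIntegral_mono' hK.measurableSet fun z hz => ?_
        rw [en_sq]
        apply ENNReal.ofReal_le_ofReal
        rw [← sq_abs, ← mul_pow]
        exact pow_le_pow_left₀ (abs_nonneg _) (hQ' n z (hKH hz)) 2
    _ = ENNReal.ofReal ((1 / √(lam n)) ^ 2 * ∫ z in K, ‖Q n z‖ ^ 2) := by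
        rw [← integral_const_mul, ofReal_integral_eq_lintegral_ofReal (i.const_mul _)
          (ae_of_all _ fun z => by positivity)]
    _ ≤ ENNReal.ofReal (0 + η) := by
        apply ENNReal.ofReal_le_ofReal
        have h4 : ∫ z in K, ‖Q n z‖ ^ 2 ≤ |C| := h2.trans (le_abs_self C)
        have h5 : (1 / √(lam n)) ^ 2 * (∫ z in K, ‖Q n z‖ ^ 2) ≤ (1 / √(lam n)) ^ 2 * |C| := by
          gcongr
        linarith

/-- the operators are bounded by the supremum on `[0, 4]` -/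
lemma Sy.sup (S : Sy lam f) (hb : Bd f) {K : Set ℂ} (hK : IsCompact K) (hKH : K ⊆ HH) :
    ∃ C : ℝ, 0 ≤ C ∧ ∀ (F : Polynomial ℝ) (M : ℝ), (∀ x, 0 ≤ x → x ≤ 4 → |F.eval x| ≤ M) →
      Lb (fun n => EE K (opF F (lam n) (fun u => f n u ^ 2))) (C * M ^ 2) := by
  obtain ⟨ζ, V, hζ, -, hKV, h1, -, -⟩ := cut_near hK hKH
  set w : ℂ → ℝ := fun z => ζ z * ζ z with hw
  have tw : TF HH w := TF_sq hζ
  have hw0 : ∀ z, 0 ≤ w z := fun z => mul_self_nonneg _
  have hW : 0 ≤ ∫ z, w z := integral_nonneg hw0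
  obtain ⟨C4, hC4⟩ : ∃ C4 : ℝ, ∀ᶠ n in atTop, ∫ z, w z * f n z ^ 4 ≤ C4 := by
    obtain ⟨B, hB0, hB⟩ := S.bdd hb tw hw0 1
    refine ⟨B, ?_⟩
    filter_upwards [hB] with n hn
    have : ∀ z, w z * opF 1 (lam n) (fun u => f n u ^ 2) z ^ 2 = w z * f n z ^ 4 := by
      intro z
      rw [op_one]; ring
    simp only [this] at hn
    exact hn
  refine ⟨3 * (∫ z, w z) + |C4|, by positivity, fun F M hM η hη => ?_⟩
  have hM0 : 0 ≤ M := (abs_nonneg _).trans (hM 0 le_rfl (by norm_num))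
  have sqM : ∀ x, 0 ≤ x → x ≤ 4 → F.eval x ^ 2 ≤ M ^ 2 := by
    intro x h0 h4
    rw [← sq_abs]
    exact pow_le_pow_left₀ (abs_nonneg _) (hM x h0 h4) 2
  have hg : gauss F ≤ 3 * M ^ 2 := by
    unfold gauss
    have a1 := sqM 0 le_rfl (by norm_num)
    have a2 : ∫ θ in (0 : ℝ)..(2 * Real.pi), F.eval (2 - 2 * Real.cos θ) ^ 2 ≤
        ∫ _ in (0 : ℝ)..(2 * Real.pi), M ^ 2 := by
      refine intervalIntegral.integral_mono_on (by positivity) ?_ intervalIntegrable_const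
        fun θ _ => ?_
      · exact ((F.continuous.comp (by fun_prop : Continuous fun θ : ℝ =>
          2 - 2 * Real.cos θ)).pow 2).intervalIntegrable _ _
      · exact sqM _ (by linarith [Real.cos_le_one θ]) (by linarith [Real.neg_one_le_cos θ])
    rw [intervalIntegral.integral_const, smul_eq_mul, sub_zero] at a2
    have a3 : 1 / Real.pi * (2 * Real.pi * M ^ 2) = 2 * M ^ 2 := by
      have := Real.pi_ne_zero
      field_simp
    have a4 : 1 / Real.pi * (∫ θ in (0 : ℝ)..(2 * Real.pi), F.eval (2 - 2 * Real.cos θ) ^ 2) ≤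
        1 / Real.pi * (2 * Real.pi * M ^ 2) := by
      have := Real.pi_pos
      gcongr
    linarith
  have hc : (2 * F.eval 0 ^ 2 + F.eval 4 ^ 2) / 3 ≤ M ^ 2 := by
    have a1 := sqM 0 le_rfl (by norm_num)
    have a2 := sqM 4 (by norm_num) le_rfl
    linarith
  have hc0 : 0 ≤ (2 * F.eval 0 ^ 2 + F.eval 4 ^ 2) / 3 := by positivity
  have h := (S.sp w tw F).eventually (gt_mem_nhds (lt_add_of_pos_right _ hη))
  filter_upwards [h, hC4] with n hn h4
  refine (EE_le hK hζ (fun z hz => h1 z (hKV hz)) (op_sm F (lam n) ((S.sm n).pow 2))).trans ?_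
  apply ENNReal.ofReal_le_ofReal
  have b1 : gauss F * (∫ z, w z) ≤ 3 * M ^ 2 * ∫ z, w z := by gcongr
  have b2 : (2 * F.eval 0 ^ 2 + F.eval 4 ^ 2) / 3 *
      ((∫ z, w z * f n z ^ 4) - 3 * ∫ z, w z) ≤ M ^ 2 * |C4| := by
    have c1 : (∫ z, w z * f n z ^ 4) - 3 * (∫ z, w z) ≤ |C4| := by
      have := le_abs_self C4
      linarith
    calc (2 * F.eval 0 ^ 2 + F.eval 4 ^ 2) / 3 *
        ((∫ z, w z * f n z ^ 4) - 3 * ∫ z, w z) ≤
        (2 * F.eval 0 ^ 2 + F.eval 4 ^ 2) / 3 * |C4| := by gcongr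
      _ ≤ M ^ 2 * |C4| := by gcongr
  linarith

end

end Pool.Agent.K9h11.MV
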