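import Pool.Agent.K9h11.MV.MU

/-!
# Radial averages of the square are functions of the Laplacian, local version (helper11)
-/

set_option autoImplicit false

open MeasureTheory Filter Topology Complex Set
open scoped ContDiff ENNReal

namespace Pool.Agent.K9h11.MV

open Pool.Agent.W745.RW Pool.Agent.W366.RW
open Pool.Agent.TH294.RS (sm_lap LB)
open Pool.Agent.TH294.RG (lap_cgR QD sL sL1 sR)
open Pool.Agent.Results.MP_a54f13_nt.SharpPowerSpectrum (L opF gauss)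

noncomputable section

variable {lam : ℕ → ℝ} {f : ℕ → ℂ → ℝ} {U : Set ℂ}

/-- the square and its derivatives are locally bounded in `L²` -/
lemma qdU (hU : IsOpen U) (hUH : U ⊆ HH) (pos : ∀ n, 0 < lam n) (lim : Tendsto lam atTop atTop)
    (sm : ∀ n, ContDiffOn ℝ ∞ (f n) HH)
    (heq : ∀ n, ∀ z ∈ HH, z.im ^ 2 * lap (f n) z + lam n * f n z = 0) (hb : BdU U f) :
    QD U (fun n => 1 / √(lam n)) (fun n z => (f n z : ℂ) * (f n z : ℂ)) := by
  have hLB : LB U 4 (fun n z => (f n z : ℂ)) := by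
    refine ⟨fun n => ofRealCLM.contDiff.comp_contDiffOn ((sm n).mono hUH), fun K hK hKH => ?_⟩
    obtain ⟨C, hC⟩ := hb K hK hKH
    refine ⟨C, hC.mono fun n hn => ?_⟩
    have : ∀ z, ‖(f n z : ℂ)‖ ^ 4 = f n z ^ 4 := by
      intro z
      rw [Complex.norm_real, Real.norm_eq_abs, pow_abs, abs_of_nonneg (by positivity)]
    simpa only [this] using hn
  have h1 := (Pool.Agent.TH294.RG.lad hU (h := fun n => 1 / √(lam n))
    (fun n => by have := pos n; positivity) (hlim lim) (him.mono hUH) (fun z hz => hUH hz)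
    (u := fun n z => (f n z : ℂ)) (fun n z => conj_ofReal _) hLB (fun n z hz => by
      have h2 := heq n z (hUH hz)
      have h3 := pos n
      have h4 : lap (fun z => (f n z : ℂ)) z = ((lap (f n) z : ℝ) : ℂ) :=
        Pool.Agent.TH294.RS.lap_re HHo (sm n) (hUH hz)
      have h5 : (1 / √(lam n)) ^ 2 = 1 / lam n := by
        rw [div_pow, Real.sq_sqrt h3.le, one_pow]
      show ((1 / √(lam n) : ℝ) : ℂ) ^ 2 * (((z.im : ℝ) : ℂ) ^ 2 * lap (fun z => (f n z : ℂ)) z) = _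
      rw [h4]
      have h6 : (1 / √(lam n)) ^ 2 * (z.im ^ 2 * lap (f n) z) = - f n z := by
        rw [h5]
        have : z.im ^ 2 * lap (f n) z = -(lam n * f n z) := by linarith
        rw [this]
        field_simp
      exact_mod_cast h6)).1 0
  exact QD.mul h1 h1

/-- the Laplacians -/
lemma comLU (hU : IsOpen U) (hUH : U ⊆ HH) {h : ℕ → ℝ} (hh : Tendsto h atTop (𝓝 0)) {E : ℕ → ℂ → ℂ} (hE : QD U h E) (j : ℕ) :
    ∃ Q, QD U h Q ∧ ∀ n, ∀ z ∈ U, (sL (fun z => z.im) h)^[j] E n z =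
      ((z.im : ℂ)) ^ (2 * j) * (sL (fun _ => 1) h)^[j] E n z + (h n : ℂ) * Q n z := by
  have h1c : ContDiffOn ℝ ∞ (fun _ : ℂ => (1:ℝ)) U := contDiffOn_const
  induction j with
  | zero => exact ⟨_, hE.cmul hU hh 0, fun n z _ => by simp⟩
  | succ j ih =>
    obtain ⟨Q, hQ, hQ'⟩ := ih
    have hχ : ContDiffOn ℝ ∞ (fun z : ℂ => ((z.im : ℝ) : ℂ) ^ (2 * j)) U :=
      (ofRealCLM.contDiff.comp_contDiffOn (him.mono hUH)).pow _
    have hχ2 : ContDiffOn ℝ ∞ (fun z : ℂ => ((z.im : ℝ) : ℂ) ^ 2) U :=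
      (ofRealCLM.contDiff.comp_contDiffOn (him.mono hUH)).pow _
    obtain ⟨Q2, hQ2, hQ2'⟩ := Pool.Agent.TH294.RG.sL_com hU hh h1c hχ (hE.it hU hh h1c j)
    refine ⟨_, (hQ2.add (hQ.sL hU hh h1c)).smulc hU hh hχ2, fun n z hz => ?_⟩
    rw [Function.iterate_succ_apply', Function.iterate_succ_apply']
    have e0 : ∀ (F : ℕ → ℂ → ℂ) (n : ℕ) (z : ℂ), sL (fun z => z.im) h F n z =
        ((z.im : ℝ) : ℂ) ^ 2 * sL (fun _ => 1) h F n z := by
      intro F n z
      simp only [sL]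
      push_cast
      ring
    rw [e0]
    have e1 : ∀ n, ∀ z ∈ U, (sL (fun z => z.im) h)^[j] E n z =
        (fun n z => 1 * (((z.im : ℝ) : ℂ) ^ (2 * j) * (sL (fun _ => 1) h)^[j] E n z) +
          (h n : ℂ) * Q n z) n z := by
      intro n z hz
      rw [hQ' n z hz]; ring
    rw [Pool.Agent.TH294.RG.sL_cg hU e1 n hz]
    have s1 : ContDiffOn ℝ ∞ (fun z => ((z.im : ℝ) : ℂ) ^ (2 * j) *
        (sL (fun _ => 1) h)^[j] E n z) U := hχ.mul ((hE.it hU hh h1c j).lb.sm n)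
    have e2 : sL (fun _ => 1) h (fun n z => 1 * (((z.im : ℝ) : ℂ) ^ (2 * j) *
        (sL (fun _ => 1) h)^[j] E n z) + (h n : ℂ) * Q n z) n z =
        sL (fun _ => 1) h (fun n z => ((z.im : ℝ) : ℂ) ^ (2 * j) *
        (sL (fun _ => 1) h)^[j] E n z) n z + (h n : ℂ) * sL (fun _ => 1) h Q n z := by
      simp only [sL]
      rw [Pool.Agent.TH294.RG.lap_lin hU s1 (hQ.lb.sm n) _ _ hz]
      ring
    rw [e2, hQ2' n z hz]
    ring

/-- comparison of the flat and the hyperbolic Laplacian, for the square -/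
lemma convU (hU : IsOpen U) (hUH : U ⊆ HH) (pos : ∀ n, 0 < lam n) (lim : Tendsto lam atTop atTop)
    (sm : ∀ n, ContDiffOn ℝ ∞ (f n) HH)
    (heq : ∀ n, ∀ z ∈ HH, z.im ^ 2 * lap (f n) z + lam n * f n z = 0) (hb : BdU U f) (j : ℕ) :
    ∃ Q, QD U (fun n => 1 / √(lam n)) Q ∧ ∀ n, ∀ z ∈ U,
      |(1 / √(lam n)) ^ (2 * j) * (z.im ^ (2 * j) * (lap^[j] fun u => f n u ^ 2) z) -
        (-1) ^ j * (L (lam n))^[j] (fun u => f n u ^ 2) z| ≤ 1 / √(lam n) * ‖Q n z‖ := by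
  obtain ⟨Q, hQ, hQ'⟩ := comLU hU hUH (hlim lim) (qdU hU hUH pos lim sm heq hb) j
  refine ⟨Q, hQ, fun n z hzU => ?_⟩
  have hz : z ∈ HH := hUH hzU
  have s2 : ContDiffOn ℝ ∞ (fun u => f n u ^ 2) HH := (sm n).pow 2
  have h1 := hQ' n z hzU
  have hT : ∀ g, ∀ z ∈ HH, L (lam n) g z = sR (fun z => z.im) (1 / √(lam n)) g z := by
    intro g z _
    have h2 : (1 / √(lam n)) ^ 2 = 1 / lam n := by
      rw [div_pow, Real.sq_sqrt (pos n).le, one_pow]
    rw [L_eq]
    simp only [sR, h2]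
    ring
  have e1 : (sL (fun z => z.im) (fun n => 1 / √(lam n)))^[j]
      (fun n z => (f n z : ℂ) * (f n z : ℂ)) n z =
      (((L (lam n))^[j] (fun u => f n u ^ 2) z : ℝ) : ℂ) := by
    rw [Pool.Agent.TH294.RG.sL_it, Pool.Agent.TH294.RG.sL1_re HHo him _ s2
      (fun w _ => by push_cast; ring) j z hz, Pool.Agent.TH294.RG.sR_cg HHo hT _ j z hz]
  have e2 : (sL (fun _ => 1) (fun n => 1 / √(lam n)))^[j]
      (fun n z => (f n z : ℂ) * (f n z : ℂ)) n z =
      (((-1) ^ j * ((1 / √(lam n)) ^ (2 * j) * (lap^[j] fun u => f n u ^ 2) z) : ℝ) : ℂ) := by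
    rw [Pool.Agent.TH294.RG.sL_it, Pool.Agent.TH294.RG.sL1_re HHo contDiffOn_const _ s2
      (fun w _ => by push_cast; ring) j z hz, flat_it s2 _ j z hz]
  rw [e1, e2] at h1
  set A : ℝ := (1 / √(lam n)) ^ (2 * j) * (z.im ^ (2 * j) * (lap^[j] fun u => f n u ^ 2) z) with hA
  set B : ℝ := (L (lam n))^[j] (fun u => f n u ^ 2) z with hB
  have h3 : ((B - (-1) ^ j * A : ℝ) : ℂ) = ((1 / √(lam n) : ℝ) : ℂ) * Q n z := by
    rw [ofReal_sub, h1, hA]
    push_cast
    ring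
  have h4 : |A - (-1) ^ j * B| = |B - (-1) ^ j * A| := by
    rcases Nat.even_or_odd j with hj | hj
    · rw [hj.neg_one_pow, one_mul, one_mul, abs_sub_comm]
    · rw [hj.neg_one_pow]
      rw [show A - -1 * B = B - -1 * A by ring]
  rw [h4]
  have h5 : |B - (-1) ^ j * A| = ‖((B - (-1) ^ j * A : ℝ) : ℂ)‖ := by
    rw [Complex.norm_real, Real.norm_eq_abs]
  rw [h5, h3, norm_mul, Complex.norm_real, Real.norm_of_nonneg (by positivity)]

/-- the same in the mean square -/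
lemma convLU (hU : IsOpen U) (hUH : U ⊆ HH) (pos : ∀ n, 0 < lam n) (lim : Tendsto lam atTop atTop)
    (sm : ∀ n, ContDiffOn ℝ ∞ (f n) HH)
    (heq : ∀ n, ∀ z ∈ HH, z.im ^ 2 * lap (f n) z + lam n * f n z = 0) (hb : BdU U f) (j : ℕ)
    {K : Set ℂ} (hK : IsCompact K) (hKU : K ⊆ U) :
    Lb (fun n => EE K (fun z => (1 / √(lam n)) ^ (2 * j) *
      (z.im ^ (2 * j) * (lap^[j] fun u => f n u ^ 2) z) -
        (-1) ^ j * (L (lam n))^[j] (fun u => f n u ^ 2) z)) 0 := by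
  obtain ⟨Q, hQ, hQ'⟩ := convU hU hUH pos lim sm heq hb j
  obtain ⟨C, hC⟩ := hQ.lb.bd K hK hKU
  intro η hη
  have h1 : Tendsto (fun n => (1 / √(lam n)) ^ 2 * |C|) atTop (𝓝 0) := by
    simpa using ((hlim lim).pow 2).mul_const |C|
  filter_upwards [hC, h1.eventually (gt_mem_nhds hη)] with n h2 h3
  have i : IntegrableOn (fun z => ‖Q n z‖ ^ 2) K :=
    (((hQ.lb.sm n).continuousOn.mono hKU).norm.pow 2).integrableOn_compact hK
  calc EE K _ ≤ ∫⁻ z in K, ENNReal.ofReal ((1 / √(lam n)) ^ 2 * ‖Q n z‖ ^ 2) := by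
        unfold EE
        refine setLIntegral_mono' hK.measurableSet fun z hz => ?_
        rw [en_sq]
        apply ENNReal.ofReal_le_ofReal
        rw [← sq_abs, ← mul_pow]
        exact pow_le_pow_left₀ (abs_nonneg _) (hQ' n z (hKU hz)) 2
    _ = ENNReal.ofReal ((1 / √(lam n)) ^ 2 * ∫ z in K, ‖Q n z‖ ^ 2) := by
        rw [← integral_const_mul, ofReal_integral_eq_lintegral_ofReal (i.const_mul _)
          (ae_of_all _ fun z => by positivity)]
    _ ≤ ENNReal.ofReal (0 + η) := by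
        apply ENNReal.ofReal_le_ofReal
        have h4 : ∫ z in K, ‖Q n z‖ ^ 2 ≤ |C| := h2.trans (le_abs_self C)
        have h5 : (1 / √(lam n)) ^ 2 * (∫ z in K, ‖Q n z‖ ^ 2) ≤ (1 / √(lam n)) ^ 2 * |C| := by
          gcongr
        linarith

/-- the operators are bounded by the supremum on `[0, 4]` -/
lemma Sy.supU (S : Sy lam f) (hU : IsOpen U) (hUH : U ⊆ HH) (hb : BdU U f) {K : Set ℂ}
    (hK : IsCompact K) (hKU : K ⊆ U) :
    ∃ C : ℝ, 0 ≤ C ∧ ∀ (F : Polynomial ℝ) (M : ℝ), (∀ x, 0 ≤ x → x ≤ 4 → |F.eval x| ≤ M) →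
      Lb (fun n => EE K (opF F (lam n) (fun u => f n u ^ 2))) (C * M ^ 2) := by
  obtain ⟨ζ, V, hζU, -, hKV, h1, -, -⟩ := cut_nearU hU hK hKU
  have hζ : TF HH ζ := TFm hUH hζU
  set w : ℂ → ℝ := fun z => ζ z * ζ z with hw
  have twU : TF U w := TF_sqU hU hζU
  have tw : TF HH w := TFm hUH twU
  have hw0 : ∀ z, 0 ≤ w z := fun z => mul_self_nonneg _
  have hW : 0 ≤ ∫ z, w z := integral_nonneg hw0
  obtain ⟨C4, hC4⟩ : ∃ C4 : ℝ, ∀ᶠ n in atTop, ∫ z, w z * f n z ^ 4 ≤ C4 := by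
    obtain ⟨B, hB0, hB⟩ := S.bddU hUH hb twU hw0 1
    refine ⟨B, ?_⟩
    filter_upwards [hB] with n hn
    have : ∀ z, w z * opF 1 (lam n) (fun u => f n u ^ 2) z ^ 2 = w z * f n z ^ 4 := by
      intro z
      rw [op_one]; ring
    simp only [this] at hn
    exact hn
  refine ⟨3 * (∫ z, w z) + |C4|, by positivity, fun F M hM η hη => ?_⟩
  have hM0 : 0 ≤ M := (abs_nonneg _).trans (hM 0 le_rfl (by norm_num))
  have sqM : ∀ x, 0 ≤ x → x ≤ 4 → F.eval x ^ 2 ≤ M ^ 2 := by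
    intro x h0 h4
    rw [← sq_abs]
    exact pow_le_pow_left₀ (abs_nonneg _) (hM x h0 h4) 2
  have hg : gauss F ≤ 3 * M ^ 2 := by
    unfold gauss
    have a1 := sqM 0 le_rfl (by norm_num)
    have a2 : ∫ θ in (0 : ℝ)..(2 * Real.pi), F.eval (2 - 2 * Real.cos θ) ^ 2 ≤
        ∫ _ in (0 : ℝ)..(2 * Real.pi), M ^ 2 := by
      refine intervalIntegral.integral_mono_on (by positivity) ?_ intervalIntegrable_const
        fun θ _ => ?_
      · exact ((F.continuous.comp (by fun_prop : Continuous fun θ : ℝ =>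
          2 - 2 * Real.cos θ)).pow 2).intervalIntegrable _ _
      · exact sqM _ (by linarith [Real.cos_le_one θ]) (by linarith [Real.neg_one_le_cos θ])
    rw [intervalIntegral.integral_const, smul_eq_mul, sub_zero] at a2
    have a3 : 1 / Real.pi * (2 * Real.pi * M ^ 2) = 2 * M ^ 2 := by
      have := Real.pi_ne_zero
      field_simp
    have a4 : 1 / Real.pi * (∫ θ in (0 : ℝ)..(2 * Real.pi), F.eval (2 - 2 * Real.cos θ) ^ 2) ≤
        1 / Real.pi * (2 * Real.pi * M ^ 2) := by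
      have := Real.pi_pos
      gcongr
    linarith
  have hc : (2 * F.eval 0 ^ 2 + F.eval 4 ^ 2) / 3 ≤ M ^ 2 := by
    have a1 := sqM 0 le_rfl (by norm_num)
    have a2 := sqM 4 (by norm_num) le_rfl
    linarith
  have hc0 : 0 ≤ (2 * F.eval 0 ^ 2 + F.eval 4 ^ 2) / 3 := by positivity
  have h := (S.sp w tw F).eventually (gt_mem_nhds (lt_add_of_pos_right _ hη))
  filter_upwards [h, hC4] with n hn h4
  refine (EE_le hK hζ (fun z hz => h1 z (hKV hz)) (op_sm F (lam n) ((S.sm n).pow 2))).trans ?_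
  apply ENNReal.ofReal_le_ofReal
  have b1 : gauss F * (∫ z, w z) ≤ 3 * M ^ 2 * ∫ z, w z := by gcongr
  have b2 : (2 * F.eval 0 ^ 2 + F.eval 4 ^ 2) / 3 *
      ((∫ z, w z * f n z ^ 4) - 3 * ∫ z, w z) ≤ M ^ 2 * |C4| := by
    have c1 : (∫ z, w z * f n z ^ 4) - 3 * (∫ z, w z) ≤ |C4| := by
      have := le_abs_self C4
      linarith
    calc (2 * F.eval 0 ^ 2 + F.eval 4 ^ 2) / 3 *
        ((∫ z, w z * f n z ^ 4) - 3 * ∫ z, w z) ≤
        (2 * F.eval 0 ^ 2 + F.eval 4 ^ 2) / 3 * |C4| := by gcongr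
      _ ≤ M ^ 2 * |C4| := by gcongr
  linarith

variable {ρ : ℝ} {φ : ℝ → ℝ}

theorem Sy.avg_polU (S : Sy lam f) (hU : IsOpen U) (hUH : U ⊆ HH)
    (heq : ∀ n, ∀ z ∈ HH, z.im ^ 2 * lap (f n) z + lam n * f n z = 0) (hb : BdU U f)
    (h : RK ρ φ) (hρ : 1 ≤ ρ) {M : ℝ} (hM : ∀ u, 0 ≤ u → |φ u| ≤ M) {R : ℝ} (hR : 0 < R)
    {K : Set ℂ} (hK : IsCompact K) (hKU : K ⊆ U) :
    ∃ C : ℝ, 0 ≤ C ∧ ∀ k, Lb (fun n => EE K (fun z =>
      opF (PK ρ R φ k) (lam n) (fun u => f n u ^ 2) z -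
        avg (rad φ) (R / √(lam n)) (fun u => f n u ^ 2) z))
      (C * (qq ρ R M k * 4 ^ (k + 1)) ^ 2) := by
  have hρ0 : 0 ≤ ρ := by linarith
  have hM0 : 0 ≤ M := (abs_nonneg _).trans (hM 0 le_rfl)
  have hKH : K ⊆ HH := hKU.trans hUH
  obtain ⟨ε, hε, hε2, K', hK', hK'U, hKK⟩ := nbhdU hU hUH hK hKU hρ
  have hK'H : K' ⊆ HH := hK'U.trans hUH
  obtain ⟨C0, hC0, hC⟩ := S.supU hU hUH hb hK' hK'U
  refine ⟨8 * C0, by positivity, fun k => ?_⟩
  set N : ℕ := k + 1 with hN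
  set V : ℝ := (volume (Metric.closedBall (0:ℂ) ρ)).toReal * (M * (ρ ^ 2 / 2) ^ N) with hV
  have hV0 : 0 ≤ V := by
    have : 0 ≤ (volume (Metric.closedBall (0:ℂ) ρ)).toReal := ENNReal.toReal_nonneg
    positivity
  have s2 : ∀ n, ContDiffOn ℝ ∞ (fun u => f n u ^ 2) HH := fun n => (S.sm n).pow 2
  have cD : ∀ (j n : ℕ), ContinuousOn (fun z => (1 / √(lam n)) ^ (2 * j) *
      (z.im ^ (2 * j) * (lap^[j] fun u => f n u ^ 2) z)) HH := fun j n =>
    continuousOn_const.mul ((continuous_im.continuousOn.pow _).mul (lap_itH (s2 n) j).continuousOn)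
  have cL : ∀ (j n : ℕ), ContinuousOn (fun z => (-1) ^ j * (L (lam n))^[j]
      (fun u => f n u ^ 2) z) HH := fun j n =>
    continuousOn_const.mul (Li_sm (lam n) (s2 n) j).continuousOn
  have qn := qq_nn (ρ := ρ) (R := R) hM0 k
  -- the derivative in the remainder
  have b1 : Lb (fun n => EE K' (fun z => (1 / √(lam n)) ^ (2 * N) *
      (z.im ^ (2 * N) * (lap^[N] fun u => f n u ^ 2) z))) (2 * 0 + 2 * (C0 * (4 ^ N) ^ 2)) := by
    have h1 := convLU hU hUH S.pos S.lim S.sm heq hb N hK' hK'U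
    have h2 := hC (Polynomial.monomial N ((-1) ^ N)) (4 ^ N) (fun x h0 h4 => by
      rw [Polynomial.eval_monomial, abs_mul, abs_pow, abs_neg, abs_one, one_pow, one_mul,
        abs_pow, abs_of_nonneg h0]
      gcongr)
    refine Lb.add h1 h2 le_rfl (by positivity) (Eventually.of_forall fun n => ?_)
    have e : (fun z => (1 / √(lam n)) ^ (2 * N) *
        (z.im ^ (2 * N) * (lap^[N] fun u => f n u ^ 2) z)) = fun z =>
        ((1 / √(lam n)) ^ (2 * N) * (z.im ^ (2 * N) * (lap^[N] fun u => f n u ^ 2) z) -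
        (-1) ^ N * (L (lam n))^[N] (fun u => f n u ^ 2) z) +
        opF (Polynomial.monomial N ((-1) ^ N)) (lam n) (fun u => f n u ^ 2) z := by
      funext z
      rw [op_mon]; ring
    conv_lhs => rw [e]
    refine EE_add ?_
    exact ContinuousOn.aemeasurable (((cD N n).sub (cL N n)).mono hK'H) hK'.measurableSet
  -- the remainder
  have hev := scale_ev S.lim R ρ hε
  have b2 : Lb (fun n => EE K (fun z => avg (rad φ) (R / √(lam n)) (fun u => f n u ^ 2) z -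
      ∑ j ∈ Finset.range (k + 1), ((R / √(lam n)) ^ 2 / 2) ^ j / j.factorial *
      (ms ((JF ρ)^[j] φ) * (z.im ^ (2 * j) * (lap^[j] fun u => f n u ^ 2) z))))
      (2 * qq ρ R M k ^ 2 * (2 * 0 + 2 * (C0 * (4 ^ N) ^ 2))) := by
    refine Lb.scale b1 (by positivity) ?_
    filter_upwards [hev] with n hn
    have hl := S.pos n
    have hs0 : 0 ≤ R / √(lam n) := by positivity
    have h1 := rem_L2 h hρ (s2 n) hK.measurableSet hKH hK'.measurableSet hK'H hs0 (hn.trans hε2)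
      (fun t ht hts v hv z hz => hKK t ht ((mul_le_mul_of_nonneg_right hts hρ0).trans hn) v hv z hz)
      k
    refine h1.trans ?_
    have h2 := mass_it h hρ0 hM N
    rw [← hV] at h2
    rw [EE_cm]
    set E : ℝ≥0∞ := EE K' fun u => u.im ^ (2 * N) * (lap^[N] fun u => f n u ^ 2) u with hE
    calc ENNReal.ofReal (((R / √(lam n)) ^ 2 / 2) ^ k / k.factorial * (R / √(lam n)) * 4 ^ N) ^ 2 *
        (2 * (mass (rad ((JF ρ)^[N] φ)) * ENNReal.ofReal (R / √(lam n))) ^ 2 * E) ≤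
        ENNReal.ofReal (((R / √(lam n)) ^ 2 / 2) ^ k / k.factorial * (R / √(lam n)) * 4 ^ N) ^ 2 *
        (2 * (ENNReal.ofReal V * ENNReal.ofReal (R / √(lam n))) ^ 2 * E) := by gcongr
      _ = ENNReal.ofReal (2 * qq ρ R M k ^ 2) *
          (ENNReal.ofReal (((1 / √(lam n)) ^ (2 * N)) ^ 2) * E) := by
          rw [← ENNReal.ofReal_mul hV0, ← ENNReal.ofReal_pow (by positivity),
            ← ENNReal.ofReal_pow (by positivity), show (2:ℝ≥0∞) = ENNReal.ofReal 2 by simp,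
            ← ENNReal.ofReal_mul (by norm_num), ← mul_assoc, ← ENNReal.ofReal_mul (by positivity),
            ← mul_assoc (ENNReal.ofReal (2 * qq ρ R M k ^ 2)), ← ENNReal.ofReal_mul (by positivity)]
          congr 2
          have e1 : R / √(lam n) = R * (1 / √(lam n)) := by ring
          rw [e1]
          unfold qq
          rw [← hN, ← hV]
          set t : ℝ := 1 / √(lam n)
          have e2 : ((R * t) ^ 2 / 2) ^ k = (R ^ 2 / 2) ^ k * t ^ (2 * k) := by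
            rw [show (R * t) ^ 2 / 2 = (R ^ 2 / 2) * t ^ 2 by ring, mul_pow, ← pow_mul]
          rw [e2, hN]
          ring
  -- the sum
  have b3 : Lb (fun n => EE K (fun z => ∑ j ∈ Finset.range (k + 1),
      (-((R ^ 2 / 2) ^ j / j.factorial * ms ((JF ρ)^[j] φ))) *
      ((1 / √(lam n)) ^ (2 * j) * (z.im ^ (2 * j) * (lap^[j] fun u => f n u ^ 2) z) -
        (-1) ^ j * (L (lam n))^[j] (fun u => f n u ^ 2) z))) 0 :=
    Lb_sum hK hKH (fun j => -((R ^ 2 / 2) ^ j / j.factorial * ms ((JF ρ)^[j] φ)))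
      (X := fun j n z => (1 / √(lam n)) ^ (2 * j) *
        (z.im ^ (2 * j) * (lap^[j] fun u => f n u ^ 2) z) -
        (-1) ^ j * (L (lam n))^[j] (fun u => f n u ^ 2) z)
      (fun j n => (cD j n).sub (cL j n))
      (fun j => convLU hU hUH S.pos S.lim S.sm heq hb j hK hKU) (k + 1)
  have b4 := Lb.add (E := fun n => EE K (fun z =>
      opF (PK ρ R φ k) (lam n) (fun u => f n u ^ 2) z -
        avg (rad φ) (R / √(lam n)) (fun u => f n u ^ 2) z)) b3 b2 le_rfl (by positivity)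
    (Eventually.of_forall fun n => by
      have e : ∀ z, opF (PK ρ R φ k) (lam n) (fun u => f n u ^ 2) z -
          avg (rad φ) (R / √(lam n)) (fun u => f n u ^ 2) z =
          (∑ j ∈ Finset.range (k + 1),
          (-((R ^ 2 / 2) ^ j / j.factorial * ms ((JF ρ)^[j] φ))) *
          ((1 / √(lam n)) ^ (2 * j) * (z.im ^ (2 * j) * (lap^[j] fun u => f n u ^ 2) z) -
          (-1) ^ j * (L (lam n))^[j] (fun u => f n u ^ 2) z)) +
          -(avg (rad φ) (R / √(lam n)) (fun u => f n u ^ 2) z -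
          ∑ j ∈ Finset.range (k + 1), ((R / √(lam n)) ^ 2 / 2) ^ j / j.factorial *
          (ms ((JF ρ)^[j] φ) * (z.im ^ (2 * j) * (lap^[j] fun u => f n u ^ 2) z))) := by
        intro z
        have e3 : (∑ j ∈ Finset.range (k + 1),
          (-((R ^ 2 / 2) ^ j / j.factorial * ms ((JF ρ)^[j] φ))) *
          ((1 / √(lam n)) ^ (2 * j) * (z.im ^ (2 * j) * (lap^[j] fun u => f n u ^ 2) z) -
          (-1) ^ j * (L (lam n))^[j] (fun u => f n u ^ 2) z)) =
          opF (PK ρ R φ k) (lam n) (fun u => f n u ^ 2) z -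
          ∑ j ∈ Finset.range (k + 1), ((R / √(lam n)) ^ 2 / 2) ^ j / j.factorial *
          (ms ((JF ρ)^[j] φ) * (z.im ^ (2 * j) * (lap^[j] fun u => f n u ^ 2) z)) := by
          rw [PK_op, ← Finset.sum_sub_distrib]
          refine Finset.sum_congr rfl fun j _ => ?_
          have e4 : ((R / √(lam n)) ^ 2 / 2) ^ j = (R ^ 2 / 2) ^ j * (1 / √(lam n)) ^ (2 * j) := by
            rw [show (R / √(lam n)) ^ 2 / 2 = (R ^ 2 / 2) * (1 / √(lam n)) ^ 2 by ring, mul_pow,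
              ← pow_mul]
          rw [e4]
          ring
        rw [e3]; ring
      simp only [e]
      refine (EE_add ?_).trans (le_of_eq ?_)
      · exact ContinuousOn.aemeasurable (continuousOn_finsetSum _ fun j _ =>
          continuousOn_const.mul (((cD j n).sub (cL j n)).mono hKH)) hK.measurableSet
      · rw [EE_neg])
  refine b4.mono (le_of_eq ?_)
  rw [mul_pow]
  ring

end

end Pool.Agent.K9h11.MV
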