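import Pool.Agent.K9h11.MV.Q

/-!
# Radial averages are functions of the Laplacian (helper11)
-/

set_option autoImplicit false

open MeasureTheory Filter Topology Complex Set
open scoped ContDiff ENNReal

namespace Pool.Agent.K9h11.MV

open Pool.Agent.W745.RW Pool.Agent.W366.RW
open Pool.Agent.TH294.RS (sm_lap LB)
open Pool.Agent.Results.MP_a54f13_nt.SharpPowerSpectrum (L opF gauss)

noncomputable section

variable {lam : ℕ → ℝ} {f : ℕ → ℂ → ℝ} {ρ : ℝ} {φ : ℝ → ℝ}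

/-- the Taylor polynomials of the multiplier -/
def PK (ρ R : ℝ) (φ : ℝ → ℝ) (k : ℕ) : Polynomial ℝ :=
  ∑ j ∈ Finset.range (k + 1), Polynomial.monomial j
    ((-1) ^ j * ((R ^ 2 / 2) ^ j / j.factorial * ms ((JF ρ)^[j] φ)))

/-- the multiplier -/
def GG (χ : ℂ → ℝ) (ξ : ℝ) : ℝ := ∫ v : ℂ, χ v * Real.cos (ξ * v.re)

/-- the size of the remainder -/
def qq (ρ R M : ℝ) (k : ℕ) : ℝ :=
  (volume (Metric.closedBall (0:ℂ) ρ)).toReal * (M * (ρ ^ 2 / 2) ^ (k + 1)) *
    (R ^ 2 * (R ^ 2 / 2) ^ k / k.factorial * 4 ^ (k + 1))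

lemma PK_eval (ρ R : ℝ) (φ : ℝ → ℝ) (k : ℕ) (x : ℝ) : (PK ρ R φ k).eval x =
    ∑ j ∈ Finset.range (k + 1), (R ^ 2 / 2) ^ j / j.factorial *
      (ms ((JF ρ)^[j] φ) * (-x) ^ j) := by
  unfold PK
  rw [Polynomial.eval_finsetSum]
  refine Finset.sum_congr rfl fun j _ => ?_
  rw [Polynomial.eval_monomial]
  have : (-x) ^ j = (-1) ^ j * x ^ j := by rw [← mul_pow]; ring
  rw [this]; ring

lemma op_sum (s : Finset ℕ) (F : ℕ → Polynomial ℝ) (l : ℝ) (g : ℂ → ℝ) (z : ℂ) :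
    opF (∑ j ∈ s, F j) l g z = ∑ j ∈ s, opF (F j) l g z := by
  classical
  induction s using Finset.induction_on with
  | empty => simp [opF]
  | insert a s ha ih => rw [Finset.sum_insert ha, op_add, ih, Finset.sum_insert ha]

lemma PK_op (ρ R : ℝ) (φ : ℝ → ℝ) (k : ℕ) (l : ℝ) (g : ℂ → ℝ) (z : ℂ) :
    opF (PK ρ R φ k) l g z = ∑ j ∈ Finset.range (k + 1),
      (R ^ 2 / 2) ^ j / j.factorial * ms ((JF ρ)^[j] φ) * ((-1) ^ j * (L l)^[j] g z) := by
  unfold PK
  rw [op_sum]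
  refine Finset.sum_congr rfl fun j _ => ?_
  rw [op_mon]
  ring

lemma JF_itbd (h : RK ρ φ) {M : ℝ} (hM : ∀ u, 0 ≤ u → |φ u| ≤ M) (j : ℕ) :
    ∀ u, 0 ≤ u → |(JF ρ)^[j] φ u| ≤ M * (ρ ^ 2 / 2) ^ j := by
  induction j with
  | zero => intro u hu; simpa using hM u hu
  | succ j ih =>
    intro u hu
    rw [Function.iterate_succ_apply']
    have := JF_bd (ρ := ρ) ih (JF_it h j).2 u hu
    rw [pow_succ, ← mul_assoc]
    exact this

lemma mass_it (h : RK ρ φ) (hρ : 0 ≤ ρ) {M : ℝ} (hM : ∀ u, 0 ≤ u → |φ u| ≤ M) (j : ℕ) :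
    mass (rad ((JF ρ)^[j] φ)) ≤ ENNReal.ofReal
      ((volume (Metric.closedBall (0:ℂ) ρ)).toReal * (M * (ρ ^ 2 / 2) ^ j)) := by
  have hM0 : 0 ≤ M := (abs_nonneg _).trans (hM 0 le_rfl)
  have hvt : volume (Metric.closedBall (0:ℂ) ρ) ≠ ⊤ := (isCompact_closedBall _ _).measure_lt_top.ne
  have hRK := JF_it h j
  calc mass (rad ((JF ρ)^[j] φ)) ≤ ∫⁻ v, (Metric.closedBall (0:ℂ) ρ).indicator
        (fun _ => ENNReal.ofReal (M * (ρ ^ 2 / 2) ^ j)) v := by
        unfold mass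
        refine lintegral_mono fun v => ?_
        by_cases hv : v ∈ Metric.closedBall (0:ℂ) ρ
        · rw [indicator_of_mem hv, ← ofReal_norm]
          apply ENNReal.ofReal_le_ofReal
          rw [Real.norm_eq_abs]
          exact JF_itbd h hM j _ (by positivity)
        · have : rad ((JF ρ)^[j] φ) v = 0 := by
            by_contra hc
            exact hv (rad_ts hRK hρ (subset_tsupport _ hc))
          rw [this]; simp
    _ = ENNReal.ofReal (M * (ρ ^ 2 / 2) ^ j) * volume (Metric.closedBall (0:ℂ) ρ) := by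
        rw [lintegral_indicator Metric.isClosed_closedBall.measurableSet, setLIntegral_const]
    _ = _ := by
        rw [ENNReal.ofReal_mul ENNReal.toReal_nonneg, ENNReal.ofReal_toReal hvt, mul_comm]

lemma qq_nn {R M : ℝ} (hM : 0 ≤ M) (k : ℕ) : 0 ≤ qq ρ R M k := by
  unfold qq
  have : 0 ≤ (volume (Metric.closedBall (0:ℂ) ρ)).toReal := ENNReal.toReal_nonneg
  positivity

lemma qq_lim (ρ R M : ℝ) : Tendsto (fun k => qq ρ R M k * 4 ^ (k + 1)) atTop (𝓝 0) := by
  have h := (FloorSemiring.tendsto_pow_div_factorial_atTop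
    ((ρ ^ 2 / 2) * (R ^ 2 / 2) * 16)).const_mul
    ((volume (Metric.closedBall (0:ℂ) ρ)).toReal * M * (ρ ^ 2 / 2) * R ^ 2 * 16)
  rw [mul_zero] at h
  refine h.congr fun k => ?_
  unfold qq
  rw [mul_pow, mul_pow]
  have : (16:ℝ) ^ k = 4 ^ k * 4 ^ k := by rw [← mul_pow]; norm_num
  rw [this]
  ring

lemma qq_lim' {ρ R M : ℝ} (hM : 0 ≤ M) : Tendsto (fun k => qq ρ R M k) atTop (𝓝 0) := by
  refine squeeze_zero (fun k => qq_nn hM k) (fun k => ?_) (qq_lim ρ R M)
  have h1 : (1:ℝ) ≤ 4 ^ (k + 1) := one_le_pow₀ (by norm_num)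
  have h2 := qq_nn (ρ := ρ) (R := R) hM k
  nlinarith

/-- the multiplier is the sum of its Taylor series -/
theorem GG_bd (h : RK ρ φ) (hρ : 0 ≤ ρ) {M : ℝ} (hM : ∀ u, 0 ≤ u → |φ u| ≤ M) {R : ℝ}
    (hR : 0 ≤ R) (k : ℕ) {x : ℝ} (hx : 0 ≤ x) (hx4 : x ≤ 4) :
    |GG (rad φ) (R * √x) - (PK ρ R φ k).eval x| ≤ qq ρ R M k := by
  have hM0 : 0 ≤ M := (abs_nonneg _).trans (hM 0 le_rfl)
  set W : ℂ → ℝ := fun v => Real.cos (√x * v.re) with hW
  have hWs : ContDiff ℝ ∞ W := by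
    have : ContDiff ℝ ∞ fun v : ℂ => v.re := reCLM.contDiff
    exact Real.contDiff_cos.comp (contDiff_const.mul this)
  -- the Laplacian
  have d1 : ∀ v a : ℂ, fderiv ℝ W v a = -(√x * a.re) * Real.sin (√x * v.re) := by
    intro v a
    have h1 : HasFDerivAt (fun v : ℂ => √x * v.re) (√x • reCLM) v :=
      (reCLM.hasFDerivAt (x := v)).const_mul (√x)
    have h2 : fderiv ℝ W v = _ := (h1.cos).fderiv
    rw [h2]
    simp
    ring
  have hl1 : lap W = fun v => (-x) * W v := by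
    funext v
    have k1 : ∀ a : ℂ, fderiv ℝ (fun w => fderiv ℝ W w a) v a =
        -(x * a.re ^ 2) * Real.cos (√x * v.re) := by
      intro a
      simp only [d1]
      have h1 : HasFDerivAt (fun v : ℂ => √x * v.re) (√x • reCLM) v :=
        (reCLM.hasFDerivAt (x := v)).const_mul (√x)
      have h2 := (h1.sin.const_mul (-(√x * a.re))).fderiv
      rw [h2]
      simp
      have h3 : √x * √x = x := Real.mul_self_sqrt hx
      linear_combination (a.re ^ 2 * Real.cos (√x * v.re)) * h3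
    show fderiv ℝ (fun w => fderiv ℝ W w 1) v 1 + fderiv ℝ (fun w => fderiv ℝ W w I) v I = _
    rw [k1, k1]
    simp [hW]
  have hlj : ∀ j : ℕ, lap^[j] W = fun v => (-x) ^ j * W v := by
    intro j
    induction j with
    | zero => funext v; simp
    | succ j ih =>
      rw [Function.iterate_succ_apply', ih]
      funext v
      rw [lap_cmB isOpen_univ hWs.contDiffOn _ (mem_univ v), hl1]
      ring
  have key := pizzG hρ k h hWs hR
  have e1 : MM φ R W = GG (rad φ) (R * √x) := by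
    unfold MM GG
    congr 1
    funext v
    simp only [hW, Complex.real_smul, re_ofReal_mul]
    congr 2
    ring
  have e2 : ∀ j : ℕ, (lap^[j] W) 0 = (-x) ^ j := by
    intro j
    rw [hlj j]; simp [hW]
  simp only [e2] at key
  rw [e1, ← PK_eval] at key
  refine key.trans ?_
  -- the bound of the remainder
  set N : ℕ := k + 1 with hN
  have hRK := JF_it h N
  have hint : Integrable (rad ((JF ρ)^[N] φ)) :=
    (rad_sm hRK).continuous.integrable_of_hasCompactSupport (rad_cs hRK hρ)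
  set V : ℝ := (volume (Metric.closedBall (0:ℂ) ρ)).toReal * (M * (ρ ^ 2 / 2) ^ N) with hV
  have hV0 : 0 ≤ V := by
    have : 0 ≤ (volume (Metric.closedBall (0:ℂ) ρ)).toReal := ENNReal.toReal_nonneg
    positivity
  have hm : ∫ v, ‖rad ((JF ρ)^[N] φ) v‖ ≤ V := by
    have h1 := mass_it h hρ hM N
    have h2 : ENNReal.ofReal (∫ v, ‖rad ((JF ρ)^[N] φ) v‖) = mass (rad ((JF ρ)^[N] φ)) := by
      rw [ofReal_integral_norm_eq_lintegral_enorm hint]; rfl
    rw [← h2] at h1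
    exact (ENNReal.ofReal_le_ofReal_iff hV0).1 h1
  have hMM : ∀ σ : ℝ, |MM ((JF ρ)^[N] φ) σ (lap^[N] W)| ≤ V * 4 ^ N := by
    intro σ
    unfold MM
    rw [← Real.norm_eq_abs]
    refine (norm_integral_le_integral_norm _).trans ?_
    calc ∫ v : ℂ, ‖rad ((JF ρ)^[N] φ) v * (lap^[N] W) (σ • v)‖ ≤
        ∫ v : ℂ, ‖rad ((JF ρ)^[N] φ) v‖ * 4 ^ N := by
          refine integral_mono_of_nonneg (ae_of_all _ fun v => norm_nonneg _)
            (hint.norm.mul_const _) (ae_of_all _ fun v => ?_)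
          simp only
          rw [norm_mul]
          gcongr
          rw [hlj N]
          simp only [norm_mul, norm_pow, norm_neg, Real.norm_of_nonneg hx]
          have h3 : ‖W (σ • v)‖ ≤ 1 := by
            rw [Real.norm_eq_abs]; exact Real.abs_cos_le_one _
          calc x ^ N * ‖W (σ • v)‖ ≤ 4 ^ N * 1 := by gcongr
            _ = _ := mul_one _
      _ = (∫ v : ℂ, ‖rad ((JF ρ)^[N] φ) v‖) * 4 ^ N := integral_mul_const _ _
      _ ≤ _ := by gcongr
  have hVV : VV ((JF ρ)^[N] φ) (lap^[N] W) R ≤ R ^ 2 * (V * 4 ^ N) := by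
    unfold VV
    have c1 : Continuous fun σ : ℝ => σ * |MM ((JF ρ)^[N] φ) σ (lap^[N] W)| :=
      continuous_id.mul (MM_cont hRK hρ (lap_it hWs N).continuous).abs
    calc ∫ σ in (0:ℝ)..R, σ * |MM ((JF ρ)^[N] φ) σ (lap^[N] W)| ≤
        ∫ _ in (0:ℝ)..R, R * (V * 4 ^ N) := by
          refine intervalIntegral.integral_mono_on hR (c1.intervalIntegrable _ _)
            intervalIntegrable_const fun σ hσ => ?_
          exact mul_le_mul hσ.2 (hMM σ) (abs_nonneg _) hR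
      _ = _ := by
          rw [intervalIntegral.integral_const, smul_eq_mul, sub_zero]; ring
  calc (R ^ 2 / 2) ^ k / k.factorial * VV ((JF ρ)^[N] φ) (lap^[N] W) R ≤
      (R ^ 2 / 2) ^ k / k.factorial * (R ^ 2 * (V * 4 ^ N)) := by gcongr
    _ = qq ρ R M k := by
        unfold qq
        rw [hV]; ring

end

end Pool.Agent.K9h11.MV
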