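import Pool.Agent.K9h11.MV.R
import Pool.Agent.K9h11.MV.M

/-!
# Radial averages of the square are functions of the Laplacian (helper11)
-/

set_option autoImplicit false

open MeasureTheory Filter Topology Complex Set
open scoped ContDiff ENNReal

namespace Pool.Agent.K9h11.MV

open Pool.Agent.W745.RW Pool.Agent.W366.RW
open Pool.Agent.TH294.RS (sm_lap LB)
open Pool.Agent.Results.MP_a54f13_nt.SharpPowerSpectrum (L opF gauss)

noncomputable section

variable {lam : ℕ → ℝ} {f : ℕ → ℂ → ℝ} {ρ : ℝ} {φ : ℝ → ℝ}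

lemma Lb_zero {K : Set ℂ} : Lb (fun _ => EE K fun _ => (0:ℝ)) 0 := by
  intro η hη
  refine Eventually.of_forall fun n => ?_
  have : EE K (fun _ => (0:ℝ)) = 0 := by simp [EE]
  rw [this]; exact bot_le

/-- finite sums of small sequences are small -/
lemma Lb_sum {K : Set ℂ} (hK : IsCompact K) (hKH : K ⊆ HH) (c : ℕ → ℝ) {X : ℕ → ℕ → ℂ → ℝ}
    (hX : ∀ j n, ContinuousOn (X j n) HH) (h : ∀ j, Lb (fun n => EE K (X j n)) 0) (m : ℕ) :
    Lb (fun n => EE K (fun z => ∑ j ∈ Finset.range m, c j * X j n z)) 0 := by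
  induction m with
  | zero => simpa using Lb_zero (K := K)
  | succ m ih =>
    have h1 : Lb (fun n => EE K (fun z => c m * X m n z)) (c m ^ 2 * 0) :=
      (h m).scale (sq_nonneg _) (Eventually.of_forall fun n => by rw [EE_cm])
    rw [mul_zero] at h1
    have h2 := Lb.add (E := fun n => EE K (fun z => ∑ j ∈ Finset.range (m + 1), c j * X j n z))
      ih h1 le_rfl le_rfl (Eventually.of_forall fun n => by
        simp only [Finset.sum_range_succ]
        refine EE_add ?_
        exact ContinuousOn.aemeasurable (continuousOn_finsetSum _ fun j _ =>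
          continuousOn_const.mul ((hX j n).mono hKH)) hK.measurableSet)
    simpa using h2

theorem Sy.avg_pol (S : Sy lam f)
    (heq : ∀ n, ∀ z ∈ HH, z.im ^ 2 * lap (f n) z + lam n * f n z = 0) (hb : Bd f)
    (h : RK ρ φ) (hρ : 1 ≤ ρ) {M : ℝ} (hM : ∀ u, 0 ≤ u → |φ u| ≤ M) {R : ℝ} (hR : 0 < R)
    {K : Set ℂ} (hK : IsCompact K) (hKH : K ⊆ HH) :
    ∃ C : ℝ, 0 ≤ C ∧ ∀ k, Lb (fun n => EE K (fun z =>
      opF (PK ρ R φ k) (lam n) (fun u => f n u ^ 2) z -
        avg (rad φ) (R / √(lam n)) (fun u => f n u ^ 2) z))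
      (C * (qq ρ R M k * 4 ^ (k + 1)) ^ 2) := by
  have hρ0 : 0 ≤ ρ := by linarith
  have hM0 : 0 ≤ M := (abs_nonneg _).trans (hM 0 le_rfl)
  obtain ⟨K', hK', hK'H, hKK⟩ := nbhd hK hKH hρ
  obtain ⟨C0, hC0, hC⟩ := S.sup hb hK' hK'H
  refine ⟨8 * C0, by positivity, fun k => ?_⟩
  set N : ℕ := k + 1 with hN
  set V : ℝ := (volume (Metric.closedBall (0:ℂ) ρ)).toReal * (M * (ρ ^ 2 / 2) ^ N) with hV
  have hV0 : 0 ≤ V := by
    have : 0 ≤ (volume (Metric.closedBall (0:ℂ) ρ)).toReal := ENNReal.toReal_nonneg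
    positivity
  have s2 : ∀ n, ContDiffOn ℝ ∞ (fun u => f n u ^ 2) HH := fun n => (S.sm n).pow 2
  have cD : ∀ (j n : ℕ), ContinuousOn (fun z => (1 / √(lam n)) ^ (2 * j) *
      (z.im ^ (2 * j) * (lap^[j] fun u => f n u ^ 2) z)) HH := fun j n =>
    continuousOn_const.mul ((continuous_im.continuousOn.pow _).mul (lap_itH (s2 n) j).continuousOn)
  have cL : ∀ (j n : ℕ), ContinuousOn (fun z => (-1) ^ j * (L (lam n))^[j]
      (fun u => f n u ^ 2) z) HH := fun j n =>
    continuousOn_const.mul (Li_sm (lam n) (s2 n) j).continuousOn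
  have qn := qq_nn (ρ := ρ) (R := R) hM0 k
  -- the derivative in the remainder
  have b1 : Lb (fun n => EE K' (fun z => (1 / √(lam n)) ^ (2 * N) *
      (z.im ^ (2 * N) * (lap^[N] fun u => f n u ^ 2) z))) (2 * 0 + 2 * (C0 * (4 ^ N) ^ 2)) := by
    have h1 := convL S.pos S.lim S.sm heq hb N hK' hK'H
    have h2 := hC (Polynomial.monomial N ((-1) ^ N)) (4 ^ N) (fun x h0 h4 => by
      rw [Polynomial.eval_monomial, abs_mul, abs_pow, abs_neg, abs_one, one_pow, one_mul,
        abs_pow, abs_of_nonneg h0]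
      gcongr)
    refine Lb.add h1 h2 le_rfl (by positivity) (Eventually.of_forall fun n => ?_)
    have e : (fun z => (1 / √(lam n)) ^ (2 * N) *
        (z.im ^ (2 * N) * (lap^[N] fun u => f n u ^ 2) z)) = fun z =>
        ((1 / √(lam n)) ^ (2 * N) * (z.im ^ (2 * N) * (lap^[N] fun u => f n u ^ 2) z) -
        (-1) ^ N * (L (lam n))^[N] (fun u => f n u ^ 2) z) +
        opF (Polynomial.monomial N ((-1) ^ N)) (lam n) (fun u => f n u ^ 2) z := by
      funext z
      rw [op_mon]; ring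
    conv_lhs => rw [e]
    refine EE_add ?_
    exact ContinuousOn.aemeasurable (((cD N n).sub (cL N n)).mono hK'H) hK'.measurableSet
  -- the remainder
  have hev := scale_ev S.lim R ρ (by norm_num : (0:ℝ) < 1 / 2)
  have b2 : Lb (fun n => EE K (fun z => avg (rad φ) (R / √(lam n)) (fun u => f n u ^ 2) z -
      ∑ j ∈ Finset.range (k + 1), ((R / √(lam n)) ^ 2 / 2) ^ j / j.factorial *
      (ms ((JF ρ)^[j] φ) * (z.im ^ (2 * j) * (lap^[j] fun u => f n u ^ 2) z))))
      (2 * qq ρ R M k ^ 2 * (2 * 0 + 2 * (C0 * (4 ^ N) ^ 2))) := by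
    refine Lb.scale b1 (by positivity) ?_
    filter_upwards [hev] with n hn
    have hl := S.pos n
    have hs0 : 0 ≤ R / √(lam n) := by positivity
    have h1 := rem_L2 h hρ (s2 n) hK.measurableSet hKH hK'.measurableSet hK'H hs0 hn
      (fun t ht hts v hv z hz => hKK t ht ((mul_le_mul_of_nonneg_right hts hρ0).trans hn) v hv z hz)
      k
    refine h1.trans ?_
    have h2 := mass_it h hρ0 hM N
    rw [← hV] at h2
    rw [EE_cm]
    set E : ℝ≥0∞ := EE K' fun u => u.im ^ (2 * N) * (lap^[N] fun u => f n u ^ 2) u with hE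
    calc ENNReal.ofReal (((R / √(lam n)) ^ 2 / 2) ^ k / k.factorial * (R / √(lam n)) * 4 ^ N) ^ 2 *
        (2 * (mass (rad ((JF ρ)^[N] φ)) * ENNReal.ofReal (R / √(lam n))) ^ 2 * E) ≤
        ENNReal.ofReal (((R / √(lam n)) ^ 2 / 2) ^ k / k.factorial * (R / √(lam n)) * 4 ^ N) ^ 2 *
        (2 * (ENNReal.ofReal V * ENNReal.ofReal (R / √(lam n))) ^ 2 * E) := by gcongr
      _ = ENNReal.ofReal (2 * qq ρ R M k ^ 2) *
          (ENNReal.ofReal (((1 / √(lam n)) ^ (2 * N)) ^ 2) * E) := by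
          rw [← ENNReal.ofReal_mul hV0, ← ENNReal.ofReal_pow (by positivity),
            ← ENNReal.ofReal_pow (by positivity), show (2:ℝ≥0∞) = ENNReal.ofReal 2 by simp,
            ← ENNReal.ofReal_mul (by norm_num), ← mul_assoc, ← ENNReal.ofReal_mul (by positivity),
            ← mul_assoc (ENNReal.ofReal (2 * qq ρ R M k ^ 2)), ← ENNReal.ofReal_mul (by positivity)]
          congr 2
          have e1 : R / √(lam n) = R * (1 / √(lam n)) := by ring
          rw [e1]
          unfold qq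
          rw [← hN, ← hV]
          set t : ℝ := 1 / √(lam n)
          have e2 : ((R * t) ^ 2 / 2) ^ k = (R ^ 2 / 2) ^ k * t ^ (2 * k) := by
            rw [show (R * t) ^ 2 / 2 = (R ^ 2 / 2) * t ^ 2 by ring, mul_pow, ← pow_mul]
          rw [e2, hN]
          ring
  -- the sum
  have b3 : Lb (fun n => EE K (fun z => ∑ j ∈ Finset.range (k + 1),
      (-((R ^ 2 / 2) ^ j / j.factorial * ms ((JF ρ)^[j] φ))) *
      ((1 / √(lam n)) ^ (2 * j) * (z.im ^ (2 * j) * (lap^[j] fun u => f n u ^ 2) z) -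
        (-1) ^ j * (L (lam n))^[j] (fun u => f n u ^ 2) z))) 0 :=
    Lb_sum hK hKH (fun j => -((R ^ 2 / 2) ^ j / j.factorial * ms ((JF ρ)^[j] φ)))
      (X := fun j n z => (1 / √(lam n)) ^ (2 * j) *
        (z.im ^ (2 * j) * (lap^[j] fun u => f n u ^ 2) z) -
        (-1) ^ j * (L (lam n))^[j] (fun u => f n u ^ 2) z)
      (fun j n => (cD j n).sub (cL j n))
      (fun j => convL S.pos S.lim S.sm heq hb j hK hKH) (k + 1)
  have b4 := Lb.add (E := fun n => EE K (fun z =>
      opF (PK ρ R φ k) (lam n) (fun u => f n u ^ 2) z -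
        avg (rad φ) (R / √(lam n)) (fun u => f n u ^ 2) z)) b3 b2 le_rfl (by positivity)
    (Eventually.of_forall fun n => by
      have e : ∀ z, opF (PK ρ R φ k) (lam n) (fun u => f n u ^ 2) z -
          avg (rad φ) (R / √(lam n)) (fun u => f n u ^ 2) z =
          (∑ j ∈ Finset.range (k + 1),
          (-((R ^ 2 / 2) ^ j / j.factorial * ms ((JF ρ)^[j] φ))) *
          ((1 / √(lam n)) ^ (2 * j) * (z.im ^ (2 * j) * (lap^[j] fun u => f n u ^ 2) z) -
          (-1) ^ j * (L (lam n))^[j] (fun u => f n u ^ 2) z)) +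
          -(avg (rad φ) (R / √(lam n)) (fun u => f n u ^ 2) z -
          ∑ j ∈ Finset.range (k + 1), ((R / √(lam n)) ^ 2 / 2) ^ j / j.factorial *
          (ms ((JF ρ)^[j] φ) * (z.im ^ (2 * j) * (lap^[j] fun u => f n u ^ 2) z))) := by
        intro z
        have e3 : (∑ j ∈ Finset.range (k + 1),
          (-((R ^ 2 / 2) ^ j / j.factorial * ms ((JF ρ)^[j] φ))) *
          ((1 / √(lam n)) ^ (2 * j) * (z.im ^ (2 * j) * (lap^[j] fun u => f n u ^ 2) z) -
          (-1) ^ j * (L (lam n))^[j] (fun u => f n u ^ 2) z)) =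
          opF (PK ρ R φ k) (lam n) (fun u => f n u ^ 2) z -
          ∑ j ∈ Finset.range (k + 1), ((R / √(lam n)) ^ 2 / 2) ^ j / j.factorial *
          (ms ((JF ρ)^[j] φ) * (z.im ^ (2 * j) * (lap^[j] fun u => f n u ^ 2) z)) := by
          rw [PK_op, ← Finset.sum_sub_distrib]
          refine Finset.sum_congr rfl fun j _ => ?_
          have e4 : ((R / √(lam n)) ^ 2 / 2) ^ j = (R ^ 2 / 2) ^ j * (1 / √(lam n)) ^ (2 * j) := by
            rw [show (R / √(lam n)) ^ 2 / 2 = (R ^ 2 / 2) * (1 / √(lam n)) ^ 2 by ring, mul_pow,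
              ← pow_mul]
          rw [e4]
          ring
        rw [e3]; ring
      simp only [e]
      refine (EE_add ?_).trans (le_of_eq ?_)
      · exact ContinuousOn.aemeasurable (continuousOn_finsetSum _ fun j _ =>
          continuousOn_const.mul (((cD j n).sub (cL j n)).mono hKH)) hK.measurableSet
      · rw [EE_neg])
  refine b4.mono (le_of_eq ?_)
  rw [mul_pow]
  ring

end

end Pool.Agent.K9h11.MV
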