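import Pool.Agent.K9h11.MV.S

/-!
# The variance of the averages at a fixed scale: the formula (helper11)
-/

set_option autoImplicit false

open MeasureTheory Filter Topology Complex Set
open scoped ContDiff ENNReal

namespace Pool.Agent.K9h11.MV

open Pool.Agent.W745.RW Pool.Agent.W366.RW
open Pool.Agent.Results.MP_a54f13_nt.SharpPowerSpectrum (L opF gauss)

noncomputable section

/-- the value of the mean square of the averages for the random wave -/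
def Ga (χ : ℂ → ℝ) (R : ℝ) : ℝ := 1 + 1 / Real.pi *
  ∫ θ in (0 : ℝ)..(2 * Real.pi), GG χ (R * √(2 - 2 * Real.cos θ)) ^ 2

/-- the factor of the defect -/
def ga (χ : ℂ → ℝ) (R : ℝ) : ℝ := (2 + GG χ (2 * R) ^ 2) / 3

variable {lam : ℕ → ℝ} {f : ℕ → ℂ → ℝ} {ρ : ℝ} {φ : ℝ → ℝ}

lemma RK_bd (h : RK ρ φ) : ∃ M : ℝ, ∀ u, 0 ≤ u → |φ u| ≤ M := by
  obtain ⟨M, hM⟩ := (isCompact_Icc (a := (0:ℝ)) (b := ρ ^ 2)).exists_bound_of_continuousOn
    h.1.continuous.continuousOn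
  refine ⟨max M 0, fun u hu => ?_⟩
  by_cases h2 : u ≤ ρ ^ 2
  · exact (hM u ⟨hu, h2⟩).trans (le_max_left _ _)
  · push Not at h2
    rw [h.2 u h2.le, abs_zero]
    exact le_max_right _ _

lemma GG_zero (χ : ℂ → ℝ) : GG χ 0 = ∫ v, χ v := by simp [GG]

/-- pointwise convergence of the multipliers -/
lemma PK_lim (h : RK ρ φ) (hρ : 0 ≤ ρ) {R : ℝ} (hR : 0 ≤ R) {x : ℝ} (hx : 0 ≤ x) (hx4 : x ≤ 4) :
    Tendsto (fun k => (PK ρ R φ k).eval x) atTop (𝓝 (GG (rad φ) (R * √x))) := by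
  obtain ⟨M, hM⟩ := RK_bd h
  have hM0 : 0 ≤ M := (abs_nonneg _).trans (hM 0 le_rfl)
  rw [tendsto_iff_dist_tendsto_zero]
  refine squeeze_zero (fun k => dist_nonneg) (fun k => ?_) (qq_lim' (ρ := ρ) (R := R) hM0)
  rw [dist_comm, Real.dist_eq]
  exact GG_bd h hρ hM hR k hx hx4

lemma PK_ubd (h : RK ρ φ) (hρ : 0 ≤ ρ) {R : ℝ} (hR : 0 ≤ R) :
    ∃ B : ℝ, 0 ≤ B ∧ ∀ k x, 0 ≤ x → x ≤ 4 → |(PK ρ R φ k).eval x| ≤ B := by
  obtain ⟨M, hM⟩ := RK_bd h
  have hM0 : 0 ≤ M := (abs_nonneg _).trans (hM 0 le_rfl)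
  obtain ⟨Q, hQ⟩ := (qq_lim' (ρ := ρ) (R := R) hM0).bddAbove_range
  have hint : Integrable (rad φ) :=
    (rad_sm h).continuous.integrable_of_hasCompactSupport (rad_cs h hρ)
  have hQ' : ∀ k, qq ρ R M k ≤ Q := fun k => hQ ⟨k, rfl⟩
  have hQ0 : 0 ≤ Q := (qq_nn hM0 0).trans (hQ' 0)
  have hI : 0 ≤ ∫ v, ‖rad φ v‖ := integral_nonneg fun v => norm_nonneg _
  refine ⟨(∫ v, ‖rad φ v‖) + Q, by positivity, fun k x hx hx4 => ?_⟩
  have h1 := GG_bd h hρ hM hR k hx hx4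
  have h2 : |GG (rad φ) (R * √x)| ≤ ∫ v, ‖rad φ v‖ := by
    unfold GG
    rw [← Real.norm_eq_abs]
    refine (norm_integral_le_integral_norm _).trans ?_
    refine integral_mono_of_nonneg (ae_of_all _ fun v => norm_nonneg _) hint.norm
      (ae_of_all _ fun v => ?_)
    simp only
    rw [norm_mul]
    have : ‖Real.cos (R * √x * v.re)‖ ≤ 1 := by
      rw [Real.norm_eq_abs]; exact Real.abs_cos_le_one _
    calc ‖rad φ v‖ * ‖Real.cos (R * √x * v.re)‖ ≤ ‖rad φ v‖ * 1 := by gcongr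
      _ = _ := mul_one _
  have h3 := hQ' k
  rw [abs_le] at h1 h2 ⊢
  constructor <;> linarith [h1.1, h1.2, h2.1, h2.2]

lemma x04 (θ : ℝ) : 0 ≤ 2 - 2 * Real.cos θ ∧ 2 - 2 * Real.cos θ ≤ 4 := by
  constructor <;> linarith [Real.neg_one_le_cos θ, Real.cos_le_one θ]

lemma gauss_lim (h : RK ρ φ) (hρ : 0 ≤ ρ) (h1 : ∫ v, rad φ v = 1) {R : ℝ} (hR : 0 ≤ R) :
    Tendsto (fun k => gauss (PK ρ R φ k)) atTop (𝓝 (Ga (rad φ) R)) := by
  obtain ⟨B, hB0, hB⟩ := PK_ubd h hρ hR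
  unfold gauss Ga
  have e0 := PK_lim h hρ hR (x := 0) le_rfl (by norm_num)
  rw [Real.sqrt_zero, mul_zero, GG_zero, h1] at e0
  have e1 := e0.pow 2
  rw [one_pow] at e1
  refine e1.add (Tendsto.const_mul _ ?_)
  refine intervalIntegral.tendsto_integral_filter_of_dominated_convergence (fun _ => B ^ 2)
    (Eventually.of_forall fun k => ?_) (Eventually.of_forall fun k => ae_of_all _ fun θ _ => ?_)
    intervalIntegrable_const (ae_of_all _ fun θ _ => ?_)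
  · have : Continuous fun θ : ℝ => (PK ρ R φ k).eval (2 - 2 * Real.cos θ) ^ 2 :=
      ((PK ρ R φ k).continuous.comp (by fun_prop)).pow 2
    exact this.aestronglyMeasurable
  · rw [norm_pow, Real.norm_eq_abs]
    exact pow_le_pow_left₀ (abs_nonneg _) (hB k _ (x04 θ).1 (x04 θ).2) 2
  · exact (PK_lim h hρ hR (x04 θ).1 (x04 θ).2).pow 2

lemma fac_lim (h : RK ρ φ) (hρ : 0 ≤ ρ) (h1 : ∫ v, rad φ v = 1) {R : ℝ} (hR : 0 ≤ R) :
    Tendsto (fun k => (2 * (PK ρ R φ k).eval 0 ^ 2 + (PK ρ R φ k).eval 4 ^ 2) / 3) atTop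
      (𝓝 (ga (rad φ) R)) := by
  have e0 := PK_lim h hρ hR (x := 0) le_rfl (by norm_num)
  rw [Real.sqrt_zero, mul_zero, GG_zero, h1] at e0
  have e4 := PK_lim h hρ hR (x := 4) (by norm_num) le_rfl
  rw [show √(4:ℝ) = 2 by
    rw [show (4:ℝ) = 2 ^ 2 by norm_num]; exact Real.sqrt_sq (by norm_num)] at e4
  have e := (((e0.pow 2).const_mul 2).add (e4.pow 2)).div_const 3
  have e5 : (2 * (1:ℝ) ^ 2 + GG (rad φ) (R * 2) ^ 2) / 3 = ga (rad φ) R := by
    unfold ga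
    rw [mul_comm R 2]; norm_num
  rwa [e5] at e

/-- **the formula at a fixed scale** -/
theorem Sy.fix (S : Sy lam f)
    (heq : ∀ n, ∀ z ∈ HH, z.im ^ 2 * lap (f n) z + lam n * f n z = 0) (hb : Bd f)
    (h : RK ρ φ) (hρ : 1 ≤ ρ) (h1 : ∫ v, rad φ v = 1) {R : ℝ} (hR : 0 < R)
    {w : ℂ → ℝ} (hw : TF HH w) (hw0 : ∀ z, 0 ≤ w z) :
    Tendsto (fun n => (∫ z, w z * avg (rad φ) (R / √(lam n)) (fun u => f n u ^ 2) z ^ 2) -
      ga (rad φ) R * ((∫ z, w z * f n z ^ 4) - 3 * ∫ z, w z)) atTop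
      (𝓝 (Ga (rad φ) R * ∫ z, w z)) := by
  have hρ0 : 0 ≤ ρ := by linarith
  obtain ⟨Mφ, hMφ⟩ := RK_bd h
  obtain ⟨M, hM⟩ := hw.1.continuous.bounded_above_of_compact_support hw.2.1
  have hM0 : 0 ≤ M := (norm_nonneg _).trans (hM 0)
  have hW : 0 ≤ ∫ z, w z := integral_nonneg hw0
  set W : ℝ := ∫ z, w z with hWd
  obtain ⟨C, hC0, hC⟩ := S.avg_pol heq hb h hρ hMφ hR hw.2.1 hw.2.2
  have i4 : ∀ n, Integrable fun z => w z * f n z ^ 4 := fun n => int_w hw ((S.sm n).pow 4)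
  -- fourth moments are bounded
  obtain ⟨C4, hC4⟩ : ∃ C4 : ℝ, ∀ᶠ n in atTop, ∫ z, w z * f n z ^ 4 ≤ C4 := by
    obtain ⟨B, hB0, hB⟩ := S.bdd hb hw hw0 1
    refine ⟨B, ?_⟩
    filter_upwards [hB] with n hn
    have : ∀ z, w z * opF 1 (lam n) (fun u => f n u ^ 2) z ^ 2 = w z * f n z ^ 4 := by
      intro z
      rw [op_one]; ring
    simp only [this] at hn
    exact hn
  set X0 : ℝ := |C4| + 3 * W with hX0
  have hX00 : 0 ≤ X0 := by positivity
  set G : ℝ := Ga (rad φ) R with hG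
  set g : ℝ := ga (rad φ) R with hg
  set Q0 : ℝ := (|g| + 1) * X0 + (|G| + 1) * W + 1 with hQ0
  have hQ00 : 0 < Q0 := by positivity
  rw [Metric.tendsto_nhds]
  intro δ hδ
  set τ : ℝ := δ / (8 * Q0) with hτ
  have hτ0 : 0 < τ := by positivity
  have hτQ : τ * Q0 = δ / 8 := by rw [hτ]; field_simp
  -- choice of k
  have l1 : Tendsto (fun k => (1 / τ + 1) * (M * (C * (qq ρ R Mφ k * 4 ^ (k + 1)) ^ 2))) atTop
      (𝓝 0) := by
    simpa using ((((qq_lim ρ R Mφ).pow 2).const_mul C).const_mul M).const_mul (1 / τ + 1)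
  have l2 := fac_lim h hρ0 h1 hR.le
  have l3 := gauss_lim h hρ0 h1 hR.le
  rw [← hg] at l2
  rw [← hG] at l3
  have p2 : 0 < min 1 (δ / (8 * (X0 + 1))) := by positivity
  have p3 : 0 < min 1 (δ / (8 * (W + 1))) := by positivity
  obtain ⟨k, ⟨k1, k2⟩, k3⟩ := (((l1.eventually (gt_mem_nhds (by positivity : 0 < δ / 8))).and
    (l2.eventually (Metric.ball_mem_nhds _ p2))).and
    (l3.eventually (Metric.ball_mem_nhds _ p3))).exists
  set c : ℝ := (2 * (PK ρ R φ k).eval 0 ^ 2 + (PK ρ R φ k).eval 4 ^ 2) / 3 with hc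
  have k2' : |c - g| < min 1 (δ / (8 * (X0 + 1))) := k2
  have k3' : |gauss (PK ρ R φ k) - G| < min 1 (δ / (8 * (W + 1))) := k3
  -- choice of η
  set η : ℝ := δ / (8 * ((1 / τ + 1) * (M + 1))) with hη
  have hη0 : 0 < η := by positivity
  have hηb : (1 / τ + 1) * (M * η) ≤ δ / 8 := by
    have h1 : (1 / τ + 1) * ((M + 1) * η) = δ / 8 := by
      rw [hη]; field_simp
    have h2 : (1 / τ + 1) * (M * η) ≤ (1 / τ + 1) * ((M + 1) * η) := by
      gcongr; linarith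
    linarith
  have h5 := hC k η hη0
  have h6 := S.sp w hw (PK ρ R φ k)
  rw [← hc, ← hWd] at h6
  have p4 : 0 < min 1 (δ / 8) := by positivity
  have h7 := h6.eventually (Metric.ball_mem_nhds _ p4)
  filter_upwards [h5, h7, hC4, avg_fin S.lim S.sm (rad_sm h).continuous (rad_ts h hρ0) hρ hR.le
    hw.2.1 hw.2.2] with n a5 a7 a4 af
  have s2 : ContDiffOn ℝ ∞ (fun u => f n u ^ 2) HH := (S.sm n).pow 2
  have sP := op_sm (PK ρ R φ k) (lam n) s2
  have hd : AEMeasurable (fun z => opF (PK ρ R φ k) (lam n) (fun u => f n u ^ 2) z -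
      avg (rad φ) (R / √(lam n)) (fun u => f n u ^ 2) z) (volume.restrict (tsupport w)) :=
    ((sP.continuousOn.mono hw.2.2).aemeasurable (isClosed_tsupport w).measurableSet).sub af.1
  have hce : 0 ≤ C * (qq ρ R Mφ k * 4 ^ (k + 1)) ^ 2 + η := by positivity
  have h8 := cmp hw hw0 (a := fun z => opF (PK ρ R φ k) (lam n) (fun u => f n u ^ 2) z)
    sP hd hM hce a5 hτ0
  have e8 : ∀ z, opF (PK ρ R φ k) (lam n) (fun u => f n u ^ 2) z -
      (opF (PK ρ R φ k) (lam n) (fun u => f n u ^ 2) z -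
      avg (rad φ) (R / √(lam n)) (fun u => f n u ^ 2) z) =
      avg (rad φ) (R / √(lam n)) (fun u => f n u ^ 2) z := fun z => by ring
  simp only [e8] at h8
  set q : ℝ := ∫ z, w z * opF (PK ρ R φ k) (lam n) (fun u => f n u ^ 2) z ^ 2 with hq
  set D : ℝ := ∫ z, w z * avg (rad φ) (R / √(lam n)) (fun u => f n u ^ 2) z ^ 2 with hD
  set X : ℝ := (∫ z, w z * f n z ^ 4) - 3 * W with hX
  have hXb : |X| ≤ X0 := by
    have c1 : 0 ≤ ∫ z, w z * f n z ^ 4 :=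
      integral_nonneg fun z => mul_nonneg (hw0 z) (by positivity)
    have c2 : C4 ≤ |C4| := le_abs_self _
    have c3 : 0 ≤ |C4| := abs_nonneg _
    rw [abs_le, hX, hX0]
    constructor <;> linarith
  have b1 : |q - c * X - gauss (PK ρ R φ k) * W| < min 1 (δ / 8) := a7
  have b11 := b1.trans_le (min_le_left _ _)
  have b12 := b1.trans_le (min_le_right _ _)
  have b21 := k2'.trans_le (min_le_left _ _)
  have b22 := k2'.trans_le (min_le_right _ _)
  have b31 := k3'.trans_le (min_le_left _ _)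
  have b32 := k3'.trans_le (min_le_right _ _)
  have hcb : |c| ≤ |g| + 1 := by
    calc |c| = |(c - g) + g| := by ring_nf
      _ ≤ |c - g| + |g| := abs_add_le _ _
      _ ≤ _ := by linarith
  have hgb : |gauss (PK ρ R φ k)| ≤ |G| + 1 := by
    calc |gauss (PK ρ R φ k)| = |(gauss (PK ρ R φ k) - G) + G| := by ring_nf
      _ ≤ |gauss (PK ρ R φ k) - G| + |G| := abs_add_le _ _
      _ ≤ _ := by linarith
  have hqb : q ≤ Q0 := by
    have c1 := (abs_lt.1 b11).2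
    have c2 : c * X ≤ (|g| + 1) * X0 := by
      calc c * X ≤ |c * X| := le_abs_self _
        _ = |c| * |X| := abs_mul _ _
        _ ≤ _ := by gcongr
    have c3 : gauss (PK ρ R φ k) * W ≤ (|G| + 1) * W := by
      refine mul_le_mul_of_nonneg_right ((le_abs_self _).trans hgb) hW
    rw [hQ0]; linarith
  have b5 : |D - q| ≤ δ / 8 + (δ / 8 + δ / 8) := by
    refine h8.trans ?_
    have c1 : τ * q ≤ δ / 8 := by rw [← hτQ]; gcongr
    have c3 : (1 / τ + 1) * (M * (C * (qq ρ R Mφ k * 4 ^ (k + 1)) ^ 2 + η)) =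
        (1 / τ + 1) * (M * (C * (qq ρ R Mφ k * 4 ^ (k + 1)) ^ 2)) +
        (1 / τ + 1) * (M * η) := by ring
    rw [c3]
    linarith
  have b6 : |(c - g) * X| ≤ δ / 8 := by
    rw [abs_mul]
    calc |c - g| * |X| ≤ δ / (8 * (X0 + 1)) * (X0 + 1) := by
          have : |X| ≤ X0 + 1 := by linarith
          gcongr
      _ = δ / 8 := by field_simp
  have b7 : |(gauss (PK ρ R φ k) - G) * W| ≤ δ / 8 := by
    rw [abs_mul, abs_of_nonneg hW]
    calc |gauss (PK ρ R φ k) - G| * W ≤ δ / (8 * (W + 1)) * (W + 1) := by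
          gcongr
          linarith
      _ = δ / 8 := by field_simp
  rw [Real.dist_eq]
  calc |D - g * X - G * W| = |(D - q) + ((q - c * X - gauss (PK ρ R φ k) * W) +
        ((c - g) * X + (gauss (PK ρ R φ k) - G) * W))| := by ring_nf
    _ ≤ |D - q| + |(q - c * X - gauss (PK ρ R φ k) * W) +
        ((c - g) * X + (gauss (PK ρ R φ k) - G) * W)| := abs_add_le _ _
    _ ≤ |D - q| + (|q - c * X - gauss (PK ρ R φ k) * W| +
        |(c - g) * X + (gauss (PK ρ R φ k) - G) * W|) := by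
        gcongr; exact abs_add_le _ _
    _ ≤ |D - q| + (|q - c * X - gauss (PK ρ R φ k) * W| +
        (|(c - g) * X| + |(gauss (PK ρ R φ k) - G) * W|)) := by
        gcongr; exact abs_add_le _ _
    _ < δ := by linarith

end

end Pool.Agent.K9h11.MV
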