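import Pool.Agent.K9h11.MV.T1

/-!
# The equivalence at a fixed scale (helper11)
-/

set_option autoImplicit false

open MeasureTheory Filter Topology Complex Set
open scoped ContDiff ENNReal

namespace Pool.Agent.K9h11.MV

open Pool.Agent.W745.RW Pool.Agent.W366.RW

noncomputable section

variable {lam : ℕ → ℝ} {f : ℕ → ℂ → ℝ} {ρ : ℝ} {φ : ℝ → ℝ}

lemma int_avg2 (lim : Tendsto lam atTop atTop)
    (sm : ∀ n, ContDiffOn ℝ ∞ (f n) HH) {χ : ℂ → ℝ} (hχ : Continuous χ)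
    (hsu : tsupport χ ⊆ Metric.closedBall 0 ρ) (hρ : 1 ≤ ρ) {R : ℝ} (hR : 0 ≤ R)
    {w : ℂ → ℝ} (hw : TF HH w) :
    ∀ᶠ n in atTop, Integrable fun z =>
      w z * avg χ (R / √(lam n)) (fun u => f n u ^ 2) z ^ 2 := by
  filter_upwards [avg_fin lim sm hχ hsu hρ hR hw.2.1 hw.2.2] with n hn
  exact int_sq hw hn.1 hn.2.1

/-- bounded mean squares of the averages at one scale give bounded fourth moments -/
lemma bd_of2 (pos : ∀ n, 0 < lam n) (lim : Tendsto lam atTop atTop)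
    (sm : ∀ n, ContDiffOn ℝ ∞ (f n) HH)
    (heq : ∀ n, ∀ z ∈ HH, z.im ^ 2 * lap (f n) z + lam n * f n z = 0)
    {χ : ℂ → ℝ} (hχ : Continuous χ) (hχ0 : ∀ v, 0 ≤ χ v)
    (hsu : tsupport χ ⊆ Metric.closedBall 0 ρ) (hρ : 1 ≤ ρ) (hχ1 : ∫ v, χ v = 1)
    {R : ℝ} (hR : 0 < R)
    (h : ∀ w, TF HH w → (∀ z, 0 ≤ w z) → ∃ b : ℝ, ∀ᶠ n in atTop,
      ∫ z, w z * avg χ (R / √(lam n)) (fun u => f n u ^ 2) z ^ 2 ≤ b) : Bd f := by
  intro K hK hKH
  obtain ⟨K', hK', hK'H, hC⟩ := bd4 pos lim sm heq hχ hχ0 hsu hρ hχ1 hK hKH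
  obtain ⟨ζ, V, hζ, -, hKV, h1, -, -⟩ := cut_near hK' hK'H
  obtain ⟨b, hb⟩ := h _ (TF_sq hζ) (fun z => mul_self_nonneg _)
  obtain ⟨C, hC0, hC⟩ := hC R hR
  refine ⟨C * |b|, ?_⟩
  filter_upwards [hC, hb, int_avg2 lim sm hχ hsu hρ hR.le (TF_sq hζ)] with n h2 h3 h4
  refine h2 _ (abs_nonneg b) ?_
  set a : ℂ → ℝ := avg χ (R / √(lam n)) (fun u => f n u ^ 2) with ha
  have e1 : EE K' a ≤ ∫⁻ z, ENNReal.ofReal ((ζ z * ζ z) * a z ^ 2) := by
    unfold EE
    refine le_trans (le_of_eq ?_) (setLIntegral_le_lintegral K' _)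
    refine setLIntegral_congr_fun hK'.measurableSet fun z hz => ?_
    rw [en_sq, h1 z (hKV hz), one_mul, one_mul]
  rw [← ofReal_integral_eq_lintegral_ofReal h4 (ae_of_all _ fun z =>
    mul_nonneg (mul_self_nonneg _) (sq_nonneg _))] at e1
  exact e1.trans (ENNReal.ofReal_le_ofReal (h3.trans (le_abs_self b)))

/-- decomposition of test functions -/
lemma decw {w : ℂ → ℝ} (hw : TF HH w) : ∃ (a b : ℂ → ℝ) (c : ℝ), TF HH a ∧ TF HH b ∧
    (∀ z, 0 ≤ a z) ∧ (∀ z, 0 ≤ b z) ∧ w = fun z => a z + c * b z := by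
  obtain ⟨ζ, V, hζ, -, hKV, h1, h2, -⟩ := cut_near hw.2.1 hw.2.2
  obtain ⟨M, hM⟩ := hw.1.continuous.bounded_above_of_compact_support hw.2.1
  refine ⟨fun z => w z + M * ζ z, ζ, -M, ?_, hζ, fun z => ?_, h2, ?_⟩
  · have c1 : ContDiff ℝ ∞ fun z => w z + M * ζ z := hw.1.add (contDiff_const.mul hζ.1)
    have hsub : tsupport (fun z => w z + M * ζ z) ⊆ tsupport w ∪ tsupport ζ := by
      refine closure_minimal (fun z hz => ?_)
        ((isClosed_tsupport w).union (isClosed_tsupport ζ))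
      by_contra h
      rw [mem_union, not_or] at h
      exact hz (by simp [image_eq_zero_of_notMem_tsupport h.1,
        image_eq_zero_of_notMem_tsupport h.2])
    refine ⟨c1, ?_, hsub.trans (union_subset hw.2.2 hζ.2.2)⟩
    exact HasCompactSupport.of_support_subset_isCompact
      (K := tsupport w ∪ tsupport ζ) (hw.2.1.union hζ.2.1) ((subset_tsupport _).trans hsub)
  · show 0 ≤ w z + M * ζ z
    by_cases hz : z ∈ tsupport w
    · rw [h1 z (hKV hz)]
      have := (abs_le.1 (hM z)).1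
      linarith
    · rw [image_eq_zero_of_notMem_tsupport hz, zero_add]
      exact mul_nonneg ((norm_nonneg _).trans (hM 0)) (h2 z)
  · funext z; ring

/-- limits for nonnegative test functions suffice -/
lemma lin_w {P : (ℂ → ℝ) → ℕ → ℝ} {Λ : (ℂ → ℝ) → ℝ}
    (hΛ : ∀ a b : ℂ → ℝ, TF HH a → TF HH b → ∀ c : ℝ,
      Λ (fun z => a z + c * b z) = Λ a + c * Λ b)
    (hP : ∀ a b : ℂ → ℝ, TF HH a → TF HH b → ∀ c : ℝ, ∀ᶠ n in atTop,
      P (fun z => a z + c * b z) n = P a n + c * P b n)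
    (h : ∀ w, TF HH w → (∀ z, 0 ≤ w z) → Tendsto (P w) atTop (𝓝 (Λ w))) :
    ∀ w, TF HH w → Tendsto (P w) atTop (𝓝 (Λ w)) := by
  intro w hw
  obtain ⟨a, b, c, ha, hb, ha0, hb0, rfl⟩ := decw hw
  rw [hΛ a b ha hb c]
  refine ((h a ha ha0).add ((h b hb hb0).const_mul c)).congr' ?_
  filter_upwards [hP a b ha hb c] with n hn
  exact hn.symm

lemma ga_pos (χ : ℂ → ℝ) (R : ℝ) : 0 < ga χ R := by
  unfold ga; positivity

/-- **the equivalence at a fixed scale** -/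
theorem Sy.equiF (S : Sy lam f)
    (heq : ∀ n, ∀ z ∈ HH, z.im ^ 2 * lap (f n) z + lam n * f n z = 0)
    (h : RK ρ φ) (hρ : 1 ≤ ρ) (hχ0 : ∀ v, 0 ≤ rad φ v) (hχ1 : ∫ v, rad φ v = 1)
    {R : ℝ} (hR : 0 < R)
    {Λ : (ℂ → ℝ) → ℝ} (hΛ : ∀ a b : ℂ → ℝ, TF HH a → TF HH b → ∀ c : ℝ,
      Λ (fun z => a z + c * b z) = Λ a + c * Λ b) :
    (∀ w, TF HH w → Tendsto (fun n => ∫ z, w z * f n z ^ 4) atTop
      (𝓝 (3 * (∫ z, w z) + Λ w))) ↔
    (∀ w, TF HH w → Tendsto (fun n =>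
      ∫ z, w z * avg (rad φ) (R / √(lam n)) (fun u => f n u ^ 2) z ^ 2) atTop
      (𝓝 (Ga (rad φ) R * (∫ z, w z) + ga (rad φ) R * Λ w))) := by
  have hρ0 : 0 ≤ ρ := by linarith
  have i0 : ∀ {v : ℂ → ℝ}, TF HH v → Integrable v := fun hv =>
    hv.1.continuous.integrable_of_hasCompactSupport hv.2.1
  have hI : ∀ a b : ℂ → ℝ, TF HH a → TF HH b → ∀ c : ℝ,
      ∫ z, (a z + c * b z) = (∫ z, a z) + c * ∫ z, b z := by
    intro a b ha hb c
    rw [integral_add (i0 ha) ((i0 hb).const_mul c), integral_const_mul]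
  constructor
  · intro hA
    have hb : Bd f := bd_of' S.sm fun w hw _ => ⟨_, hA w hw⟩
    refine lin_w (P := fun w n => ∫ z, w z * avg (rad φ) (R / √(lam n)) (fun u => f n u ^ 2) z ^ 2)
      (Λ := fun w => Ga (rad φ) R * (∫ z, w z) + ga (rad φ) R * Λ w) ?_ ?_ ?_
    · intro a b ha hb c
      simp only
      rw [hΛ a b ha hb c, hI a b ha hb c]
      ring
    · intro a b ha hb c
      filter_upwards [int_avg2 S.lim S.sm (rad_sm h).continuous (rad_ts h hρ0) hρ hR.le ha,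
        int_avg2 S.lim S.sm (rad_sm h).continuous (rad_ts h hρ0) hρ hR.le hb] with n i1 i2
      rw [← integral_const_mul, ← integral_add i1 (i2.const_mul c)]
      congr 1
      funext z
      ring
    · intro w hw hw0
      have h1 := S.fix heq hb h hρ hχ1 hR hw hw0
      have h2 := (hA w hw).sub_const (3 * ∫ z, w z)
      have h3 := h1.add (h2.const_mul (ga (rad φ) R))
      have e : Ga (rad φ) R * (∫ z, w z) + ga (rad φ) R *
          (3 * (∫ z, w z) + Λ w - 3 * ∫ z, w z) =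
          Ga (rad φ) R * (∫ z, w z) + ga (rad φ) R * Λ w := by ring
      rw [e] at h3
      refine h3.congr fun n => ?_
      ring
  · intro hA
    have hb : Bd f := bd_of2 S.pos S.lim S.sm heq (rad_sm h).continuous hχ0 (rad_ts h hρ0) hρ
      hχ1 hR fun w hw _ => by
        refine ⟨Ga (rad φ) R * (∫ z, w z) + ga (rad φ) R * Λ w + 1, ?_⟩
        filter_upwards [(hA w hw).eventually (gt_mem_nhds (lt_add_one _))] with n hn
        exact hn.le
    refine lin_w (P := fun w n => ∫ z, w z * f n z ^ 4)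
      (Λ := fun w => 3 * (∫ z, w z) + Λ w) ?_ ?_ ?_
    · intro a b ha hb c
      simp only
      rw [hΛ a b ha hb c, hI a b ha hb c]
      ring
    · intro a b ha hb c
      refine Eventually.of_forall fun n => ?_
      have i1 : Integrable fun z => a z * f n z ^ 4 := int_w ha ((S.sm n).pow 4)
      have i2 : Integrable fun z => b z * f n z ^ 4 := int_w hb ((S.sm n).pow 4)
      rw [← integral_const_mul, ← integral_add i1 (i2.const_mul c)]
      congr 1
      funext z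
      ring
    · intro w hw hw0
      have h1 := S.fix heq hb h hρ hχ1 hR hw hw0
      have hg := ga_pos (rad φ) R
      have h3 := (((hA w hw).sub h1).const_mul (ga (rad φ) R)⁻¹).add_const (3 * ∫ z, w z)
      have e : (ga (rad φ) R)⁻¹ * (Ga (rad φ) R * (∫ z, w z) + ga (rad φ) R * Λ w -
          Ga (rad φ) R * ∫ z, w z) + 3 * (∫ z, w z) = 3 * (∫ z, w z) + Λ w := by
        field_simp
        ring
      rw [e] at h3
      refine h3.congr fun n => ?_
      have hg0 := hg.ne'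
      field_simp
      ring

end

end Pool.Agent.K9h11.MV
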