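import Pool.Agent.K9h11.MV.QU

/-!
# The formula and the equivalence at a fixed scale, local version (helper11)
-/

set_option autoImplicit false

open MeasureTheory Filter Topology Complex Set
open scoped ContDiff ENNReal

namespace Pool.Agent.K9h11.MV

open Pool.Agent.W745.RW Pool.Agent.W366.RW
open Pool.Agent.Results.MP_a54f13_nt.SharpPowerSpectrum (L opF gauss)

noncomputable section

variable {lam : ℕ → ℝ} {f : ℕ → ℂ → ℝ} {ρ : ℝ} {φ : ℝ → ℝ} {U : Set ℂ}

/-- **the formula at a fixed scale** -/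
theorem Sy.fixU (S : Sy lam f) (hU : IsOpen U) (hUH : U ⊆ HH)
    (heq : ∀ n, ∀ z ∈ HH, z.im ^ 2 * lap (f n) z + lam n * f n z = 0) (hb : BdU U f)
    (h : RK ρ φ) (hρ : 1 ≤ ρ) (h1 : ∫ v, rad φ v = 1) {R : ℝ} (hR : 0 < R)
    {w : ℂ → ℝ} (hwU : TF U w) (hw0 : ∀ z, 0 ≤ w z) :
    Tendsto (fun n => (∫ z, w z * avg (rad φ) (R / √(lam n)) (fun u => f n u ^ 2) z ^ 2) -
      ga (rad φ) R * ((∫ z, w z * f n z ^ 4) - 3 * ∫ z, w z)) atTop
      (𝓝 (Ga (rad φ) R * ∫ z, w z)) := by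
  have hρ0 : 0 ≤ ρ := by linarith
  have hw : TF HH w := TFm hUH hwU
  obtain ⟨Mφ, hMφ⟩ := RK_bd h
  obtain ⟨M, hM⟩ := hw.1.continuous.bounded_above_of_compact_support hw.2.1
  have hM0 : 0 ≤ M := (norm_nonneg _).trans (hM 0)
  have hW : 0 ≤ ∫ z, w z := integral_nonneg hw0
  set W : ℝ := ∫ z, w z with hWd
  obtain ⟨C, hC0, hC⟩ := S.avg_polU hU hUH heq hb h hρ hMφ hR hwU.2.1 hwU.2.2
  have i4 : ∀ n, Integrable fun z => w z * f n z ^ 4 := fun n => int_w hw ((S.sm n).pow 4)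
  -- fourth moments are bounded
  obtain ⟨C4, hC4⟩ : ∃ C4 : ℝ, ∀ᶠ n in atTop, ∫ z, w z * f n z ^ 4 ≤ C4 := by
    obtain ⟨B, hB0, hB⟩ := S.bddU hUH hb hwU hw0 1
    refine ⟨B, ?_⟩
    filter_upwards [hB] with n hn
    have : ∀ z, w z * opF 1 (lam n) (fun u => f n u ^ 2) z ^ 2 = w z * f n z ^ 4 := by
      intro z
      rw [op_one]; ring
    simp only [this] at hn
    exact hn
  set X0 : ℝ := |C4| + 3 * W with hX0
  have hX00 : 0 ≤ X0 := by positivity
  set G : ℝ := Ga (rad φ) R with hG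
  set g : ℝ := ga (rad φ) R with hg
  set Q0 : ℝ := (|g| + 1) * X0 + (|G| + 1) * W + 1 with hQ0
  have hQ00 : 0 < Q0 := by positivity
  rw [Metric.tendsto_nhds]
  intro δ hδ
  set τ : ℝ := δ / (8 * Q0) with hτ
  have hτ0 : 0 < τ := by positivity
  have hτQ : τ * Q0 = δ / 8 := by rw [hτ]; field_simp
  -- choice of k
  have l1 : Tendsto (fun k => (1 / τ + 1) * (M * (C * (qq ρ R Mφ k * 4 ^ (k + 1)) ^ 2))) atTop
      (𝓝 0) := by
    simpa using ((((qq_lim ρ R Mφ).pow 2).const_mul C).const_mul M).const_mul (1 / τ + 1)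
  have l2 := fac_lim h hρ0 h1 hR.le
  have l3 := gauss_lim h hρ0 h1 hR.le
  rw [← hg] at l2
  rw [← hG] at l3
  have p2 : 0 < min 1 (δ / (8 * (X0 + 1))) := by positivity
  have p3 : 0 < min 1 (δ / (8 * (W + 1))) := by positivity
  obtain ⟨k, ⟨k1, k2⟩, k3⟩ := (((l1.eventually (gt_mem_nhds (by positivity : 0 < δ / 8))).and
    (l2.eventually (Metric.ball_mem_nhds _ p2))).and
    (l3.eventually (Metric.ball_mem_nhds _ p3))).exists
  set c : ℝ := (2 * (PK ρ R φ k).eval 0 ^ 2 + (PK ρ R φ k).eval 4 ^ 2) / 3 with hc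
  have k2' : |c - g| < min 1 (δ / (8 * (X0 + 1))) := k2
  have k3' : |gauss (PK ρ R φ k) - G| < min 1 (δ / (8 * (W + 1))) := k3
  -- choice of η
  set η : ℝ := δ / (8 * ((1 / τ + 1) * (M + 1))) with hη
  have hη0 : 0 < η := by positivity
  have hηb : (1 / τ + 1) * (M * η) ≤ δ / 8 := by
    have h1 : (1 / τ + 1) * ((M + 1) * η) = δ / 8 := by
      rw [hη]; field_simp
    have h2 : (1 / τ + 1) * (M * η) ≤ (1 / τ + 1) * ((M + 1) * η) := by
      gcongr; linarith
    linarith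
  have h5 := hC k η hη0
  have h6 := S.sp w hw (PK ρ R φ k)
  rw [← hc, ← hWd] at h6
  have p4 : 0 < min 1 (δ / 8) := by positivity
  have h7 := h6.eventually (Metric.ball_mem_nhds _ p4)
  filter_upwards [h5, h7, hC4, avg_fin S.lim S.sm (rad_sm h).continuous (rad_ts h hρ0) hρ hR.le
    hw.2.1 hw.2.2] with n a5 a7 a4 af
  have s2 : ContDiffOn ℝ ∞ (fun u => f n u ^ 2) HH := (S.sm n).pow 2
  have sP := op_sm (PK ρ R φ k) (lam n) s2
  have hd : AEMeasurable (fun z => opF (PK ρ R φ k) (lam n) (fun u => f n u ^ 2) z -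
      avg (rad φ) (R / √(lam n)) (fun u => f n u ^ 2) z) (volume.restrict (tsupport w)) :=
    ((sP.continuousOn.mono hw.2.2).aemeasurable (isClosed_tsupport w).measurableSet).sub af.1
  have hce : 0 ≤ C * (qq ρ R Mφ k * 4 ^ (k + 1)) ^ 2 + η := by positivity
  have h8 := cmp hw hw0 (a := fun z => opF (PK ρ R φ k) (lam n) (fun u => f n u ^ 2) z)
    sP hd hM hce a5 hτ0
  have e8 : ∀ z, opF (PK ρ R φ k) (lam n) (fun u => f n u ^ 2) z -
      (opF (PK ρ R φ k) (lam n) (fun u => f n u ^ 2) z -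
      avg (rad φ) (R / √(lam n)) (fun u => f n u ^ 2) z) =
      avg (rad φ) (R / √(lam n)) (fun u => f n u ^ 2) z := fun z => by ring
  simp only [e8] at h8
  set q : ℝ := ∫ z, w z * opF (PK ρ R φ k) (lam n) (fun u => f n u ^ 2) z ^ 2 with hq
  set D : ℝ := ∫ z, w z * avg (rad φ) (R / √(lam n)) (fun u => f n u ^ 2) z ^ 2 with hD
  set X : ℝ := (∫ z, w z * f n z ^ 4) - 3 * W with hX
  have hXb : |X| ≤ X0 := by
    have c1 : 0 ≤ ∫ z, w z * f n z ^ 4 :=
      integral_nonneg fun z => mul_nonneg (hw0 z) (by positivity)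
    have c2 : C4 ≤ |C4| := le_abs_self _
    have c3 : 0 ≤ |C4| := abs_nonneg _
    rw [abs_le, hX, hX0]
    constructor <;> linarith
  have b1 : |q - c * X - gauss (PK ρ R φ k) * W| < min 1 (δ / 8) := a7
  have b11 := b1.trans_le (min_le_left _ _)
  have b12 := b1.trans_le (min_le_right _ _)
  have b21 := k2'.trans_le (min_le_left _ _)
  have b22 := k2'.trans_le (min_le_right _ _)
  have b31 := k3'.trans_le (min_le_left _ _)
  have b32 := k3'.trans_le (min_le_right _ _)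
  have hcb : |c| ≤ |g| + 1 := by
    calc |c| = |(c - g) + g| := by ring_nf
      _ ≤ |c - g| + |g| := abs_add_le _ _
      _ ≤ _ := by linarith
  have hgb : |gauss (PK ρ R φ k)| ≤ |G| + 1 := by
    calc |gauss (PK ρ R φ k)| = |(gauss (PK ρ R φ k) - G) + G| := by ring_nf
      _ ≤ |gauss (PK ρ R φ k) - G| + |G| := abs_add_le _ _
      _ ≤ _ := by linarith
  have hqb : q ≤ Q0 := by
    have c1 := (abs_lt.1 b11).2
    have c2 : c * X ≤ (|g| + 1) * X0 := by
      calc c * X ≤ |c * X| := le_abs_self _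
        _ = |c| * |X| := abs_mul _ _
        _ ≤ _ := by gcongr
    have c3 : gauss (PK ρ R φ k) * W ≤ (|G| + 1) * W := by
      refine mul_le_mul_of_nonneg_right ((le_abs_self _).trans hgb) hW
    rw [hQ0]; linarith
  have b5 : |D - q| ≤ δ / 8 + (δ / 8 + δ / 8) := by
    refine h8.trans ?_
    have c1 : τ * q ≤ δ / 8 := by rw [← hτQ]; gcongr
    have c3 : (1 / τ + 1) * (M * (C * (qq ρ R Mφ k * 4 ^ (k + 1)) ^ 2 + η)) =
        (1 / τ + 1) * (M * (C * (qq ρ R Mφ k * 4 ^ (k + 1)) ^ 2)) +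
        (1 / τ + 1) * (M * η) := by ring
    rw [c3]
    linarith
  have b6 : |(c - g) * X| ≤ δ / 8 := by
    rw [abs_mul]
    calc |c - g| * |X| ≤ δ / (8 * (X0 + 1)) * (X0 + 1) := by
          have : |X| ≤ X0 + 1 := by linarith
          gcongr
      _ = δ / 8 := by field_simp
  have b7 : |(gauss (PK ρ R φ k) - G) * W| ≤ δ / 8 := by
    rw [abs_mul, abs_of_nonneg hW]
    calc |gauss (PK ρ R φ k) - G| * W ≤ δ / (8 * (W + 1)) * (W + 1) := by
          gcongr
          linarith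
      _ = δ / 8 := by field_simp
  rw [Real.dist_eq]
  calc |D - g * X - G * W| = |(D - q) + ((q - c * X - gauss (PK ρ R φ k) * W) +
        ((c - g) * X + (gauss (PK ρ R φ k) - G) * W))| := by ring_nf
    _ ≤ |D - q| + |(q - c * X - gauss (PK ρ R φ k) * W) +
        ((c - g) * X + (gauss (PK ρ R φ k) - G) * W)| := abs_add_le _ _
    _ ≤ |D - q| + (|q - c * X - gauss (PK ρ R φ k) * W| +
        |(c - g) * X + (gauss (PK ρ R φ k) - G) * W|) := by
        gcongr; exact abs_add_le _ _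
    _ ≤ |D - q| + (|q - c * X - gauss (PK ρ R φ k) * W| +
        (|(c - g) * X| + |(gauss (PK ρ R φ k) - G) * W|)) := by
        gcongr; exact abs_add_le _ _
    _ < δ := by linarith

/-- bounded mean squares of the averages at one scale give bounded fourth moments -/
lemma bd_of2U (hU : IsOpen U) (hUH : U ⊆ HH) (pos : ∀ n, 0 < lam n) (lim : Tendsto lam atTop atTop)
    (sm : ∀ n, ContDiffOn ℝ ∞ (f n) HH)
    (heq : ∀ n, ∀ z ∈ HH, z.im ^ 2 * lap (f n) z + lam n * f n z = 0)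
    {χ : ℂ → ℝ} (hχ : Continuous χ) (hχ0 : ∀ v, 0 ≤ χ v)
    (hsu : tsupport χ ⊆ Metric.closedBall 0 ρ) (hρ : 1 ≤ ρ) (hχ1 : ∫ v, χ v = 1)
    {R : ℝ} (hR : 0 < R)
    (h : ∀ w, TF U w → (∀ z, 0 ≤ w z) → ∃ b : ℝ, ∀ᶠ n in atTop,
      ∫ z, w z * avg χ (R / √(lam n)) (fun u => f n u ^ 2) z ^ 2 ≤ b) : BdU U f := by
  intro K hK hKU
  obtain ⟨K', hK', hK'U, hC⟩ := bd4U hU hUH pos lim sm heq hχ hχ0 hsu hρ hχ1 hK hKU
  obtain ⟨ζ, V, hζU, -, hKV, h1, -, -⟩ := cut_nearU hU hK' hK'U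
  have hζ : TF HH ζ := TFm hUH hζU
  obtain ⟨b, hb⟩ := h _ (TF_sqU hU hζU) (fun z => mul_self_nonneg _)
  obtain ⟨C, hC0, hC⟩ := hC R hR
  refine ⟨C * |b|, ?_⟩
  filter_upwards [hC, hb, int_avg2 lim sm hχ hsu hρ hR.le (TF_sq hζ)] with n h2 h3 h4
  refine h2 _ (abs_nonneg b) ?_
  set a : ℂ → ℝ := avg χ (R / √(lam n)) (fun u => f n u ^ 2) with ha
  have e1 : EE K' a ≤ ∫⁻ z, ENNReal.ofReal ((ζ z * ζ z) * a z ^ 2) := by
    unfold EE
    refine le_trans (le_of_eq ?_) (setLIntegral_le_lintegral K' _)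
    refine setLIntegral_congr_fun hK'.measurableSet fun z hz => ?_
    rw [en_sq, h1 z (hKV hz), one_mul, one_mul]
  rw [← ofReal_integral_eq_lintegral_ofReal h4 (ae_of_all _ fun z =>
    mul_nonneg (mul_self_nonneg _) (sq_nonneg _))] at e1
  exact e1.trans (ENNReal.ofReal_le_ofReal (h3.trans (le_abs_self b)))

/-- **the equivalence at a fixed scale** -/
theorem Sy.equiFU (S : Sy lam f) (hU : IsOpen U) (hUH : U ⊆ HH)
    (heq : ∀ n, ∀ z ∈ HH, z.im ^ 2 * lap (f n) z + lam n * f n z = 0)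
    (h : RK ρ φ) (hρ : 1 ≤ ρ) (hχ0 : ∀ v, 0 ≤ rad φ v) (hχ1 : ∫ v, rad φ v = 1)
    {R : ℝ} (hR : 0 < R)
    {Λ : (ℂ → ℝ) → ℝ} (hΛ : ∀ a b : ℂ → ℝ, TF U a → TF U b → ∀ c : ℝ,
      Λ (fun z => a z + c * b z) = Λ a + c * Λ b) :
    (∀ w, TF U w → Tendsto (fun n => ∫ z, w z * f n z ^ 4) atTop
      (𝓝 (3 * (∫ z, w z) + Λ w))) ↔
    (∀ w, TF U w → Tendsto (fun n =>
      ∫ z, w z * avg (rad φ) (R / √(lam n)) (fun u => f n u ^ 2) z ^ 2) atTop
      (𝓝 (Ga (rad φ) R * (∫ z, w z) + ga (rad φ) R * Λ w))) := by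
  have hρ0 : 0 ≤ ρ := by linarith
  have i0 : ∀ {v : ℂ → ℝ}, TF U v → Integrable v := fun hv =>
    hv.1.continuous.integrable_of_hasCompactSupport hv.2.1
  have hI : ∀ a b : ℂ → ℝ, TF U a → TF U b → ∀ c : ℝ,
      ∫ z, (a z + c * b z) = (∫ z, a z) + c * ∫ z, b z := by
    intro a b ha hb c
    rw [integral_add (i0 ha) ((i0 hb).const_mul c), integral_const_mul]
  constructor
  · intro hA
    have hb : BdU U f := bd_ofU' hU hUH S.sm fun w hw _ => ⟨_, hA w hw⟩
    refine lin_wU hU (P := fun w n => ∫ z, w z * avg (rad φ) (R / √(lam n)) (fun u => f n u ^ 2) z ^ 2)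
      (Λ := fun w => Ga (rad φ) R * (∫ z, w z) + ga (rad φ) R * Λ w) ?_ ?_ ?_
    · intro a b ha hb c
      simp only
      rw [hΛ a b ha hb c, hI a b ha hb c]
      ring
    · intro a b ha hb c
      filter_upwards [int_avg2 S.lim S.sm (rad_sm h).continuous (rad_ts h hρ0) hρ hR.le (TFm hUH ha),
        int_avg2 S.lim S.sm (rad_sm h).continuous (rad_ts h hρ0) hρ hR.le (TFm hUH hb)] with n i1 i2
      rw [← integral_const_mul, ← integral_add i1 (i2.const_mul c)]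
      congr 1
      funext z
      ring
    · intro w hw hw0
      have h1 := S.fixU hU hUH heq hb h hρ hχ1 hR hw hw0
      have h2 := (hA w hw).sub_const (3 * ∫ z, w z)
      have h3 := h1.add (h2.const_mul (ga (rad φ) R))
      have e : Ga (rad φ) R * (∫ z, w z) + ga (rad φ) R *
          (3 * (∫ z, w z) + Λ w - 3 * ∫ z, w z) =
          Ga (rad φ) R * (∫ z, w z) + ga (rad φ) R * Λ w := by ring
      rw [e] at h3
      refine h3.congr fun n => ?_
      ring
  · intro hA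
    have hb : BdU U f := bd_of2U hU hUH S.pos S.lim S.sm heq (rad_sm h).continuous hχ0 (rad_ts h hρ0) hρ
      hχ1 hR fun w hw _ => by
        refine ⟨Ga (rad φ) R * (∫ z, w z) + ga (rad φ) R * Λ w + 1, ?_⟩
        filter_upwards [(hA w hw).eventually (gt_mem_nhds (lt_add_one _))] with n hn
        exact hn.le
    refine lin_wU hU (P := fun w n => ∫ z, w z * f n z ^ 4)
      (Λ := fun w => 3 * (∫ z, w z) + Λ w) ?_ ?_ ?_
    · intro a b ha hb c
      simp only
      rw [hΛ a b ha hb c, hI a b ha hb c]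
      ring
    · intro a b ha hb c
      refine Eventually.of_forall fun n => ?_
      have i1 : Integrable fun z => a z * f n z ^ 4 := int_w (TFm hUH ha) ((S.sm n).pow 4)
      have i2 : Integrable fun z => b z * f n z ^ 4 := int_w (TFm hUH hb) ((S.sm n).pow 4)
      rw [← integral_const_mul, ← integral_add i1 (i2.const_mul c)]
      congr 1
      funext z
      ring
    · intro w hw hw0
      have h1 := S.fixU hU hUH heq hb h hρ hχ1 hR hw hw0
      have hg := ga_pos (rad φ) R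
      have h3 := (((hA w hw).sub h1).const_mul (ga (rad φ) R)⁻¹).add_const (3 * ∫ z, w z)
      have e : (ga (rad φ) R)⁻¹ * (Ga (rad φ) R * (∫ z, w z) + ga (rad φ) R * Λ w -
          Ga (rad φ) R * ∫ z, w z) + 3 * (∫ z, w z) = 3 * (∫ z, w z) + Λ w := by
        field_simp
        ring
      rw [e] at h3
      refine h3.congr fun n => ?_
      have hg0 := hg.ne'
      field_simp
      ring

end

end Pool.Agent.K9h11.MV
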