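import Pool.Agent.K9h11.MV.TU

/-!
# The variance at a fixed scale is at least the variance of the random wave (helper11)
-/

set_option autoImplicit false

open MeasureTheory Filter Topology Complex Set
open scoped ContDiff ENNReal

namespace Pool.Agent.K9h11.MV

open Pool.Agent.W745.RW Pool.Agent.W366.RW
open Pool.Agent.Results.MP_a54f13_nt.SharpPowerSpectrum (L opF gauss)

noncomputable section

variable {lam : ℕ → ℝ} {f : ℕ → ℂ → ℝ} {ρ : ℝ} {φ : ℝ → ℝ} {U : Set ℂ}

/-- subsequences -/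
lemma Sy.sub (S : Sy lam f) {σ : ℕ → ℕ} (hσ : StrictMono σ) :
    Sy (fun n => lam (σ n)) (fun n => f (σ n)) := by
  have h := hσ.tendsto_atTop
  exact ⟨fun n => S.pos _, S.lim.comp h, fun n => S.sm _, fun w hw F => (S.sp w hw F).comp h,
    fun w hw => (S.q0 w hw).comp h⟩

/-- the fourth moment is at least the moment of the random wave -/
lemma Sy.lowX (S : Sy lam f) (hU : IsOpen U) (hUH : U ⊆ HH) (hb : BdU U f) {w : ℂ → ℝ}
    (hwU : TF U w) (hw0 : ∀ z, 0 ≤ w z) {η : ℝ} (hη : 0 < η) :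
    ∀ᶠ n in atTop, -η ≤ (∫ z, w z * f n z ^ 4) - 3 * ∫ z, w z := by
  have hl2 : Tendsto (fun m => 1 / Real.pi * JJ m * ∫ z, w z) atTop (𝓝 0) := by
    simpa using (JJ_lim.const_mul (1 / Real.pi)).mul_const (∫ z, w z)
  obtain ⟨m, hm2, hm⟩ := ((hl2.eventually (gt_mem_nhds (by positivity : 0 < η / 3))).and
    (eventually_ge_atTop 1)).exists
  filter_upwards [(S.varU hU hUH hb hwU hm).eventually
    (Metric.ball_mem_nhds _ (by positivity : 0 < η / 3))] with n hn
  have h1 : |(∫ z, w z * (opF (PF m) (lam n) (fun u => f n u ^ 2) z - 1) ^ 2) -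
      2 / 3 * ((∫ z, w z * f n z ^ 4) - 3 * ∫ z, w z) - 1 / Real.pi * JJ m * ∫ z, w z| < η / 3 := hn
  have h2 : 0 ≤ ∫ z, w z * (opF (PF m) (lam n) (fun u => f n u ^ 2) z - 1) ^ 2 :=
    integral_nonneg fun z => mul_nonneg (hw0 z) (sq_nonneg _)
  have h3 := (abs_lt.1 h1).2
  linarith

/-- exhaustion of a test function -/
lemma exh {w : ℂ → ℝ} (hw : TF HH w) (hw0 : ∀ z, 0 ≤ w z) {η : ℝ} (hη : 0 < η) :
    IsOpen {z | 0 < w z} ∧ {z | 0 < w z} ⊆ HH ∧ ∃ w' : ℂ → ℝ, TF {z | 0 < w z} w' ∧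
      (∀ z, 0 ≤ w' z) ∧ (∀ z, w' z ≤ w z) ∧ (∫ z, w z) - η ≤ ∫ z, w' z := by
  have hU : IsOpen {z | 0 < w z} := isOpen_lt continuous_const hw.1.continuous
  have hUH : {z | 0 < w z} ⊆ HH := by
    intro z hz
    by_contra h
    have h1 : w z = 0 := Pool.Agent.TH294.RS.TF.zero hw h
    have h2 : 0 < w z := hz
    linarith
  refine ⟨hU, hUH, ?_⟩
  set V : ℝ := (volume (tsupport w)).toReal with hV
  have hVt : volume (tsupport w) ≠ ⊤ := hw.2.1.isCompact.measure_lt_top.ne
  have hV0 : 0 ≤ V := ENNReal.toReal_nonneg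
  set δ : ℝ := η / (V + 1) with hδ
  have hδ0 : 0 < δ := by positivity
  set K : Set ℂ := {z | δ ≤ w z} with hK
  have hKc : IsClosed K := isClosed_le continuous_const hw.1.continuous
  have hKt : K ⊆ tsupport w := by
    intro z hz
    apply subset_tsupport
    have h1 : δ ≤ w z := hz
    exact ne_of_gt (by linarith)
  have cK : IsCompact K := hw.2.1.isCompact.of_isClosed_subset hKc hKt
  have hKU : K ⊆ {z | 0 < w z} := fun z hz => lt_of_lt_of_le hδ0 hz
  obtain ⟨ζ, V', hζ, -, hKV, h1, h2, h3⟩ := cut_nearU hU cK hKU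
  have tw' : TF {z | 0 < w z} fun z => ζ z * w z :=
    Pool.Agent.TH294.RS.TF.mulc hU hζ hw.1.contDiffOn
  refine ⟨fun z => ζ z * w z, tw', fun z => mul_nonneg (h2 z) (hw0 z),
    fun z => mul_le_of_le_one_left (hw0 z) (h3 z), ?_⟩
  have i0 : Integrable w := hw.1.continuous.integrable_of_hasCompactSupport hw.2.1
  have i1 : Integrable fun z => ζ z * w z :=
    tw'.1.continuous.integrable_of_hasCompactSupport tw'.2.1
  have h4 : (∫ z, w z) - ∫ z, ζ z * w z ≤ δ * V := by
    rw [← integral_sub i0 i1]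
    have h5 : ∫ z, (w z - ζ z * w z) = ∫ z in tsupport w, (w z - ζ z * w z) := by
      rw [setIntegral_eq_integral_of_forall_compl_eq_zero]
      intro z hz
      rw [image_eq_zero_of_notMem_tsupport hz]; ring
    rw [h5]
    calc ∫ z in tsupport w, (w z - ζ z * w z) ≤ ∫ _ in tsupport w, δ := by
          refine integral_mono (i0.sub i1).integrableOn (integrableOn_const hVt) fun z => ?_
          by_cases hz : z ∈ K
          · simp only
            rw [h1 z (hKV hz)]
            linarith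
          · have h6 : w z < δ := by
              by_contra h
              push Not at h
              exact hz h
            have h7 := mul_nonneg (h2 z) (hw0 z)
            simp only
            linarith
      _ = δ * V := by
          rw [setIntegral_const, smul_eq_mul, Measure.real, mul_comm]
  have h8 : δ * V ≤ η := by
    rw [hδ, div_mul_eq_mul_div, div_le_iff₀ (by positivity)]
    nlinarith
  linarith

lemma Ga_nn (χ : ℂ → ℝ) (R : ℝ) : 0 ≤ Ga χ R := by
  unfold Ga
  have : 0 ≤ ∫ θ in (0 : ℝ)..(2 * Real.pi), GG χ (R * √(2 - 2 * Real.cos θ)) ^ 2 :=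
    intervalIntegral.integral_nonneg (by positivity) fun θ _ => sq_nonneg _
  positivity

/-- **the mean square of the averages is at least that of the random wave** -/
theorem Sy.low (S : Sy lam f)
    (heq : ∀ n, ∀ z ∈ HH, z.im ^ 2 * lap (f n) z + lam n * f n z = 0)
    (h : RK ρ φ) (hρ : 1 ≤ ρ) (hχ0 : ∀ v, 0 ≤ rad φ v) (hχ1 : ∫ v, rad φ v = 1)
    {R : ℝ} (hR : 0 < R) {w : ℂ → ℝ} (hw : TF HH w) (hw0 : ∀ z, 0 ≤ w z) {ε : ℝ} (hε : 0 < ε) :
    ∀ᶠ n in atTop, Ga (rad φ) R * (∫ z, w z) - ε ≤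
      ∫ z, w z * avg (rad φ) (R / √(lam n)) (fun u => f n u ^ 2) z ^ 2 := by
  by_contra hc
  have hf : ∃ᶠ n in atTop, ∫ z, w z * avg (rad φ) (R / √(lam n)) (fun u => f n u ^ 2) z ^ 2 <
      Ga (rad φ) R * (∫ z, w z) - ε := by
    rw [Filter.not_eventually] at hc
    exact hc.mono fun n hn => not_le.1 hn
  obtain ⟨σ, hσ, hσ2⟩ := extraction_of_frequently_atTop hf
  have hρ0 : 0 ≤ ρ := by linarith
  have hG := Ga_nn (rad φ) R
  set G : ℝ := Ga (rad φ) R with hGd
  have hg := ga_pos (rad φ) R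
  set g : ℝ := ga (rad φ) R with hgd
  have S' := S.sub hσ
  have heq' : ∀ n, ∀ z ∈ HH, z.im ^ 2 * lap (f (σ n)) z + lam (σ n) * f (σ n) z = 0 :=
    fun n => heq (σ n)
  obtain ⟨hU, hUH, w', hw'U, hw'0, hw'w, hw'i⟩ := exh hw hw0
    (η := ε / (4 * (G + 1))) (by positivity)
  set a : ℝ := G * (∫ z, w z) - ε with ha
  have iw := int_avg2 (f := fun n => f (σ n)) (lam := fun n => lam (σ n)) S'.lim S'.sm
    (rad_sm h).continuous (rad_ts h hρ0) hρ hR.le hw
  have hb : BdU {z | 0 < w z} fun n => f (σ n) := by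
    refine bd_of2U hU hUH S'.pos S'.lim S'.sm heq' (rad_sm h).continuous hχ0 (rad_ts h hρ0) hρ
      hχ1 hR fun v hv hv0 => ?_
    -- `v ≤ C w`
    obtain ⟨M, hM⟩ := hv.1.continuous.bounded_above_of_compact_support hv.2.1
    have hM0 : 0 ≤ M := (norm_nonneg _).trans (hM 0)
    obtain ⟨N, hN⟩ := hv.2.1.isCompact.exists_bound_of_continuousOn (f := fun z => (w z)⁻¹)
      (hw.1.continuous.continuousOn.inv₀ fun z hz => ne_of_gt (hv.2.2 hz))
    have hvw : ∀ z, v z ≤ (M * (|N| + 1)) * w z := by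
      intro z
      by_cases hz : z ∈ tsupport v
      · have h1 : 0 < w z := hv.2.2 hz
        have h2 := hN z hz
        rw [Real.norm_of_nonneg (by positivity)] at h2
        have h3 : (w z)⁻¹ ≤ |N| + 1 := by
          have := le_abs_self N
          linarith
        have h4 := hM z
        rw [Real.norm_of_nonneg (hv0 z)] at h4
        calc v z ≤ M := h4
          _ = M * ((w z)⁻¹ * w z) := by field_simp
          _ ≤ M * ((|N| + 1) * w z) := by gcongr
          _ = _ := by ring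
      · rw [image_eq_zero_of_notMem_tsupport hz]
        have := hw0 z
        positivity
    refine ⟨(M * (|N| + 1)) * |a|, ?_⟩
    filter_upwards [iw, int_avg2 (f := fun n => f (σ n)) (lam := fun n => lam (σ n)) S'.lim S'.sm
      (rad_sm h).continuous (rad_ts h hρ0) hρ hR.le (TFm hUH hv)] with n i1 i2
    calc ∫ z, v z * avg (rad φ) (R / √(lam (σ n))) (fun u => f (σ n) u ^ 2) z ^ 2 ≤
        ∫ z, (M * (|N| + 1)) * (w z * avg (rad φ) (R / √(lam (σ n)))
          (fun u => f (σ n) u ^ 2) z ^ 2) := by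
          refine integral_mono i2 (i1.const_mul _) fun z => ?_
          simp only
          rw [← mul_assoc]
          exact mul_le_mul_of_nonneg_right (hvw z) (sq_nonneg _)
      _ = (M * (|N| + 1)) * ∫ z, w z * avg (rad φ) (R / √(lam (σ n)))
          (fun u => f (σ n) u ^ 2) z ^ 2 := integral_const_mul _ _
      _ ≤ (M * (|N| + 1)) * |a| := by
          have h1 := (hσ2 n).le.trans (le_abs_self a)
          gcongr
  have h1 := S'.fixU hU hUH heq' hb h hρ hχ1 hR hw'U hw'0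
  have h2 := S'.lowX hU hUH hb hw'U hw'0 (η := ε / (4 * g)) (by positivity)
  have h3 := h1.eventually (Metric.ball_mem_nhds _ (by positivity : 0 < ε / 4))
  obtain ⟨n, ⟨⟨n1, n2⟩, n3⟩, n4⟩ := (((h2.and h3).and iw).and
    (int_avg2 (f := fun n => f (σ n)) (lam := fun n => lam (σ n)) S'.lim S'.sm
      (rad_sm h).continuous (rad_ts h hρ0) hρ hR.le (TFm hUH hw'U))).exists
  have n2' : |(∫ z, w' z * avg (rad φ) (R / √(lam (σ n))) (fun u => f (σ n) u ^ 2) z ^ 2) -
      g * ((∫ z, w' z * f (σ n) z ^ 4) - 3 * ∫ z, w' z) - G * ∫ z, w' z| < ε / 4 := n2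
  have n5 : ∫ z, w' z * avg (rad φ) (R / √(lam (σ n))) (fun u => f (σ n) u ^ 2) z ^ 2 ≤
      ∫ z, w z * avg (rad φ) (R / √(lam (σ n))) (fun u => f (σ n) u ^ 2) z ^ 2 :=
    integral_mono n4 n3 fun z => mul_le_mul_of_nonneg_right (hw'w z) (sq_nonneg _)
  have n6 := hσ2 n
  have n7 : g * -(ε / (4 * g)) ≤ g * ((∫ z, w' z * f (σ n) z ^ 4) - 3 * ∫ z, w' z) := by gcongr
  have n8 : g * -(ε / (4 * g)) = -(ε / 4) := by field_simp
  have n9 : G * ((∫ z, w z) - ε / (4 * (G + 1))) ≤ G * ∫ z, w' z := by gcongr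
  have n10 : G * (ε / (4 * (G + 1))) ≤ ε / 4 := by
    rw [← mul_div_assoc, div_le_div_iff₀ (by positivity) (by norm_num)]
    nlinarith
  have n11 := (abs_lt.1 n2').1
  rw [n8] at n7
  have n12 : G * ((∫ z, w z) - ε / (4 * (G + 1))) = G * (∫ z, w z) - G * (ε / (4 * (G + 1))) := by
    ring
  linarith

end

end Pool.Agent.K9h11.MV
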