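import Pool.Agent.K9h11.MV.V

/-!
# General radial kernels: approximation (helper11)
-/

set_option autoImplicit false

open MeasureTheory Filter Topology Complex Set
open scoped ContDiff ENNReal

namespace Pool.Agent.K9h11.MV

open Pool.Agent.W745.RW Pool.Agent.W366.RW
open Pool.Agent.Results.MP_a54f13_nt.SharpPowerSpectrum (L opF gauss)

noncomputable section

variable {lam : ℕ → ℝ} {f : ℕ → ℂ → ℝ} {U : Set ℂ}

/-- **the limit principle**: averages that are approximated by functions of the Laplacian -/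
theorem Sy.limA (S : Sy lam f) (hUH : U ⊆ HH) (hb : BdU U f) {w : ℂ → ℝ} (hwU : TF U w)
    (hw0 : ∀ z, 0 ≤ w z) {A : ℕ → ℂ → ℝ}
    (hA : ∀ᶠ n in atTop, AEMeasurable (A n) (volume.restrict (tsupport w))) {G g : ℝ}
    (happ : ∀ ε : ℝ, 0 < ε → ∃ F : Polynomial ℝ,
      Lb (fun n => EE (tsupport w) (fun z => opF F (lam n) (fun u => f n u ^ 2) z - A n z)) ε ∧
      |gauss F - G| ≤ ε ∧ |(2 * F.eval 0 ^ 2 + F.eval 4 ^ 2) / 3 - g| ≤ ε) :
    Tendsto (fun n => (∫ z, w z * A n z ^ 2) -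
      g * ((∫ z, w z * f n z ^ 4) - 3 * ∫ z, w z)) atTop (𝓝 (G * ∫ z, w z)) := by
  have hw : TF HH w := TFm hUH hwU
  obtain ⟨M, hM⟩ := hw.1.continuous.bounded_above_of_compact_support hw.2.1
  have hM0 : 0 ≤ M := (norm_nonneg _).trans (hM 0)
  have hW : 0 ≤ ∫ z, w z := integral_nonneg hw0
  set W : ℝ := ∫ z, w z with hWd
  -- fourth moments are bounded
  obtain ⟨C4, hC4⟩ : ∃ C4 : ℝ, ∀ᶠ n in atTop, ∫ z, w z * f n z ^ 4 ≤ C4 := by
    obtain ⟨B, hB0, hB⟩ := S.bddU hUH hb hwU hw0 1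
    refine ⟨B, ?_⟩
    filter_upwards [hB] with n hn
    have : ∀ z, w z * opF 1 (lam n) (fun u => f n u ^ 2) z ^ 2 = w z * f n z ^ 4 := by
      intro z
      rw [op_one]; ring
    simp only [this] at hn
    exact hn
  set X0 : ℝ := |C4| + 3 * W with hX0
  have hX00 : 0 ≤ X0 := by positivity
  set Q0 : ℝ := (|g| + 1) * X0 + (|G| + 1) * W + 1 with hQ0
  have hQ00 : 0 < Q0 := by positivity
  rw [Metric.tendsto_nhds]
  intro δ hδ
  set τ : ℝ := δ / (8 * Q0) with hτ
  have hτ0 : 0 < τ := by positivity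
  have hτQ : τ * Q0 = δ / 8 := by rw [hτ]; field_simp
  set D0 : ℝ := (1 / τ + 1) * (2 * M + 1) + (X0 + 1) + (W + 1) with hD0
  have hD00 : 0 < D0 := by positivity
  set ε : ℝ := min 1 (δ / (8 * D0)) with hε
  have hε0 : 0 < ε := by positivity
  have hε1 : ε ≤ 1 := min_le_left _ _
  have hεD : ε * D0 ≤ δ / 8 := by
    calc ε * D0 ≤ δ / (8 * D0) * D0 := by gcongr; exact min_le_right _ _
      _ = δ / 8 := by field_simp
  have hεa : (1 / τ + 1) * (M * (ε + ε)) ≤ δ / 8 := by
    refine le_trans ?_ hεD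
    have h1 : (1 / τ + 1) * (M * (ε + ε)) = ε * ((1 / τ + 1) * (2 * M)) := by ring
    rw [h1]
    gcongr
    have h2 : (1 / τ + 1) * (2 * M) ≤ (1 / τ + 1) * (2 * M + 1) := by gcongr; linarith
    rw [hD0]
    linarith
  have hεb : ε * (X0 + 1) ≤ δ / 8 := by
    refine le_trans ?_ hεD
    gcongr
    rw [hD0]
    have : 0 ≤ (1 / τ + 1) * (2 * M + 1) := by positivity
    linarith
  have hεc : ε * (W + 1) ≤ δ / 8 := by
    refine le_trans ?_ hεD
    gcongr
    rw [hD0]
    have : 0 ≤ (1 / τ + 1) * (2 * M + 1) := by positivity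
    linarith
  obtain ⟨F, hF, k3', k2'⟩ := happ ε hε0
  set c : ℝ := (2 * F.eval 0 ^ 2 + F.eval 4 ^ 2) / 3 with hc
  have h6 := S.sp w hw F
  rw [← hc, ← hWd] at h6
  have p4 : 0 < min 1 (δ / 8) := by positivity
  have h7 := h6.eventually (Metric.ball_mem_nhds _ p4)
  filter_upwards [hF ε hε0, h7, hC4, hA] with n a5 a7 a4 af
  have s2 : ContDiffOn ℝ ∞ (fun u => f n u ^ 2) HH := (S.sm n).pow 2
  have sP := op_sm F (lam n) s2
  have hd : AEMeasurable (fun z => opF F (lam n) (fun u => f n u ^ 2) z - A n z)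
      (volume.restrict (tsupport w)) :=
    ((sP.continuousOn.mono hw.2.2).aemeasurable (isClosed_tsupport w).measurableSet).sub af
  have h8 := cmp hw hw0 (a := fun z => opF F (lam n) (fun u => f n u ^ 2) z)
    sP hd hM (by positivity) a5 hτ0
  have e8 : ∀ z, opF F (lam n) (fun u => f n u ^ 2) z -
      (opF F (lam n) (fun u => f n u ^ 2) z - A n z) = A n z := fun z => by ring
  simp only [e8] at h8
  set q : ℝ := ∫ z, w z * opF F (lam n) (fun u => f n u ^ 2) z ^ 2 with hq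
  set D : ℝ := ∫ z, w z * A n z ^ 2 with hD
  set X : ℝ := (∫ z, w z * f n z ^ 4) - 3 * W with hX
  have hXb : |X| ≤ X0 := by
    have c1 : 0 ≤ ∫ z, w z * f n z ^ 4 :=
      integral_nonneg fun z => mul_nonneg (hw0 z) (by positivity)
    have c2 : C4 ≤ |C4| := le_abs_self _
    have c3 : 0 ≤ |C4| := abs_nonneg _
    rw [abs_le, hX, hX0]
    constructor <;> linarith
  have b1 : |q - c * X - gauss F * W| < min 1 (δ / 8) := a7
  have b11 := b1.trans_le (min_le_left _ _)
  have b12 := b1.trans_le (min_le_right _ _)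
  have hcb : |c| ≤ |g| + 1 := by
    calc |c| = |(c - g) + g| := by ring_nf
      _ ≤ |c - g| + |g| := abs_add_le _ _
      _ ≤ _ := by linarith
  have hgb : |gauss F| ≤ |G| + 1 := by
    calc |gauss F| = |(gauss F - G) + G| := by ring_nf
      _ ≤ |gauss F - G| + |G| := abs_add_le _ _
      _ ≤ _ := by linarith
  have hqb : q ≤ Q0 := by
    have c1 := (abs_lt.1 b11).2
    have c2 : c * X ≤ (|g| + 1) * X0 := by
      calc c * X ≤ |c * X| := le_abs_self _
        _ = |c| * |X| := abs_mul _ _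
        _ ≤ _ := by gcongr
    have c3 : gauss F * W ≤ (|G| + 1) * W := by
      refine mul_le_mul_of_nonneg_right ((le_abs_self _).trans hgb) hW
    rw [hQ0]; linarith
  have b5 : |D - q| ≤ δ / 8 + δ / 8 := by
    refine h8.trans ?_
    have c1 : τ * q ≤ δ / 8 := by rw [← hτQ]; gcongr
    linarith
  have b6 : |(c - g) * X| ≤ δ / 8 := by
    rw [abs_mul]
    refine le_trans ?_ hεb
    have : |X| ≤ X0 + 1 := by linarith
    gcongr
  have b7 : |(gauss F - G) * W| ≤ δ / 8 := by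
    rw [abs_mul, abs_of_nonneg hW]
    refine le_trans ?_ hεc
    have : W ≤ W + 1 := by linarith
    gcongr
  rw [Real.dist_eq]
  calc |D - g * X - G * W| = |(D - q) + ((q - c * X - gauss F * W) +
        ((c - g) * X + (gauss F - G) * W))| := by ring_nf
    _ ≤ |D - q| + |(q - c * X - gauss F * W) +
        ((c - g) * X + (gauss F - G) * W)| := abs_add_le _ _
    _ ≤ |D - q| + (|q - c * X - gauss F * W| +
        |(c - g) * X + (gauss F - G) * W|) := by
        gcongr; exact abs_add_le _ _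
    _ ≤ |D - q| + (|q - c * X - gauss F * W| +
        (|(c - g) * X| + |(gauss F - G) * W|)) := by
        gcongr; exact abs_add_le _ _
    _ < δ := by linarith

/-- bounded radial kernels with compact support -/
structure RKer (ρ : ℝ) (χ : ℂ → ℝ) : Prop where
  meas : Measurable χ
  bdd : ∃ M : ℝ, ∀ v, |χ v| ≤ M
  supp : ∀ v, ρ < ‖v‖ → χ v = 0
  rd : ∀ v w, ‖v‖ = ‖w‖ → χ v = χ w

lemma RKer.int {ρ : ℝ} {χ : ℂ → ℝ} (h : RKer ρ χ) : Integrable χ := by
  obtain ⟨M, hM⟩ := h.bdd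
  have hsup : Function.support χ ⊆ Metric.closedBall 0 ρ := by
    intro v hv
    rw [mem_closedBall_zero_iff]
    by_contra hc
    push Not at hc
    exact hv (h.supp v hc)
  rw [← integrableOn_iff_integrable_of_support_subset hsup]
  exact Measure.integrableOn_of_bounded (isCompact_closedBall (0:ℂ) ρ).measure_lt_top.ne
    h.meas.aestronglyMeasurable (ae_of_all _ hM)

/-- the radial variable -/
def Nr (v : ℂ) : ℝ := v.re ^ 2 + v.im ^ 2

lemma Nr_cont : Continuous Nr := by unfold Nr; fun_prop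

lemma Nr_sq (v : ℂ) : Nr v = ‖v‖ ^ 2 := by
  rw [← Complex.normSq_eq_norm_sq, Complex.normSq_apply]
  unfold Nr; ring

/-- the distribution of the radial variable -/
def mr : Measure ℝ := (volume : Measure ℂ).map Nr

instance : IsFiniteMeasureOnCompacts mr := by
  refine ⟨fun K hK => ?_⟩
  unfold mr
  rw [Measure.map_apply Nr_cont.measurable hK.measurableSet]
  obtain ⟨B, hB⟩ := hK.isBounded.exists_norm_le
  have h1 : Nr ⁻¹' K ⊆ Metric.closedBall (0:ℂ) (|B| + 1) := by
    intro v hv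
    rw [mem_closedBall_zero_iff]
    have h2 := hB _ hv
    rw [Nr_sq, Real.norm_of_nonneg (by positivity)] at h2
    have h3 : B ≤ |B| := le_abs_self B
    by_contra hc
    push Not at hc
    have h4 : (|B| + 1) ^ 2 < ‖v‖ ^ 2 := by
      have := abs_nonneg B
      gcongr
    nlinarith [abs_nonneg B]
  exact (measure_mono h1).trans_lt (isCompact_closedBall (0:ℂ) _).measure_lt_top

lemma mass_sub_comm (a b : ℂ → ℝ) : mass (fun v => a v - b v) = mass (fun v => b v - a v) := by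
  unfold mass
  congr 1
  funext v
  rw [← enorm_neg, neg_sub]

/-- smooth radial kernels are dense -/
theorem RKer_approx {ρ : ℝ} (hρ : 0 ≤ ρ) {χ : ℂ → ℝ} (h : RKer ρ χ) {ε : ℝ} (hε : 0 < ε) :
    ∃ φ : ℝ → ℝ, RK (ρ + 1) φ ∧ mass (fun v => χ v - rad φ v) ≤ ENNReal.ofReal ε := by
  set k : ℝ → ℝ := fun u => χ (√u : ℝ) with hk
  have hkm : Measurable k := h.meas.comp (Complex.measurable_ofReal.comp Real.continuous_sqrt.measurable)
  have hkN : ∀ v, k (Nr v) = χ v := by
    intro v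
    simp only [hk]
    apply h.rd
    rw [Nr_sq, Real.sqrt_sq (norm_nonneg _), Complex.norm_real, norm_norm]
  have hki : MemLp k 1 mr := by
    rw [memLp_one_iff_integrable]
    unfold mr
    rw [integrable_map_measure hkm.aestronglyMeasurable Nr_cont.measurable.aemeasurable]
    refine h.int.congr (ae_of_all _ fun v => ?_)
    exact (hkN v).symm
  obtain ⟨g, hg1, hg2, hg3⟩ := hki.exist_eLpNorm_sub_le (by simp) le_rfl hε
  set θ : ℝ → ℝ := fun u => 1 - Real.smoothTransition ((u - ρ ^ 2) / ((ρ + 1) ^ 2 - ρ ^ 2)) with hθ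
  have hd : 0 < (ρ + 1) ^ 2 - ρ ^ 2 := by nlinarith
  have hθs : ContDiff ℝ ∞ θ := by
    refine contDiff_const.sub (Real.smoothTransition.contDiff.comp ?_)
    exact (contDiff_id.sub contDiff_const).div_const _
  have hθ1 : ∀ u, u ≤ ρ ^ 2 → θ u = 1 := by
    intro u hu
    simp only [hθ]
    rw [Real.smoothTransition.zero_of_nonpos (div_nonpos_of_nonpos_of_nonneg (by linarith) hd.le)]
    ring
  have hθ0 : ∀ u, (ρ + 1) ^ 2 ≤ u → θ u = 0 := by
    intro u hu
    simp only [hθ]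
    rw [Real.smoothTransition.one_of_one_le]
    · ring
    · rw [le_div_iff₀ hd]; linarith
  have hθb : ∀ u, ‖θ u‖ ≤ 1 := by
    intro u
    simp only [hθ]
    rw [Real.norm_eq_abs, abs_le]
    constructor <;> linarith [Real.smoothTransition.nonneg ((u - ρ ^ 2) / ((ρ + 1) ^ 2 - ρ ^ 2)),
      Real.smoothTransition.le_one ((u - ρ ^ 2) / ((ρ + 1) ^ 2 - ρ ^ 2))]
  refine ⟨fun u => θ u * g u, ⟨hθs.mul hg2, fun u hu => by show θ u * g u = 0; rw [hθ0 u hu, zero_mul]⟩, ?_⟩
  refine le_trans ?_ hg3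
  rw [eLpNorm_one_eq_lintegral_enorm]
  unfold mr
  rw [lintegral_map (by
    exact ((hkm.sub hg2.continuous.measurable).enorm)) Nr_cont.measurable]
  unfold mass
  refine lintegral_mono fun v => ?_
  simp only [Pi.sub_apply]
  rw [hkN v]
  show ‖χ v - θ (Nr v) * g (Nr v)‖ₑ ≤ _
  by_cases hv : ‖v‖ ≤ ρ
  · rw [hθ1 _ (by rw [Nr_sq]; exact pow_le_pow_left₀ (norm_nonneg _) hv 2), one_mul]
  · push Not at hv
    rw [h.supp v hv, zero_sub, zero_sub, enorm_neg, enorm_neg, enorm_mul]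
    calc ‖θ (Nr v)‖ₑ * ‖g (Nr v)‖ₑ ≤ 1 * ‖g (Nr v)‖ₑ := by
          gcongr
          rw [← ofReal_norm, show (1:ℝ≥0∞) = ENNReal.ofReal 1 by simp]
          exact ENNReal.ofReal_le_ofReal (hθb _)
      _ = _ := one_mul _

end

end Pool.Agent.K9h11.MV
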