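import Pool.Agent.K9h11.MV.W1

/-!
# General radial kernels: the formula at a fixed scale (helper11)
-/

set_option autoImplicit false

open MeasureTheory Filter Topology Complex Set
open scoped ContDiff ENNReal

namespace Pool.Agent.K9h11.MV

open Pool.Agent.W745.RW Pool.Agent.W366.RW
open Pool.Agent.Results.MP_a54f13_nt.SharpPowerSpectrum (L opF gauss)

noncomputable section

variable {lam : ℕ → ℝ} {f : ℕ → ℂ → ℝ} {U : Set ℂ}

/-- the multiplier is bounded by the mass of the kernel -/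
lemma GG_mass {χ : ℂ → ℝ} (hi : Integrable χ) (ξ : ℝ) : |GG χ ξ| ≤ ∫ v, ‖χ v‖ := by
  unfold GG
  rw [← Real.norm_eq_abs]
  refine (norm_integral_le_integral_norm _).trans ?_
  refine integral_mono_of_nonneg (ae_of_all _ fun v => norm_nonneg _) hi.norm
    (ae_of_all _ fun v => ?_)
  simp only
  rw [norm_mul]
  have : ‖Real.cos (ξ * v.re)‖ ≤ 1 := by
    rw [Real.norm_eq_abs]; exact Real.abs_cos_le_one _
  calc ‖χ v‖ * ‖Real.cos (ξ * v.re)‖ ≤ ‖χ v‖ * 1 := by gcongr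
    _ = _ := mul_one _

lemma GG_int {χ : ℂ → ℝ} (hi : Integrable χ) (ξ : ℝ) :
    Integrable fun v : ℂ => χ v * Real.cos (ξ * v.re) := by
  refine Integrable.mono hi ?_ (ae_of_all _ fun v => ?_)
  · exact hi.aestronglyMeasurable.mul (Continuous.aestronglyMeasurable (by fun_prop))
  · rw [norm_mul]
    have : ‖Real.cos (ξ * v.re)‖ ≤ 1 := by
      rw [Real.norm_eq_abs]; exact Real.abs_cos_le_one _
    calc ‖χ v‖ * ‖Real.cos (ξ * v.re)‖ ≤ ‖χ v‖ * 1 := by gcongr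
      _ = _ := mul_one _

lemma GG_cont {χ : ℂ → ℝ} (hi : Integrable χ) : Continuous (GG χ) := by
  unfold GG
  refine continuous_of_dominated (bound := fun v => ‖χ v‖)
    (fun ξ => (GG_int hi ξ).aestronglyMeasurable) (fun ξ => ae_of_all _ fun v => ?_) hi.norm
    (ae_of_all _ fun v => ?_)
  · rw [norm_mul]
    have : ‖Real.cos (ξ * v.re)‖ ≤ 1 := by
      rw [Real.norm_eq_abs]; exact Real.abs_cos_le_one _
    calc ‖χ v‖ * ‖Real.cos (ξ * v.re)‖ ≤ ‖χ v‖ * 1 := by gcongr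
      _ = _ := mul_one _
  · fun_prop

lemma GG_sub {χ χ' : ℂ → ℝ} (hi : Integrable χ) (hi' : Integrable χ') (ξ : ℝ) :
    |GG χ ξ - GG χ' ξ| ≤ ∫ v, ‖χ v - χ' v‖ := by
  have h1 : GG χ ξ - GG χ' ξ = GG (fun v => χ v - χ' v) ξ := by
    unfold GG
    rw [← integral_sub (GG_int hi ξ) (GG_int hi' ξ)]
    congr 1
    funext v
    ring
  rw [h1]
  exact GG_mass (hi.sub hi') ξ

/-- the value of the mean square of the averages for the random wave -/
def G0 (χ : ℂ → ℝ) (R : ℝ) : ℝ := GG χ 0 ^ 2 + 1 / Real.pi *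
  ∫ θ in (0 : ℝ)..(2 * Real.pi), GG χ (R * √(2 - 2 * Real.cos θ)) ^ 2

/-- the factor of the defect -/
def g0 (χ : ℂ → ℝ) (R : ℝ) : ℝ := (2 * GG χ 0 ^ 2 + GG χ (R * 2) ^ 2) / 3

lemma gauss_lim0 {ρ : ℝ} {φ : ℝ → ℝ} (h : RK ρ φ) (hρ : 0 ≤ ρ) {R : ℝ} (hR : 0 ≤ R) :
    Tendsto (fun k => gauss (PK ρ R φ k)) atTop (𝓝 (G0 (rad φ) R)) := by
  obtain ⟨B, hB0, hB⟩ := PK_ubd h hρ hR
  unfold gauss G0
  have e0 := PK_lim h hρ hR (x := 0) le_rfl (by norm_num)
  rw [Real.sqrt_zero, mul_zero] at e0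
  refine (e0.pow 2).add (Tendsto.const_mul _ ?_)
  refine intervalIntegral.tendsto_integral_filter_of_dominated_convergence (fun _ => B ^ 2)
    (Eventually.of_forall fun k => ?_) (Eventually.of_forall fun k => ae_of_all _ fun θ _ => ?_)
    intervalIntegrable_const (ae_of_all _ fun θ _ => ?_)
  · have : Continuous fun θ : ℝ => (PK ρ R φ k).eval (2 - 2 * Real.cos θ) ^ 2 :=
      ((PK ρ R φ k).continuous.comp (by fun_prop)).pow 2
    exact this.aestronglyMeasurable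
  · rw [norm_pow, Real.norm_eq_abs]
    exact pow_le_pow_left₀ (abs_nonneg _) (hB k _ (x04 θ).1 (x04 θ).2) 2
  · exact (PK_lim h hρ hR (x04 θ).1 (x04 θ).2).pow 2

lemma fac_lim0 {ρ : ℝ} {φ : ℝ → ℝ} (h : RK ρ φ) (hρ : 0 ≤ ρ) {R : ℝ} (hR : 0 ≤ R) :
    Tendsto (fun k => (2 * (PK ρ R φ k).eval 0 ^ 2 + (PK ρ R φ k).eval 4 ^ 2) / 3) atTop
      (𝓝 (g0 (rad φ) R)) := by
  have e0 := PK_lim h hρ hR (x := 0) le_rfl (by norm_num)
  rw [Real.sqrt_zero, mul_zero] at e0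
  have e4 := PK_lim h hρ hR (x := 4) (by norm_num) le_rfl
  rw [show √(4:ℝ) = 2 by
    rw [show (4:ℝ) = 2 ^ 2 by norm_num]; exact Real.sqrt_sq (by norm_num)] at e4
  exact (((e0.pow 2).const_mul 2).add (e4.pow 2)).div_const 3

lemma sq_dist {a b B κ : ℝ} (ha : |a| ≤ B) (hab : |a - b| ≤ κ) (hκ : 0 ≤ κ) :
    |b ^ 2 - a ^ 2| ≤ κ * (2 * B + κ) := by
  have h1 : b ^ 2 - a ^ 2 = (a - b) * ((a - b) - 2 * a) := by ring
  rw [h1, abs_mul]
  have h2 : |(a - b) - 2 * a| ≤ 2 * B + κ := by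
    calc |(a - b) - 2 * a| ≤ |a - b| + |2 * a| := abs_sub _ _
      _ ≤ κ + 2 * B := by
          rw [abs_mul, abs_two]
          linarith
      _ = _ := by ring
  gcongr

/-- continuity of the constants in the kernel -/
lemma const_near {χ χ' : ℂ → ℝ} (hi : Integrable χ) (hi' : Integrable χ') {B κ : ℝ}
    (hB : ∫ v, ‖χ v‖ ≤ B) (hκ : ∫ v, ‖χ v - χ' v‖ ≤ κ) (hκ0 : 0 ≤ κ) (R : ℝ) :
    |G0 χ' R - G0 χ R| ≤ 3 * (κ * (2 * B + κ)) ∧ |g0 χ' R - g0 χ R| ≤ κ * (2 * B + κ) := by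
  have key : ∀ ξ : ℝ, |GG χ' ξ ^ 2 - GG χ ξ ^ 2| ≤ κ * (2 * B + κ) := fun ξ =>
    sq_dist ((GG_mass hi ξ).trans hB) ((GG_sub hi hi' ξ).trans hκ) hκ0
  set D : ℝ := κ * (2 * B + κ) with hD
  constructor
  · unfold G0
    have c : ∀ {η : ℂ → ℝ}, Integrable η → IntervalIntegrable
        (fun θ => GG η (R * √(2 - 2 * Real.cos θ)) ^ 2) volume 0 (2 * Real.pi) := by
      intro η hη
      exact (((GG_cont hη).comp (by fun_prop)).pow 2).intervalIntegrable _ _
    have h1 : |(∫ θ in (0 : ℝ)..(2 * Real.pi), GG χ' (R * √(2 - 2 * Real.cos θ)) ^ 2) -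
        ∫ θ in (0 : ℝ)..(2 * Real.pi), GG χ (R * √(2 - 2 * Real.cos θ)) ^ 2| ≤
        D * (2 * Real.pi) := by
      rw [← intervalIntegral.integral_sub (c hi') (c hi), ← Real.norm_eq_abs]
      have h2 := intervalIntegral.norm_integral_le_of_norm_le_const (C := D)
        (a := 0) (b := 2 * Real.pi) (f := fun θ => GG χ' (R * √(2 - 2 * Real.cos θ)) ^ 2 -
          GG χ (R * √(2 - 2 * Real.cos θ)) ^ 2) fun θ _ => by
            rw [Real.norm_eq_abs]; exact key _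
      rw [sub_zero, abs_of_pos (by positivity)] at h2
      exact h2
    have h3 : ∀ x y : ℝ, GG χ' 0 ^ 2 + 1 / Real.pi * x - (GG χ 0 ^ 2 + 1 / Real.pi * y) =
        (GG χ' 0 ^ 2 - GG χ 0 ^ 2) + 1 / Real.pi * (x - y) := fun x y => by ring
    rw [h3]
    refine (abs_add_le _ _).trans ?_
    rw [abs_mul, abs_of_pos (by positivity : 0 < 1 / Real.pi)]
    have h4 : 1 / Real.pi * |(∫ θ in (0 : ℝ)..(2 * Real.pi),
        GG χ' (R * √(2 - 2 * Real.cos θ)) ^ 2) -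
        ∫ θ in (0 : ℝ)..(2 * Real.pi), GG χ (R * √(2 - 2 * Real.cos θ)) ^ 2| ≤
        1 / Real.pi * (D * (2 * Real.pi)) := by gcongr
    have h5 : 1 / Real.pi * (D * (2 * Real.pi)) = 2 * D := by
      have := Real.pi_ne_zero
      field_simp
    have h6 := key 0
    linarith
  · unfold g0
    have h1 := key 0
    have h2 := key (R * 2)
    rw [abs_le] at h1 h2 ⊢
    constructor <;> linarith [h1.1, h1.2, h2.1, h2.2]

lemma T_meas (s : ℝ) (z : ℂ) : Measurable fun v => T s v z := (T_cv s z).measurable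

/-- integrability for bounded kernels -/
lemma int_prodM {κ : ℂ → ℝ} (hκ : Measurable κ) {M ρ s : ℝ} (hM : ∀ v, |κ v| ≤ M)
    (h0 : ∀ v, ρ < ‖v‖ → κ v = 0) {g : ℂ → ℝ} (hg : ContinuousOn g HH) {z : ℂ}
    (hz : ∀ v : ℂ, ‖v‖ ≤ ρ → T s v z ∈ HH) : Integrable fun v => κ v * g (T s v z) := by
  have hc : ContinuousOn (fun v => g (T s v z)) (Metric.closedBall 0 ρ) :=
    hg.comp (T_cv s z).continuousOn fun v hv => hz v (by simpa using hv)
  obtain ⟨B, hB⟩ := (isCompact_closedBall (0:ℂ) ρ).exists_bound_of_continuousOn hc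
  have hM0 : 0 ≤ M := (abs_nonneg _).trans (hM 0)
  have hsup : Function.support (fun v => κ v * g (T s v z)) ⊆ Metric.closedBall 0 ρ := by
    intro v hv
    rw [mem_closedBall_zero_iff]
    by_contra hc
    push Not at hc
    exact hv (by simp [h0 v hc])
  rw [← integrableOn_iff_integrable_of_support_subset hsup]
  refine Measure.integrableOn_of_bounded (M := M * |B|)
    (isCompact_closedBall (0:ℂ) ρ).measure_lt_top.ne ?_ ?_
  · refine (hκ.mul ((meas_ind' hg).comp (T_meas s z))).aestronglyMeasurable.congr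
      (ae_of_all _ fun v => ?_)
    simp only [Pi.mul_apply, Function.comp_def]
    by_cases hv : ‖v‖ ≤ ρ
    · rw [indicator_of_mem (hz v hv)]
    · push Not at hv
      rw [h0 v hv, zero_mul, zero_mul]
  · refine ae_restrict_of_forall_mem Metric.isClosed_closedBall.measurableSet fun v hv => ?_
    rw [norm_mul]
    have h1 := hB v hv
    have h2 := hM v
    rw [Real.norm_eq_abs (κ v)]
    exact mul_le_mul h2 (h1.trans (le_abs_self B)) (norm_nonneg _) hM0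

lemma avg_finM (lim : Tendsto lam atTop atTop)
    (sm : ∀ n, ContDiffOn ℝ ∞ (f n) HH) {χ : ℂ → ℝ} {ρ : ℝ} (h : RKer ρ χ) (hρ : 1 ≤ ρ) {R : ℝ}
    (hR : 0 ≤ R) {K : Set ℂ} (hK : IsCompact K) (hKH : K ⊆ HH) :
    ∀ᶠ n in atTop, AEMeasurable (avg χ (R / √(lam n)) (fun u => f n u ^ 2)) (volume.restrict K) ∧
      EE K (avg χ (R / √(lam n)) (fun u => f n u ^ 2)) ≠ ⊤ := by
  obtain ⟨K', hK', hK'H, hKK⟩ := nbhd hK hKH hρ
  have hmt : mass χ ≠ ⊤ := h.int.2.ne
  filter_upwards [scale_ev lim R ρ (by norm_num : (0:ℝ) < 1 / 2)] with n hn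
  have hs0 : 0 ≤ R / √(lam n) := by positivity
  have s2 : ContinuousOn (fun u => f n u ^ 2) HH := (sm n).continuousOn.pow 2
  have hTK : ∀ v : ℂ, ‖v‖ ≤ ρ → ∀ z ∈ K, T (R / √(lam n)) v z ∈ K' :=
    fun v hv z hz => hKK _ hs0 hn v hv z hz
  have hm := avg_aem h.meas h.supp s2 hK.measurableSet fun v hv z hz => hK'H (hTK v hv z hz)
  have h1 := avg_L2 h.meas h.supp hK.measurableSet hK'.measurableSet hK'H hs0 hn hTK s2
  have h2 : EE K' (fun u => f n u ^ 2) ≠ ⊤ := EE_fin hK' (s2.mono hK'H)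
  exact ⟨hm, ne_top_of_le_ne_top (by finiteness) h1⟩

lemma int_avgM (lim : Tendsto lam atTop atTop)
    (sm : ∀ n, ContDiffOn ℝ ∞ (f n) HH) {χ : ℂ → ℝ} {ρ : ℝ} (h : RKer ρ χ) (hρ : 1 ≤ ρ) {R : ℝ}
    (hR : 0 ≤ R) {w : ℂ → ℝ} (hw : TF HH w) :
    ∀ᶠ n in atTop, Integrable fun z =>
      w z * avg χ (R / √(lam n)) (fun u => f n u ^ 2) z ^ 2 := by
  filter_upwards [avg_finM lim sm h hρ hR hw.2.1 hw.2.2] with n hn
  exact int_sq hw hn.1 hn.2

/-- **the formula at a fixed scale, general radial kernels** -/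
theorem Sy.fixK (S : Sy lam f) (hU : IsOpen U) (hUH : U ⊆ HH)
    (heq : ∀ n, ∀ z ∈ HH, z.im ^ 2 * lap (f n) z + lam n * f n z = 0) (hb : BdU U f)
    {χ : ℂ → ℝ} {ρ : ℝ} (h : RKer ρ χ) (hρ : 1 ≤ ρ) {R : ℝ} (hR : 0 < R)
    {w : ℂ → ℝ} (hwU : TF U w) (hw0 : ∀ z, 0 ≤ w z) :
    Tendsto (fun n => (∫ z, w z * avg χ (R / √(lam n)) (fun u => f n u ^ 2) z ^ 2) -
      g0 χ R * ((∫ z, w z * f n z ^ 4) - 3 * ∫ z, w z)) atTop
      (𝓝 (G0 χ R * ∫ z, w z)) := by
  have hw : TF HH w := TFm hUH hwU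
  set K : Set ℂ := tsupport w with hKd
  have hK : IsCompact K := hw.2.1
  have hKU : K ⊆ U := hwU.2.2
  have hKH : K ⊆ HH := hw.2.2
  have hρ1 : 1 ≤ ρ + 1 := by linarith
  have hρ0 : 0 ≤ ρ := by linarith
  have hρ10 : 0 ≤ ρ + 1 := by linarith
  have hfin := avg_finM S.lim S.sm h hρ hR.le hK hKH
  obtain ⟨Mχ, hMχ⟩ := h.bdd
  obtain ⟨e0, he0, he2, K', hK', hK'U, hKK⟩ := nbhdU hU hUH hK hKU hρ1
  have hK'H := hK'U.trans hUH
  obtain ⟨C4, hC4⟩ := hb K' hK' hK'U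
  refine S.limA hUH hb hwU hw0 (A := fun n => avg χ (R / √(lam n)) (fun u => f n u ^ 2))
    (hfin.mono fun n hn => hn.1) fun ε hε => ?_
  -- choice of the smooth kernel
  set B : ℝ := ∫ v, ‖χ v‖ with hB
  have hB0 : 0 ≤ B := integral_nonneg fun v => norm_nonneg _
  obtain ⟨κ, hκ1, hκ2, hκ0⟩ : ∃ κ : ℝ, 3 * (κ * (2 * B + κ)) < ε / 2 ∧
      2 * (2 * κ ^ 2 * |C4|) < ε / 2 ∧ 0 < κ := by
    have h1 : Tendsto (fun κ : ℝ => 3 * (κ * (2 * B + κ))) (𝓝[>] 0) (𝓝 (3 * (0 * (2 * B + 0)))) :=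
      (Continuous.tendsto (by fun_prop) 0).mono_left nhdsWithin_le_nhds
    have h2 : Tendsto (fun κ : ℝ => 2 * (2 * κ ^ 2 * |C4|)) (𝓝[>] 0)
        (𝓝 (2 * (2 * 0 ^ 2 * |C4|))) :=
      (Continuous.tendsto (by fun_prop) 0).mono_left nhdsWithin_le_nhds
    have h3 : (3:ℝ) * (0 * (2 * B + 0)) = 0 := by ring
    have h4 : (2:ℝ) * (2 * 0 ^ 2 * |C4|) = 0 := by ring
    rw [h3] at h1
    rw [h4] at h2
    have hε2 : 0 < ε / 2 := by positivity
    obtain ⟨κ, ⟨k1, k2⟩, k3⟩ := (((h1.eventually (gt_mem_nhds hε2)).and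
      (h2.eventually (gt_mem_nhds hε2))).and self_mem_nhdsWithin).exists
    exact ⟨κ, k1, k2, k3⟩
  obtain ⟨φ, hφ, hφm⟩ := RKer_approx hρ0 h hκ0
  have hφi : Integrable (rad φ) :=
    (rad_sm hφ).continuous.integrable_of_hasCompactSupport (rad_cs hφ hρ10)
  have hdist : ∫ v, ‖χ v - rad φ v‖ ≤ κ := by
    have hh : ENNReal.ofReal (∫ v, ‖χ v - rad φ v‖) = mass (fun v => χ v - rad φ v) :=
      ofReal_integral_norm_eq_lintegral_enorm (h.int.sub hφi)
    rw [← ENNReal.ofReal_le_ofReal_iff hκ0.le, hh]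
    exact hφm
  obtain ⟨n1, n2⟩ := const_near h.int hφi le_rfl hdist hκ0.le R
  obtain ⟨Mφ, hMφ⟩ := RK_bd hφ
  obtain ⟨C, hC0, hC⟩ := S.avg_polU hU hUH heq hb hφ hρ1 hMφ hR hK hKU
  have l1 : Tendsto (fun k => 2 * (C * (qq (ρ + 1) R Mφ k * 4 ^ (k + 1)) ^ 2)) atTop (𝓝 0) := by
    simpa using (((qq_lim (ρ + 1) R Mφ).pow 2).const_mul C).const_mul 2
  have l2 := fac_lim0 hφ hρ10 hR.le
  have l3 := gauss_lim0 hφ hρ10 hR.le
  have hε2 : 0 < ε / 2 := by positivity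
  obtain ⟨k, ⟨k1, k2⟩, k3⟩ := (((l1.eventually (gt_mem_nhds hε2)).and
    (l2.eventually (Metric.ball_mem_nhds _ hε2))).and
    (l3.eventually (Metric.ball_mem_nhds _ hε2))).exists
  have k2' : |(2 * (PK (ρ + 1) R φ k).eval 0 ^ 2 + (PK (ρ + 1) R φ k).eval 4 ^ 2) / 3 -
      g0 (rad φ) R| < ε / 2 := k2
  have k3' : |gauss (PK (ρ + 1) R φ k) - G0 (rad φ) R| < ε / 2 := k3
  refine ⟨PK (ρ + 1) R φ k, ?_, ?_, ?_⟩
  · -- the averages with the kernel `χ - rad φ`
    have hdm : Measurable fun v => rad φ v - χ v := (rad_sm hφ).continuous.measurable.sub h.meas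
    have hds : ∀ v : ℂ, ρ + 1 < ‖v‖ → rad φ v - χ v = 0 := by
      intro v hv
      rw [rad_z hφ hρ10 v hv.le, h.supp v (by linarith), sub_zero]
    have hdmass : mass (fun v => rad φ v - χ v) ≤ ENNReal.ofReal κ := by
      rw [mass_sub_comm]; exact hφm
    have b2 : Lb (fun n => EE K (avg (fun v => rad φ v - χ v) (R / √(lam n))
        (fun u => f n u ^ 2))) (2 * κ ^ 2 * |C4|) := by
      intro η hη
      filter_upwards [hC4, scale_ev S.lim R (ρ + 1) he0] with n hn hsn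
      have hs0 : 0 ≤ R / √(lam n) := by positivity
      have s2 : ContinuousOn (fun u => f n u ^ 2) HH := (S.sm n).continuousOn.pow 2
      have h1 := avg_L2 hdm hds hK.measurableSet hK'.measurableSet hK'H hs0 (hsn.trans he2)
        (fun v hv z hz => hKK _ hs0 hsn v hv z hz) s2
      have h2 : EE K' (fun u => f n u ^ 2) ≤ ENNReal.ofReal |C4| := by
        have i : IntegrableOn (fun z => (f n z ^ 2) ^ 2) K' :=
          ((s2.mono hK'H).pow 2).integrableOn_compact hK'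
        unfold EE
        simp only [en_sq]
        rw [← ofReal_integral_eq_lintegral_ofReal i (ae_of_all _ fun z => by positivity)]
        apply ENNReal.ofReal_le_ofReal
        have : ∀ z, (f n z ^ 2) ^ 2 = f n z ^ 4 := fun z => by ring
        simp only [this]
        exact hn.trans (le_abs_self _)
      calc EE K (avg (fun v => rad φ v - χ v) (R / √(lam n)) (fun u => f n u ^ 2)) ≤
          2 * mass (fun v => rad φ v - χ v) ^ 2 * EE K' (fun u => f n u ^ 2) := h1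
        _ ≤ 2 * ENNReal.ofReal κ ^ 2 * ENNReal.ofReal |C4| := by gcongr
        _ = ENNReal.ofReal (2 * κ ^ 2 * |C4|) := by
            rw [← ENNReal.ofReal_pow hκ0.le, show (2:ℝ≥0∞) = ENNReal.ofReal 2 by simp,
              ← ENNReal.ofReal_mul (by norm_num), ← ENNReal.ofReal_mul (by positivity)]
        _ ≤ _ := ENNReal.ofReal_le_ofReal (by linarith)
    have b3 := Lb.add (E := fun n => EE K (fun z =>
        opF (PK (ρ + 1) R φ k) (lam n) (fun u => f n u ^ 2) z -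
        avg χ (R / √(lam n)) (fun u => f n u ^ 2) z)) (hC k) b2 (by positivity) (by positivity) (by
      filter_upwards [scale_ev S.lim R (ρ + 1) he0] with n hsn
      have hs0 : 0 ≤ R / √(lam n) := by positivity
      have s2 : ContDiffOn ℝ ∞ (fun u => f n u ^ 2) HH := (S.sm n).pow 2
      have hTH : ∀ v : ℂ, ‖v‖ ≤ ρ + 1 → ∀ z ∈ K, T (R / √(lam n)) v z ∈ HH :=
        fun v hv z hz => hK'H (hKK _ hs0 hsn v hv z hz)
      have e : ∀ z ∈ K, opF (PK (ρ + 1) R φ k) (lam n) (fun u => f n u ^ 2) z -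
          avg χ (R / √(lam n)) (fun u => f n u ^ 2) z =
          (opF (PK (ρ + 1) R φ k) (lam n) (fun u => f n u ^ 2) z -
          avg (rad φ) (R / √(lam n)) (fun u => f n u ^ 2) z) +
          avg (fun v => rad φ v - χ v) (R / √(lam n)) (fun u => f n u ^ 2) z := by
        intro z hz
        have i1 : Integrable fun v => rad φ v * (fun u => f n u ^ 2) (T (R / √(lam n)) v z) :=
          int_prod (rad_sm hφ).continuous (rad_ts hφ hρ10) s2.continuousOn
            fun v hv => hTH v hv z hz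
        have i2 : Integrable fun v => χ v * (fun u => f n u ^ 2) (T (R / √(lam n)) v z) :=
          int_prodM h.meas hMχ h.supp s2.continuousOn fun v hv => hTH v (by linarith) z hz
        have e1 : avg (fun v => rad φ v - χ v) (R / √(lam n)) (fun u => f n u ^ 2) z =
            avg (rad φ) (R / √(lam n)) (fun u => f n u ^ 2) z -
            avg χ (R / √(lam n)) (fun u => f n u ^ 2) z := by
          unfold avg
          rw [← integral_sub i1 i2]
          congr 1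
          funext v
          ring
        rw [e1]; ring
      rw [EE_congr hK.measurableSet e]
      refine EE_add ?_
      refine (((op_sm _ (lam n) s2).continuousOn.mono hKH).aemeasurable hK.measurableSet).sub ?_
      exact avg_aem (rad_sm hφ).continuous.measurable (fun v hv => rad_z hφ hρ10 v hv.le)
        s2.continuousOn hK.measurableSet hTH)
    refine b3.mono ?_
    linarith
  · calc |gauss (PK (ρ + 1) R φ k) - G0 χ R| =
        |(gauss (PK (ρ + 1) R φ k) - G0 (rad φ) R) + (G0 (rad φ) R - G0 χ R)| := by ring_nf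
      _ ≤ _ := abs_add_le _ _
      _ ≤ ε := by linarith
  · have : κ * (2 * B + κ) ≤ 3 * (κ * (2 * B + κ)) := by
      have : 0 ≤ κ * (2 * B + κ) := by positivity
      linarith
    calc |(2 * (PK (ρ + 1) R φ k).eval 0 ^ 2 + (PK (ρ + 1) R φ k).eval 4 ^ 2) / 3 - g0 χ R| =
        |((2 * (PK (ρ + 1) R φ k).eval 0 ^ 2 + (PK (ρ + 1) R φ k).eval 4 ^ 2) / 3 -
          g0 (rad φ) R) + (g0 (rad φ) R - g0 χ R)| := by ring_nf
      _ ≤ _ := abs_add_le _ _
      _ ≤ ε := by linarith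

end

end Pool.Agent.K9h11.MV
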