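import Pool.Agent.K9h11.MV.W2

/-!
# General radial kernels: the bounds, the equivalence and the lower bound (helper11)
-/

set_option autoImplicit false

open MeasureTheory Filter Topology Complex Set
open scoped ContDiff ENNReal

namespace Pool.Agent.K9h11.MV

open Pool.Agent.W745.RW Pool.Agent.W366.RW
open Pool.Agent.Results.MP_a54f13_nt.SharpPowerSpectrum (L opF gauss)

noncomputable section

variable {lam : ℕ → ℝ} {f : ℕ → ℂ → ℝ} {U : Set ℂ}

theorem avg_lowM {χ : ℂ → ℝ} {ρ : ℝ} (h : RKer ρ χ) (hχ0 : ∀ v, 0 ≤ χ v)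
    {v0 : ℂ} {r0 c0 : ℝ} (hc0 : 0 < c0)
    (hχc : ∀ v ∈ Metric.closedBall v0 r0, c0 ≤ χ v) {s : ℝ} (hs : 0 < s) {g : ℂ → ℝ}
    (hg : ContinuousOn g HH) (hg0 : ∀ z, 0 ≤ g z) {z : ℂ} (hz : ∀ v : ℂ, ‖v‖ ≤ ρ → T s v z ∈ HH)
    (hz0 : 0 < z.im) :
    c0 * ∫ u in Metric.closedBall (T s v0 z) (s * z.im * r0), g u ≤
      (s * z.im) ^ 2 * avg χ s g z := by
  set r : ℝ := s * z.im with hr
  have hr' : 0 < r := by positivity
  set A : Set ℂ := Metric.closedBall (T s v0 z) (r * r0) with hA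
  have hAm : MeasurableSet A := Metric.isClosed_closedBall.measurableSet
  obtain ⟨Mχ, hMχ⟩ := h.bdd
  have hi : Integrable fun v => χ v * g (T s v z) := int_prodM h.meas hMχ h.supp hg hz
  have h1 : ∫ v : ℂ, A.indicator g (z + r • v) = (r ^ 2)⁻¹ * ∫ u in A, g u := by
    have := Measure.integral_comp_smul_of_nonneg (volume : Measure ℂ)
      (fun x => A.indicator g (z + x)) r (hR := hr'.le)
    rw [this, Complex.finrank_real_complex, integral_add_left_eq_self (fun x => A.indicator g x) z,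
      integral_indicator hAm, smul_eq_mul]
  have h2 : ∀ v : ℂ, z + r • v = T s v z := fun v => by simp [T, hr]
  have h3 : ∀ v : ℂ, T s v z ∈ A → v ∈ Metric.closedBall v0 r0 := by
    intro v hv
    rw [hA, mem_closedBall_iff_norm] at hv
    have e : T s v z - T s v0 z = (r : ℂ) * (v - v0) := by
      simp only [T, hr]; push_cast; ring
    rw [e, norm_mul, Complex.norm_real, Real.norm_of_nonneg hr'.le] at hv
    rw [mem_closedBall_iff_norm]
    exact le_of_mul_le_mul_left hv hr'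
  have h4 : ∫ v : ℂ, c0 * A.indicator g (z + r • v) ≤ ∫ v, χ v * g (T s v z) := by
    refine integral_mono_of_nonneg (ae_of_all _ fun v => ?_) hi (ae_of_all _ fun v => ?_)
    · exact mul_nonneg hc0.le (indicator_nonneg (fun u _ => hg0 u) _)
    · simp only [h2]
      by_cases hv : T s v z ∈ A
      · rw [indicator_of_mem hv]
        exact mul_le_mul_of_nonneg_right (hχc v (h3 v hv)) (hg0 _)
      · rw [indicator_of_notMem hv, mul_zero]
        exact mul_nonneg (hχ0 v) (hg0 _)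
  rw [integral_const_mul, h1] at h4
  have h5 : avg χ s g z = ∫ v, χ v * g (T s v z) := rfl
  rw [h5]
  calc c0 * ∫ u in A, g u = r ^ 2 * (c0 * ((r ^ 2)⁻¹ * ∫ u in A, g u)) := by
        field_simp
    _ ≤ _ := by gcongr

theorem bd4M (hU : IsOpen U) (hUH : U ⊆ HH) (pos : ∀ n, 0 < lam n) (lim : Tendsto lam atTop atTop)
    (sm : ∀ n, ContDiffOn ℝ ∞ (f n) HH)
    (heq : ∀ n, ∀ z ∈ HH, z.im ^ 2 * lap (f n) z + lam n * f n z = 0)
    {χ : ℂ → ℝ} {ρ : ℝ} (hker : RKer ρ χ) (hχ0 : ∀ v, 0 ≤ χ v) (hρ : 1 ≤ ρ)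
    {v0 : ℂ} {r0 c0 : ℝ} (hr0 : 0 < r0) (hc0 : 0 < c0)
    (hχc : ∀ v ∈ Metric.closedBall v0 r0, c0 ≤ χ v)
    {K : Set ℂ} (hK : IsCompact K) (hKU : K ⊆ U) :
    ∃ K' : Set ℂ, IsCompact K' ∧ K' ⊆ U ∧ ∀ R : ℝ, 0 < R → ∃ C : ℝ, 0 ≤ C ∧
      ∀ᶠ n in atTop, ∀ b : ℝ, 0 ≤ b →
        EE K' (avg χ (R / √(lam n)) (fun u => f n u ^ 2)) ≤ ENNReal.ofReal b →
        ∫ z in K, f n z ^ 4 ≤ C * b := by
  obtain ⟨CL, hCL, hloc⟩ := loc4
  have hvb : ∀ v ∈ Metric.closedBall v0 r0, ‖v‖ ≤ ρ := by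
    intro v hv
    by_contra hc
    push Not at hc
    have h1 := hχc v hv
    rw [hker.supp v hc] at h1
    linarith
  obtain ⟨δ, hδ, hδU⟩ := hK.exists_cthickening_subset_open hU hKU
  have hKH : K ⊆ HH := hKU.trans hUH
  have hδB := hδU.trans hUH
  set K' : Set ℂ := Metric.cthickening δ K with hK'
  have cK' : IsCompact K' := hK.cthickening
  obtain ⟨K'', hK'', hK''H, hKK⟩ := nbhd cK' hδB hρ
  have hK'K'' : K' ⊆ K'' := by
    intro z hz
    have := hKK 0 le_rfl (by norm_num) 0 (by simp; linarith) z hz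
    rwa [T_zero] at this
  obtain ⟨N, hN⟩ := hK''.exists_bound_of_continuousOn (f := fun z : ℂ => (z.im)⁻¹)
    (continuous_im.continuousOn.inv₀ fun z hz => ne_of_gt (hK''H hz))
  obtain ⟨Y, hY⟩ := hK''.exists_bound_of_continuousOn (f := fun z : ℂ => z.im)
    continuous_im.continuousOn
  set y0 : ℝ := 1 / (|N| + 1) with hy0
  have hy0p : 0 < y0 := by positivity
  have hy : ∀ z ∈ K'', y0 ≤ z.im := by
    intro z hz
    have h1 := hN z hz
    have h2 : 0 < z.im := hK''H hz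
    rw [Real.norm_of_nonneg (by positivity)] at h1
    rw [hy0, div_le_iff₀ (by positivity)]
    have h3 : (z.im)⁻¹ ≤ |N| + 1 := by
      have := le_abs_self N
      linarith
    calc (1:ℝ) = z.im * (z.im)⁻¹ := by field_simp
      _ ≤ z.im * (|N| + 1) := by gcongr
  have hYy : ∀ z ∈ K'', z.im ≤ |Y| := by
    intro z hz
    have h1 := hY z hz
    have h2 : 0 < z.im := hK''H hz
    rw [Real.norm_of_nonneg h2.le] at h1
    exact h1.trans (le_abs_self Y)
  refine ⟨K', cK', hδU, fun R hR => ?_⟩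
  set C6 : ℝ := CL * (9 / (4 * y0 ^ 2 * r0 ^ 2) + R ^ 2 / y0 ^ 2) * |Y| ^ 4 / c0 ^ 2 with hC6
  have hC60 : 0 ≤ C6 := by positivity
  refine ⟨C6 / (Real.pi * (y0 ^ 2 * r0 ^ 2 / 9)), by positivity, ?_⟩
  have hsl : Tendsto (fun n => R / √(lam n)) atTop (𝓝 0) := by
    have h1 : Tendsto (fun n => √(lam n)) atTop atTop := Real.tendsto_sqrt_atTop.comp lim
    simpa using (tendsto_const_nhds (x := R)).div_atTop h1
  have hev : ∀ᶠ n in atTop, R / √(lam n) * ρ ≤ 1 / 2 := by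
    have h1 : Tendsto (fun n => R / √(lam n) * ρ) atTop (𝓝 0) := by simpa using hsl.mul_const ρ
    exact (h1.eventually (gt_mem_nhds (by norm_num : (0:ℝ) < 1 / 2))).mono fun n hn => hn.le
  have hev2 : ∀ᶠ n in atTop, R / √(lam n) * (y0 * r0 / 3 + 2 * |Y| * ‖v0‖) ≤ δ := by
    have h1 : Tendsto (fun n => R / √(lam n) * (y0 * r0 / 3 + 2 * |Y| * ‖v0‖)) atTop (𝓝 0) := by
      simpa using hsl.mul_const (y0 * r0 / 3 + 2 * |Y| * ‖v0‖)
    exact (h1.eventually (gt_mem_nhds hδ)).mono fun n hn => hn.le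
  filter_upwards [hev, hev2] with n hn hn2 b hb hE
  have hl := pos n
  set s : ℝ := R / √(lam n) with hs
  have hs0 : 0 < s := by positivity
  have hs2 : lam n = R ^ 2 / s ^ 2 := by
    rw [hs, div_pow, Real.sq_sqrt hl.le]
    field_simp
  set h : ℝ := s * y0 * r0 * (2 / 3) with hh
  have hh0 : 0 < h := by positivity
  have s2 : ContDiffOn ℝ ∞ (fun u => f n u ^ 2) HH := (sm n).pow 2
  have s4 : ContinuousOn (fun u => f n u ^ 4) HH := (sm n).continuousOn.pow 4
  have hv0ρ : ‖v0‖ ≤ ρ := hvb v0 (Metric.mem_closedBall_self hr0.le)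
  have hsv : s * ‖v0‖ ≤ 1 / 2 := by
    calc s * ‖v0‖ ≤ s * ρ := by gcongr
      _ ≤ _ := hn
  have hsi : |s * v0.im| ≤ 1 / 2 := by
    rw [abs_mul, abs_of_pos hs0]
    calc s * |v0.im| ≤ s * ‖v0‖ := by gcongr; exact Complex.abs_im_le_norm v0
      _ ≤ _ := hsv
  have hd : (1:ℝ) / 2 ≤ 1 + s * v0.im := by
    have := (abs_le.1 hsi).1
    linarith
  -- the balls
  have hball : ∀ z ∈ K', Metric.closedBall (T s v0 z) (3 / 2 * h) ⊆
      Metric.closedBall (T s v0 z) (s * z.im * r0) := by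
    intro z hz
    apply Metric.closedBall_subset_closedBall
    have := hy z (hK'K'' hz)
    calc 3 / 2 * h = s * y0 * r0 := by rw [hh]; ring
      _ ≤ _ := by gcongr
  have hball2 : ∀ z ∈ K', Metric.closedBall (T s v0 z) (s * z.im * r0) ⊆ K'' := by
    intro z hz u hu
    have hz0 : 0 < z.im := hδB hz
    have hr : (0:ℝ) < s * z.im := by positivity
    set v : ℂ := ((s * z.im : ℝ) : ℂ)⁻¹ * (u - z) with hv
    have hrC : ((s * z.im : ℝ) : ℂ) ≠ 0 := by exact_mod_cast hr.ne'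
    have e1 : T s v z = u := by
      unfold T
      rw [hv, ← mul_assoc, mul_inv_cancel₀ hrC]; ring
    have e2 : v ∈ Metric.closedBall v0 r0 := by
      rw [mem_closedBall_iff_norm] at hu ⊢
      have e3 : u - T s v0 z = ((s * z.im : ℝ) : ℂ) * (v - v0) := by
        rw [← e1]; unfold T; ring
      rw [e3, norm_mul, Complex.norm_real, Real.norm_of_nonneg hr.le] at hu
      exact le_of_mul_le_mul_left hu hr
    rw [← e1]
    exact hKK s hs0.le hn v (hvb v e2) z hz
  -- the local bound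
  have hP : ∀ z ∈ K', ∫ u in Metric.ball (T s v0 z) h, f n u ^ 4 ≤
      C6 * s ^ 2 * avg χ s (fun u => f n u ^ 2) z ^ 2 := by
    intro z hz
    have hz0 : 0 < z.im := hδB hz
    have h1 := hloc (lam n) (f n) hl.le (sm n) (heq n) (T s v0 z) h y0 hh0 hy0p
      fun u hu => hy u (hball2 z hz (hball z hz hu))
    have h2 := avg_lowM hker hχ0 hc0 hχc hs0 s2.continuousOn (fun u => sq_nonneg _)
      (z := z) (fun v hv => hK''H (hKK s hs0.le hn v hv z hz)) hz0
    have i2 : IntegrableOn (fun u => f n u ^ 2) (Metric.closedBall (T s v0 z) (s * z.im * r0)) :=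
      (s2.continuousOn.mono ((hball2 z hz).trans hK''H)).integrableOn_compact
        (isCompact_closedBall _ _)
    have h3 : ∫ u in Metric.closedBall (T s v0 z) (3 / 2 * h), f n u ^ 2 ≤
        ∫ u in Metric.closedBall (T s v0 z) (s * z.im * r0), f n u ^ 2 :=
      setIntegral_mono_set i2 (ae_of_all _ fun u => sq_nonneg _)
        (LE.le.eventuallyLE (hball z hz))
    set av : ℝ := avg χ s (fun u => f n u ^ 2) z with hav
    have hav0 : 0 ≤ av := integral_nonneg fun v => mul_nonneg (hχ0 v) (sq_nonneg _)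
    have h4 : ∫ u in Metric.closedBall (T s v0 z) (3 / 2 * h), f n u ^ 2 ≤
        (s * |Y|) ^ 2 / c0 * av := by
      have h5 : (s * z.im) ^ 2 * av ≤ (s * |Y|) ^ 2 * av := by
        have := hYy z (hK'K'' hz)
        gcongr
      have e9 : (s * |Y|) ^ 2 / c0 * av = ((s * |Y|) ^ 2 * av) / c0 := by ring
      rw [e9, le_div_iff₀ hc0]
      calc (∫ u in Metric.closedBall (T s v0 z) (3 / 2 * h), f n u ^ 2) * c0
          ≤ (∫ u in Metric.closedBall (T s v0 z) (s * z.im * r0), f n u ^ 2) * c0 := by gcongr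
        _ ≤ _ := by linarith
    have h5 : 0 ≤ ∫ u in Metric.closedBall (T s v0 z) (3 / 2 * h), f n u ^ 2 :=
      integral_nonneg fun u => sq_nonneg _
    calc ∫ u in Metric.ball (T s v0 z) h, f n u ^ 4 ≤ CL * (1 / h ^ 2 + lam n / y0 ^ 2) *
          (∫ u in Metric.closedBall (T s v0 z) (3 / 2 * h), f n u ^ 2) ^ 2 := h1
      _ ≤ CL * (1 / h ^ 2 + lam n / y0 ^ 2) * ((s * |Y|) ^ 2 / c0 * av) ^ 2 := by gcongr
      _ = C6 * s ^ 2 * av ^ 2 := by
          rw [hs2, hC6, hh]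
          field_simp
          ring
  -- the volume
  have hVol : ∀ u ∈ K, ENNReal.ofReal (Real.pi * (h / 2) ^ 2) ≤
      volume {z | z ∈ K' ∧ dist u (T s v0 z) < h} := by
    intro u hu
    have e1 : volume (Metric.ball (zz s v0 u) (h / 2)) = ENNReal.ofReal (Real.pi * (h / 2) ^ 2) := by
      rw [Complex.volume_ball, ← ENNReal.ofReal_pow (by positivity), mul_comm Real.pi,
        ENNReal.ofReal_mul (by positivity)]
      congr 1
      rw [← NNReal.coe_real_pi, ENNReal.ofReal_coe_nnreal]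
    rw [← e1]
    refine measure_mono fun z hz => ?_
    rw [mem_ball_iff_norm] at hz
    have hT := zz_T (by linarith : 0 < 1 + s * v0.im) u
    have hu0 : 0 < u.im := hKH hu
    have huK : u ∈ K' := Metric.self_subset_cthickening K hu
    have huY := hYy u (hK'K'' huK)
    constructor
    · refine Metric.mem_cthickening_of_dist_le z u δ K hu ?_
      rw [dist_eq_norm]
      have e2 : ‖zz s v0 u - u‖ ≤ s * (2 * |Y|) * ‖v0‖ := by
        have : zz s v0 u - u = -(((s * u.im / (1 + s * v0.im) : ℝ) : ℂ) * v0) := by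
          unfold zz; ring
        rw [this, norm_neg, norm_mul, Complex.norm_real, Real.norm_of_nonneg (by
          have : 0 < 1 + s * v0.im := by linarith
          positivity)]
        gcongr
        rw [div_le_iff₀ (by linarith)]
        have : s * u.im ≤ s * |Y| := by gcongr
        have h7 : 0 ≤ s * |Y| := by positivity
        nlinarith
      calc ‖z - u‖ = ‖(z - zz s v0 u) + (zz s v0 u - u)‖ := by ring_nf
        _ ≤ ‖z - zz s v0 u‖ + ‖zz s v0 u - u‖ := norm_add_le _ _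
        _ ≤ h / 2 + s * (2 * |Y|) * ‖v0‖ := by gcongr
        _ = s * (y0 * r0 / 3 + 2 * |Y| * ‖v0‖) := by rw [hh]; ring
        _ ≤ δ := hn2
    · rw [dist_eq_norm]
      nth_rw 1 [← hT]
      have e3 : T s v0 (zz s v0 u) - T s v0 z = (zz s v0 u - z) +
          ((s * (zz s v0 u - z).im : ℝ) : ℂ) * v0 := by
        unfold T
        rw [sub_im]
        push_cast
        ring
      rw [e3]
      have e4 : ‖(zz s v0 u - z) + ((s * (zz s v0 u - z).im : ℝ) : ℂ) * v0‖ ≤
          ‖zz s v0 u - z‖ + ‖zz s v0 u - z‖ * (1 / 2) := by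
        refine (norm_add_le _ _).trans ?_
        gcongr
        rw [norm_mul, Complex.norm_real, norm_mul, Real.norm_of_nonneg hs0.le]
        have h7 : ‖(zz s v0 u - z).im‖ ≤ ‖zz s v0 u - z‖ := Complex.abs_im_le_norm _
        calc s * ‖(zz s v0 u - z).im‖ * ‖v0‖ = ‖(zz s v0 u - z).im‖ * (s * ‖v0‖) := by ring
          _ ≤ ‖zz s v0 u - z‖ * (1 / 2) := by gcongr
      rw [norm_sub_rev] at hz
      refine e4.trans_lt ?_
      linarith
  -- Tonelli
  have hFm := meas_ind (E := ℝ) s4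
  have key := swap_low (K := K) (K' := K') (F := HH.indicator fun w => ‖f n w ^ 4‖ₑ)
    hK.measurableSet cK'.measurableSet hFm (s := s) (h := h) (v0 := v0)
    (Φ := fun z => ENNReal.ofReal (C6 * s ^ 2) * ‖avg χ s (fun u => f n u ^ 2) z‖ₑ ^ 2)
    (fun z hz => ?_) (V := ENNReal.ofReal (Real.pi * (h / 2) ^ 2)) (by simp) hVol
  · rw [lintegral_const_mul' _ _ (by simp)] at key
    have e5 : ∫⁻ u in K, HH.indicator (fun w => ‖f n w ^ 4‖ₑ) u =
        ENNReal.ofReal (∫ u in K, f n u ^ 4) := by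
      rw [ofReal_integral_eq_lintegral_ofReal ((s4.mono hKH).integrableOn_compact hK)
        (ae_of_all _ fun u => by positivity)]
      refine setLIntegral_congr_fun hK.measurableSet fun u hu => ?_
      simp only [indicator_of_mem (hKH hu)]
      rw [← ofReal_norm, Real.norm_of_nonneg (by positivity)]
    rw [e5] at key
    have key2 : ENNReal.ofReal (Real.pi * (h / 2) ^ 2 * ∫ u in K, f n u ^ 4) ≤
        ENNReal.ofReal (C6 * s ^ 2 * b) := by
      rw [ENNReal.ofReal_mul (by positivity), ENNReal.ofReal_mul (q := b) (by positivity)]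
      refine key.trans ?_
      gcongr
      exact hE
    rw [ENNReal.ofReal_le_ofReal_iff (by positivity)] at key2
    have e6 : Real.pi * (h / 2) ^ 2 = (Real.pi * (y0 ^ 2 * r0 ^ 2 / 9)) * s ^ 2 := by
      rw [hh]; ring
    rw [e6] at key2
    have hs2' : 0 < s ^ 2 := by positivity
    have key3 : (Real.pi * (y0 ^ 2 * r0 ^ 2 / 9)) * (∫ u in K, f n u ^ 4) ≤ C6 * b := by
      have : s ^ 2 * ((Real.pi * (y0 ^ 2 * r0 ^ 2 / 9)) * (∫ u in K, f n u ^ 4)) ≤
          s ^ 2 * (C6 * b) := by linarith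
      exact le_of_mul_le_mul_left this hs2'
    rw [div_mul_eq_mul_div, le_div_iff₀ (by positivity)]
    linarith
  · have hsub : Metric.ball (T s v0 z) h ⊆ Metric.closedBall (T s v0 z) (3 / 2 * h) :=
      (Metric.ball_subset_closedBall).trans (Metric.closedBall_subset_closedBall (by linarith))
    have hsub2 : Metric.ball (T s v0 z) h ⊆ HH :=
      hsub.trans (((hball z hz).trans (hball2 z hz)).trans hK''H)
    have i4 : IntegrableOn (fun u => f n u ^ 4) (Metric.ball (T s v0 z) h) :=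
      ((s4.mono (((hball z hz).trans (hball2 z hz)).trans hK''H)).integrableOn_compact
        (isCompact_closedBall _ _)).mono_set hsub
    have e7 : ∫⁻ u in Metric.ball (T s v0 z) h, HH.indicator (fun w => ‖f n w ^ 4‖ₑ) u =
        ENNReal.ofReal (∫ u in Metric.ball (T s v0 z) h, f n u ^ 4) := by
      rw [ofReal_integral_eq_lintegral_ofReal i4 (ae_of_all _ fun u => by positivity)]
      refine setLIntegral_congr_fun measurableSet_ball fun u hu => ?_
      simp only [indicator_of_mem (hsub2 hu)]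
      rw [← ofReal_norm, Real.norm_of_nonneg (by positivity)]
    rw [e7, en_sq, ← ENNReal.ofReal_mul (by positivity)]
    exact ENNReal.ofReal_le_ofReal (hP z hz)

/-- bounded mean squares of the averages at one scale give bounded fourth moments -/
lemma bd_of2M (hU : IsOpen U) (hUH : U ⊆ HH) (pos : ∀ n, 0 < lam n) (lim : Tendsto lam atTop atTop)
    (sm : ∀ n, ContDiffOn ℝ ∞ (f n) HH)
    (heq : ∀ n, ∀ z ∈ HH, z.im ^ 2 * lap (f n) z + lam n * f n z = 0)
    {χ : ℂ → ℝ} {ρ : ℝ} (hker : RKer ρ χ) (hχ0 : ∀ v, 0 ≤ χ v) (hρ : 1 ≤ ρ)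
    {v0 : ℂ} {r0 c0 : ℝ} (hr0 : 0 < r0) (hc0 : 0 < c0)
    (hχc : ∀ v ∈ Metric.closedBall v0 r0, c0 ≤ χ v) {R : ℝ} (hR : 0 < R)
    (h : ∀ w, TF U w → (∀ z, 0 ≤ w z) → ∃ b : ℝ, ∀ᶠ n in atTop,
      ∫ z, w z * avg χ (R / √(lam n)) (fun u => f n u ^ 2) z ^ 2 ≤ b) : BdU U f := by
  intro K hK hKU
  obtain ⟨K', hK', hK'U, hC⟩ := bd4M hU hUH pos lim sm heq hker hχ0 hρ hr0 hc0 hχc hK hKU
  obtain ⟨ζ, V, hζU, -, hKV, h1, -, -⟩ := cut_nearU hU hK' hK'U
  have hζ : TF HH ζ := TFm hUH hζU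
  obtain ⟨b, hb⟩ := h _ (TF_sqU hU hζU) (fun z => mul_self_nonneg _)
  obtain ⟨C, hC0, hC⟩ := hC R hR
  refine ⟨C * |b|, ?_⟩
  filter_upwards [hC, hb, int_avgM lim sm hker hρ hR.le (TF_sq hζ)] with n h2 h3 h4
  refine h2 _ (abs_nonneg b) ?_
  set a : ℂ → ℝ := avg χ (R / √(lam n)) (fun u => f n u ^ 2) with ha
  have e1 : EE K' a ≤ ∫⁻ z, ENNReal.ofReal ((ζ z * ζ z) * a z ^ 2) := by
    unfold EE
    refine le_trans (le_of_eq ?_) (setLIntegral_le_lintegral K' _)
    refine setLIntegral_congr_fun hK'.measurableSet fun z hz => ?_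
    rw [en_sq, h1 z (hKV hz), one_mul, one_mul]
  rw [← ofReal_integral_eq_lintegral_ofReal h4 (ae_of_all _ fun z =>
    mul_nonneg (mul_self_nonneg _) (sq_nonneg _))] at e1
  exact e1.trans (ENNReal.ofReal_le_ofReal (h3.trans (le_abs_self b)))

/-- **the equivalence at a fixed scale** -/
theorem Sy.equiFM {R : ℝ} (S : Sy lam f) (hU : IsOpen U) (hUH : U ⊆ HH)
    (heq : ∀ n, ∀ z ∈ HH, z.im ^ 2 * lap (f n) z + lam n * f n z = 0)
    {χ : ℂ → ℝ} {ρ : ℝ} (hker : RKer ρ χ) (hχ0 : ∀ v, 0 ≤ χ v) (hρ : 1 ≤ ρ)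
    {v0 : ℂ} {r0 c0 : ℝ} (hr0 : 0 < r0) (hc0 : 0 < c0)
    (hχc : ∀ v ∈ Metric.closedBall v0 r0, c0 ≤ χ v) (hg : 0 < g0 χ R) (hR : 0 < R)
    {Λ : (ℂ → ℝ) → ℝ} (hΛ : ∀ a b : ℂ → ℝ, TF U a → TF U b → ∀ c : ℝ,
      Λ (fun z => a z + c * b z) = Λ a + c * Λ b) :
    (∀ w, TF U w → Tendsto (fun n => ∫ z, w z * f n z ^ 4) atTop
      (𝓝 (3 * (∫ z, w z) + Λ w))) ↔
    (∀ w, TF U w → Tendsto (fun n =>
      ∫ z, w z * avg χ (R / √(lam n)) (fun u => f n u ^ 2) z ^ 2) atTop
      (𝓝 (G0 χ R * (∫ z, w z) + g0 χ R * Λ w))) := by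
  have i0 : ∀ {v : ℂ → ℝ}, TF U v → Integrable v := fun hv =>
    hv.1.continuous.integrable_of_hasCompactSupport hv.2.1
  have hI : ∀ a b : ℂ → ℝ, TF U a → TF U b → ∀ c : ℝ,
      ∫ z, (a z + c * b z) = (∫ z, a z) + c * ∫ z, b z := by
    intro a b ha hb c
    rw [integral_add (i0 ha) ((i0 hb).const_mul c), integral_const_mul]
  constructor
  · intro hA
    have hb : BdU U f := bd_ofU' hU hUH S.sm fun w hw _ => ⟨_, hA w hw⟩
    refine lin_wU hU (P := fun w n => ∫ z, w z * avg χ (R / √(lam n)) (fun u => f n u ^ 2) z ^ 2)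
      (Λ := fun w => G0 χ R * (∫ z, w z) + g0 χ R * Λ w) ?_ ?_ ?_
    · intro a b ha hb c
      simp only
      rw [hΛ a b ha hb c, hI a b ha hb c]
      ring
    · intro a b ha hb c
      filter_upwards [int_avgM S.lim S.sm hker hρ hR.le (TFm hUH ha),
        int_avgM S.lim S.sm hker hρ hR.le (TFm hUH hb)] with n i1 i2
      rw [← integral_const_mul, ← integral_add i1 (i2.const_mul c)]
      congr 1
      funext z
      ring
    · intro w hw hw0
      have h1 := S.fixK hU hUH heq hb hker hρ hR hw hw0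
      have h2 := (hA w hw).sub_const (3 * ∫ z, w z)
      have h3 := h1.add (h2.const_mul (g0 χ R))
      have e : G0 χ R * (∫ z, w z) + g0 χ R *
          (3 * (∫ z, w z) + Λ w - 3 * ∫ z, w z) =
          G0 χ R * (∫ z, w z) + g0 χ R * Λ w := by ring
      rw [e] at h3
      refine h3.congr fun n => ?_
      ring
  · intro hA
    have hb : BdU U f := bd_of2M hU hUH S.pos S.lim S.sm heq hker hχ0 hρ hr0 hc0 hχc hR fun w hw _ => by
        refine ⟨G0 χ R * (∫ z, w z) + g0 χ R * Λ w + 1, ?_⟩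
        filter_upwards [(hA w hw).eventually (gt_mem_nhds (lt_add_one _))] with n hn
        exact hn.le
    refine lin_wU hU (P := fun w n => ∫ z, w z * f n z ^ 4)
      (Λ := fun w => 3 * (∫ z, w z) + Λ w) ?_ ?_ ?_
    · intro a b ha hb c
      simp only
      rw [hΛ a b ha hb c, hI a b ha hb c]
      ring
    · intro a b ha hb c
      refine Eventually.of_forall fun n => ?_
      have i1 : Integrable fun z => a z * f n z ^ 4 := int_w (TFm hUH ha) ((S.sm n).pow 4)
      have i2 : Integrable fun z => b z * f n z ^ 4 := int_w (TFm hUH hb) ((S.sm n).pow 4)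
      rw [← integral_const_mul, ← integral_add i1 (i2.const_mul c)]
      congr 1
      funext z
      ring
    · intro w hw hw0
      have h1 := S.fixK hU hUH heq hb hker hρ hR hw hw0
      have h3 := (((hA w hw).sub h1).const_mul (g0 χ R)⁻¹).add_const (3 * ∫ z, w z)
      have e : (g0 χ R)⁻¹ * (G0 χ R * (∫ z, w z) + g0 χ R * Λ w -
          G0 χ R * ∫ z, w z) + 3 * (∫ z, w z) = 3 * (∫ z, w z) + Λ w := by
        field_simp
        ring
      rw [e] at h3
      refine h3.congr fun n => ?_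
      have hg0 := hg.ne'
      field_simp
      ring

lemma G0_nn (χ : ℂ → ℝ) (R : ℝ) : 0 ≤ G0 χ R := by
  unfold G0
  have : 0 ≤ ∫ θ in (0 : ℝ)..(2 * Real.pi), GG χ (R * √(2 - 2 * Real.cos θ)) ^ 2 :=
    intervalIntegral.integral_nonneg (by positivity) fun θ _ => sq_nonneg _
  positivity

/-- **the mean square of the averages is at least that of the random wave** -/
theorem Sy.lowM {R : ℝ} (S : Sy lam f)
    (heq : ∀ n, ∀ z ∈ HH, z.im ^ 2 * lap (f n) z + lam n * f n z = 0)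
    {χ : ℂ → ℝ} {ρ : ℝ} (hker : RKer ρ χ) (hχ0 : ∀ v, 0 ≤ χ v) (hρ : 1 ≤ ρ)
    {v0 : ℂ} {r0 c0 : ℝ} (hr0 : 0 < r0) (hc0 : 0 < c0)
    (hχc : ∀ v ∈ Metric.closedBall v0 r0, c0 ≤ χ v) (hg : 0 < g0 χ R) (hR : 0 < R)
    {w : ℂ → ℝ} (hw : TF HH w) (hw0 : ∀ z, 0 ≤ w z) {ε : ℝ} (hε : 0 < ε) :
    ∀ᶠ n in atTop, G0 χ R * (∫ z, w z) - ε ≤
      ∫ z, w z * avg χ (R / √(lam n)) (fun u => f n u ^ 2) z ^ 2 := by
  by_contra hc
  have hf : ∃ᶠ n in atTop, ∫ z, w z * avg χ (R / √(lam n)) (fun u => f n u ^ 2) z ^ 2 <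
      G0 χ R * (∫ z, w z) - ε := by
    rw [Filter.not_eventually] at hc
    exact hc.mono fun n hn => not_le.1 hn
  obtain ⟨σ, hσ, hσ2⟩ := extraction_of_frequently_atTop hf
  have hG := G0_nn χ R
  set G : ℝ := G0 χ R with hGd
  set g : ℝ := g0 χ R with hgd
  have S' := S.sub hσ
  have heq' : ∀ n, ∀ z ∈ HH, z.im ^ 2 * lap (f (σ n)) z + lam (σ n) * f (σ n) z = 0 :=
    fun n => heq (σ n)
  obtain ⟨hU, hUH, w', hw'U, hw'0, hw'w, hw'i⟩ := exh hw hw0
    (η := ε / (4 * (G + 1))) (by positivity)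
  set a : ℝ := G * (∫ z, w z) - ε with ha
  have iw := int_avgM (f := fun n => f (σ n)) (lam := fun n => lam (σ n)) S'.lim S'.sm
    hker hρ hR.le hw
  have hb : BdU {z | 0 < w z} fun n => f (σ n) := by
    refine bd_of2M hU hUH S'.pos S'.lim S'.sm heq' hker hχ0 hρ hr0 hc0 hχc hR fun v hv hv0 => ?_
    -- `v ≤ C w`
    obtain ⟨M, hM⟩ := hv.1.continuous.bounded_above_of_compact_support hv.2.1
    have hM0 : 0 ≤ M := (norm_nonneg _).trans (hM 0)
    obtain ⟨N, hN⟩ := hv.2.1.isCompact.exists_bound_of_continuousOn (f := fun z => (w z)⁻¹)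
      (hw.1.continuous.continuousOn.inv₀ fun z hz => ne_of_gt (hv.2.2 hz))
    have hvw : ∀ z, v z ≤ (M * (|N| + 1)) * w z := by
      intro z
      by_cases hz : z ∈ tsupport v
      · have h1 : 0 < w z := hv.2.2 hz
        have h2 := hN z hz
        rw [Real.norm_of_nonneg (by positivity)] at h2
        have h3 : (w z)⁻¹ ≤ |N| + 1 := by
          have := le_abs_self N
          linarith
        have h4 := hM z
        rw [Real.norm_of_nonneg (hv0 z)] at h4
        calc v z ≤ M := h4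
          _ = M * ((w z)⁻¹ * w z) := by field_simp
          _ ≤ M * ((|N| + 1) * w z) := by gcongr
          _ = _ := by ring
      · rw [image_eq_zero_of_notMem_tsupport hz]
        have := hw0 z
        positivity
    refine ⟨(M * (|N| + 1)) * |a|, ?_⟩
    filter_upwards [iw, int_avgM (f := fun n => f (σ n)) (lam := fun n => lam (σ n)) S'.lim S'.sm
      hker hρ hR.le (TFm hUH hv)] with n i1 i2
    calc ∫ z, v z * avg χ (R / √(lam (σ n))) (fun u => f (σ n) u ^ 2) z ^ 2 ≤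
        ∫ z, (M * (|N| + 1)) * (w z * avg χ (R / √(lam (σ n)))
          (fun u => f (σ n) u ^ 2) z ^ 2) := by
          refine integral_mono i2 (i1.const_mul _) fun z => ?_
          simp only
          rw [← mul_assoc]
          exact mul_le_mul_of_nonneg_right (hvw z) (sq_nonneg _)
      _ = (M * (|N| + 1)) * ∫ z, w z * avg χ (R / √(lam (σ n)))
          (fun u => f (σ n) u ^ 2) z ^ 2 := integral_const_mul _ _
      _ ≤ (M * (|N| + 1)) * |a| := by
          have h1 := (hσ2 n).le.trans (le_abs_self a)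
          gcongr
  have h1 := S'.fixK hU hUH heq' hb hker hρ hR hw'U hw'0
  have h2 := S'.lowX hU hUH hb hw'U hw'0 (η := ε / (4 * g)) (by positivity)
  have h3 := h1.eventually (Metric.ball_mem_nhds _ (by positivity : 0 < ε / 4))
  obtain ⟨n, ⟨⟨n1, n2⟩, n3⟩, n4⟩ := (((h2.and h3).and iw).and
    (int_avgM (f := fun n => f (σ n)) (lam := fun n => lam (σ n)) S'.lim S'.sm
      hker hρ hR.le (TFm hUH hw'U))).exists
  have n2' : |(∫ z, w' z * avg χ (R / √(lam (σ n))) (fun u => f (σ n) u ^ 2) z ^ 2) -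
      g * ((∫ z, w' z * f (σ n) z ^ 4) - 3 * ∫ z, w' z) - G * ∫ z, w' z| < ε / 4 := n2
  have n5 : ∫ z, w' z * avg χ (R / √(lam (σ n))) (fun u => f (σ n) u ^ 2) z ^ 2 ≤
      ∫ z, w z * avg χ (R / √(lam (σ n))) (fun u => f (σ n) u ^ 2) z ^ 2 :=
    integral_mono n4 n3 fun z => mul_le_mul_of_nonneg_right (hw'w z) (sq_nonneg _)
  have n6 := hσ2 n
  have n7 : g * -(ε / (4 * g)) ≤ g * ((∫ z, w' z * f (σ n) z ^ 4) - 3 * ∫ z, w' z) := by gcongr
  have n8 : g * -(ε / (4 * g)) = -(ε / 4) := by field_simp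
  have n9 : G * ((∫ z, w z) - ε / (4 * (G + 1))) ≤ G * ∫ z, w' z := by gcongr
  have n10 : G * (ε / (4 * (G + 1))) ≤ ε / 4 := by
    rw [← mul_div_assoc, div_le_div_iff₀ (by positivity) (by norm_num)]
    nlinarith
  have n11 := (abs_lt.1 n2').1
  rw [n8] at n7
  have n12 : G * ((∫ z, w z) - ε / (4 * (G + 1))) = G * (∫ z, w z) - G * (ε / (4 * (G + 1))) := by
    ring
  linarith

end

end Pool.Agent.K9h11.MV
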