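import Pool.Agent.K9h11.MV.W3

/-!
# The one-sided criterion (helper11)
-/

set_option autoImplicit false

open MeasureTheory Filter Topology Complex Set
open scoped ContDiff ENNReal

namespace Pool.Agent.K9h11.MV

open Pool.Agent.W745.RW Pool.Agent.W366.RW

noncomputable section

variable {lam : ℕ → ℝ} {f : ℕ → ℂ → ℝ} {U : Set ℂ}

/-- **the one-sided criterion** -/
theorem Sy.oneM {R : ℝ} (S : Sy lam f) (hU : IsOpen U) (hUH : U ⊆ HH)
    (heq : ∀ n, ∀ z ∈ HH, z.im ^ 2 * lap (f n) z + lam n * f n z = 0)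
    {χ : ℂ → ℝ} {ρ : ℝ} (hker : RKer ρ χ) (hχ0 : ∀ v, 0 ≤ χ v) (hρ : 1 ≤ ρ)
    {v0 : ℂ} {r0 c0 : ℝ} (hr0 : 0 < r0) (hc0 : 0 < c0)
    (hχc : ∀ v ∈ Metric.closedBall v0 r0, c0 ≤ χ v) (hg : 0 < g0 χ R) (hR : 0 < R) :
    (∀ w, TF U w → Tendsto (fun n => ∫ z, w z * f n z ^ 4) atTop (𝓝 (3 * ∫ z, w z))) ↔
    (∀ w, TF U w → (∀ z, 0 ≤ w z) → ∀ ε : ℝ, 0 < ε → ∀ᶠ n in atTop,
      ∫ z, w z * avg χ (R / √(lam n)) (fun u => f n u ^ 2) z ^ 2 ≤ G0 χ R * (∫ z, w z) + ε) := by
  have key := S.equiFM (U := U) (R := R) hU hUH heq hker hχ0 hρ hr0 hc0 hχc hg hR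
    (Λ := fun _ => 0) (fun a b _ _ c => by simp)
  simp only [add_zero, mul_zero] at key
  rw [key]
  have i0 : ∀ {v : ℂ → ℝ}, TF U v → Integrable v := fun hv =>
    hv.1.continuous.integrable_of_hasCompactSupport hv.2.1
  constructor
  · intro h w hw _ ε hε
    filter_upwards [(h w hw).eventually (gt_mem_nhds (lt_add_of_pos_right _ hε))] with n hn
    exact hn.le
  · intro h
    refine lin_wU hU (P := fun w n => ∫ z, w z * avg χ (R / √(lam n)) (fun u => f n u ^ 2) z ^ 2)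
      (Λ := fun w => G0 χ R * (∫ z, w z)) ?_ ?_ ?_
    · intro a b ha hb c
      simp only
      rw [integral_add (i0 ha) ((i0 hb).const_mul c), integral_const_mul]
      ring
    · intro a b ha hb c
      filter_upwards [int_avgM S.lim S.sm hker hρ hR.le (TFm hUH ha),
        int_avgM S.lim S.sm hker hρ hR.le (TFm hUH hb)] with n i1 i2
      rw [← integral_const_mul, ← integral_add i1 (i2.const_mul c)]
      congr 1
      funext z
      ring
    · intro w hw hw0
      rw [Metric.tendsto_nhds]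
      intro ε hε
      filter_upwards [h w hw hw0 (ε / 2) (by positivity),
        S.lowM heq hker hχ0 hρ hr0 hc0 hχc hg hR (TFm hUH hw) hw0 (ε := ε / 2) (by positivity)]
        with n h1 h2
      rw [Real.dist_eq, abs_lt]
      constructor <;> linarith

/-- all test functions, the two normalisations -/
lemma all_wU (hU : IsOpen U) (hUH : U ⊆ HH) (P : (ℂ → ℝ) → Prop) : (∀ w, TF U w → P w) ↔
    ∀ ψ, TF U ψ → P fun z => ψ z * (z.im ^ 2)⁻¹ := by
  have sy : ContDiffOn ℝ ∞ (fun z : ℂ => (z.im ^ 2)⁻¹) U := by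
    refine ContDiffOn.inv ((imCLM.contDiff.pow 2).contDiffOn) fun z hz => ?_
    exact pow_ne_zero 2 (ne_of_gt (hUH hz))
  have sy2 : ContDiffOn ℝ ∞ (fun z : ℂ => z.im ^ 2) U := (imCLM.contDiff.pow 2).contDiffOn
  constructor
  · intro h ψ hψ
    exact h _ (Pool.Agent.TH294.RS.TF.mulc hU hψ sy)
  · intro h w hw
    have h1 := h _ (Pool.Agent.TH294.RS.TF.mulc hU hw sy2)
    have e : (fun z => w z * z.im ^ 2 * (z.im ^ 2)⁻¹) = w := by
      funext z
      by_cases hz : z ∈ U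
      · have : z.im ≠ 0 := ne_of_gt (hUH hz)
        field_simp
      · rw [Pool.Agent.TH294.RS.TF.zero hw hz]; ring
    rwa [e] at h1

/-- all nonnegative test functions, the two normalisations -/
lemma all_wU0 (hU : IsOpen U) (hUH : U ⊆ HH) (P : (ℂ → ℝ) → Prop) :
    (∀ w, TF U w → (∀ z, 0 ≤ w z) → P w) ↔
    ∀ ψ, TF U ψ → (∀ z, 0 ≤ ψ z) → P fun z => ψ z * (z.im ^ 2)⁻¹ := by
  rw [all_wU hU hUH fun w => (∀ z, 0 ≤ w z) → P w]
  refine forall_congr' fun ψ => forall_congr' fun hψ => ?_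
  have : (∀ z, 0 ≤ ψ z * (z.im ^ 2)⁻¹) ↔ ∀ z, 0 ≤ ψ z := by
    constructor
    · intro h z
      by_cases hz : z ∈ U
      · have h1 : 0 < z.im := hUH hz
        have h2 : 0 < (z.im ^ 2)⁻¹ := by positivity
        by_contra h3
        push Not at h3
        have := mul_neg_of_neg_of_pos h3 h2
        exact absurd (h z) (not_le.2 this)
      · rw [Pool.Agent.TH294.RS.TF.zero hψ hz]
    · intro h z
      exact mul_nonneg (h z) (by positivity)
  simp only [this]

end

end Pool.Agent.K9h11.MV
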